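import Pool.Agent.Helper220_VW.TowStep

set_option autoImplicit false

open Pointwise
open scoped commutatorElement

namespace Pool.Agent.Helper220_VW

lemma fin3_all : ∀ i j l x : Fin 3, i ≠ j → j ≠ l → i ≠ l → x = i ∨ x = j ∨ x = l := by decide

/-- the wreath product of a group with the group of permutations of two points -/
structure Wr (X : Type) where
  p : Equiv.Perm Bool
  s : Bool → X

namespace Wr

variable {X : Type}

@[ext] lemma ext' {g h : Wr X} (h1 : g.p = h.p) (h2 : g.s = h.s) : g = h := by
  cases g; cases h; simp_all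

instance [Group X] : Group (Wr X) where
  mul g h := ⟨g.p * h.p, fun x => g.s (h.p x) * h.s x⟩
  one := ⟨1, fun _ => 1⟩
  inv g := ⟨g.p⁻¹, fun x => (g.s (g.p⁻¹ x))⁻¹⟩
  mul_assoc a b c := by
    apply ext'
    · exact mul_assoc _ _ _
    · funext x
      exact mul_assoc _ _ _
  one_mul a := by
    apply ext'
    · exact one_mul _
    · funext x
      exact one_mul _
  mul_one a := by
    apply ext'
    · exact mul_one _
    · funext x
      exact mul_one _
  inv_mul_cancel a := by
    apply ext'
    · exact inv_mul_cancel _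
    · funext x
      change (a.s (a.p⁻¹ (a.p x)))⁻¹ * a.s x = 1
      have : a.p⁻¹ (a.p x) = x := by simp
      rw [this, inv_mul_cancel]

lemma mul_p [Group X] (g h : Wr X) : (g * h).p = g.p * h.p := rfl
lemma mul_s [Group X] (g h : Wr X) (x : Bool) : (g * h).s x = g.s (h.p x) * h.s x := rfl
lemma one_p [Group X] : (1 : Wr X).p = 1 := rfl
lemma one_s [Group X] (x : Bool) : (1 : Wr X).s x = 1 := rfl

end Wr

namespace MG

/-- the element `a` one level up -/
def upa (M : MG) : Wr M.X := ⟨Equiv.boolNot, fun _ => 1⟩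

/-- the elements `b i` one level up -/
def upb (M : MG) (g i : Fin 3) : Wr M.X :=
  ⟨1, fun x => if x then M.b i else (if i = g then 1 else M.a)⟩

/-- the marked group one level up -/
def up (M : MG) (g : Fin 3) : MG where
  X := Subgroup.closure ({M.upa} ∪ Set.range (M.upb g))
  a := ⟨M.upa, Subgroup.subset_closure (Or.inl rfl)⟩
  b i := ⟨M.upb g i, Subgroup.subset_closure (Or.inr ⟨i, rfl⟩)⟩
  aa := by
    apply Subtype.ext
    apply Wr.ext'
    · apply Equiv.ext
      intro x
      change (!(!x)) = x
      simp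
    · funext x
      change (1 : M.X) * 1 = 1
      rw [one_mul]
  bb i := by
    apply Subtype.ext
    apply Wr.ext'
    · exact one_mul _
    · funext x
      change (M.upb g i).s x * (M.upb g i).s x = 1
      cases x with
      | true => exact M.bb i
      | false =>
        change (if i = g then (1 : M.X) else M.a) * (if i = g then 1 else M.a) = 1
        by_cases h : i = g
        · rw [if_pos h, one_mul]
        · rw [if_neg h, M.aa]
  bbb i j l hij hjl hil := by
    apply Subtype.ext
    apply Wr.ext'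
    · exact one_mul _
    · funext x
      change (M.upb g i).s x * (M.upb g j).s x = (M.upb g l).s x
      cases x with
      | true => exact M.bbb i j l hij hjl hil
      | false =>
        change (if i = g then (1 : M.X) else M.a) * (if j = g then 1 else M.a) =
          (if l = g then 1 else M.a)
        by_cases hi : i = g
        · subst hi
          rw [if_pos rfl, if_neg (Ne.symm hij), if_neg (Ne.symm hil), one_mul]
        by_cases hj : j = g
        · subst hj
          rw [if_pos rfl, if_neg hij, if_neg (Ne.symm hjl), mul_one]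
        have hl : l = g := by
          rcases fin3_all i j l g hij hjl hil with h | h | h
          · exact absurd h.symm hi
          · exact absurd h.symm hj
          · exact h.symm
        rw [if_neg hi, if_neg hj, if_pos hl, M.aa]
  gen := by
    have h := Subgroup.closure_closure_coe_preimage (k := {M.upa} ∪ Set.range (M.upb g))
    rw [← h]
    congr 1
    ext x
    constructor
    · rintro (hx | ⟨i, rfl⟩)
      · rw [Set.mem_singleton_iff] at hx
        rw [hx]; exact Or.inl rfl
      · exact Or.inr ⟨i, rfl⟩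
    · rintro (hx | ⟨i, hi⟩)
      · left
        exact Subtype.ext hx
      · right
        exact ⟨i, Subtype.ext hi⟩

/-- the recursion of `up` -/
def upSt (M : MG) (g : Fin 3) : St (M.up g) M g where
  R :=
    { act :=
        { toFun := fun x => x.1.p
          map_one' := rfl
          map_mul' := fun _ _ => rfl }
      sec := fun x => x.1.s
      sec_mul := fun _ _ _ => rfl
      inj := fun x h1 h2 => Subtype.ext (Wr.ext' h1 (funext h2)) }
  act_a x := rfl
  sec_a x := rfl
  act_b i := rfl
  sec_b0 i := rfl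
  sec_b1 i := rfl

end MG

/-- the relations of the free product of a group of order two and a Klein four group -/
def rels : Set (FreeGroup (Option (Fin 3))) :=
  {FreeGroup.of none * FreeGroup.of none} ∪
  (Set.range fun i : Fin 3 => FreeGroup.of (some i) * FreeGroup.of (some i)) ∪
  {w | ∃ i j l : Fin 3, i ≠ j ∧ j ≠ l ∧ i ≠ l ∧
    w = FreeGroup.of (some i) * FreeGroup.of (some j) * (FreeGroup.of (some l))⁻¹}

/-- the free product as a marked group -/
def FB : MG where
  X := PresentedGroup rels
  a := PresentedGroup.of none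
  b i := PresentedGroup.of (some i)
  aa := by
    have : (FreeGroup.of none * FreeGroup.of none : FreeGroup (Option (Fin 3))) ∈ rels :=
      Or.inl (Or.inl rfl)
    exact PresentedGroup.one_of_mem this
  bb i := by
    have : (FreeGroup.of (some i) * FreeGroup.of (some i) : FreeGroup (Option (Fin 3))) ∈ rels :=
      Or.inl (Or.inr ⟨i, rfl⟩)
    exact PresentedGroup.one_of_mem this
  bbb i j l hij hjl hil := by
    have : (FreeGroup.of (some i) * FreeGroup.of (some j) * (FreeGroup.of (some l))⁻¹ :
        FreeGroup (Option (Fin 3))) ∈ rels := Or.inr ⟨i, j, l, hij, hjl, hil, rfl⟩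
    have h := PresentedGroup.one_of_mem this
    rw [map_mul, map_inv, map_mul] at h
    exact mul_inv_eq_one.mp h
  gen := by
    rw [← PresentedGroup.closure_range_of rels]
    congr 1
    ext x
    constructor
    · rintro (hx | ⟨i, rfl⟩)
      · rw [Set.mem_singleton_iff] at hx
        exact ⟨none, hx.symm⟩
      · exact ⟨some i, rfl⟩
    · rintro ⟨o, rfl⟩
      cases o with
      | none => exact Or.inl rfl
      | some i => exact Or.inr ⟨i, rfl⟩

/-- homomorphisms out of the free product -/
lemma FB_lift {G : Type*} [Group G] (a : G) (b : Fin 3 → G) (aa : a * a = 1)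
    (bb : ∀ i, b i * b i = 1)
    (bbb : ∀ i j l, i ≠ j → j ≠ l → i ≠ l → b i * b j = b l) :
    ∃ φ : FB.X →* G, φ FB.a = a ∧ ∀ i, φ (FB.b i) = b i := by
  let f : Option (Fin 3) → G := fun o => o.elim a b
  have h : ∀ r ∈ rels, FreeGroup.lift f r = 1 := by
    rintro r ((hr | ⟨i, rfl⟩) | ⟨i, j, l, hij, hjl, hil, rfl⟩)
    · rw [Set.mem_singleton_iff] at hr
      rw [hr, map_mul, FreeGroup.lift_apply_of]
      exact aa
    · rw [map_mul, FreeGroup.lift_apply_of]
      exact bb i
    · rw [map_mul, map_mul, map_inv, FreeGroup.lift_apply_of, FreeGroup.lift_apply_of,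
        FreeGroup.lift_apply_of]
      change b i * b j * (b l)⁻¹ = 1
      rw [bbb i j l hij hjl hil, mul_inv_cancel]
  refine ⟨PresentedGroup.toGroup h, ?_, fun i => ?_⟩
  · exact PresentedGroup.toGroup.of h
  · exact PresentedGroup.toGroup.of h

/-- the marked groups of the approximating tower -/
def appM (th : ℕ → Fin 3) : ℕ → MG
  | 0 => FB
  | k + 1 => (appM th k).up (th k)

/-- the approximating tower -/
def App (th : ℕ → Fin 3) : Tow where
  M := appM th
  th := th
  st k := (appM th k).upSt (th k)

/-- uniform linear bounds at the bottom -/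
theorem App_base : ∃ A A₀ : ℕ, ∀ th : ℕ → Fin 3, GoodAt th 0 → (App th).H 2 A A₀ := by
  classical
  -- for each choice of letters
  have h1 : ∀ t0 t1 t2 t3 : Fin 3, ∃ A A₀ : ℕ, (t2 ≠ t1 ∧ (t3 = t2 ∨ t3 = t1 ∨ t3 = t0)) →
      ∀ y ∈ ⁅((FB.up t0).up t1).SS t3 t2, ((FB.up t0).up t1).SS t3 t2⁆,
        y ∈ Cm (((FB.up t0).up t1).SS t3 t2) ^ (A * ((FB.up t0).up t1).len y + A₀) := by
    intro t0 t1 t2 t3
    by_cases hg : t2 ≠ t1 ∧ (t3 = t2 ∨ t3 = t1 ∨ t3 = t0)
    · have hd := St.good ((FB.up t0).upSt t1) (FB.upSt t0) hg.1 hg.2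
      obtain ⟨-, -, -, hfi⟩ := hd.spec inferInstance
      obtain ⟨A, A₀, hA⟩ := linear_bound ((FB.up t0).up t1).B ((FB.up t0).up t1).B_finite
        (((FB.up t0).up t1).SS t3 t2) inferInstance
      exact ⟨A, A₀, fun _ y hy => hA _ y (((FB.up t0).up t1).mem_len y) hy⟩
    · exact ⟨0, 0, fun h => absurd h hg⟩
  choose A A₀ hA using h1
  let F : (Fin 3 × Fin 3) × (Fin 3 × Fin 3) → ℕ := fun p => A p.1.1 p.1.2 p.2.1 p.2.2
  let F₀ : (Fin 3 × Fin 3) × (Fin 3 × Fin 3) → ℕ := fun p => A₀ p.1.1 p.1.2 p.2.1 p.2.2
  refine ⟨Finset.univ.sup F, Finset.univ.sup F₀, fun th hth y hy => ?_⟩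
  have h2 := hA (th 0) (th 1) (th 2) (th 3) hth y hy
  have h3 : A (th 0) (th 1) (th 2) (th 3) ≤ Finset.univ.sup F :=
    Finset.le_sup (f := F) (Finset.mem_univ ((th 0, th 1), (th 2, th 3)))
  have h4 : A₀ (th 0) (th 1) (th 2) (th 3) ≤ Finset.univ.sup F₀ :=
    Finset.le_sup (f := F₀) (Finset.mem_univ ((th 0, th 1), (th 2, th 3)))
  refine ⟨Finset.univ.sup F * ((App th).M 2).len y + Finset.univ.sup F₀, ?_, ?_⟩
  · push_cast; exact le_rfl
  · refine pow_mono_of_one (one_mem_Cm _) ?_ h2
    exact Nat.add_le_add (Nat.mul_le_mul_right _ h3) h4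

/-- uniform bound for the commutator width in approximating towers -/
theorem App_bound : ∃ (A : ℝ) (N : ℕ), 0 ≤ A ∧ ∀ (th : ℕ → Fin 3) (i k : ℕ), Reach th i k →
    ∀ y ∈ ⁅(App th).S (k + 2), (App th).S (k + 2)⁆,
      A * (1 / 2) ^ i * ((App th).M (k + 2)).len y ≤ 1 → y ∈ Cm ((App th).S (k + 2)) ^ N := by
  obtain ⟨A, A₀, hA⟩ := App_base
  refine ⟨A, ⌈2 * (14 + (A : ℝ) * 8354) + A₀ + 1⌉₊, by positivity, ?_⟩
  intro th i k hR y hy hlen
  have h0 : GoodAt th 0 := by
    have : ∀ i k, Reach th i k → GoodAt th 0 := by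
      intro i
      induction i with
      | zero => intro k h; exact h.2
      | succ i ih =>
        rintro k ⟨-, k', -, -, h, -⟩
        exact ih k' h
    exact this i k hR
  obtain ⟨m, hm, hmy⟩ := (App th).H_reach A A₀ (by positivity) (by positivity) (hA th h0) i k hR
    y hy
  refine pow_mono_of_one (one_mem_Cm _) ?_ hmy
  have h2 : (m : ℝ) ≤ 2 * (14 + (A : ℝ) * 8354) + A₀ + 1 := by linarith
  exact_mod_cast h2.trans (Nat.le_ceil _)

end Pool.Agent.Helper220_VW
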