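import Pool.Agent.Helper220_VW.Good

set_option autoImplicit false

open Pointwise
open scoped commutatorElement

namespace Pool.Agent.Helper220_VW

namespace St

variable {P M : MG} {g : Fin 3} (T : St P M g)

/-- commutators of elements with the pair property -/
lemma pair_comm (c : Fin 3) (x : Bool) (p q : M.X) (ph qh : P.X)
    (hp1 : T.R.act ph = 1) (hp2 : T.R.sec ph x = p)
    (hp3 : ∃ j : ℤ, T.R.sec ph (!x) = (M.sg c g) ^ j)
    (hq1 : T.R.act qh = 1) (hq2 : T.R.sec qh x = q)
    (hq3 : ∃ j : ℤ, T.R.sec qh (!x) = (M.sg c g) ^ j) :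
    T.R.Dg ⁅ph, qh⁆ (Pi.mulSingle x ⁅p, q⁆) := by
  have h1 : T.R.Dg ph (fun y => T.R.sec ph y) := ⟨hp1, fun _ => rfl⟩
  have h2 : T.R.Dg qh (fun y => T.R.sec qh y) := ⟨hq1, fun _ => rfl⟩
  refine (h1.commutator h2).congr fun y => ?_
  rw [commutatorElement_def]
  simp only [Pi.mul_apply, Pi.inv_apply]
  by_cases hy : y = x
  · subst hy
    rw [hp2, hq2, Pi.mulSingle_eq_same, commutatorElement_def]
  · have hy' : y = !x := by
      revert hy
      cases x <;> cases y <;> simp
    rw [Pi.mulSingle_eq_of_ne hy, hy']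
    obtain ⟨i, hi⟩ := hp3
    obtain ⟨j, hj⟩ := hq3
    rw [hi, hj, ← zpow_neg, ← zpow_neg, ← zpow_add, ← zpow_add, ← zpow_add]
    have : i + j + -i + -j = 0 := by ring
    rw [this, zpow_zero]

/-- branching for the commutator subgroup of `SS` -/
lemma branch_comm (c : Fin 3) : T.R.Branch (P.Kc c) ⁅M.SS c g, M.SS c g⁆ := by
  apply Rec.branch_of_single
  intro x y hy
  change y ∈ Subgroup.closure _ at hy
  induction hy using Subgroup.closure_induction with
  | mem y hy =>
    obtain ⟨p, hp, q, hq, rfl⟩ := hy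
    obtain ⟨ph, hph, hp1, hp2, hp3⟩ := T.pair c x p hp
    obtain ⟨qh, hqh, hq1, hq2, hq3⟩ := T.pair c x q hq
    refine ⟨⁅ph, qh⁆, ?_, T.pair_comm c x p q ph qh hp1 hp2 hp3 hq1 hq2 hq3⟩
    rw [commutatorElement_def]
    exact Subgroup.mul_mem _ (Subgroup.mul_mem _ (Subgroup.mul_mem _ hph hqh)
      (Subgroup.inv_mem _ hph)) (Subgroup.inv_mem _ hqh)
  | one => exact ⟨1, Subgroup.one_mem _, Rec.Dg.one.congr fun v => by simp⟩
  | mul x y _ _ hx hy =>
    obtain ⟨k, hk, hkd⟩ := hx
    obtain ⟨l, hl, hld⟩ := hy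
    refine ⟨k * l, Subgroup.mul_mem _ hk hl, (hkd.mul hld).congr fun v => ?_⟩
    rw [← Pi.mulSingle_mul]
  | inv x _ hx =>
    obtain ⟨k, hk, hkd⟩ := hx
    refine ⟨k⁻¹, Subgroup.inv_mem _ hk, hkd.inv.congr fun v => ?_⟩
    rw [← Pi.mulSingle_inv]

variable {G D : Type*} [Group G]

/-- one side of the points of the last level -/
lemma side {R : Rec G P.X D} {K : Subgroup G} (c : Fin 3) (hbr : R.Branch K (P.Kc c)) (x : Bool)
    (q : ℕ) : ∀ (z : D × Bool → M.X) (k : G), (∀ w, z (w, x) ∈ Cm (M.SS c g) ^ q) →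
      (∀ w, z (w, !x) = 1) → (R.comp T.R).Dg k z → k ∈ Cm K ^ q := by
  induction q with
  | zero =>
    intro z k hz1 hz2 hk
    have : k = 1 := by
      refine hk.unique (Rec.Dg.one.congr ?_)
      rintro ⟨w, y⟩
      by_cases hy : y = x
      · subst hy
        have := hz1 w
        simp only [pow_zero, Set.mem_one] at this
        rw [this]; rfl
      · have hy' : y = !x := by
          revert hy
          cases x <;> cases y <;> simp
        rw [hy', hz2]; rfl
    rw [this]; simp
  | succ q ih =>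
    intro z k hz1 hz2 hk
    have h1 : ∀ w, ∃ ζ p q' : M.X, ζ ∈ Cm (M.SS c g) ^ q ∧ p ∈ M.SS c g ∧ q' ∈ M.SS c g ∧
        ζ * ⁅p, q'⁆ = z (w, x) := by
      intro w
      have := hz1 w
      rw [pow_succ] at this
      obtain ⟨ζ, hζ, c, ⟨p, hp, q', hq', rfl⟩, h⟩ := Set.mem_mul.mp this
      exact ⟨ζ, p, q', hζ, hp, hq', h⟩
    choose ζ p q' hζ hp hq' hz using h1
    choose ph hphK hp1 hp2 hp3 using fun w => T.pair c x (p w) (hp w)
    choose qh hqhK hq1 hq2 hq3 using fun w => T.pair c x (q' w) (hq' w)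
    obtain ⟨kp, hkpK, hkp⟩ := hbr ph hphK
    obtain ⟨kq, hkqK, hkq⟩ := hbr qh hqhK
    have hcd : (R.comp T.R).Dg ⁅kp, kq⁆ (fun d => if d.2 = x then ⁅p d.1, q' d.1⁆ else 1) := by
      rw [Rec.comp_Dg]
      have h2 := hkp.commutator hkq
      refine ⟨h2.1, fun w => ?_⟩
      rw [h2.2 w]
      have h3 : ⁅ph, qh⁆ w = ⁅ph w, qh w⁆ := rfl
      rw [h3]
      refine (T.pair_comm c x (p w) (q' w) (ph w) (qh w) (hp1 w) (hp2 w) (hp3 w) (hq1 w) (hq2 w)
        (hq3 w)).congr fun y => ?_
      by_cases hy : y = x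
      · subst hy; simp
      · simp [hy]
    obtain ⟨kz, -, hkz⟩ := (Rec.Branch.comp hbr (T.branch_comm c))
      (fun d => if d.2 = x then ζ d.1 else 1) (fun d => by
        by_cases hd : d.2 = x
        · simp only [hd, if_true]
          exact Cm_pow_subset _ q (hζ _)
        · simp only [hd, if_false]; exact Subgroup.one_mem _)
    have hk' : k = kz * ⁅kp, kq⁆ := by
      refine hk.unique ((hkz.mul hcd).congr ?_)
      rintro ⟨w, y⟩
      by_cases hy : y = x
      · subst hy
        simp only [Pi.mul_apply, if_true]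
        exact hz w
      · have hy' : y = !x := by
          revert hy
          cases x <;> cases y <;> simp
        simp only [Pi.mul_apply, hy, if_false, mul_one]
        rw [hy', hz2]
    rw [hk', pow_succ]
    refine Set.mul_mem_mul (ih _ kz ?_ ?_ hkz) ⟨kp, hkpK, kq, hkqK, rfl⟩
    · intro w
      simp only [if_true]
      exact hζ w
    · intro w
      have : (!x) ≠ x := by cases x <;> simp
      simp only [this, if_false]

/-- realising a vector of products of `q` commutators by `2 q` commutators -/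
lemma batch {R : Rec G P.X D} {K : Subgroup G} (c : Fin 3) (hbr : R.Branch K (P.Kc c))
    (q : ℕ) (z : D × Bool → M.X) (k : G) (hz : ∀ u, z u ∈ Cm (M.SS c g) ^ q)
    (hk : (R.comp T.R).Dg k z) : k ∈ Cm K ^ (2 * q) := by
  have hzc : ∀ u, z u ∈ ⁅M.SS c g, M.SS c g⁆ := fun u => Cm_pow_subset _ q (hz u)
  have hb := Rec.Branch.comp hbr (T.branch_comm c)
  have hex : ∀ x : Bool, ∃ kx ∈ Cm K ^ q,
      (R.comp T.R).Dg kx (fun d => if d.2 = x then z d else 1) := by
    intro x
    obtain ⟨kx, -, hkx⟩ := hb (fun d => if d.2 = x then z d else 1) (fun d => by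
      by_cases hd : d.2 = x
      · simp only [hd, if_true]
        exact hzc _
      · simp only [hd, if_false]; exact Subgroup.one_mem _)
    refine ⟨kx, T.side c hbr x q _ kx ?_ ?_ hkx, hkx⟩
    · intro w
      simp only [if_true]
      exact hz _
    · intro w
      have : (!x) ≠ x := by cases x <;> simp
      simp only [this, if_false]
  obtain ⟨k0, hk0, hd0⟩ := hex false
  obtain ⟨k1, hk1, hd1⟩ := hex true
  have : k = k0 * k1 := by
    refine hk.unique ((hd0.mul hd1).congr ?_)
    rintro ⟨w, y⟩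
    cases y <;> simp
  rw [this, two_mul]
  exact mul_mem_pow_add hk0 hk1

end St

/-- four classes of points from two movers -/
lemma exists_classes.{u} {D : Type u} (f1 f2 : D → Bool) (p1 p2 : Equiv.Perm D)
    (h11 : ∀ d, f1 (p1 d) = !f1 d) (h21 : ∀ d, f1 (p2 d) = f1 d)
    (h22 : ∀ d, f2 (p2 d) = !f2 d) :
    ∃ (U : Type u) (e : U × Fin 4 ≃ D), ∀ v : U, e (v, 1) = p2 (e (v, 0)) ∧
      e (v, 2) = p1 (e (v, 0)) ∧ e (v, 3) = p1 (p2 (e (v, 0))) := by
  classical
  let U := {d : D // f1 d = false ∧ f2 d = false}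
  let F : U × Fin 4 → D := fun v => (![v.1.1, p2 v.1.1, p1 v.1.1, p1 (p2 v.1.1)] : Fin 4 → D) v.2
  have hF0 : ∀ v : U, F (v, 0) = v.1 := fun v => rfl
  have hF1 : ∀ v : U, F (v, 1) = p2 v.1 := fun v => rfl
  have hF2 : ∀ v : U, F (v, 2) = p1 v.1 := fun v => rfl
  have hF3 : ∀ v : U, F (v, 3) = p1 (p2 v.1) := fun v => rfl
  have hinj : Function.Injective F := by
    rintro ⟨⟨d, hd1, hd2⟩, i⟩ ⟨⟨d', hd1', hd2'⟩, j⟩ h
    have key : ∀ i j : Fin 4, F (⟨d, hd1, hd2⟩, i) = F (⟨d', hd1', hd2'⟩, j) → i = j ∧ d = d' := by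
      intro i j h
      have a0 : f1 d = false := hd1
      have b0 : f1 d' = false := hd1'
      have a1 : f1 (p2 d) = false := by rw [h21, a0]
      have b1 : f1 (p2 d') = false := by rw [h21, b0]
      have a2 : f1 (p1 d) = true := by rw [h11, a0]; rfl
      have b2 : f1 (p1 d') = true := by rw [h11, b0]; rfl
      have a3 : f1 (p1 (p2 d)) = true := by rw [h11, a1]; rfl
      have b3 : f1 (p1 (p2 d')) = true := by rw [h11, b1]; rfl
      have c0 : f2 d = false := hd2
      have c0' : f2 d' = false := hd2'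
      have c1 : f2 (p2 d) = true := by rw [h22, c0]; rfl
      have c1' : f2 (p2 d') = true := by rw [h22, c0']; rfl
      fin_cases i <;> fin_cases j
      · exact ⟨rfl, h⟩
      · exfalso; change d = p2 d' at h; rw [h, c1'] at c0; exact absurd c0 (by decide)
      · exfalso; change d = p1 d' at h; rw [h, b2] at a0; exact absurd a0 (by decide)
      · exfalso; change d = p1 (p2 d') at h; rw [h, b3] at a0; exact absurd a0 (by decide)
      · exfalso; change p2 d = d' at h; rw [← h, c1] at c0'; exact absurd c0' (by decide)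
      · exact ⟨rfl, p2.injective h⟩
      · exfalso; change p2 d = p1 d' at h; rw [h, b2] at a1; exact absurd a1 (by decide)
      · exfalso; change p2 d = p1 (p2 d') at h; rw [h, b3] at a1; exact absurd a1 (by decide)
      · exfalso; change p1 d = d' at h; rw [h, b0] at a2; exact absurd a2 (by decide)
      · exfalso; change p1 d = p2 d' at h; rw [h, b1] at a2; exact absurd a2 (by decide)
      · exact ⟨rfl, p1.injective h⟩
      · exfalso; change p1 d = p1 (p2 d') at h
        have := p1.injective h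
        rw [this, c1'] at c0; exact absurd c0 (by decide)
      · exfalso; change p1 (p2 d) = d' at h; rw [h, b0] at a3; exact absurd a3 (by decide)
      · exfalso; change p1 (p2 d) = p2 d' at h; rw [h, b1] at a3; exact absurd a3 (by decide)
      · exfalso; change p1 (p2 d) = p1 d' at h
        have := p1.injective h
        rw [← this, c1] at c0'; exact absurd c0' (by decide)
      · exact ⟨rfl, p2.injective (p1.injective h)⟩
    obtain ⟨rfl, rfl⟩ := key i j h
    rfl
  have hsurj : Function.Surjective F := by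
    intro d
    have hcase : ∀ d : D, f1 d = false → ∃ v : U, d = v.1 ∨ d = p2 v.1 := by
      intro d hd
      by_cases h2 : f2 d = false
      · exact ⟨⟨d, hd, h2⟩, Or.inl rfl⟩
      · have h3 : f1 (p2⁻¹ d) = false := by
          have := h21 (p2⁻¹ d)
          rw [show p2 (p2⁻¹ d) = d by simp] at this
          rw [← this, hd]
        have h4 : f2 (p2⁻¹ d) = false := by
          have := h22 (p2⁻¹ d)
          rw [show p2 (p2⁻¹ d) = d by simp] at this
          simp only [Bool.not_eq_false] at h2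
          rw [h2] at this
          simpa using this.symm
        exact ⟨⟨p2⁻¹ d, h3, h4⟩, Or.inr (by simp)⟩
    by_cases hd : f1 d = false
    · obtain ⟨v, hv | hv⟩ := hcase d hd
      · exact ⟨(v, 0), by rw [hF0, hv]⟩
      · exact ⟨(v, 1), by rw [hF1, hv]⟩
    · have h3 : f1 (p1⁻¹ d) = false := by
        have := h11 (p1⁻¹ d)
        rw [show p1 (p1⁻¹ d) = d by simp] at this
        simp only [Bool.not_eq_false] at hd
        rw [hd] at this
        simpa using this.symm
      obtain ⟨v, hv | hv⟩ := hcase _ h3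
      · exact ⟨(v, 2), by rw [hF2, ← hv]; simp⟩
      · exact ⟨(v, 3), by rw [hF3, ← hv]; simp⟩
  refine ⟨U, Equiv.ofBijective F ⟨hinj, hsurj⟩, fun v => ⟨rfl, rfl, rfl⟩⟩

end Pool.Agent.Helper220_VW
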