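import Pool.Agent.Helper220_VW.StepM

set_option autoImplicit false

open Pointwise
open scoped commutatorElement

namespace Pool.Agent.Helper220_VW

namespace Rec

variable {G H J D E : Type*} [Group G] [Group H] [Group J]

/-- composition of wreath recursions -/
def comp [Nonempty E] (R : Rec G H D) (R' : Rec H J E) : Rec G J (D × E) where
  act :=
    { toFun := fun g =>
        { toFun := fun p => (R.act g p.1, R'.act (R.sec g p.1) p.2)
          invFun := fun p => (R.act g⁻¹ p.1, R'.act (R.sec g⁻¹ p.1) p.2)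
          left_inv := fun p => by
            rcases p with ⟨x, y⟩
            have h1 : R.act g⁻¹ (R.act g x) = x := by rw [map_inv]; simp
            have h2 : R.sec g⁻¹ (R.act g x) * R.sec g x = 1 := by
              rw [← R.sec_mul, inv_mul_cancel, sec_one]
            have h3 : R'.act (R.sec g⁻¹ (R.act g x)) (R'.act (R.sec g x) y) = y := by
              rw [← Equiv.Perm.mul_apply, ← map_mul, h2, map_one, Equiv.Perm.one_apply]
            exact Prod.ext h1 h3
          right_inv := fun p => by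
            rcases p with ⟨x, y⟩
            have h1 : R.act g (R.act g⁻¹ x) = x := by rw [map_inv]; simp
            have h2 : R.sec g (R.act g⁻¹ x) * R.sec g⁻¹ x = 1 := by
              rw [← R.sec_mul, mul_inv_cancel, sec_one]
            have h3 : R'.act (R.sec g (R.act g⁻¹ x)) (R'.act (R.sec g⁻¹ x) y) = y := by
              rw [← Equiv.Perm.mul_apply, ← map_mul, h2, map_one, Equiv.Perm.one_apply]
            exact Prod.ext h1 h3 }
      map_one' := by
        apply Equiv.ext
        rintro ⟨x, y⟩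
        change (R.act 1 x, R'.act (R.sec 1 x) y) = (x, y)
        rw [sec_one, map_one, map_one]
        rfl
      map_mul' := fun g h => by
        apply Equiv.ext
        rintro ⟨x, y⟩
        change (R.act (g * h) x, R'.act (R.sec (g * h) x) y) =
          (R.act g (R.act h x), R'.act (R.sec g (R.act h x)) (R'.act (R.sec h x) y))
        rw [map_mul, R.sec_mul, map_mul]
        rfl }
  sec := fun g p => R'.sec (R.sec g p.1) p.2
  sec_mul := fun g h p => by
    change R'.sec (R.sec (g * h) p.1) p.2 =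
      R'.sec (R.sec g (R.act h p.1)) (R'.act (R.sec h p.1) p.2) * R'.sec (R.sec h p.1) p.2
    rw [R.sec_mul, R'.sec_mul]
  inj := by
    intro g h1 h2
    have hact : ∀ x y, (R.act g x, R'.act (R.sec g x) y) = (x, y) := fun x y => by
      have := Equiv.ext_iff.mp h1 (x, y)
      exact this
    apply R.inj
    · apply Equiv.ext
      intro x
      exact (Prod.ext_iff.mp (hact x (Classical.arbitrary E))).1
    · intro x
      apply R'.inj
      · apply Equiv.ext
        intro y
        exact (Prod.ext_iff.mp (hact x y)).2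
      · intro y
        exact h2 (x, y)

section comp

variable [Nonempty E] {R : Rec G H D} {R' : Rec H J E}

lemma comp_act (g : G) (x : D) (y : E) :
    (R.comp R').act g (x, y) = (R.act g x, R'.act (R.sec g x) y) := rfl

lemma comp_sec (g : G) (x : D) (y : E) : (R.comp R').sec g (x, y) = R'.sec (R.sec g x) y := rfl

lemma comp_Dg {g : G} {z : D × E → J} :
    (R.comp R').Dg g z ↔ R.act g = 1 ∧ ∀ x, R'.Dg (R.sec g x) (fun y => z (x, y)) := by
  constructor
  · rintro ⟨h1, h2⟩
    have hact : ∀ x y, (R.act g x, R'.act (R.sec g x) y) = (x, y) := fun x y => by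
      have := Equiv.ext_iff.mp h1 (x, y)
      exact this
    refine ⟨?_, fun x => ⟨?_, fun y => h2 (x, y)⟩⟩
    · apply Equiv.ext
      intro x
      exact (Prod.ext_iff.mp (hact x (Classical.arbitrary E))).1
    · apply Equiv.ext
      intro y
      exact (Prod.ext_iff.mp (hact x y)).2
  · rintro ⟨h1, h2⟩
    refine ⟨?_, ?_⟩
    · apply Equiv.ext
      rintro ⟨x, y⟩
      rw [comp_act, h1, (h2 x).1]
      rfl
    · rintro ⟨x, y⟩
      exact (h2 x).2 y

/-- branching composes -/
lemma Branch.comp {K : Subgroup G} {L : Subgroup H} {N : Subgroup J} (h1 : R.Branch K L)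
    (h2 : R'.Branch L N) : (R.comp R').Branch K N := by
  intro z hz
  have h3 : ∀ x, ∃ h ∈ L, R'.Dg h (fun y => z (x, y)) := fun x => h2 _ (fun y => hz (x, y))
  choose w hw hwd using h3
  obtain ⟨g, hg, hgd⟩ := h1 w hw
  refine ⟨g, hg, comp_Dg.mpr ⟨hgd.1, fun x => ?_⟩⟩
  rw [hgd.2 x]
  exact hwd x

end comp

/-- the stabiliser of any point maps onto the lower group -/
def Onto (R : Rec G H D) : Prop := ∀ u, ∀ h : H, ∃ g, R.act g u = u ∧ R.sec g u = h

/-- transitivity -/
def Trans (R : Rec G H D) : Prop := ∀ u v, ∃ g, R.act g u = v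

lemma Onto.comp [Nonempty E] {R : Rec G H D} {R' : Rec H J E} (h1 : R.Onto) (h2 : R'.Onto) :
    (R.comp R').Onto := by
  rintro ⟨x, y⟩ h
  obtain ⟨k, hk1, hk2⟩ := h2 y h
  obtain ⟨g, hg1, hg2⟩ := h1 x k
  refine ⟨g, ?_, ?_⟩
  · rw [comp_act, hg1, hg2, hk1]
  · rw [comp_sec, hg2, hk2]

lemma Trans.comp [Nonempty E] {R : Rec G H D} {R' : Rec H J E} (h1 : R.Trans) (h0 : R.Onto)
    (h2 : R'.Trans) : (R.comp R').Trans := by
  rintro ⟨x, y⟩ ⟨x', y'⟩
  obtain ⟨g, hg⟩ := h1 x x'
  obtain ⟨k, hk⟩ := h2 (R'.act (R.sec g x) y) y'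
  obtain ⟨s, hs1, hs2⟩ := h0 x' k
  refine ⟨s * g, ?_⟩
  rw [comp_act, map_mul, Equiv.Perm.mul_apply, hg, hs1, R.sec_mul, hg, hs2, map_mul,
    Equiv.Perm.mul_apply, hk]

/-- two-power property -/
def TP (R : Rec G H D) : Prop :=
  ∀ N : Subgroup H, (∀ h : H, ∃ j : ℕ, h ^ (2 ^ j) ∈ N) → ∀ g, ∃ j : ℕ, g ^ (2 ^ j) ∈ R.dsub N

lemma comp_dsub [Nonempty E] {R : Rec G H D} {R' : Rec H J E} (N : Subgroup J) :
    (R.comp R').dsub N = R.dsub (R'.dsub N) := by
  ext g
  rw [mem_dsub, mem_dsub]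
  constructor
  · rintro ⟨h1, h2⟩
    have h3 : (R.comp R').Dg g (fun p => (R.comp R').sec g p) := ⟨h1, fun _ => rfl⟩
    obtain ⟨h4, h5⟩ := comp_Dg.mp h3
    refine ⟨h4, fun x => ⟨(h5 x).1, fun y => ?_⟩⟩
    exact h2 (x, y)
  · rintro ⟨h1, h2⟩
    have h3 : (R.comp R').Dg g (fun p => (R.comp R').sec g p) :=
      comp_Dg.mpr ⟨h1, fun x => ⟨(h2 x).1, fun y => rfl⟩⟩
    exact ⟨h3.1, fun p => (h2 p.1).2 p.2⟩

lemma TP.comp [Nonempty E] {R : Rec G H D} {R' : Rec H J E} (h1 : R.TP) (h2 : R'.TP) :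
    (R.comp R').TP := by
  intro N hN g
  rw [comp_dsub]
  exact h1 _ (h2 N hN) g

/-- contraction by the factor `2^m` -/
def Con (R : Rec G H D) (lenG : G → ℕ) (lenH : H → ℕ) (m : ℕ) : Prop :=
  ∀ g u, (2 : ℝ) ^ m * ((lenH (R.sec g u) : ℝ) - 1) ≤ (lenG g : ℝ) - 1

lemma Con.comp [Nonempty E] {R : Rec G H D} {R' : Rec H J E} {lenG : G → ℕ} {lenH : H → ℕ}
    {lenJ : J → ℕ} {m n : ℕ} (h1 : R.Con lenG lenH m) (h2 : R'.Con lenH lenJ n) :
    (R.comp R').Con lenG lenJ (m + n) := by
  rintro g ⟨x, y⟩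
  rw [comp_sec]
  have h3 := h1 g x
  have h4 := h2 (R.sec g x) y
  have h5 : (2 : ℝ) ^ m * ((2 : ℝ) ^ n * ((lenJ (R'.sec (R.sec g x) y) : ℝ) - 1)) ≤
      (2 : ℝ) ^ m * ((lenH (R.sec g x) : ℝ) - 1) :=
    mul_le_mul_of_nonneg_left h4 (by positivity)
  calc (2 : ℝ) ^ (m + n) * ((lenJ (R'.sec (R.sec g x) y) : ℝ) - 1) =
      (2 : ℝ) ^ m * ((2 : ℝ) ^ n * ((lenJ (R'.sec (R.sec g x) y) : ℝ) - 1)) := by
        rw [pow_add]; ring
    _ ≤ _ := h5
    _ ≤ _ := h3

/-- the trivial recursion -/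
def triv (G : Type*) [Group G] : Rec G G Unit where
  act := 1
  sec := fun g _ => g
  sec_mul := fun _ _ _ => rfl
  inj := fun _ _ h => h ()

lemma triv_onto : (triv G).Onto := fun u h => ⟨h, rfl, rfl⟩

lemma triv_trans : (triv G).Trans := fun _ _ => ⟨1, rfl⟩

lemma triv_TP : (triv G).TP := by
  intro N hN g
  obtain ⟨j, hj⟩ := hN g
  exact ⟨j, rfl, fun _ => hj⟩

lemma triv_con (len : G → ℕ) : (triv G).Con len len 0 := by
  intro g u
  rw [pow_zero, one_mul]
  exact le_rfl

lemma triv_branch (K : Subgroup G) : (triv G).Branch K K := fun z hz =>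
  ⟨z (), hz (), rfl, fun _ => rfl⟩

end Rec

namespace St

variable {P M : MG} {g : Fin 3} (T : St P M g)

include T in
lemma R_onto : T.R.Onto := by
  intro u h
  obtain ⟨s, hs1, hs2⟩ := T.onto u h
  exact ⟨s, by rw [hs1]; rfl, hs2⟩

lemma R_trans : T.R.Trans := by
  intro u v
  by_cases h : u = v
  · exact ⟨1, by rw [map_one]; exact h⟩
  · refine ⟨P.a, ?_⟩
    rw [T.act_a]
    revert u v
    decide

lemma R_con : T.R.Con P.len M.len 1 := by
  intro p x
  have h1 := T.len_sec p x
  have h2 : 2 * M.len (T.R.sec p x) ≤ P.len p + 1 := by omega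
  have h3 : (2 : ℝ) * M.len (T.R.sec p x) ≤ P.len p + 1 := by exact_mod_cast h2
  rw [pow_one]
  linarith

lemma R_TP : T.R.TP := by
  intro N hN p
  have h0 : T.R.act (p ^ 2) = 1 := by
    rw [map_pow]
    generalize T.R.act p = σ
    revert σ
    decide
  choose j hj using hN
  obtain ⟨q, hq⟩ : ∃ q, q = p ^ 2 := ⟨_, rfl⟩
  rw [← hq] at h0
  set J : ℕ := max (j (T.R.sec q false)) (j (T.R.sec q true)) with hJ
  have hpow : ∀ n : ℕ, T.R.Dg (q ^ n) (fun x => (T.R.sec q x) ^ n) := by
    intro n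
    induction n with
    | zero => rw [pow_zero]; exact Rec.Dg.one.congr fun v => by simp
    | succ n ih =>
      rw [pow_succ]
      have h1 : T.R.Dg q (fun x => T.R.sec q x) := ⟨h0, fun _ => rfl⟩
      refine (ih.mul h1).congr fun v => ?_
      simp only [Pi.mul_apply]
      rw [pow_succ]
  refine ⟨J + 1, ?_⟩
  have h2 : p ^ (2 ^ (J + 1)) = q ^ (2 ^ J) := by
    rw [hq, ← pow_mul, pow_succ, mul_comm]
  rw [h2]
  refine ⟨(hpow _).1, fun x => ?_⟩
  rw [(hpow _).2]
  have h3 : ∀ y : Bool, j (T.R.sec q y) ≤ J := by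
    intro y
    cases y with
    | false => exact le_max_left _ _
    | true => exact le_max_right _ _
  obtain ⟨d, hd⟩ := Nat.exists_eq_add_of_le (h3 x)
  change (T.R.sec q x) ^ (2 ^ J) ∈ N
  rw [hd, pow_add, pow_mul]
  exact N.pow_mem (hj _) _

end St

/-- binary words as iterated products -/
def DD : ℕ → Type
  | 0 => Unit
  | n + 1 => Bool × DD n

instance DD.nonempty : ∀ n, Nonempty (DD n)
  | 0 => ⟨()⟩
  | n + 1 => by
    have := DD.nonempty n
    exact ⟨(false, Classical.arbitrary _)⟩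

instance DD.finite : ∀ n, Finite (DD n)
  | 0 => inferInstanceAs (Finite Unit)
  | n + 1 => by
    have := DD.finite n
    exact inferInstanceAs (Finite (Bool × DD n))

/-- a tower of marked groups, indexed from the bottom -/
structure Tow where
  M : ℕ → MG
  th : ℕ → Fin 3
  st : ∀ k, St (M (k + 1)) (M k) (th k)

namespace Tow

variable (W : Tow)

/-- the recursion from level `k + m` down to level `k` -/
def tr (k : ℕ) : ∀ m : ℕ, Rec (W.M (k + m)).X (W.M k).X (DD m)
  | 0 => Rec.triv _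
  | m + 1 => (W.st (k + m)).R.comp (tr k m)

/-- the branching subgroup at level `k` -/
def K (k : ℕ) : Subgroup (W.M k).X := (W.M k).Kc (W.th k)

lemma tr_branch (k m : ℕ) : (W.tr k m).Branch (W.K (k + m)) (W.K k) := by
  induction m with
  | zero => exact Rec.triv_branch _
  | succ m ih => exact Rec.Branch.comp ((W.st (k + m)).branch_K (W.th (k + m + 1))) ih

lemma tr_onto (k m : ℕ) : (W.tr k m).Onto := by
  induction m with
  | zero => exact Rec.triv_onto
  | succ m ih => exact Rec.Onto.comp (W.st (k + m)).R_onto ih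

lemma tr_TP (k m : ℕ) : (W.tr k m).TP := by
  induction m with
  | zero => exact Rec.triv_TP
  | succ m ih => exact Rec.TP.comp (W.st (k + m)).R_TP ih

lemma tr_con (k m : ℕ) : (W.tr k m).Con (W.M (k + m)).len (W.M k).len m := by
  induction m with
  | zero => exact Rec.triv_con _
  | succ m ih =>
    have := Rec.Con.comp (W.st (k + m)).R_con ih
    rw [add_comm 1 m] at this
    exact this

end Tow

end Pool.Agent.Helper220_VW
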