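import Mathlib

set_option autoImplicit false

open Pointwise
open scoped commutatorElement

namespace Pool.Agent.Helper220_VW

section Pow

variable {G : Type*} [Group G]

/-- the set of commutators of elements of `K` -/
def Cm (K : Subgroup G) : Set G := {g | ∃ x ∈ K, ∃ y ∈ K, ⁅x, y⁆ = g}

lemma one_mem_Cm (K : Subgroup G) : (1 : G) ∈ Cm K :=
  ⟨1, K.one_mem, 1, K.one_mem, by simp⟩

lemma pow_mono_of_one {S : Set G} (h1 : (1 : G) ∈ S) {m n : ℕ} (h : m ≤ n) : S ^ m ⊆ S ^ n :=
  Set.pow_subset_pow_right h1 h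

lemma mul_mem_pow_add {S : Set G} {m n : ℕ} {g h : G} (hg : g ∈ S ^ m) (hh : h ∈ S ^ n) :
    g * h ∈ S ^ (m + n) := by
  rw [pow_add]; exact Set.mul_mem_mul hg hh

lemma inv_mem_pow {S : Set G} (hS : ∀ g ∈ S, g⁻¹ ∈ S) {n : ℕ} {g : G} (hg : g ∈ S ^ n) :
    g⁻¹ ∈ S ^ n := by
  have h1 : S⁻¹ = S := by
    ext x
    constructor
    · intro hx
      have := hS _ (Set.mem_inv.mp hx)
      simpa using this
    · intro hx
      exact Set.mem_inv.mpr (hS _ hx)
  have h2 : (S ^ n)⁻¹ = S ^ n := by rw [← inv_pow, h1]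
  rw [← h2]
  simpa using hg

lemma conj_mem_pow {S : Set G} {a : G} (hS : ∀ g ∈ S, a * g * a⁻¹ ∈ S) {n : ℕ} {g : G}
    (hg : g ∈ S ^ n) : a * g * a⁻¹ ∈ S ^ n := by
  induction n generalizing g with
  | zero =>
    simp only [pow_zero, Set.mem_one] at hg ⊢
    simp [hg]
  | succ n ih =>
    rw [pow_succ] at hg ⊢
    obtain ⟨x, hx, y, hy, rfl⟩ := Set.mem_mul.mp hg
    have : a * (x * y) * a⁻¹ = (a * x * a⁻¹) * (a * y * a⁻¹) := by group
    rw [this]
    exact Set.mul_mem_mul (ih hx) (hS _ hy)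

lemma pow_pow_mem {S : Set G} {a m n : ℕ} (l : List G) (hl : l.length ≤ m)
    (h1 : (1 : G) ∈ S) (h : ∀ x ∈ l, x ∈ S ^ a) (hn : a * m ≤ n) : l.prod ∈ S ^ n := by
  have key : ∀ l : List G, (∀ x ∈ l, x ∈ S ^ a) → l.prod ∈ S ^ (a * l.length) := by
    intro l
    induction l with
    | nil => intro _; simp
    | cons x t ih =>
      intro h
      rw [List.prod_cons, List.length_cons, Nat.mul_succ, add_comm]
      exact mul_mem_pow_add (h x (by simp)) (ih (fun y hy => h y (by simp [hy])))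
  refine pow_mono_of_one h1 ?_ (key l h)
  exact le_trans (Nat.mul_le_mul_left a hl) hn

/-- every element of the subgroup generated by a symmetric set containing one lies in a power of
the set -/
lemma exists_mem_pow_of_mem_closure {S : Set G} (hS : ∀ g ∈ S, g⁻¹ ∈ S) {g : G}
    (hg : g ∈ Subgroup.closure S) : ∃ n : ℕ, g ∈ S ^ n := by
  induction hg using Subgroup.closure_induction with
  | mem x hx => exact ⟨1, by simpa using hx⟩
  | one => exact ⟨0, by simp⟩
  | mul x y _ _ hx hy =>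
    obtain ⟨m, hm⟩ := hx
    obtain ⟨n, hn⟩ := hy
    exact ⟨m + n, mul_mem_pow_add hm hn⟩
  | inv x _ hx =>
    obtain ⟨m, hm⟩ := hx
    exact ⟨m, inv_mem_pow hS hm⟩

lemma inv_mem_Cm {K : Subgroup G} : ∀ g ∈ Cm K, g⁻¹ ∈ Cm K := by
  rintro g ⟨x, hx, y, hy, rfl⟩
  exact ⟨y, hy, x, hx, by rw [← commutatorElement_inv]⟩

lemma conj_mem_Cm {K : Subgroup G} {a : G} (ha : ∀ x ∈ K, a * x * a⁻¹ ∈ K) :
    ∀ g ∈ Cm K, a * g * a⁻¹ ∈ Cm K := by
  rintro g ⟨x, hx, y, hy, rfl⟩
  refine ⟨a * x * a⁻¹, ha x hx, a * y * a⁻¹, ha y hy, ?_⟩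
  simp only [commutatorElement_def]
  group

lemma closure_Cm (K : Subgroup G) : Subgroup.closure (Cm K) = ⁅K, K⁆ := rfl

lemma Cm_subset (K : Subgroup G) : Cm K ⊆ (⁅K, K⁆ : Subgroup G) := by
  rw [← closure_Cm]; exact Subgroup.subset_closure

lemma exists_mem_Cm_pow {K : Subgroup G} {g : G} (hg : g ∈ ⁅K, K⁆) : ∃ n : ℕ, g ∈ Cm K ^ n :=
  exists_mem_pow_of_mem_closure inv_mem_Cm (by rwa [closure_Cm])

lemma Cm_pow_subset (K : Subgroup G) (n : ℕ) {g : G} (hg : g ∈ Cm K ^ n) : g ∈ ⁅K, K⁆ := by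
  induction n generalizing g with
  | zero =>
    simp only [pow_zero, Set.mem_one] at hg
    rw [hg]; exact Subgroup.one_mem _
  | succ n ih =>
    rw [pow_succ] at hg
    obtain ⟨x, hx, y, hy, rfl⟩ := Set.mem_mul.mp hg
    exact Subgroup.mul_mem _ (ih hx) (Cm_subset K hy)

lemma Cm_pow_mem (K : Subgroup G) (n : ℕ) {g : G} (hg : g ∈ Cm K ^ n) : g ∈ K :=
  Subgroup.commutator_le_self K (Cm_pow_subset K n hg)

/-- splitting a product into chunks of length `q` over a list without repetition -/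
lemma chunk {D : Type*} [DecidableEq D] {S : Set G} (h1 : (1 : G) ∈ S) (q : ℕ) :
    ∀ (l : List D), l.Nodup → ∀ (m : ℕ) (y : G), y ∈ S ^ m → m ≤ q * l.length →
      ∃ w : D → G, (∀ u, w u ∈ S ^ q) ∧ (l.map w).prod = y := by
  intro l
  induction l with
  | nil =>
    intro _ m y hy hm
    simp only [List.length_nil, mul_zero, Nat.le_zero] at hm
    subst hm
    simp only [pow_zero, Set.mem_one] at hy
    subst hy
    refine ⟨fun _ => 1, fun _ => ?_, by simp⟩
    exact pow_mono_of_one h1 (Nat.zero_le q) (by simp)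
  | cons a t ih =>
    intro hnd m y hy hm
    have hy' : y ∈ S ^ (q + q * t.length) := by
      refine pow_mono_of_one h1 ?_ hy
      rw [List.length_cons] at hm
      linarith [Nat.mul_succ q t.length]
    rw [pow_add] at hy'
    obtain ⟨y1, hy1, y2, hy2, rfl⟩ := Set.mem_mul.mp hy'
    rw [List.nodup_cons] at hnd
    obtain ⟨w, hw, hwp⟩ := ih hnd.2 _ y2 hy2 le_rfl
    refine ⟨Function.update w a y1, ?_, ?_⟩
    · intro u
      by_cases hu : u = a
      · subst hu; simpa using hy1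
      · simpa [Function.update_of_ne hu] using hw u
    · rw [List.map_cons, List.prod_cons, Function.update_self]
      congr 1
      rw [← hwp]
      congr 1
      apply List.map_congr_left
      intro u hu
      have : u ≠ a := by rintro rfl; exact hnd.1 hu
      exact Function.update_of_ne this _ _

end Pow

/-- a wreath recursion: `G` acts on `D`, with sections in `H`, faithfully -/
structure Rec (G H D : Type*) [Group G] [Group H] where
  act : G →* Equiv.Perm D
  sec : G → D → H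
  sec_mul : ∀ g h u, sec (g * h) u = sec g (act h u) * sec h u
  inj : ∀ g, act g = 1 → (∀ u, sec g u = 1) → g = 1

namespace Rec

variable {G H D : Type*} [Group G] [Group H] (R : Rec G H D)

/-- `g` acts trivially on `D` and its section at `u` is `z u` -/
def Dg (g : G) (z : D → H) : Prop := R.act g = 1 ∧ ∀ u, R.sec g u = z u

variable {R}

lemma sec_one (u : D) : R.sec 1 u = 1 := by
  have := R.sec_mul 1 1 u
  simpa using this

lemma sec_inv (g : G) (u : D) : R.sec g⁻¹ u = (R.sec g ((R.act g)⁻¹ u))⁻¹ := by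
  have h := R.sec_mul g g⁻¹ u
  rw [mul_inv_cancel, sec_one, map_inv] at h
  exact (inv_eq_of_mul_eq_one_right h.symm).symm

lemma Dg.one : R.Dg 1 1 := ⟨map_one _, fun u => sec_one u⟩

lemma Dg.mul {g h : G} {z w : D → H} (hg : R.Dg g z) (hh : R.Dg h w) : R.Dg (g * h) (z * w) := by
  refine ⟨by rw [map_mul, hg.1, hh.1, one_mul], fun u => ?_⟩
  rw [R.sec_mul, hh.1, hh.2, Equiv.Perm.one_apply, hg.2, Pi.mul_apply]

lemma Dg.inv {g : G} {z : D → H} (hg : R.Dg g z) : R.Dg g⁻¹ z⁻¹ := by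
  refine ⟨by rw [map_inv, hg.1, inv_one], fun u => ?_⟩
  rw [sec_inv, hg.1, hg.2]
  simp

lemma Dg.unique {g h : G} {z : D → H} (hg : R.Dg g z) (hh : R.Dg h z) : g = h := by
  have h1 := hg.mul hh.inv
  rw [mul_inv_cancel] at h1
  have := R.inj _ h1.1 h1.2
  exact mul_inv_eq_one.mp this

lemma Dg.congr {g : G} {z w : D → H} (hg : R.Dg g z) (h : ∀ u, z u = w u) : R.Dg g w :=
  ⟨hg.1, fun u => (hg.2 u).trans (h u)⟩

lemma Dg.conj {g : G} {z : D → H} (hg : R.Dg g z) (k : G) :
    R.Dg (k * g * k⁻¹) (fun v => R.sec k ((R.act k)⁻¹ v) * z ((R.act k)⁻¹ v) *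
      (R.sec k ((R.act k)⁻¹ v))⁻¹) := by
  refine ⟨by rw [map_mul, map_mul, hg.1, map_inv, mul_one, mul_inv_cancel], fun u => ?_⟩
  rw [R.sec_mul, R.sec_mul, map_inv, hg.1, Equiv.Perm.one_apply, hg.2, sec_inv]

lemma Dg.commutator {g h : G} {z w : D → H} (hg : R.Dg g z) (hh : R.Dg h w) :
    R.Dg ⁅g, h⁆ ⁅z, w⁆ := by
  rw [commutatorElement_def, commutatorElement_def]
  exact ((hg.mul hh).mul hg.inv).mul hh.inv

/-- conjugating an element supported at one point -/
lemma Dg.conj_single [DecidableEq D] {g : G} {u : D} {y : H} (hg : R.Dg g (Pi.mulSingle u y))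
    (k : G) : R.Dg (k * g * k⁻¹) (Pi.mulSingle (R.act k u) (R.sec k u * y * (R.sec k u)⁻¹)) := by
  refine (hg.conj k).congr fun v => ?_
  by_cases hv : v = R.act k u
  · subst hv
    simp
  · rw [Pi.mulSingle_eq_of_ne hv]
    have : (R.act k)⁻¹ v ≠ u := by
      intro h
      apply hv
      rw [← h]; simp
    rw [Pi.mulSingle_eq_of_ne this]
    simp

/-- the branching hypothesis: every function with values in `L` is realised in `K` -/
def Branch (R : Rec G H D) (K : Subgroup G) (L : Subgroup H) : Prop :=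
  ∀ z : D → H, (∀ u, z u ∈ L) → ∃ g ∈ K, R.Dg g z

variable {K : Subgroup G} {L : Subgroup H}

/-- if all coordinates are products of `q` commutators, so is the element -/
lemma mem_pow_of_coord (hbr : R.Branch K L) (q : ℕ) :
    ∀ (g : G) (z : D → H), R.Dg g z → (∀ u, z u ∈ Cm L ^ q) → g ∈ Cm K ^ q := by
  induction q with
  | zero =>
    intro g z hg hz
    have : g = 1 := by
      refine R.inj g hg.1 fun u => ?_
      rw [hg.2]
      have := hz u
      simpa using this
    rw [this]; simp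
  | succ q ih =>
    intro g z hg hz
    have h1 : ∀ u, ∃ w x y : H, w ∈ Cm L ^ q ∧ x ∈ L ∧ y ∈ L ∧ w * ⁅x, y⁆ = z u := by
      intro u
      have := hz u
      rw [pow_succ] at this
      obtain ⟨w, hw, c, ⟨x, hx, y, hy, rfl⟩, h⟩ := Set.mem_mul.mp this
      exact ⟨w, x, y, hw, hx, hy, h⟩
    choose w x y hw hx hy hz' using h1
    have hwL : ∀ u, w u ∈ L := fun u => Cm_pow_mem L q (hw u)
    obtain ⟨gw, -, hgw⟩ := hbr w hwL
    obtain ⟨gx, hgxK, hgx⟩ := hbr x hx
    obtain ⟨gy, hgyK, hgy⟩ := hbr y hy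
    have h2 : R.Dg (gw * ⁅gx, gy⁆) z := by
      refine (hgw.mul (hgx.commutator hgy)).congr fun u => ?_
      exact hz' u
    have h3 : g = gw * ⁅gx, gy⁆ := hg.unique h2
    rw [h3, pow_succ]
    exact Set.mul_mem_mul (ih gw w hgw hw) ⟨gx, hgxK, gy, hgyK, rfl⟩

end Rec

/-- a symmetric subadditive length function -/
structure IsLen {G : Type*} [Group G] (len : G → ℕ) : Prop where
  one : len 1 = 0
  mul : ∀ g h, len (g * h) ≤ len g + len h
  inv : ∀ g, len g⁻¹ = len g

lemma IsLen.list_prod {G D : Type*} [Group G] {len : G → ℕ} (h : IsLen len) (l : List D)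
    (y : D → G) (B : ℝ) (hB : ∀ u ∈ l, (len (y u) : ℝ) ≤ B) :
    (len (l.map y).prod : ℝ) ≤ l.length * B := by
  induction l with
  | nil => simp [h.one]
  | cons a t ih =>
    have h1 := ih (fun u hu => hB u (by simp [hu]))
    have h2 := hB a (by simp)
    have h3 : (len (y a * (t.map y).prod) : ℝ) ≤ len (y a) + len (t.map y).prod := by
      exact_mod_cast h.mul _ _
    rw [List.map_cons, List.prod_cons, List.length_cons]
    push_cast
    linarith

/-- One step of the recursion for the commutator width. -/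
theorem step {G H D : Type*} [Group G] [Group H] [Fintype D] [DecidableEq D] (R : Rec G H D)
    (K : Subgroup G) (L : Subgroup H) (hL : L.Normal) (hbr : R.Branch K L)
    (lenG : G → ℕ) (lenH : H → ℕ) (hlen : IsLen lenH) (E : ℕ) (lam c : ℝ)
    (hlam : 0 ≤ lam) (hc : 0 ≤ c)
    (hT : ∀ g ∈ ⁅K, K⁆, ∃ t ∈ Cm K ^ E, ∃ z : D → H, (∀ u, z u ∈ ⁅L, L⁆) ∧
      (∀ u, (lenH (z u) : ℝ) ≤ lam * lenG g + c) ∧ R.Dg (t⁻¹ * g) z)
    (r : D → D) (hr : ∀ u, r (r u) = r u)
    (hr2 : ∀ u, 2 ≤ (Finset.univ.toList.filter (fun v => r v = r u)).length)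
    (s : D → H) (hs : ∀ u, (lenH (s u) : ℝ) ≤ c)
    (hR : ∀ z z' : D → H, (∀ u, z u ∈ L) → (∀ u, z' u ∈ L) →
      (∀ v, ((Finset.univ.toList.filter (fun u => r u = v)).map
          (fun u => (s u)⁻¹ * z u * s u)).prod =
        ((Finset.univ.toList.filter (fun u => r u = v)).map
          (fun u => (s u)⁻¹ * z' u * s u)).prod) →
      ∀ g g', R.Dg g z → R.Dg g' z' → ∃ t ∈ Cm K ^ E, g = t * g')
    (α β : ℝ) (hα : 0 ≤ α) (hβ : 0 ≤ β)
    (hH : ∀ y ∈ ⁅L, L⁆, ∃ m : ℕ, (m : ℝ) ≤ α * lenH y + β ∧ y ∈ Cm L ^ m) :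
    ∀ g ∈ ⁅K, K⁆, ∃ m : ℕ, (m : ℝ) ≤ α * lam * lenG g + (2 * E + α * (3 * c) + β / 2 + 1) ∧
      g ∈ Cm K ^ m := by
  intro g hg
  obtain ⟨t, ht, z, hz, hzl, hDg⟩ := hT g hg
  have hLL : (⁅L, L⁆ : Subgroup H).Normal := Subgroup.commutator_normal L L
  set Lv : D → List D := fun v => Finset.univ.toList.filter (fun u => r u = v) with hLv
  set y : D → H := fun u => (s u)⁻¹ * z u * s u with hy
  set B : ℝ := lam * lenG g + 3 * c with hB
  have hB0 : 0 ≤ B := by positivity
  have hyc : ∀ u, y u ∈ ⁅L, L⁆ := by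
    intro u
    have := hLL.conj_mem (z u) (hz u) (s u)⁻¹
    simpa [hy] using this
  have hyl : ∀ u, (lenH (y u) : ℝ) ≤ B := by
    intro u
    have h1 : lenH (y u) ≤ lenH (s u)⁻¹ + lenH (z u) + lenH (s u) :=
      le_trans (hlen.mul _ _) (Nat.add_le_add_right (hlen.mul _ _) _)
    have h2 : (lenH (y u) : ℝ) ≤ lenH (s u) + lenH (z u) + lenH (s u) := by
      rw [hlen.inv] at h1; exact_mod_cast h1
    have h3 := hs u
    have h4 := hzl u
    rw [hB]; linarith
  have hmem : ∀ u v, u ∈ Lv v ↔ r u = v := by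
    intro u v
    simp [hLv]
  have hYc : ∀ v, ((Lv v).map y).prod ∈ ⁅L, L⁆ := by
    intro v
    apply Subgroup.list_prod_mem
    intro x hx
    obtain ⟨u, -, rfl⟩ := List.mem_map.mp hx
    exact hyc u
  have hYl : ∀ v, (lenH ((Lv v).map y).prod : ℝ) ≤ (Lv v).length * B := fun v =>
    hlen.list_prod _ _ _ (fun u _ => hyl u)
  set q : ℕ := ⌈α * B + β / 2⌉₊ with hq
  have hq1 : α * B + β / 2 ≤ q := Nat.le_ceil _
  have hq2 : (q : ℝ) < α * B + β / 2 + 1 := Nat.ceil_lt_add_one (by positivity)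
  -- the chunks
  have hchunk : ∀ v, ∃ w : D → H, r v = v → ((∀ u, w u ∈ Cm L ^ q) ∧
      ((Lv v).map w).prod = ((Lv v).map y).prod) := by
    intro v
    by_cases hv : r v = v
    · obtain ⟨m, hm, hmY⟩ := hH _ (hYc v)
      have h2 : 2 ≤ (Lv v).length := by
        have := hr2 v
        rw [hv] at this
        exact this
      have h2' : (2 : ℝ) ≤ (Lv v).length := by exact_mod_cast h2
      have h3 : m ≤ q * (Lv v).length := by
        have h4 : (m : ℝ) ≤ α * ((Lv v).length * B) + β :=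
          le_trans hm (by
            have := mul_le_mul_of_nonneg_left (hYl v) hα
            linarith)
        have h5 : (α * B + β / 2) * (Lv v).length ≤ q * (Lv v).length :=
          mul_le_mul_of_nonneg_right hq1 (by positivity)
        have h6 : β ≤ β / 2 * (Lv v).length := by nlinarith
        have h7 : (m : ℝ) ≤ q * (Lv v).length := by
          calc (m : ℝ) ≤ α * ((Lv v).length * B) + β := h4
            _ ≤ α * ((Lv v).length * B) + β / 2 * (Lv v).length := by linarith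
            _ = (α * B + β / 2) * (Lv v).length := by ring
            _ ≤ q * (Lv v).length := h5
        exact_mod_cast h7
      have hnd : (Lv v).Nodup := (Finset.nodup_toList _).filter _
      obtain ⟨w, hw, hwp⟩ := chunk (one_mem_Cm L) q (Lv v) hnd m _ hmY h3
      exact ⟨w, fun _ => ⟨hw, hwp⟩⟩
    · exact ⟨fun _ => 1, fun h => absurd h hv⟩
  choose w hw using hchunk
  set w' : D → H := fun u => w (r u) u with hw'
  set z' : D → H := fun u => s u * w' u * (s u)⁻¹ with hz'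
  have hw'q : ∀ u, w' u ∈ Cm L ^ q := fun u => (hw (r u) (hr u)).1 u
  have hz'q : ∀ u, z' u ∈ Cm L ^ q := by
    intro u
    exact conj_mem_pow (conj_mem_Cm (fun x hx => hL.conj_mem x hx (s u))) (hw'q u)
  have hz'L : ∀ u, z' u ∈ L := fun u => Cm_pow_mem L q (hz'q u)
  obtain ⟨g', -, hg'⟩ := hbr z' hz'L
  have hg'q : g' ∈ Cm K ^ q := Rec.mem_pow_of_coord hbr q g' z' hg' hz'q
  obtain ⟨t', ht', htt⟩ := hR z z' (fun u => Subgroup.commutator_le_self L (hz u)) hz'L (by
    intro v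
    have e1 : (fun u => (s u)⁻¹ * z' u * s u) = w' := by
      funext u
      simp only [hz']
      group
    rw [e1]
    change ((Lv v).map y).prod = ((Lv v).map w').prod
    by_cases hv : r v = v
    · rw [← (hw v hv).2]
      congr 1
      apply List.map_congr_left
      intro u hu
      rw [hw']
      simp only
      rw [(hmem u v).mp hu]
    · have : Lv v = [] := by
        rw [List.eq_nil_iff_forall_not_mem]
        intro u hu
        apply hv
        rw [← (hmem u v).mp hu, hr]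
      rw [this]; rfl) _ _ hDg hg'
  refine ⟨E + (E + q), ?_, ?_⟩
  · push_cast
    rw [hB] at hq2
    have : α * (lam * ↑(lenG g) + 3 * c) = α * lam * lenG g + α * (3 * c) := by ring
    rw [this] at hq2
    linarith
  · have : g = t * (t' * g') := by
      rw [← htt]; group
    rw [this]
    exact mul_mem_pow_add ht (mul_mem_pow_add ht' hg'q)

/-- iterating the step in the self-similar case -/
lemma iterate {P : ℝ → ℝ → Prop} {A A₀ lam e c : ℝ} (hA : 0 ≤ A) (hA₀ : 0 ≤ A₀)
    (hlam : 0 ≤ lam) (hlam1 : lam ≤ 1) (he : 0 ≤ e) (hc : 0 ≤ c)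
    (h0 : P A A₀) (hmono : ∀ α β β', β ≤ β' → P α β → P α β')
    (hstep : ∀ α β, 0 ≤ α → 0 ≤ β → P α β → P (α * lam) (e + α * c + β / 2)) :
    ∀ n : ℕ, P (A * lam ^ n) (2 * (e + A * c) + A₀) := by
  intro n
  induction n with
  | zero =>
    rw [pow_zero, mul_one]
    exact hmono _ _ _ (by nlinarith) h0
  | succ n ih =>
    have h1 := hstep _ _ (by positivity) (by positivity) ih
    rw [pow_succ, ← mul_assoc]
    refine hmono _ _ _ ?_ h1
    have h2 : lam ^ n ≤ 1 := pow_le_one₀ hlam hlam1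
    have h3 : A * lam ^ n * c ≤ A * c := by
      have : A * lam ^ n ≤ A := mul_le_of_le_one_right hA h2
      exact mul_le_mul_of_nonneg_right this hc
    linarith

end Pool.Agent.Helper220_VW
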