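import Pool.Agent.Helper220_VW.Final

set_option autoImplicit false

open Pointwise
open scoped commutatorElement

namespace Pool.Agent.Helper220_VW

namespace Rec

variable {G D : Type*} [Group G] {R : Rec G G D}

/-- branching passes to the normal core -/
lemma branch_core {K : Subgroup G} (hbr : R.Branch K K) :
    R.Branch K.normalCore K.normalCore := by
  intro z hz
  obtain ⟨g, -, hg⟩ := hbr z (fun u => K.normalCore_le (hz u))
  refine ⟨g, ?_, hg⟩
  intro a
  have h1 := hg.conj a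
  have h2 : ∀ v, R.sec a ((R.act a)⁻¹ v) * z ((R.act a)⁻¹ v) *
      (R.sec a ((R.act a)⁻¹ v))⁻¹ ∈ K := fun v =>
    K.normalCore_le (K.normalCore_normal.conj_mem _ (hz _) _)
  obtain ⟨g', hg', hd⟩ := hbr _ h2
  rw [h1.unique hd]
  exact hg'

/-- the commutator subgroup of a smaller normal branching subgroup is still large -/
lemma core_commutator [Finite D] {K K₀ : Subgroup G} (hK₀ : K₀.Normal)
    (hbr : R.Branch K K) (htrans : ∀ u v, ∃ g, R.act g u = v) (u : D) (h h' : G) (hh : h ∈ K₀)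
    (hh' : h' ∈ K₀) (hu : R.act h u ≠ u) (hu' : R.act h' u ≠ u)
    (huu' : R.act h u ≠ R.act h' u) :
    R.dsub (⁅K, K⁆ : Subgroup G).normalCore ≤ ⁅K₀, K₀⁆ := by
  classical
  have := Fintype.ofFinite D
  have hKK₀ : (⁅K₀, K₀⁆ : Subgroup G).Normal := Subgroup.commutator_normal K₀ K₀
  have hsL : ∀ (v : D) (x : G), x ∈ K → ∀ w, (Pi.mulSingle v x : D → G) w ∈ K := by
    intro v x hx w
    by_cases hw : w = v
    · subst hw; simpa using hx
    · rw [Pi.mulSingle_eq_of_ne hw]; exact K.one_mem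
  have hcomm : ∀ (a g : G), a ∈ K₀ → ⁅g, a⁆ ∈ K₀ := by
    intro a g ha
    rw [commutatorElement_def]
    exact K₀.mul_mem (hK₀.conj_mem a ha g) (K₀.inv_mem ha)
  have hsub : ∀ (a g : G) (x : G), R.Dg g (Pi.mulSingle u x) → R.Dg ⁅g, a⁆
      ((Pi.mulSingle u x : D → G) * Pi.mulSingle (R.act a u)
        (R.sec a u * x⁻¹ * (R.sec a u)⁻¹)) := by
    intro a g x hg
    have h2 : R.Dg g⁻¹ (Pi.mulSingle u x⁻¹) := by
      refine hg.inv.congr fun v => ?_
      rw [← Pi.mulSingle_inv]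
    have h3 := hg.mul (h2.conj_single a)
    have h4 : g * (a * g⁻¹ * a⁻¹) = ⁅g, a⁆ := by rw [commutatorElement_def]; group
    rwa [h4] at h3
  have h1 : ∀ x ∈ ⁅K, K⁆, ∀ g, R.Dg g (Pi.mulSingle u x) → g ∈ ⁅K₀, K₀⁆ := by
    intro x hx
    change x ∈ Subgroup.closure _ at hx
    induction hx using Subgroup.closure_induction with
    | mem x hx =>
      obtain ⟨x, hx, y, hy, rfl⟩ := hx
      intro g hg
      obtain ⟨gx, -, hgx⟩ := hbr _ (hsL u x hx)
      obtain ⟨gy, -, hgy⟩ := hbr _ (hsL u y hy)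
      have e2 : R.Dg ⁅⁅gx, h⁆, ⁅gy, h'⁆⁆ (Pi.mulSingle u ⁅x, y⁆) := by
        refine ((hsub h gx x hgx).commutator (hsub h' gy y hgy)).congr fun v => ?_
        rw [commutatorElement_def]
        simp only [Pi.mul_apply, Pi.inv_apply]
        by_cases hv : v = u
        · subst hv
          rw [commutatorElement_def]
          simp only [Pi.mulSingle_eq_same]
          rw [Pi.mulSingle_eq_of_ne (Ne.symm hu), Pi.mulSingle_eq_of_ne (Ne.symm hu')]
          simp
        · rw [Pi.mulSingle_eq_of_ne hv, Pi.mulSingle_eq_of_ne hv, Pi.mulSingle_eq_of_ne hv]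
          by_cases hv1 : v = R.act h u
          · have hv2 : v ≠ R.act h' u := by rw [hv1]; exact huu'
            rw [Pi.mulSingle_eq_of_ne hv2]
            simp
          · rw [Pi.mulSingle_eq_of_ne hv1]
            simp
      rw [hg.unique e2]
      exact Subgroup.commutator_mem_commutator (hcomm h gx hh) (hcomm h' gy hh')
    | one =>
      intro g hg
      have : g = 1 := hg.unique (Rec.Dg.one.congr fun v => by simp)
      rw [this]; exact Subgroup.one_mem _
    | mul a b ha hb iha ihb =>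
      intro g hg
      obtain ⟨ga, -, hga⟩ := hbr _ (hsL u a (Subgroup.commutator_le_self K ha))
      obtain ⟨gb, -, hgb⟩ := hbr _ (hsL u b (Subgroup.commutator_le_self K hb))
      have : g = ga * gb := by
        refine hg.unique ((hga.mul hgb).congr fun v => ?_)
        rw [← Pi.mulSingle_mul]
      rw [this]
      exact Subgroup.mul_mem _ (iha ga hga) (ihb gb hgb)
    | inv a ha iha =>
      intro g hg
      have h2 : R.Dg g⁻¹ (Pi.mulSingle u a) := by
        refine hg.inv.congr fun v => ?_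
        rw [← Pi.mulSingle_inv, inv_inv]
      have := iha g⁻¹ h2
      simpa using this
  have hMn : ((⁅K, K⁆ : Subgroup G).normalCore).Normal := Subgroup.normalCore_normal _
  have hMle : (⁅K, K⁆ : Subgroup G).normalCore ≤ ⁅K, K⁆ := Subgroup.normalCore_le _
  have h3 : ∀ v : D, ∀ x ∈ (⁅K, K⁆ : Subgroup G).normalCore, ∀ g,
      R.Dg g (Pi.mulSingle v x) → g ∈ ⁅K₀, K₀⁆ := by
    intro v x hx g hg
    obtain ⟨a, ha⟩ := htrans v u
    have h4 : R.Dg (a * g * a⁻¹) (Pi.mulSingle u (R.sec a v * x * (R.sec a v)⁻¹)) := by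
      have := hg.conj_single a
      rwa [ha] at this
    have h5 := h1 _ (hMle (hMn.conj_mem x hx (R.sec a v))) _ h4
    have h6 : g = a⁻¹ * (a * g * a⁻¹) * (a⁻¹)⁻¹ := by group
    rw [h6]
    exact hKK₀.conj_mem _ h5 _
  have h4 : ∀ l : List D, ∀ z : D → G, (∀ v, z v ∈ (⁅K, K⁆ : Subgroup G).normalCore) → ∀ g,
      R.Dg g (l.map (fun v => (Pi.mulSingle v (z v) : D → G))).prod → g ∈ ⁅K₀, K₀⁆ := by
    intro l z hz
    induction l with
    | nil =>
      intro g hg
      simp only [List.map_nil, List.prod_nil] at hg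
      have : g = 1 := hg.unique Rec.Dg.one
      rw [this]; exact Subgroup.one_mem _
    | cons a t ih =>
      intro g hg
      rw [List.map_cons, List.prod_cons] at hg
      obtain ⟨ga, -, hga⟩ := hbr _ (hsL a (z a) (Subgroup.commutator_le_self K (hMle (hz a))))
      have htL : ∀ w, (t.map (fun u => (Pi.mulSingle u (z u) : D → G))).prod w ∈ K := by
        intro w
        rw [Rec.list_prod_mulSingle t (fun u => u) z w]
        apply Subgroup.list_prod_mem
        intro x hx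
        obtain ⟨u, -, rfl⟩ := List.mem_map.mp hx
        exact Subgroup.commutator_le_self K (hMle (hz u))
      obtain ⟨gt, -, hgt⟩ := hbr _ htL
      have : g = ga * gt := hg.unique (hga.mul hgt)
      rw [this]
      exact Subgroup.mul_mem _ (h3 a (z a) (hz a) ga hga) (ih gt hgt)
  intro g hg
  refine h4 Finset.univ.toList (fun v => R.sec g v) hg.2 g ?_
  rw [Rec.list_prod_mulSingle_univ]
  exact ⟨hg.1, fun _ => rfl⟩

end Rec

/-- The main theorem on contracting regular branch groups. -/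
theorem contracting_branch (X : Type) [Finite X] [Nontrivial X]
    (G : Subgroup (Equiv.Perm (List X))) (hfg : G.FG)
    (hself : Tree.SelfSim G)
    (htrans : ∀ u v : List X, u.length = v.length → ∃ g ∈ G, g u = v)
    (N : Set (Equiv.Perm (List X))) (hN : N.Finite)
    (hcon : ∀ g ∈ G, ∃ n : ℕ, ∀ u : List X, n ≤ u.length →
      ∃ s ∈ N, ∀ w : List X, g (u ++ w) = g u ++ s w)
    (K : Subgroup (Equiv.Perm (List X))) (hKG : K ≤ G) (hKi : K.relIndex G ≠ 0)
    (hbr : Tree.Branching K) (hK' : (⁅K, K⁆ : Subgroup (Equiv.Perm (List X))).relIndex K ≠ 0)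
    (V : Set (FreeGroup ℕ)) :
    ∃ m : ℕ, ∀ g ∈ Subgroup.closure
        {h : G | ∃ w ∈ V, ∃ f : ℕ → G, FreeGroup.lift f w = h},
      ∃ l : List G, l.length ≤ m ∧
        (∀ x ∈ l, (∃ w ∈ V, ∃ f : ℕ → G, FreeGroup.lift f w = x) ∨
          (∃ w ∈ V, ∃ f : ℕ → G, FreeGroup.lift f w = x⁻¹)) ∧
        l.prod = g := by
  classical
  set W : Set G := {h : G | ∃ w ∈ V, ∃ f : ℕ → G, FreeGroup.lift f w = h} with hW
  have hWconj : ∀ g, ∀ w ∈ W, g * w * g⁻¹ ∈ W := by
    rintro g _ ⟨w, hw, f, rfl⟩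
    exact ⟨w, hw, fun i => g * f i * g⁻¹, conj_lift g f w⟩
  by_cases hex : ∃ h ∈ W, h ≠ 1
  swap
  · push Not at hex
    refine ⟨0, fun g hg => ⟨[], le_rfl, by simp, ?_⟩⟩
    have : Subgroup.closure W ≤ ⊥ := by
      rw [Subgroup.closure_le]
      intro x hx
      rw [hex x hx]; exact Subgroup.one_mem _
    have := this hg
    rw [Subgroup.mem_bot] at this
    simp [this]
  obtain ⟨h, hh, hh1⟩ := hex
  -- the group is finitely generated
  have hGfg : Group.FG G := (Group.fg_iff_subgroup_fg G).mpr hfg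
  obtain ⟨B, hBf, hB1, hBinv, hBex⟩ := exists_ball (G := G)
  -- the subgroups
  set K₁ : Subgroup G := K.subgroupOf G with hK₁
  have hmap : K₁.map G.subtype = K := by
    rw [hK₁, Subgroup.subgroupOf_map_subtype, inf_eq_left.mpr hKG]
  have hK₁fi : K₁.FiniteIndex := ⟨hKi⟩
  have hKKmap : (⁅K₁, K₁⁆ : Subgroup G).map G.subtype = ⁅K, K⁆ := by
    rw [Subgroup.map_commutator, hmap]
  have hK₁' : (⁅K₁, K₁⁆ : Subgroup G).FiniteIndex := by
    constructor
    have h1 : (⁅K, K⁆ : Subgroup (Equiv.Perm (List X))).relIndex G ≠ 0 :=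
      Subgroup.relIndex_ne_zero_trans hK' hKi
    rw [← hKKmap] at h1
    have h2 : ((⁅K₁, K₁⁆ : Subgroup G).map G.subtype).subgroupOf G = ⁅K₁, K₁⁆ :=
      Subgroup.comap_map_eq_self_of_injective G.subtype_injective _
    unfold Subgroup.relIndex at h1
    rwa [h2] at h1
  have hbr₁ : ∀ n, (Tree.recLev hself n).Branch K₁ K₁ := fun n =>
    Tree.branch_lev hself K₁ (by rw [hmap]; exact hbr) n
  set K₀ : Subgroup G := K₁.normalCore with hK₀
  have hK₀n : K₀.Normal := Subgroup.normalCore_normal _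
  have hK₀fi : K₀.FiniteIndex := Subgroup.finiteIndex_normalCore _
  have hbr₀ : ∀ n, (Tree.recLev hself n).Branch K₀ K₀ := fun n => Rec.branch_core (hbr₁ n)
  have htr : ∀ n, ∀ u v : Tree.Lev X n, ∃ g, (Tree.recLev hself n).act g u = v := by
    intro n u v
    obtain ⟨g, hg, hgu⟩ := htrans u.1 v.1 (by rw [u.2, v.2])
    exact ⟨⟨g, hg⟩, Subtype.ext hgu⟩
  obtain ⟨n₁, hn₁⟩ := Tree.three_points hself htrans K₀
  obtain ⟨c, hc, n₂, hn₂⟩ := Tree.exists_contraction hself B hBf hB1 hBinv hBex N hN hcon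
  have hne : ∀ n, Nonempty (Tree.Lev X n) := fun n =>
    ⟨⟨List.replicate n (Classical.arbitrary X), by simp⟩⟩
  have hK₀' : (⁅K₀, K₀⁆ : Subgroup G).FiniteIndex := by
    obtain ⟨u⟩ := hne n₁
    obtain ⟨a, ha, a', ha', h1, h2, h3⟩ := hn₁ n₁ le_rfl u
    have hle := Rec.core_commutator hK₀n (hbr₁ n₁) (htr n₁) u a a' ha ha' h1 h2 h3
    have hcore : ((⁅K₁, K₁⁆ : Subgroup G).normalCore).FiniteIndex :=
      Subgroup.finiteIndex_normalCore _
    have hd : ((Tree.recLev hself n₁).dsub (⁅K₁, K₁⁆ : Subgroup G).normalCore).FiniteIndex :=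
      Rec.dsub_finiteIndex _
    exact Subgroup.finiteIndex_of_le hle
  obtain ⟨Nw, hNw⟩ := cw_self B hBf hB1 hBinv hBex (Tree.recLev hself (max n₁ n₂)) K₀ hK₀n
    (hbr₀ _) c hc (hn₂ _ (le_max_right _ _)) (fun u => by
      obtain ⟨a, ha, -, -, h1, -⟩ := hn₁ _ (le_max_left n₁ n₂) u
      exact ⟨a, ha, h1⟩)
  -- a moved vertex
  obtain ⟨u, hu⟩ : ∃ u : List X, h.1 u ≠ u := by
    by_contra hall
    push Not at hall
    exact hh1 (Subtype.ext (Equiv.ext hall))
  obtain ⟨m, hm⟩ := verbal_generic (Tree.recLev hself u.length) K₀ K₀ hK₀n (hbr₀ _) Nw hNw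
    (htr _) W hWconj h hh ⟨u, rfl⟩ (fun h1 => hu (congrArg Subtype.val h1))
  refine ⟨m, fun g hg => ?_⟩
  obtain ⟨l, hl, hlW, hlp⟩ := exists_list W m g (hm g hg)
  exact ⟨l, hl, hlW, hlp⟩

end Pool.Agent.Helper220_VW
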