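import Pool.Agent.Helper220_VW.Tree

set_option autoImplicit false

open Pointwise
open scoped commutatorElement

namespace Pool.Agent.Helper220_VW

lemma conj_lift {G : Type*} [Group G] (a : G) (f : ℕ → G) (w : FreeGroup ℕ) :
    FreeGroup.lift (fun i => a * f i * a⁻¹) w = a * FreeGroup.lift f w * a⁻¹ := by
  have h : FreeGroup.lift (fun i => a * f i * a⁻¹) =
      (MulAut.conj a).toMonoidHom.comp (FreeGroup.lift f) := by
    ext i
    simp
  rw [h]; simp

lemma exists_list {G : Type*} [Group G] (W : Set G) (m : ℕ) :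
    ∀ g ∈ (W ∪ W⁻¹ ∪ {1} : Set G) ^ m, ∃ l : List G, l.length ≤ m ∧
      (∀ x ∈ l, x ∈ W ∨ x⁻¹ ∈ W) ∧ l.prod = g := by
  induction m with
  | zero =>
    intro g hg
    simp only [pow_zero, Set.mem_one] at hg
    exact ⟨[], by simp, by simp, by simp [hg]⟩
  | succ m ih =>
    intro g hg
    rw [pow_succ'] at hg
    obtain ⟨x, hx, y, hy, rfl⟩ := Set.mem_mul.mp hg
    obtain ⟨l, hl, hlW, hlp⟩ := ih y hy
    rcases hx with (hx | hx) | hx
    · refine ⟨x :: l, by simp [hl], ?_, by simp [hlp]⟩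
      intro a ha
      rcases List.mem_cons.mp ha with rfl | ha
      · exact Or.inl hx
      · exact hlW a ha
    · refine ⟨x :: l, by simp [hl], ?_, by simp [hlp]⟩
      intro a ha
      rcases List.mem_cons.mp ha with rfl | ha
      · exact Or.inr (by simpa using hx)
      · exact hlW a ha
    · simp only [Set.mem_singleton_iff] at hx
      refine ⟨l, by omega, hlW, by rw [hx, one_mul, hlp]⟩

lemma finite_pow {G : Type*} [Group G] {B : Set G} (hB : B.Finite) (n : ℕ) : (B ^ n).Finite := by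
  induction n with
  | zero => simp
  | succ n ih => rw [pow_succ]; exact ih.mul hB

namespace Tree

variable {X : Type} {G : Subgroup (Equiv.Perm (List X))}

/-- contraction of lengths from a finite nucleus -/
lemma exists_contraction [Nonempty X] (hG : SelfSim G) (B : Set G) (hBf : B.Finite)
    (hB1 : (1 : G) ∈ B) (hBinv : ∀ g ∈ B, g⁻¹ ∈ B) (hBex : ∀ g : G, ∃ n, g ∈ B ^ n)
    (N : Set (Equiv.Perm (List X))) (hN : N.Finite)
    (hcon : ∀ g ∈ G, ∃ n : ℕ, ∀ u : List X, n ≤ u.length →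
      ∃ s ∈ N, ∀ w : List X, g (u ++ w) = g u ++ s w) :
    ∃ c : ℝ, 0 ≤ c ∧ ∃ n₀ : ℕ, ∀ n, n₀ ≤ n → ∀ (g : G) (u : Lev X n),
      (wlen B ((recLev hG n).sec g u) : ℝ) ≤ 1 / 2 * wlen B g + c := by
  classical
  have hlen : IsLen (wlen B) := isLen_wlen hBinv hBex
  have hNG : {g : G | g.1 ∈ N}.Finite := hN.preimage Subtype.val_injective.injOn
  obtain ⟨N₀, hN₀, hN₀1⟩ : ∃ N₀ : ℕ, (∀ g : G, g.1 ∈ N → wlen B g ≤ N₀) ∧ 1 ≤ N₀ := by
    refine ⟨hNG.toFinset.sup (wlen B) + 1, fun g hg => ?_, by omega⟩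
    have : wlen B g ≤ hNG.toFinset.sup (wlen B) :=
      Finset.le_sup (f := wlen B) (hNG.mem_toFinset.mpr hg)
    omega
  have hBR : (B ^ (2 * N₀)).Finite := finite_pow hBf _
  have hchoose : ∀ g : G, ∃ n : ℕ, ∀ u : List X, n ≤ u.length →
      ∃ s ∈ N, ∀ w : List X, g.1 (u ++ w) = g.1 u ++ s w := fun g => hcon g.1 g.2
  choose ng hng using hchoose
  refine ⟨N₀, by positivity, hBR.toFinset.sup ng, fun n hn g u => ?_⟩
  have h1 : ∀ g ∈ B ^ (2 * N₀), ∀ u : Lev X n, wlen B ((recLev hG n).sec g u) ≤ N₀ := by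
    intro g hg u
    have h2 : ng g ≤ n := le_trans (Finset.le_sup (f := ng) (hBR.mem_toFinset.mpr hg)) hn
    obtain ⟨s, hs, hsw⟩ := hng g u.1 (by rw [u.2]; exact h2)
    apply hN₀
    have : (sec hG g u.1).1 = s := sec_unique hG g u.1 s hsw
    change (sec hG g u.1).1 ∈ N
    rw [this]; exact hs
  have h2 : ∀ k : ℕ, ∀ g ∈ B ^ (2 * N₀ * k), ∀ u : Lev X n,
      wlen B ((recLev hG n).sec g u) ≤ N₀ * k := by
    intro k
    induction k with
    | zero =>
      intro g hg u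
      simp only [mul_zero, pow_zero, Set.mem_one] at hg
      subst hg
      rw [Rec.sec_one, hlen.one]
      exact Nat.zero_le _
    | succ k ih =>
      intro g hg u
      rw [Nat.mul_succ, pow_add] at hg
      obtain ⟨a, ha, b, hb, rfl⟩ := Set.mem_mul.mp hg
      rw [Rec.sec_mul, Nat.mul_succ]
      exact le_trans (hlen.mul _ _) (Nat.add_le_add (ih a ha _) (h1 b hb _))
  set ℓ := wlen B g with hℓ
  have h3 : g ∈ B ^ (2 * N₀ * (ℓ / (2 * N₀) + 1)) := by
    refine pow_mono_of_one hB1 ?_ (mem_pow_wlen hBex g)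
    have := Nat.lt_mul_div_succ ℓ (show 0 < 2 * N₀ by omega)
    exact this.le
  have h4 := h2 _ g h3 u
  have h5 : (wlen B ((recLev hG n).sec g u) : ℝ) ≤ N₀ * ((ℓ / (2 * N₀) : ℕ) + 1) := by
    exact_mod_cast h4
  have h6 : ((ℓ / (2 * N₀) : ℕ) : ℝ) ≤ (ℓ : ℝ) / (2 * N₀ : ℕ) := Nat.cast_div_le
  have h7 : (0 : ℝ) < N₀ := by exact_mod_cast hN₀1
  have h8 : (N₀ : ℝ) * ((ℓ : ℝ) / (2 * N₀ : ℕ)) = 1 / 2 * ℓ := by
    push_cast
    field_simp
  have h9 : (N₀ : ℝ) * ((ℓ / (2 * N₀) : ℕ) : ℝ) ≤ 1 / 2 * ℓ := by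
    rw [← h8]
    exact mul_le_mul_of_nonneg_left h6 h7.le
  linarith

/-- on deep levels, orbits of a subgroup of finite index have at least three points -/
lemma three_points [Finite X] [Nontrivial X] (hG : SelfSim G)
    (htrans : ∀ u v : List X, u.length = v.length → ∃ g ∈ G, g u = v)
    (K : Subgroup G) [K.FiniteIndex] : ∃ n₀ : ℕ, ∀ n, n₀ ≤ n → ∀ u : Lev X n,
      ∃ h ∈ K, ∃ h' ∈ K, (recLev hG n).act h u ≠ u ∧ (recLev hG n).act h' u ≠ u ∧
        (recLev hG n).act h u ≠ (recLev hG n).act h' u := by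
  classical
  have hfx := Fintype.ofFinite X
  have hfq : Finite (G ⧸ K) := inferInstance
  refine ⟨2 * Nat.card (G ⧸ K), fun n hn u => ?_⟩
  by_contra hcon
  push Not at hcon
  -- all moved images coincide
  obtain ⟨v, hv⟩ : ∃ v : Lev X n, ∀ k ∈ K, (recLev hG n).act k u = u ∨
      (recLev hG n).act k u = v := by
    by_cases hex : ∃ h ∈ K, (recLev hG n).act h u ≠ u
    · obtain ⟨h, hh, hhu⟩ := hex
      refine ⟨(recLev hG n).act h u, fun k hk => ?_⟩
      by_cases hku : (recLev hG n).act k u = u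
      · exact Or.inl hku
      · exact Or.inr (hcon h hh k hk hhu hku).symm
    · push Not at hex
      exact ⟨u, fun k hk => Or.inl (hex k hk)⟩
  let F : (G ⧸ K) × Bool → Lev X n := fun p =>
    (recLev hG n).act p.1.out (if p.2 then u else v)
  have hF : Function.Surjective F := by
    intro w
    obtain ⟨g, hg, hgu⟩ := htrans u.1 w.1 (by rw [u.2, w.2])
    have hgw : (recLev hG n).act ⟨g, hg⟩ u = w := Subtype.ext hgu
    set γ : G := ⟨g, hg⟩ with hγ
    have h1 : ((γ : G ⧸ K).out)⁻¹ * γ ∈ K := by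
      rw [← QuotientGroup.eq]; simp
    have h2 : γ = (γ : G ⧸ K).out * (((γ : G ⧸ K).out)⁻¹ * γ) := by group
    have h5 : (recLev hG n).act γ u = (recLev hG n).act (γ : G ⧸ K).out
        ((recLev hG n).act (((γ : G ⧸ K).out)⁻¹ * γ) u) := by
      rw [← Equiv.Perm.mul_apply, ← map_mul, ← h2]
    rcases hv _ h1 with h3 | h3
    · refine ⟨((γ : G ⧸ K), true), ?_⟩
      simp only [F, if_true]
      rw [← hgw, h5, h3]
    · refine ⟨((γ : G ⧸ K), false), ?_⟩
      simp only [F, Bool.false_eq_true, if_false]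
      rw [← hgw, h5, h3]
  have h1 : Nat.card (Lev X n) ≤ Nat.card ((G ⧸ K) × Bool) := Nat.card_le_card_of_surjective F hF
  have h2 : Nat.card ((G ⧸ K) × Bool) = 2 * Nat.card (G ⧸ K) := by
    rw [Nat.card_prod]; simp [mul_comm]
  have h3 : Nat.card (Lev X n) = Fintype.card X ^ n := by
    have : Nat.card (List.Vector X n) = Fintype.card X ^ n := by
      rw [Nat.card_eq_fintype_card, card_vector]
    exact this
  have h4 : 2 ≤ Fintype.card X := Fintype.one_lt_card
  have h5 : n < Fintype.card X ^ n := Nat.lt_pow_self (by omega)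
  omega

end Tree

end Pool.Agent.Helper220_VW
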