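import Pool.Agent.Helper220_VW.Core

set_option autoImplicit false

open Pointwise
open scoped commutatorElement

namespace Pool.Agent.Helper220_VW

namespace Rec

variable {G H D : Type*} [Group G] [Group H] {R : Rec G H D}

/-- the subgroup of elements acting trivially on `D` with all sections in `M` -/
def dsub (R : Rec G H D) (M : Subgroup H) : Subgroup G where
  carrier := {g | R.act g = 1 ∧ ∀ u, R.sec g u ∈ M}
  mul_mem' := by
    rintro a b ⟨ha, ha'⟩ ⟨hb, hb'⟩
    refine ⟨by rw [map_mul, ha, hb, one_mul], fun u => ?_⟩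
    rw [R.sec_mul]
    exact M.mul_mem (ha' _) (hb' _)
  one_mem' := ⟨map_one _, fun u => by rw [sec_one]; exact M.one_mem⟩
  inv_mem' := by
    rintro a ⟨ha, ha'⟩
    refine ⟨by rw [map_inv, ha, inv_one], fun u => ?_⟩
    rw [sec_inv]
    exact M.inv_mem (ha' _)

lemma mem_dsub {M : Subgroup H} {g : G} :
    g ∈ R.dsub M ↔ R.act g = 1 ∧ ∀ u, R.sec g u ∈ M := Iff.rfl

lemma dsub_finiteIndex [Finite D] (M : Subgroup H) [M.FiniteIndex] : (R.dsub M).FiniteIndex := by
  classical
  have hfin : Finite (Equiv.Perm D × (D → H ⧸ M)) := by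
    have : Finite (H ⧸ M) := inferInstance
    infer_instance
  let F : G → Equiv.Perm D × (D → H ⧸ M) := fun g => (R.act g, fun u => (R.sec g u : H ⧸ M))
  have key : ∀ g h : G, F g = F h → g⁻¹ * h ∈ R.dsub M := by
    intro g h hF
    have h1 : R.act g = R.act h := congrArg Prod.fst hF
    have h2 : ∀ u, (R.sec g u : H ⧸ M) = (R.sec h u : H ⧸ M) := fun u =>
      congrFun (congrArg Prod.snd hF) u
    refine mem_dsub.mpr ⟨by rw [map_mul, map_inv, h1, inv_mul_cancel], fun u => ?_⟩
    rw [R.sec_mul, sec_inv, h1]
    have h3 : (R.act h)⁻¹ ((R.act h) u) = u := by simp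
    rw [h3]
    exact QuotientGroup.eq.mp (h2 u)
  have hfin2 : Finite (G ⧸ R.dsub M) := by
    let F' : G ⧸ R.dsub M → Equiv.Perm D × (D → H ⧸ M) := fun q => F q.out
    refine Finite.of_injective F' ?_
    intro p q hpq
    have := key _ _ hpq
    have h4 := QuotientGroup.eq.mpr this
    simpa using h4
  exact Subgroup.finiteIndex_of_finite_quotient

lemma branch_of_single [Finite D] [DecidableEq D] {K : Subgroup G} {L : Subgroup H}
    (h : ∀ u, ∀ y ∈ L, ∃ g ∈ K, R.Dg g (Pi.mulSingle u y)) : R.Branch K L := by
  classical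
  have := Fintype.ofFinite D
  intro z hz
  have key : ∀ S : Finset D, ∃ g ∈ K, R.Dg g (fun u => if u ∈ S then z u else 1) := by
    intro S
    induction S using Finset.induction_on with
    | empty => exact ⟨1, K.one_mem, Dg.one.congr fun u => by simp⟩
    | insert a S ha ih =>
      obtain ⟨g, hgK, hg⟩ := ih
      obtain ⟨g', hgK', hg'⟩ := h a (z a) (hz a)
      refine ⟨g' * g, K.mul_mem hgK' hgK, (hg'.mul hg).congr fun u => ?_⟩
      by_cases hu : u = a
      · subst hu
        simp [ha]
      · simp [hu]
  obtain ⟨g, hgK, hg⟩ := key Finset.univ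
  exact ⟨g, hgK, hg.congr fun u => by simp⟩

/-- products of single-point functions along a list -/
lemma list_prod_mulSingle [DecidableEq D] (l : List D) (r : D → D) (y : D → H) (v : D) :
    (l.map (fun u => (Pi.mulSingle (r u) (y u) : D → H))).prod v =
      ((l.filter (fun u => r u = v)).map y).prod := by
  induction l with
  | nil => simp
  | cons a t ih =>
    rw [List.map_cons, List.prod_cons, Pi.mul_apply, ih]
    by_cases ha : r a = v
    · rw [List.filter_cons_of_pos (by simp [ha]), List.map_cons, List.prod_cons, ha]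
      simp
    · rw [List.filter_cons_of_neg (by simp [ha]), Pi.mulSingle_eq_of_ne (Ne.symm ha), one_mul]

lemma list_prod_mulSingle_univ [Fintype D] [DecidableEq D] (z : D → H) :
    (Finset.univ.toList.map (fun u => (Pi.mulSingle u (z u) : D → H))).prod = z := by
  funext v
  have h := list_prod_mulSingle (H := H) Finset.univ.toList (fun u => u) z v
  rw [h]
  have h2 : (Finset.univ.toList.filter (fun u : D => u = v)) = [v] := by
    have hnd : (Finset.univ : Finset D).toList.Nodup := Finset.nodup_toList _
    have hv : v ∈ (Finset.univ : Finset D).toList := by simp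
    rw [List.filter_eq, List.count_eq_one_of_mem hnd hv]
    rfl
  rw [h2]; simp

end Rec

end Pool.Agent.Helper220_VW
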