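import Pool.Agent.Helper220_VW.Comp

set_option autoImplicit false

open Pointwise
open scoped commutatorElement

namespace Pool.Agent.Helper220_VW

section Ab

variable {G : Type*} [Group G]

lemma ab_repr {S : Subgroup G} {d : ℕ} (gS : Fin d → S)
    (hgs : Subgroup.closure (Set.range gS) = ⊤) (s : S) :
    ∃ n : Fin d → ℤ, Abelianization.of s = ∏ i, Abelianization.of (gS i) ^ (n i) := by
  classical
  have h : s ∈ Subgroup.closure (Set.range gS) := by rw [hgs]; trivial
  induction h using Subgroup.closure_induction with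
  | mem x hx =>
    obtain ⟨i, rfl⟩ := hx
    refine ⟨fun j => if j = i then 1 else 0, ?_⟩
    rw [Finset.prod_eq_single i]
    · simp
    · intro j _ hj; simp [hj]
    · intro h; exact absurd (Finset.mem_univ i) h
  | one => exact ⟨fun _ => 0, by simp⟩
  | mul x y _ _ hx hy =>
    obtain ⟨n, hn⟩ := hx
    obtain ⟨m, hm⟩ := hy
    refine ⟨fun i => n i + m i, ?_⟩
    rw [map_mul, hn, hm, ← Finset.prod_mul_distrib]
    apply Finset.prod_congr rfl
    intro i _
    rw [zpow_add]
  | inv x _ hx =>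
    obtain ⟨n, hn⟩ := hx
    refine ⟨fun i => - n i, ?_⟩
    rw [map_inv, hn, ← Finset.prod_inv_distrib]
    apply Finset.prod_congr rfl
    intro i _
    rw [zpow_neg]

lemma exists_lift {S : Subgroup G} {d : ℕ} (gs : Fin d → G)
    (hgs : Subgroup.closure (Set.range gs) = S) :
    ∃ gS : Fin d → S, (∀ i, (gS i : G) = gs i) ∧ Subgroup.closure (Set.range gS) = ⊤ := by
  have hgsS : ∀ i, gs i ∈ S := fun i => by
    rw [← hgs]; exact Subgroup.subset_closure ⟨i, rfl⟩
  refine ⟨fun i => ⟨gs i, hgsS i⟩, fun i => rfl, ?_⟩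
  apply Subgroup.map_injective S.subtype_injective
  rw [MonoidHom.map_closure, ← Set.range_comp]
  have : (⇑S.subtype ∘ fun i => (⟨gs i, hgsS i⟩ : S)) = gs := rfl
  rw [this, hgs, ← MonoidHom.range_eq_map, Subgroup.range_subtype]

lemma mem_comm_of_ab {S : Subgroup G} {s t : S} (h : Abelianization.of s = Abelianization.of t) :
    (s : G)⁻¹ * t ∈ ⁅S, S⁆ := by
  have h1 : s⁻¹ * t ∈ commutator S := QuotientGroup.eq.mp h
  have h2 := Subgroup.mem_map_of_mem S.subtype h1
  rw [Subgroup.map_subtype_commutator] at h2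
  exact h2

lemma ab_pow {S : Subgroup G} {d : ℕ} (gs : Fin d → G)
    (hgs : Subgroup.closure (Set.range gs) = S) (r : ℕ) (hord : ∀ i, gs i ^ r = 1) :
    ∀ s ∈ S, s ^ r ∈ ⁅S, S⁆ := by
  intro s hs
  obtain ⟨gS, hgS, htop⟩ := exists_lift gs hgs
  obtain ⟨n, hn⟩ := ab_repr gS htop ⟨s, hs⟩
  have h1 : Abelianization.of (1 : S) = Abelianization.of ((⟨s, hs⟩ : S) ^ r) := by
    rw [map_one, map_pow, hn, ← Finset.prod_pow]
    symm
    apply Finset.prod_eq_one
    intro i _
    rw [← zpow_natCast, ← zpow_mul, mul_comm, zpow_mul, zpow_natCast, ← map_pow]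
    have h2 : (gS i) ^ r = 1 := Subtype.ext (by
      rw [Subgroup.coe_pow, hgS, hord]; rfl)
    rw [h2, map_one, one_zpow]
  have h3 := mem_comm_of_ab h1
  simpa using h3

lemma ab_short {B : Set G} (hB1 : (1 : G) ∈ B) {S : Subgroup G} {d : ℕ} (gs : Fin d → G)
    (hgs : Subgroup.closure (Set.range gs) = S) (L : ℕ) (hL : ∀ i, gs i ∈ B ^ L)
    (r : ℕ) (hr : 0 < r) (hord : ∀ i, gs i ^ r = 1) :
    ∀ s ∈ S, ∃ p ∈ B ^ (d * (r * L)), ∃ ν ∈ ⁅S, S⁆, s = p * ν := by
  intro s hs
  obtain ⟨gS, hgS, htop⟩ := exists_lift gs hgs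
  obtain ⟨n, hn⟩ := ab_repr gS htop ⟨s, hs⟩
  let m : Fin d → ℕ := fun i => (n i % (r : ℤ)).toNat
  have hr' : (0 : ℤ) < r := by exact_mod_cast hr
  have hm : ∀ i, (m i : ℤ) = n i % r := fun i =>
    Int.toNat_of_nonneg (Int.emod_nonneg _ (ne_of_gt hr'))
  have hmr : ∀ i, m i < r := fun i => by
    have h1 := Int.emod_lt_of_pos (n i) hr'
    rw [← hm] at h1
    exact_mod_cast h1
  let P : S := (List.ofFn fun i => gS i ^ (m i)).prod
  have h1 : Abelianization.of P = Abelianization.of (⟨s, hs⟩ : S) := by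
    rw [hn]
    have h2 : Abelianization.of P = (List.ofFn fun i => Abelianization.of (gS i) ^ (m i)).prod := by
      have h3 : Abelianization.of P = Abelianization.of (List.ofFn fun i => gS i ^ (m i)).prod := rfl
      rw [h3, map_list_prod, List.map_ofFn]
      congr 1
    rw [h2, List.prod_ofFn]
    apply Finset.prod_congr rfl
    intro i _
    have h4 : (Abelianization.of (gS i)) ^ (r : ℤ) = 1 := by
      rw [zpow_natCast, ← map_pow]
      have h2 : (gS i) ^ r = 1 := Subtype.ext (by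
        rw [Subgroup.coe_pow, hgS, hord]; rfl)
      rw [h2, map_one]
    rw [← zpow_natCast, hm]
    conv_rhs => rw [← Int.emod_add_mul_ediv (n i) r, zpow_add, zpow_mul, h4, one_zpow, mul_one]
  have h5 := mem_comm_of_ab h1
  refine ⟨(P : G), ?_, _, h5, by simp⟩
  have h6 : (P : G) = (List.ofFn fun i => gs i ^ (m i)).prod := by
    have h7 : (P : G) = S.subtype (List.ofFn fun i => gS i ^ (m i)).prod := rfl
    rw [h7, map_list_prod, List.map_ofFn]
    congr 1
    congr 1
    funext i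
    simp only [Function.comp_apply, map_pow]
    congr 1
    exact hgS i
  rw [h6]
  refine pow_pow_mem (a := r * L) (m := d) _ (by simp) hB1 ?_ (by rw [mul_comm])
  intro x hx
  rw [List.mem_ofFn] at hx
  obtain ⟨i, rfl⟩ := hx
  have h8 : ∀ k : ℕ, gs i ^ k ∈ B ^ (L * k) := by
    intro k
    induction k with
    | zero => simp
    | succ k ih =>
      rw [pow_succ, Nat.mul_succ]
      exact mul_mem_pow_add ih (hL i)
  refine pow_mono_of_one hB1 ?_ (h8 (m i))
  rw [mul_comm]
  exact Nat.mul_le_mul_right _ (hmr i).le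

end Ab

namespace MG

variable (M : MG)

/-- conjugation by an involution preserves a generated subgroup -/
lemma conj_closure {G : Type*} [Group G] {d : ℕ} (gs : Fin d → G) (h : G) (hh : h * h = 1)
    (hc : ∀ i, h * gs i * h ∈ Subgroup.closure (Set.range gs)) :
    ∀ x ∈ Subgroup.closure (Set.range gs), h * x * h ∈ Subgroup.closure (Set.range gs) := by
  intro x hx
  induction hx using Subgroup.closure_induction with
  | mem x hx =>
    obtain ⟨i, rfl⟩ := hx
    exact hc i
  | one => rw [mul_one, hh]; exact Subgroup.one_mem _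
  | mul x y _ _ ihx ihy =>
    have e : h * (x * y) * h = (h * x * h) * (h * y * h) := by
      calc h * (x * y) * h = h * x * 1 * y * h := by group
        _ = h * x * (h * h) * y * h := by rw [hh]
        _ = _ := by group
    rw [e]
    exact Subgroup.mul_mem _ ihx ihy
  | inv x _ ihx =>
    have hinv : h⁻¹ = h := inv_eq_of_mul_eq_one_right hh
    have e : h * x⁻¹ * h = (h * x * h)⁻¹ := by
      rw [mul_inv_rev, mul_inv_rev, hinv]; group
    rw [e]
    exact Subgroup.inv_mem _ ihx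

/-- the data needed at a good level -/
def GoodData (S : Subgroup M.X) : Prop :=
  ∃ gs : Fin 4 → M.X, Subgroup.closure (Set.range gs) = S ∧ (∀ i, gs i ∈ M.B ^ 7) ∧
    (∀ i, gs i ^ 8 = 1) ∧ ∀ h, ∃ δ ∈ M.B ^ 8, δ ^ 4 ∈ S ∧ ∃ s ∈ S, h = δ * s

lemma B_mono {m n : ℕ} (h : m ≤ n) {x : M.X} (hx : x ∈ M.B ^ m) : x ∈ M.B ^ n :=
  pow_mono_of_one M.one_mem_B h hx

lemma a_mem1 : M.a ∈ M.B ^ 1 := by rw [pow_one]; exact M.a_mem_B
lemma b_mem1 (i : Fin 3) : M.b i ∈ M.B ^ 1 := by rw [pow_one]; exact M.b_mem_B i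

lemma a_mul_a (x : M.X) : M.a * (M.a * x) = x := by rw [← mul_assoc, M.aa, one_mul]
lemma b_mul_b (i : Fin 3) (x : M.X) : M.b i * (M.b i * x) = x := by
  rw [← mul_assoc, M.bb, one_mul]

/-- reduction of left multiplications for the third letter -/
lemma third_letter {c g : Fin 3} (h : c ≠ g) {P : M.X → Prop} (ha : ∀ x, P x → P (M.a * x))
    (hc : ∀ x, P x → P (M.b c * x)) (hg : ∀ x, P x → P (M.b g * x)) (h1 : P 1) (x : M.X) :
    P x := by
  apply M.induct h1 ha
  intro i x hx
  by_cases hi1 : i = c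
  · rw [hi1]; exact hc x hx
  by_cases hi2 : i = g
  · rw [hi2]; exact hg x hx
  rw [← M.bbb c g i h (Ne.symm hi2) (Ne.symm hi1), mul_assoc]
  exact hc _ (hg _ hx)

/-- normality from three involutions -/
lemma normal_of_three {c g : Fin 3} (h : c ≠ g) (N : Subgroup M.X)
    (ha : ∀ x ∈ N, M.a * x * M.a ∈ N) (hc : ∀ x ∈ N, M.b c * x * M.b c ∈ N)
    (hg : ∀ x ∈ N, M.b g * x * M.b g ∈ N) : N.Normal := by
  apply M.normal_of N ha
  intro i x hx
  by_cases hi1 : i = c
  · rw [hi1]; exact hc x hx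
  by_cases hi2 : i = g
  · rw [hi2]; exact hg x hx
  have e : M.b i = M.b c * M.b g := (M.bbb c g i h (Ne.symm hi2) (Ne.symm hi1)).symm
  have e' : M.b i * x * M.b i = M.b c * (M.b g * x * M.b g) * M.b c := by
    rw [e]
    have : M.b c * M.b g * x * (M.b c * M.b g) = M.b c * M.b g * x * (M.b g * M.b c) := by
      rw [M.b_comm c g]
    rw [this]; group
  rw [e']
  exact hc _ (hg _ hx)

/-- first type -/
lemma good1 {g y : Fin 3} (hgy : g ≠ y) (h4 : (M.a * M.b y) ^ 4 = 1) :
    M.GoodData (M.SS g g) := by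
  have hsg : M.sg g g = M.b g := by simp [sg]
  set gs : Fin 4 → M.X := ![M.b g, M.a * M.b g * M.a, M.b y * (M.a * M.b g * M.a) * M.b y,
    M.a * (M.b y * (M.a * M.b g * M.a) * M.b y) * M.a] with hgs
  set N := Subgroup.closure (Set.range gs) with hN
  have hmem : ∀ i, gs i ∈ N := fun i => Subgroup.subset_closure ⟨i, rfl⟩
  have hrel : M.a * M.b y * M.a * M.b y = M.b y * M.a * M.b y * M.a := by
    have h1 : (M.a * M.b y * M.a * M.b y) * (M.a * M.b y * M.a * M.b y) = 1 := by
      rw [← h4]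
      simp only [pow_succ, pow_zero, one_mul, mul_assoc]
    have h2 := inv_eq_of_mul_eq_one_right h1
    rw [← h2, mul_inv_rev, mul_inv_rev, mul_inv_rev, M.a_inv, M.b_inv]
    group
  have ha : ∀ x ∈ N, M.a * x * M.a ∈ N := by
    apply conj_closure gs M.a M.aa
    intro i
    fin_cases i
    · exact hmem 1
    · have e : M.a * (M.a * M.b g * M.a) * M.a = M.b g := by
        simp only [mul_assoc, M.a_mul_a, M.aa, mul_one]
      change M.a * (M.a * M.b g * M.a) * M.a ∈ N
      rw [e]; exact hmem 0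
    · exact hmem 3
    · have e : M.a * (M.a * (M.b y * (M.a * M.b g * M.a) * M.b y) * M.a) * M.a =
          M.b y * (M.a * M.b g * M.a) * M.b y := by
        simp only [mul_assoc, M.a_mul_a, M.aa, mul_one]
      change M.a * (M.a * (M.b y * (M.a * M.b g * M.a) * M.b y) * M.a) * M.a ∈ N
      rw [e]; exact hmem 2
  have hy : ∀ x ∈ N, M.b y * x * M.b y ∈ N := by
    apply conj_closure gs (M.b y) (M.bb y)
    intro i
    fin_cases i
    · have e : M.b y * M.b g * M.b y = M.b g := by
        rw [M.b_comm y g, mul_assoc, M.bb, mul_one]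
      change M.b y * M.b g * M.b y ∈ N
      rw [e]; exact hmem 0
    · exact hmem 2
    · have e : M.b y * (M.b y * (M.a * M.b g * M.a) * M.b y) * M.b y =
          M.a * M.b g * M.a := by
        simp only [mul_assoc, M.b_mul_b, M.bb, mul_one]
      change M.b y * (M.b y * (M.a * M.b g * M.a) * M.b y) * M.b y ∈ N
      rw [e]; exact hmem 1
    · have e : M.b y * (M.a * (M.b y * (M.a * M.b g * M.a) * M.b y) * M.a) * M.b y =
          M.a * (M.b y * (M.a * M.b g * M.a) * M.b y) * M.a := by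
        calc M.b y * (M.a * (M.b y * (M.a * M.b g * M.a) * M.b y) * M.a) * M.b y =
            (M.b y * M.a * M.b y * M.a) * M.b g * (M.a * M.b y * M.a * M.b y) := by group
          _ = (M.a * M.b y * M.a * M.b y) * M.b g * (M.b y * M.a * M.b y * M.a) := by rw [hrel]
          _ = M.a * M.b y * M.a * (M.b y * M.b g * M.b y) * M.a * M.b y * M.a := by group
          _ = M.a * M.b y * M.a * M.b g * M.a * M.b y * M.a := by
              rw [M.b_comm y g, mul_assoc (M.b g), M.bb, mul_one]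
          _ = _ := by group
      change M.b y * (M.a * (M.b y * (M.a * M.b g * M.a) * M.b y) * M.a) * M.b y ∈ N
      rw [e]; exact hmem 3
  have hb : ∀ x ∈ N, M.b g * x * M.b g ∈ N := fun x hx =>
    N.mul_mem (N.mul_mem (hmem 0) hx) (hmem 0)
  have hNn : N.Normal := M.normal_of_three hgy N ha hb hy
  have hbS : M.b g ∈ M.SS g g := by
    have := M.sg_mem g g
    rwa [hsg] at this
  have hconj : ∀ x ∈ M.SS g g, ∀ i : M.X, i⁻¹ = i → i * x * i ∈ M.SS g g := by
    intro x hx i hi
    have := Subgroup.Normal.conj_mem (inferInstance : (M.SS g g).Normal) x hx i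
    rwa [hi] at this
  have hNS : N = M.SS g g := by
    apply le_antisymm
    · rw [hN, Subgroup.closure_le]
      rintro _ ⟨i, rfl⟩
      fin_cases i
      · exact hbS
      · exact hconj _ hbS _ M.a_inv
      · exact hconj _ (hconj _ hbS _ M.a_inv) _ (M.b_inv y)
      · exact hconj _ (hconj _ (hconj _ hbS _ M.a_inv) _ (M.b_inv y)) _ M.a_inv
    · apply Subgroup.normalClosure_le_normal
      intro x hx
      rw [Set.mem_singleton_iff] at hx
      rw [hx, hsg]
      exact hmem 0
  have hconjpow : ∀ (h x : M.X), h * h = 1 → x ^ 2 = 1 → (h * x * h) ^ 2 = 1 := by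
    intro h x hh hx
    calc (h * x * h) ^ 2 = h * x * (h * h) * x * h := by rw [pow_two]; group
      _ = h * (x ^ 2) * h := by rw [hh, mul_one, pow_two]; group
      _ = 1 := by rw [hx, mul_one, hh]
  have hb2 : (M.b g) ^ 2 = 1 := by rw [pow_two, M.bb]
  have hsq : ∀ i, gs i ^ 2 = 1 := by
    intro i
    fin_cases i
    · exact hb2
    · exact hconjpow _ _ M.aa hb2
    · exact hconjpow _ _ (M.bb y) (hconjpow _ _ M.aa hb2)
    · exact hconjpow _ _ M.aa (hconjpow _ _ (M.bb y) (hconjpow _ _ M.aa hb2))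
  refine ⟨gs, hNS, ?_, ?_, ?_⟩
  · have m1 : M.a * M.b g * M.a ∈ M.B ^ 3 :=
      mul_mem_pow_add (m := 2) (n := 1) (mul_mem_pow_add (m := 1) (n := 1) M.a_mem1 (M.b_mem1 g))
        M.a_mem1
    have m2 : M.b y * (M.a * M.b g * M.a) * M.b y ∈ M.B ^ 5 :=
      mul_mem_pow_add (m := 4) (n := 1) (mul_mem_pow_add (m := 1) (n := 3) (M.b_mem1 y) m1)
        (M.b_mem1 y)
    have m3 : M.a * (M.b y * (M.a * M.b g * M.a) * M.b y) * M.a ∈ M.B ^ 7 :=
      mul_mem_pow_add (m := 6) (n := 1) (mul_mem_pow_add (m := 1) (n := 5) M.a_mem1 m2)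
        M.a_mem1
    intro i
    fin_cases i
    · exact M.B_mono (by norm_num) (M.b_mem1 g)
    · exact M.B_mono (by norm_num) m1
    · exact M.B_mono (by norm_num) m2
    · exact m3
  · intro i
    have : gs i ^ 8 = (gs i ^ 2) ^ 4 := by rw [← pow_mul]
    rw [this, hsq, one_pow]
  · -- representatives
    have hSn : (M.SS g g).Normal := inferInstance
    have hP : ∀ h : M.X, ∃ ε : ℕ, ∃ j : ℤ, ∃ s ∈ M.SS g g,
        h = M.a ^ ε * (M.a * M.b y) ^ j * s := by
      intro h
      refine M.third_letter hgy (P := fun h => ∃ ε : ℕ, ∃ j : ℤ, ∃ s ∈ M.SS g g,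
        h = M.a ^ ε * (M.a * M.b y) ^ j * s) ?_ ?_ ?_ ?_ h
      · rintro x ⟨ε, j, s, hs, rfl⟩
        exact ⟨ε + 1, j, s, hs, by rw [pow_succ']; group⟩
      · rintro x ⟨ε, j, s, hs, rfl⟩
        refine ⟨ε, j, ((M.a ^ ε * (M.a * M.b y) ^ j)⁻¹ * M.b g *
          (M.a ^ ε * (M.a * M.b y) ^ j)) * s, ?_, ?_⟩
        · refine Subgroup.mul_mem _ ?_ hs
          have := hSn.conj_mem _ hbS (M.a ^ ε * (M.a * M.b y) ^ j)⁻¹
          rwa [inv_inv] at this
        · group
      · rintro x ⟨ε, j, s, hs, rfl⟩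
        rcases Nat.even_or_odd ε with hε | hε
        · obtain ⟨k, rfl⟩ := hε
          refine ⟨1, j + 1, s, hs, ?_⟩
          have e : M.a ^ (k + k) = 1 := by
            rw [← two_mul, pow_mul, pow_two, M.aa, one_pow]
          rw [e, one_mul, pow_one, add_comm j 1, zpow_add, zpow_one]
          have e2 : M.a * (M.a * M.b y * (M.a * M.b y) ^ j) * s =
              M.a * (M.a * (M.b y * ((M.a * M.b y) ^ j * s))) := by
            simp only [mul_assoc]
          rw [e2, M.a_mul_a]
        · obtain ⟨k, rfl⟩ := hε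
          refine ⟨0, j - 1, s, hs, ?_⟩
          have e : M.a ^ (2 * k + 1) = M.a := by
            rw [pow_succ, pow_mul, pow_two, M.aa, one_pow, one_mul]
          rw [e, pow_zero, one_mul]
          have e2 : (M.a * M.b y) ^ (j - 1) = M.b y * M.a * (M.a * M.b y) ^ j := by
            have e3 : j - 1 = -1 + j := by ring
            rw [e3, zpow_add, zpow_neg_one, mul_inv_rev, M.a_inv, M.b_inv]
          rw [e2]; group
      · exact ⟨0, 0, 1, Subgroup.one_mem _, by simp⟩
    intro h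
    obtain ⟨ε, j, s, hs, rfl⟩ := hP h
    set t := M.a * M.b y with ht
    -- reduce exponents
    obtain ⟨i, hi, hti⟩ : ∃ i : ℕ, i < 4 ∧ t ^ j = t ^ i := by
      refine ⟨(j % 4).toNat, by omega, ?_⟩
      have h5 : ((j % 4).toNat : ℤ) = j % 4 := by omega
      rw [← zpow_natCast, h5]
      conv_lhs => rw [← Int.emod_add_mul_ediv j 4, zpow_add, zpow_mul]
      have h6 : t ^ (4 : ℤ) = 1 := by
        have : (4 : ℤ) = ((4 : ℕ) : ℤ) := rfl
        rw [this, zpow_natCast, h4]
      rw [h6, one_zpow, mul_one]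
    obtain ⟨e, he, hae⟩ : ∃ e : ℕ, e < 2 ∧ M.a ^ ε = M.a ^ e := by
      refine ⟨ε % 2, Nat.mod_lt _ (by norm_num), ?_⟩
      conv_lhs => rw [← Nat.mod_add_div ε 2, pow_add, pow_mul, pow_two, M.aa, one_pow, mul_one]
    refine ⟨M.a ^ ε * t ^ j, ?_, ?_, s, hs, rfl⟩
    · rw [hti, hae]
      have m0 : t ∈ M.B ^ 2 := mul_mem_pow_add (m := 1) (n := 1) M.a_mem1 (M.b_mem1 y)
      have m1 : t ^ i ∈ M.B ^ (2 * i) := by
        clear hi hti
        induction i with
        | zero => simp
        | succ i ih => rw [pow_succ, Nat.mul_succ]; exact mul_mem_pow_add ih m0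
      have m2 : M.a ^ e ∈ M.B ^ e := Set.pow_mem_pow M.a_mem_B
      exact M.B_mono (by omega) (mul_mem_pow_add m2 m1)
    · rw [hae]
      interval_cases e
      · rw [pow_zero, one_mul, ← zpow_natCast, ← zpow_mul, mul_comm, zpow_mul]
        have h6 : t ^ ((4 : ℕ) : ℤ) = 1 := by rw [zpow_natCast, h4]
        rw [h6, one_zpow]; exact Subgroup.one_mem _
      · rw [pow_one]
        have h7 : M.a * t ^ j * M.a⁻¹ = (M.a * t * M.a⁻¹) ^ j := (conj_zpow).symm
        have h8 : M.a * t * M.a⁻¹ = t⁻¹ := by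
          rw [ht, M.a_inv, M.a_mul_a, mul_inv_rev, M.a_inv, M.b_inv]
        have h9 : M.a * t ^ j * (M.a * t ^ j) = 1 := by
          have : M.a * t ^ j * (M.a * t ^ j) = (M.a * t ^ j * M.a⁻¹) * t ^ j := by
            rw [M.a_inv]; group
          rw [this, h7, h8, inv_zpow, inv_mul_cancel]
        have h10 : (M.a * t ^ j) ^ 4 = (M.a * t ^ j * (M.a * t ^ j)) ^ 2 := by
          rw [← pow_two, ← pow_mul]
        rw [h10, h9, one_pow]; exact Subgroup.one_mem _

/-- second type -/
lemma good2 {c g : Fin 3} (hcg : c ≠ g) (h8 : (M.a * M.b c) ^ 8 = 1) :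
    M.GoodData (M.SS c g) := by
  have hsg : M.sg c g = M.a * M.b c := by simp [sg, hcg]
  set t := M.a * M.b c with ht
  set gs : Fin 4 → M.X := ![t, M.b g * t * M.b g, 1, 1] with hgs
  set N := Subgroup.closure (Set.range gs) with hN
  have hmem : ∀ i, gs i ∈ N := fun i => Subgroup.subset_closure ⟨i, rfl⟩
  have htN : t ∈ N := hmem 0
  have ht'N : M.b g * t * M.b g ∈ N := hmem 1
  have htinv : t⁻¹ = M.b c * M.a := by rw [ht, mul_inv_rev, M.a_inv, M.b_inv]
  have hat : M.a * t * M.a = t⁻¹ := by rw [htinv, ht, M.a_mul_a]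
  have hct : M.b c * t * M.b c = t⁻¹ := by
    rw [htinv, ht, mul_assoc, mul_assoc, M.bb, mul_one]
  -- the square of `b_g a`
  have hv : M.b g * t * M.b g * t⁻¹ = (M.b g * M.a) * (M.b g * M.a) := by
    rw [htinv, ht]
    calc M.b g * (M.a * M.b c) * M.b g * (M.b c * M.a) =
        M.b g * M.a * (M.b c * M.b g) * M.b c * M.a := by group
      _ = M.b g * M.a * M.b g * (M.b c * M.b c) * M.a := by rw [M.b_comm c g]; group
      _ = _ := by rw [M.bb, mul_one]; group
  have hvN : (M.b g * M.a) * (M.b g * M.a) ∈ N := by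
    rw [← hv]; exact N.mul_mem ht'N (N.inv_mem htN)
  have ha : ∀ x ∈ N, M.a * x * M.a ∈ N := by
    apply conj_closure gs M.a M.aa
    intro i
    fin_cases i
    · change M.a * t * M.a ∈ N
      rw [hat]; exact N.inv_mem htN
    · change M.a * (M.b g * t * M.b g) * M.a ∈ N
      have e : M.a * (M.b g * t * M.b g) * M.a =
          ((M.b g * M.a) * (M.b g * M.a))⁻¹ * (M.b g * t * M.b g)⁻¹ *
            ((M.b g * M.a) * (M.b g * M.a)) := by
        have e1 : (M.b g * t * M.b g)⁻¹ = M.b g * (M.a * t * M.a) * M.b g := by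
          rw [hat, mul_inv_rev, mul_inv_rev, M.b_inv]; group
        rw [e1, mul_inv_rev, mul_inv_rev, M.a_inv, M.b_inv]
        calc M.a * (M.b g * t * M.b g) * M.a =
            M.a * M.b g * 1 * t * 1 * M.b g * M.a := by group
          _ = M.a * M.b g * (M.a * M.a) * t * (M.a * M.a) * M.b g * M.a := by rw [M.aa]
          _ = M.a * M.b g * M.a * 1 * (M.a * t * M.a) * 1 * M.a * M.b g * M.a := by group
          _ = M.a * M.b g * M.a * (M.b g * M.b g) * (M.a * t * M.a) * (M.b g * M.b g) * M.a *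
              M.b g * M.a := by rw [M.bb]
          _ = _ := by group
      rw [e]
      exact N.mul_mem (N.mul_mem (N.inv_mem hvN) (N.inv_mem ht'N)) hvN
    · change M.a * 1 * M.a ∈ N
      rw [mul_one, M.aa]; exact N.one_mem
    · change M.a * 1 * M.a ∈ N
      rw [mul_one, M.aa]; exact N.one_mem
  have hc : ∀ x ∈ N, M.b c * x * M.b c ∈ N := by
    apply conj_closure gs (M.b c) (M.bb c)
    intro i
    fin_cases i
    · change M.b c * t * M.b c ∈ N
      rw [hct]; exact N.inv_mem htN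
    · change M.b c * (M.b g * t * M.b g) * M.b c ∈ N
      have e3 : ∀ u : M.X, (M.b g * u * M.b g)⁻¹ = M.b g * u⁻¹ * M.b g := by
        intro u
        rw [mul_inv_rev, mul_inv_rev, M.b_inv, mul_assoc]
      have e : M.b c * (M.b g * t * M.b g) * M.b c = (M.b g * t * M.b g)⁻¹ := by
        calc M.b c * (M.b g * t * M.b g) * M.b c =
            (M.b c * M.b g) * t * (M.b g * M.b c) := by group
          _ = (M.b g * M.b c) * t * (M.b c * M.b g) := by rw [M.b_comm c g]
          _ = M.b g * (M.b c * t * M.b c) * M.b g := by group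
          _ = _ := by rw [hct, e3]
      rw [e]; exact N.inv_mem ht'N
    · change M.b c * 1 * M.b c ∈ N
      rw [mul_one, M.bb]; exact N.one_mem
    · change M.b c * 1 * M.b c ∈ N
      rw [mul_one, M.bb]; exact N.one_mem
  have hg : ∀ x ∈ N, M.b g * x * M.b g ∈ N := by
    apply conj_closure gs (M.b g) (M.bb g)
    intro i
    fin_cases i
    · exact ht'N
    · change M.b g * (M.b g * t * M.b g) * M.b g ∈ N
      have e : M.b g * (M.b g * t * M.b g) * M.b g = t := by
        simp only [mul_assoc, M.b_mul_b, M.bb, mul_one]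
      rw [e]; exact htN
    · change M.b g * 1 * M.b g ∈ N
      rw [mul_one, M.bb]; exact N.one_mem
    · change M.b g * 1 * M.b g ∈ N
      rw [mul_one, M.bb]; exact N.one_mem
  have hNn : N.Normal := M.normal_of_three hcg N ha hc hg
  have htS : t ∈ M.SS c g := by
    have := M.sg_mem c g
    rwa [hsg] at this
  have hSn : (M.SS c g).Normal := inferInstance
  have ht'S : M.b g * t * M.b g ∈ M.SS c g := by
    have := hSn.conj_mem _ htS (M.b g)
    rwa [M.b_inv] at this
  have hNS : N = M.SS c g := by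
    apply le_antisymm
    · rw [hN, Subgroup.closure_le]
      rintro _ ⟨i, rfl⟩
      fin_cases i
      · exact htS
      · exact ht'S
      · exact Subgroup.one_mem _
      · exact Subgroup.one_mem _
    · apply Subgroup.normalClosure_le_normal
      intro x hx
      rw [Set.mem_singleton_iff] at hx
      rw [hx, hsg]
      exact htN
  refine ⟨gs, hNS, ?_, ?_, ?_⟩
  · have m0 : t ∈ M.B ^ 2 := mul_mem_pow_add (m := 1) (n := 1) M.a_mem1 (M.b_mem1 c)
    have m1 : M.b g * t * M.b g ∈ M.B ^ 4 :=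
      mul_mem_pow_add (m := 3) (n := 1) (mul_mem_pow_add (m := 1) (n := 2) (M.b_mem1 g) m0)
        (M.b_mem1 g)
    intro i
    fin_cases i
    · exact M.B_mono (by norm_num) m0
    · exact M.B_mono (by norm_num) m1
    · exact M.B_mono (m := 0) (by norm_num) (by change (1 : M.X) ∈ M.B ^ 0; simp)
    · exact M.B_mono (m := 0) (by norm_num) (by change (1 : M.X) ∈ M.B ^ 0; simp)
  · intro i
    fin_cases i
    · exact h8
    · change (M.b g * t * M.b g) ^ 8 = 1
      have e : M.b g * t * M.b g = M.b g * t * (M.b g)⁻¹ := by rw [M.b_inv]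
      rw [e, conj_pow, h8, mul_one, mul_inv_cancel]
    · exact one_pow _
    · exact one_pow _
  · have hkap : ⁅M.a, M.b g⁆ ∈ M.SS c g := M.Kc_le_SS c g (M.kap_mem g)
    have hP : ∀ h : M.X, ∃ ε < 2, ∃ δ < 2, ∃ s ∈ M.SS c g,
        h = M.a ^ ε * M.b g ^ δ * s := by
      have hPa : ∀ x : M.X, (∃ ε < 2, ∃ δ < 2, ∃ s ∈ M.SS c g, x = M.a ^ ε * M.b g ^ δ * s) →
          (∃ ε < 2, ∃ δ < 2, ∃ s ∈ M.SS c g, M.a * x = M.a ^ ε * M.b g ^ δ * s) := by
        rintro x ⟨ε, hε, δ, hδ, s, hs, rfl⟩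
        interval_cases ε
        · exact ⟨1, by norm_num, δ, hδ, s, hs, by rw [pow_zero, pow_one, one_mul]; group⟩
        · refine ⟨0, by norm_num, δ, hδ, s, hs, ?_⟩
          rw [pow_zero, pow_one, one_mul, mul_assoc, M.a_mul_a]
      intro h
      refine M.third_letter hcg (P := fun h => ∃ ε < 2, ∃ δ < 2, ∃ s ∈ M.SS c g,
        h = M.a ^ ε * M.b g ^ δ * s) hPa ?_ ?_ ?_ h
      · intro x hx
        have e : M.b c * x = M.a * (t * x) := by rw [ht, mul_assoc, M.a_mul_a]
        rw [e]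
        apply hPa
        obtain ⟨ε, hε, δ, hδ, s, hs, rfl⟩ := hx
        refine ⟨ε, hε, δ, hδ, ((M.a ^ ε * M.b g ^ δ)⁻¹ * t * (M.a ^ ε * M.b g ^ δ)) * s, ?_, ?_⟩
        · refine Subgroup.mul_mem _ ?_ hs
          have := hSn.conj_mem _ htS (M.a ^ ε * M.b g ^ δ)⁻¹
          rwa [inv_inv] at this
        · group
      · rintro x ⟨ε, hε, δ, hδ, s, hs, rfl⟩
        interval_cases ε
        · interval_cases δ
          · exact ⟨0, by norm_num, 1, by norm_num, s, hs, by
              rw [pow_zero, pow_zero, pow_one, one_mul, one_mul, one_mul]⟩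
          · exact ⟨0, by norm_num, 0, by norm_num, s, hs, by
              rw [pow_zero, pow_zero, pow_one, one_mul, one_mul, one_mul, M.b_mul_b]⟩
        · have key : M.b g * M.a = M.a * M.b g * (⁅M.a, M.b g⁆)⁻¹ := by
            rw [M.kap_eq, mul_inv_rev, mul_inv_rev, mul_inv_rev, M.a_inv, M.b_inv]
            calc M.b g * M.a = 1 * M.b g * M.a := by group
              _ = (M.a * M.a) * M.b g * M.a := by rw [M.aa]
              _ = M.a * 1 * M.a * M.b g * M.a := by group
              _ = M.a * (M.b g * M.b g) * M.a * M.b g * M.a := by rw [M.bb]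
              _ = _ := by group
          have hkinv : (⁅M.a, M.b g⁆)⁻¹ ∈ M.SS c g := Subgroup.inv_mem _ hkap
          interval_cases δ
          · refine ⟨1, by norm_num, 1, by norm_num, (⁅M.a, M.b g⁆)⁻¹ * s,
              Subgroup.mul_mem _ hkinv hs, ?_⟩
            rw [pow_zero, pow_one, pow_one, mul_one, ← mul_assoc, key]; group
          · refine ⟨1, by norm_num, 0, by norm_num,
              (M.b g * (⁅M.a, M.b g⁆)⁻¹ * M.b g) * s, ?_, ?_⟩
            · refine Subgroup.mul_mem _ ?_ hs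
              have := hSn.conj_mem _ hkinv (M.b g)
              rwa [M.b_inv] at this
            · rw [pow_zero, pow_one, pow_one, mul_one]
              calc M.b g * (M.a * M.b g * s) = (M.b g * M.a) * M.b g * s := by group
                _ = _ := by rw [key]; group
      · exact ⟨0, by norm_num, 0, by norm_num, 1, Subgroup.one_mem _, by simp⟩
    intro h
    obtain ⟨ε, hε, δ, hδ, s, hs, rfl⟩ := hP h
    refine ⟨M.a ^ ε * M.b g ^ δ, ?_, ?_, s, hs, rfl⟩
    · have m1 : M.a ^ ε ∈ M.B ^ ε := Set.pow_mem_pow M.a_mem_B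
      have m2 : M.b g ^ δ ∈ M.B ^ δ := Set.pow_mem_pow (M.b_mem_B g)
      exact M.B_mono (by omega) (mul_mem_pow_add m1 m2)
    · interval_cases ε
      · rw [pow_zero, one_mul, ← pow_mul, mul_comm, pow_mul]
        have e : M.b g ^ 4 = (M.b g * M.b g) ^ 2 := by rw [← pow_two, ← pow_mul]
        rw [e, M.bb, one_pow, one_pow]; exact Subgroup.one_mem _
      · interval_cases δ
        · rw [pow_zero, mul_one, pow_one]
          have e : M.a ^ 4 = (M.a * M.a) ^ 2 := by rw [← pow_two, ← pow_mul]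
          rw [e, M.aa, one_pow]; exact Subgroup.one_mem _
        · rw [pow_one, pow_one]
          have e : (M.a * M.b g) ^ 4 = ⁅M.a, M.b g⁆ ^ 2 := by
            rw [M.kap_eq]
            simp only [pow_succ, pow_zero, one_mul, mul_assoc]
          rw [e]
          exact Subgroup.pow_mem _ hkap 2

/-- consequences of the data: short representatives, two-powers, finite index -/
lemma GoodData.spec {M : MG} {S : Subgroup M.X} (hSn : S.Normal) (h : M.GoodData S) :
    (∃ gs : Fin 4 → M.X, Subgroup.closure (Set.range gs) = S) ∧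
    (∀ x : M.X, ∃ ν ∈ ⁅S, S⁆, M.len (x * ν) ≤ 232) ∧
    (∀ x : M.X, x ^ (2 ^ 5) ∈ ⁅S, S⁆) ∧ (⁅S, S⁆ : Subgroup M.X).FiniteIndex := by
  obtain ⟨gs, hgs, hlen, h8, hrep⟩ := h
  have h1 : ∀ x : M.X, ∃ ν ∈ ⁅S, S⁆, x * ν ∈ M.B ^ 232 := by
    intro x
    obtain ⟨δ, hδ, -, s, hs, rfl⟩ := hrep x
    obtain ⟨p, hp, ν, hν, rfl⟩ := ab_short M.one_mem_B gs hgs 7 hlen 8 (by norm_num) h8 s hs
    refine ⟨ν⁻¹, Subgroup.inv_mem _ hν, ?_⟩
    have e : δ * (p * ν) * ν⁻¹ = δ * p := by group
    rw [e]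
    exact M.B_mono (by norm_num) (mul_mem_pow_add hδ hp)
  refine ⟨⟨gs, hgs⟩, ?_, ?_, ?_⟩
  · intro x
    obtain ⟨ν, hν, hx⟩ := h1 x
    exact ⟨ν, hν, M.len_le hx⟩
  · intro x
    obtain ⟨δ, -, hδ, s, hs, rfl⟩ := hrep x
    have h4 : (δ * s) ^ 4 ∈ S := by
      have e : ((δ * s : M.X) : M.X ⧸ S) = (δ : M.X ⧸ S) := by
        rw [QuotientGroup.mk_mul, (QuotientGroup.eq_one_iff s).mpr hs, mul_one]
      rw [← QuotientGroup.eq_one_iff, QuotientGroup.mk_pow, e, ← QuotientGroup.mk_pow,
        QuotientGroup.eq_one_iff]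
      exact hδ
    have h5 := ab_pow gs hgs 8 h8 _ h4
    rw [← pow_mul] at h5
    exact h5
  · have hfin : Finite (M.X ⧸ (⁅S, S⁆ : Subgroup M.X)) := by
      have hB : (M.B ^ 232).Finite := by
        have : ∀ n : ℕ, (M.B ^ n).Finite := by
          intro n
          induction n with
          | zero => simp
          | succ n ih => rw [pow_succ]; exact ih.mul M.B_finite
        exact this _
      have hBf : Finite (M.B ^ 232 : Set M.X) := hB
      refine Finite.of_surjective (fun b : (M.B ^ 232 : Set M.X) =>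
        ((b : M.X) : M.X ⧸ (⁅S, S⁆ : Subgroup M.X))) ?_
      intro q
      obtain ⟨x, rfl⟩ := QuotientGroup.mk_surjective q
      obtain ⟨ν, hν, hx⟩ := h1 x
      refine ⟨⟨x * ν, hx⟩, ?_⟩
      change ((x * ν : M.X) : M.X ⧸ (⁅S, S⁆ : Subgroup M.X)) = (x : M.X ⧸ _)
      rw [QuotientGroup.eq]
      have e : (x * ν)⁻¹ * x = ν⁻¹ := by group
      rw [e]; exact Subgroup.inv_mem _ hν
    exact Subgroup.finiteIndex_of_finite_quotient

end MG

/-- good data from two steps below -/
lemma St.good {M M1 M2 : MG} {g1 g2 c g : Fin 3} (T1 : St M M1 g1) (T2 : St M1 M2 g2)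
    (hg : g ≠ g1) (hc : c = g ∨ c = g1 ∨ c = g2) : M.GoodData (M.SS c g) := by
  by_cases h : c = g
  · subst h
    exact M.good1 hg T1.ab_pow_four
  · apply M.good2 h
    by_cases h1 : c = g1
    · subst h1
      have := T1.ab_pow_four
      have e : (M.a * M.b c) ^ 8 = ((M.a * M.b c) ^ 4) ^ 2 := by rw [← pow_mul]
      rw [e, this, one_pow]
    · have h2 : c = g2 := by tauto
      subst h2
      exact T1.ab_pow_eight c h1 T2.ab_pow_four

end Pool.Agent.Helper220_VW
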