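import Mathlib

set_option autoImplicit false

namespace Pool.Agent.Helper220_VW.Grig

/-- The automorphism `a` of the binary rooted tree, whose vertices are the finite binary words:
it changes the first letter. -/
def a : List Bool → List Bool
  | [] => []
  | x :: w => (!x) :: w

/-- The automorphism `b_i` of the binary rooted tree for the sequence `ω`:
`b_i (0w) = 0w` if `ω 0 = i`, `b_i (0w) = 0 a(w)` if `ω 0 ≠ i`, and `b_i (1w) = 1 b_i'(w)` where
`b_i'` is `b_i` for the shifted sequence. The letters `0` and `1` are `false` and `true`. -/
def b (i : Fin 3) : (ℕ → Fin 3) → List Bool → List Bool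
  | _, [] => []
  | ω, false :: w => false :: (if ω 0 = i then w else a w)
  | ω, true :: w => true :: b i (fun n => ω (n + 1)) w

/-- The Grigorchuk group of the sequence `ω`: the group generated by the permutations
`a`, `b_0`, `b_1`, `b_2` of the set of finite binary words. -/
def Gr (ω : ℕ → Fin 3) : Subgroup (Equiv.Perm (List Bool)) :=
  Subgroup.closure {g | (∀ w, g w = a w) ∨ ∃ i, ∀ w, g w = b i ω w}

end Pool.Agent.Helper220_VW.Grig
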