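import Pool.Agent.Helper220_VW.Chain
import Pool.Agent.Helper220_VW.Final

set_option autoImplicit false

open Pointwise
open scoped commutatorElement

namespace Pool.Agent.Helper220_VW

section

variable {G : Type*} [Group G] {W : Set G}

lemma U_inv : ∀ g ∈ (W ∪ W⁻¹ ∪ {1} : Set G), g⁻¹ ∈ (W ∪ W⁻¹ ∪ {1} : Set G) := by
  rintro g ((hg | hg) | hg)
  · exact Or.inl (Or.inr (by simpa using hg))
  · exact Or.inl (Or.inl (by simpa using hg))
  · right
    simp only [Set.mem_singleton_iff] at hg ⊢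
    rw [hg, inv_one]

lemma U_conj (hW : ∀ g, ∀ w ∈ W, g * w * g⁻¹ ∈ W) (a : G) :
    ∀ g ∈ (W ∪ W⁻¹ ∪ {1} : Set G), a * g * a⁻¹ ∈ (W ∪ W⁻¹ ∪ {1} : Set G) := by
  rintro g ((hg | hg) | hg)
  · exact Or.inl (Or.inl (hW a g hg))
  · refine Or.inl (Or.inr ?_)
    rw [Set.mem_inv] at hg ⊢
    have := hW a _ hg
    have e : (a * g * a⁻¹)⁻¹ = a * g⁻¹ * a⁻¹ := by group
    rwa [e]
  · right
    simp only [Set.mem_singleton_iff] at hg ⊢
    rw [hg]; group

end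

lemma pow_subset_closure {G : Type*} [Group G] (U : Set G) (n : ℕ) {g : G} (hg : g ∈ U ^ n) :
    g ∈ Subgroup.closure U := by
  induction n generalizing g with
  | zero =>
    simp only [pow_zero, Set.mem_one] at hg
    rw [hg]; exact Subgroup.one_mem _
  | succ n ih =>
    rw [pow_succ] at hg
    obtain ⟨x, hx, y, hy, rfl⟩ := Set.mem_mul.mp hg
    exact Subgroup.mul_mem _ (ih hx) (Subgroup.subset_closure hy)

lemma closure_U {G : Type*} [Group G] (W : Set G) :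
    Subgroup.closure (W ∪ W⁻¹ ∪ {1} : Set G) = Subgroup.closure W := by
  apply le_antisymm
  · rw [Subgroup.closure_le]
    rintro g ((hg | hg) | hg)
    · exact Subgroup.subset_closure hg
    · have := Subgroup.subset_closure (Set.mem_inv.mp hg)
      simpa using (Subgroup.closure W).inv_mem this
    · simp only [Set.mem_singleton_iff] at hg
      rw [hg]; exact Subgroup.one_mem _
  · exact Subgroup.closure_mono fun x hx => Or.inl (Or.inl hx)

/-- From bounded commutator width of a subgroup whose commutator subgroup branches: a subgroup of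
finite index consists of bounded products. -/
theorem verbal_dsub {G H D : Type*} [Group G] [Group H] [Finite D] [DecidableEq D] (R : Rec G H D)
    (Q : Subgroup H) (hQ : Q.Normal)
    (hbr : R.Branch ⊤ ⁅Q, Q⁆) (N : ℕ) (hN : ∀ y ∈ ⁅Q, Q⁆, y ∈ Cm Q ^ N)
    (htrans : R.Trans) (W : Set G) (hW : ∀ g, ∀ w ∈ W, g * w * g⁻¹ ∈ W)
    (u : D) (e : ℕ)
    (h1 : ∀ x ∈ Cm Q, ∀ g, R.Dg g (Pi.mulSingle u x) → g ∈ (W ∪ W⁻¹ ∪ {1} : Set G) ^ e) :
    ∃ M : ℕ, ∀ g ∈ R.dsub ⁅Q, Q⁆, g ∈ (W ∪ W⁻¹ ∪ {1} : Set G) ^ M := by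
  have := Fintype.ofFinite D
  set U : Set G := W ∪ W⁻¹ ∪ {1} with hU
  have hU1 : (1 : G) ∈ U := by simp [hU]
  have hUinv : ∀ g ∈ U, g⁻¹ ∈ U := U_inv
  have hUconj : ∀ a : G, ∀ g ∈ U, a * g * a⁻¹ ∈ U := U_conj hW
  have hsL : ∀ (v : D) (x : H), x ∈ ⁅Q, Q⁆ → ∀ w, (Pi.mulSingle v x : D → H) w ∈ ⁅Q, Q⁆ := by
    intro v x hx w
    by_cases hw : w = v
    · subst hw; simpa using hx
    · rw [Pi.mulSingle_eq_of_ne hw]; exact Subgroup.one_mem _
  -- products of commutators at `u`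
  have h2 : ∀ n : ℕ, ∀ x ∈ Cm Q ^ n, ∀ g, R.Dg g (Pi.mulSingle u x) → g ∈ U ^ (e * n) := by
    intro n
    induction n with
    | zero =>
      intro x hx g hg
      simp only [pow_zero, Set.mem_one] at hx
      subst hx
      have : g = 1 := hg.unique (Rec.Dg.one.congr fun v => by simp)
      rw [this]; simp
    | succ n ih =>
      intro x hx g hg
      rw [pow_succ] at hx
      obtain ⟨a, ha, b, hb, rfl⟩ := Set.mem_mul.mp hx
      obtain ⟨ga, -, hga⟩ := hbr _ (hsL u a (Cm_pow_subset Q n ha))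
      obtain ⟨gb, -, hgb⟩ := hbr _ (hsL u b (Cm_subset Q hb))
      have : g = ga * gb := by
        refine hg.unique ((hga.mul hgb).congr fun v => ?_)
        rw [← Pi.mulSingle_mul]
      rw [this, Nat.mul_succ]
      exact mul_mem_pow_add (ih a ha ga hga) (h1 b hb gb hgb)
  have hLL : (⁅Q, Q⁆ : Subgroup H).Normal := Subgroup.commutator_normal Q Q
  -- elements of the commutator subgroup at any vertex
  have h3 : ∀ v : D, ∀ x ∈ ⁅Q, Q⁆, ∀ g, R.Dg g (Pi.mulSingle v x) → g ∈ U ^ (e * N) := by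
    intro v x hx g hg
    obtain ⟨a, ha⟩ := htrans v u
    have h4 : R.Dg (a * g * a⁻¹) (Pi.mulSingle u (R.sec a v * x * (R.sec a v)⁻¹)) := by
      have := hg.conj_single a
      rwa [ha] at this
    have h5 := h2 N _ (hN _ (hLL.conj_mem x hx (R.sec a v))) _ h4
    have h6 : g = a⁻¹ * (a * g * a⁻¹) * (a⁻¹)⁻¹ := by group
    rw [h6]
    exact conj_mem_pow (hUconj a⁻¹) h5
  -- all of `dsub`
  have h4 : ∀ l : List D, ∀ z : D → H, (∀ v, z v ∈ ⁅Q, Q⁆) → ∀ g,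
      R.Dg g (l.map (fun v => (Pi.mulSingle v (z v) : D → H))).prod →
      g ∈ U ^ (e * N * l.length) := by
    intro l z hz
    induction l with
    | nil =>
      intro g hg
      simp only [List.map_nil, List.prod_nil] at hg
      have : g = 1 := hg.unique Rec.Dg.one
      rw [this]; simp
    | cons a t ih =>
      intro g hg
      rw [List.map_cons, List.prod_cons] at hg
      obtain ⟨ga, -, hga⟩ := hbr _ (hsL a (z a) (hz a))
      have htL : ∀ w, (t.map (fun u => (Pi.mulSingle u (z u) : D → H))).prod w ∈ ⁅Q, Q⁆ := by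
        intro w
        rw [Rec.list_prod_mulSingle t (fun u => u) z w]
        apply Subgroup.list_prod_mem
        intro x hx
        obtain ⟨u, -, rfl⟩ := List.mem_map.mp hx
        exact hz u
      obtain ⟨gt, -, hgt⟩ := hbr _ htL
      have : g = ga * gt := hg.unique (hga.mul hgt)
      rw [this, List.length_cons, Nat.mul_succ, add_comm]
      exact mul_mem_pow_add (h3 a (z a) (hz a) ga hga) (ih gt hgt)
  set M := e * N * Fintype.card D with hM
  have h5 : ∀ g ∈ R.dsub ⁅Q, Q⁆, g ∈ U ^ M := by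
    intro g hg
    have h6 : R.Dg g (Finset.univ.toList.map
        (fun v => (Pi.mulSingle v (R.sec g v) : D → H))).prod := by
      rw [Rec.list_prod_mulSingle_univ]
      exact ⟨hg.1, fun _ => rfl⟩
    have h7 := h4 _ _ hg.2 g h6
    have h8 : (Finset.univ : Finset D).toList.length = Fintype.card D := by simp
    rwa [h8] at h7
  exact ⟨M, h5⟩

/-- From bounded commutator width of a subgroup whose commutator subgroup branches to verbal
width. -/
theorem verbal_core {G H D : Type*} [Group G] [Group H] [Finite D] [DecidableEq D] (R : Rec G H D)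
    (Q : Subgroup H) (hQ : Q.Normal) [(⁅Q, Q⁆ : Subgroup H).FiniteIndex]
    (hbr : R.Branch ⊤ ⁅Q, Q⁆) (N : ℕ) (hN : ∀ y ∈ ⁅Q, Q⁆, y ∈ Cm Q ^ N)
    (htrans : R.Trans) (W : Set G) (hW : ∀ g, ∀ w ∈ W, g * w * g⁻¹ ∈ W)
    (u : D) (e : ℕ)
    (h1 : ∀ x ∈ Cm Q, ∀ g, R.Dg g (Pi.mulSingle u x) → g ∈ (W ∪ W⁻¹ ∪ {1} : Set G) ^ e) :
    (∃ m : ℕ, ∀ g ∈ Subgroup.closure W, g ∈ (W ∪ W⁻¹ ∪ {1} : Set G) ^ m) ∧
      (Subgroup.closure W).FiniteIndex := by
  obtain ⟨M, h5⟩ := verbal_dsub R Q hQ hbr N hN htrans W hW u e h1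
  set U : Set G := W ∪ W⁻¹ ∪ {1} with hU
  have hU1 : (1 : G) ∈ U := by simp [hU]
  have hUinv : ∀ g ∈ U, g⁻¹ ∈ U := U_inv
  -- finitely many cosets
  have hfi : (R.dsub ⁅Q, Q⁆).FiniteIndex := Rec.dsub_finiteIndex _
  have hfq : Finite (G ⧸ R.dsub ⁅Q, Q⁆) := inferInstance
  have := Fintype.ofFinite (G ⧸ R.dsub ⁅Q, Q⁆)
  have hTex : ∀ q : G ⧸ R.dsub ⁅Q, Q⁆, ∃ n : ℕ, ∃ t ∈ U ^ n,
      ∀ g ∈ Subgroup.closure W, (g : G ⧸ R.dsub ⁅Q, Q⁆) = q → t⁻¹ * g ∈ R.dsub ⁅Q, Q⁆ := by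
    intro q
    by_cases hq : ∃ t ∈ Subgroup.closure W, ((t : G) : G ⧸ R.dsub ⁅Q, Q⁆) = q
    · obtain ⟨t, ht, htq⟩ := hq
      have ht' : t ∈ Subgroup.closure U :=
        Subgroup.closure_mono (fun x hx => Or.inl (Or.inl hx)) ht
      obtain ⟨n, hn⟩ := exists_mem_pow_of_mem_closure hUinv ht'
      refine ⟨n, t, hn, fun g _ hgq => ?_⟩
      rw [← QuotientGroup.eq, htq, hgq]
    · refine ⟨0, 1, by simp, fun g hg hgq => absurd ⟨g, hg, hgq⟩ hq⟩
  choose nT T hTn hTg using hTex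
  refine ⟨⟨Finset.univ.sup nT + M, fun g hg => ?_⟩, ?_⟩
  swap
  · refine Subgroup.finiteIndex_of_le (H := R.dsub ⁅Q, Q⁆) fun g hg => ?_
    have h6 : Subgroup.closure U = Subgroup.closure W := closure_U W
    rw [← h6]
    exact pow_subset_closure U M (h5 g hg)
  have h9 := hTg (g : G ⧸ R.dsub ⁅Q, Q⁆) g hg rfl
  have h10 : g = T (g : G ⧸ R.dsub ⁅Q, Q⁆) * ((T (g : G ⧸ R.dsub ⁅Q, Q⁆))⁻¹ * g) := by group
  rw [h10]
  refine mul_mem_pow_add ?_ (h5 _ h9)
  refine pow_mono_of_one hU1 ?_ (hTn _)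
  exact Finset.le_sup (f := nT) (Finset.mem_univ _)

/-- a double commutator with a moving element -/
lemma Rec.double_comm {G H D : Type*} [Group G] [Group H] [DecidableEq D] {R : Rec G H D}
    {h : G} {w : D} (hw : R.act h w ≠ w) {gx gy : G} {x y : H}
    (hgx : R.Dg gx (Pi.mulSingle w x)) (hgy : R.Dg gy (Pi.mulSingle w y)) :
    R.Dg ((gx * h * gx⁻¹) * h⁻¹ * (gy * ((gx * h * gx⁻¹) * h⁻¹)⁻¹ * gy⁻¹))
      (Pi.mulSingle w ⁅x, y⁆) := by
  have e1 : R.Dg (h * gx⁻¹ * h⁻¹) (Pi.mulSingle (R.act h w)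
      (R.sec h w * x⁻¹ * (R.sec h w)⁻¹)) := by
    have h2 : R.Dg gx⁻¹ (Pi.mulSingle w x⁻¹) := by
      refine hgx.inv.congr fun v => ?_
      rw [← Pi.mulSingle_inv]
    exact h2.conj_single h
  have e2 : R.Dg ⁅gx * (h * gx⁻¹ * h⁻¹), gy⁆ (Pi.mulSingle w ⁅x, y⁆) := by
    refine ((hgx.mul e1).commutator hgy).congr fun v => ?_
    by_cases hv : v = w
    · subst hv
      rw [commutatorElement_def, commutatorElement_def]
      simp only [Pi.mul_apply, Pi.inv_apply, Pi.mulSingle_eq_same]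
      rw [Pi.mulSingle_eq_of_ne (Ne.symm hw)]
      simp
    · rw [commutatorElement_def]
      simp only [Pi.mul_apply, Pi.inv_apply, Pi.mulSingle_eq_of_ne hv]
      simp
  have e4 : (gx * h * gx⁻¹) * h⁻¹ * (gy * ((gx * h * gx⁻¹) * h⁻¹)⁻¹ * gy⁻¹) =
      ⁅gx * (h * gx⁻¹ * h⁻¹), gy⁆ := by
    rw [commutatorElement_def]; group
  rw [e4]
  exact e2

/-- commutators at one vertex are short in terms of a moving element -/
lemma St.single_claim {G D : Type*} [Group G] [DecidableEq D] {P M : MG} {g : Fin 3}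
    (T : St P M g) (c : Fin 3) (R : Rec G P.X D) (hbr : R.Branch ⊤ (P.Kc c)) (U : Set G)
    (hUinv : ∀ g ∈ U, g⁻¹ ∈ U) (hUconj : ∀ a : G, ∀ g ∈ U, a * g * a⁻¹ ∈ U)
    (h : G) (hh : h ∈ U) (w : D) (hw : R.act h w ≠ w) :
    ∀ x ∈ Cm (M.SS c g), ∀ k, (R.comp T.R).Dg k (Pi.mulSingle (w, true) x) → k ∈ U ^ 4 := by
  rintro _ ⟨p, hp, q, hq, rfl⟩ k hk
  obtain ⟨ph, hph, hp1, hp2, hp3⟩ := T.pair c true p hp
  obtain ⟨qh, hqh, hq1, hq2, hq3⟩ := T.pair c true q hq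
  have hsL : ∀ x : P.X, x ∈ P.Kc c → ∀ v, (Pi.mulSingle w x : D → P.X) v ∈ P.Kc c := by
    intro x hx v
    by_cases hv : v = w
    · subst hv; simpa using hx
    · rw [Pi.mulSingle_eq_of_ne hv]; exact Subgroup.one_mem _
  obtain ⟨gx, -, hgx⟩ := hbr _ (hsL ph hph)
  obtain ⟨gy, -, hgy⟩ := hbr _ (hsL qh hqh)
  have h1 := Rec.double_comm hw hgx hgy
  have h2 := T.pair_comm c true p q ph qh hp1 hp2 hp3 hq1 hq2 hq3
  have h3 : (R.comp T.R).Dg ((gx * h * gx⁻¹) * h⁻¹ * (gy * ((gx * h * gx⁻¹) * h⁻¹)⁻¹ * gy⁻¹))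
      (Pi.mulSingle (w, true) ⁅p, q⁆) := by
    rw [Rec.comp_Dg]
    refine ⟨h1.1, fun v => ?_⟩
    rw [h1.2 v]
    by_cases hv : v = w
    · subst hv
      rw [Pi.mulSingle_eq_same]
      refine h2.congr fun y => ?_
      by_cases hy : y = true
      · subst hy; simp
      · rw [Pi.mulSingle_eq_of_ne hy, Pi.mulSingle_eq_of_ne (by simp [hy])]
    · rw [Pi.mulSingle_eq_of_ne hv]
      refine Rec.Dg.one.congr fun y => ?_
      rw [Pi.mulSingle_eq_of_ne (by simp [hv])]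
      rfl
  have h4 := hk.unique h3
  have m2 : (gx * h * gx⁻¹) * h⁻¹ ∈ U ^ 2 := by
    rw [pow_two]
    exact Set.mul_mem_mul (hUconj gx h hh) (hUinv h hh)
  rw [h4]
  have : (4 : ℕ) = 2 + 2 := rfl
  rw [this]
  exact mul_mem_pow_add m2 (conj_mem_pow (hUconj gy) (inv_mem_pow hUinv m2))

end Pool.Agent.Helper220_VW
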