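import Pool.Agent.Helper220_VW.GrigHom
import Pool.Agent.Helper220_VW.VCore

set_option autoImplicit false

open Pointwise
open scoped commutatorElement

namespace Pool.Agent.Helper220_VW

open Pool.Agent.Y803.GR (fa fb pa pb sh fa_fa fb_fb pa_mem pb_mem pa_mul_pa pb_mul_pb pb_mul)

/-- the recursion from the top to level `m` -/
noncomputable def RR : ∀ (m : ℕ) (ω : ℕ → Fin 3), Rec (RG ω).X (RG (shn m ω)).X (DD m)
  | 0, ω => Rec.triv (RG ω).X
  | m + 1, ω => (RGS ω).R.comp (RR m (sh ω))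

lemma RR_branch (m : ℕ) : ∀ (ω : ℕ → Fin 3) (e : Fin 3),
    (RR (m + 1) ω).Branch ((RG ω).Kc e) ((RG (shn (m + 1) ω)).Kc (ω m)) := by
  induction m with
  | zero =>
    intro ω e
    exact Rec.Branch.comp ((RGS ω).branch_K e) (Rec.triv_branch _)
  | succ m ih =>
    intro ω e
    exact Rec.Branch.comp ((RGS ω).branch_K e) (ih (sh ω) (ω 0))

lemma RR_onto (m : ℕ) : ∀ ω : ℕ → Fin 3, (RR m ω).Onto := by
  induction m with
  | zero => intro ω; exact Rec.triv_onto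
  | succ m ih => intro ω; exact Rec.Onto.comp (RGS ω).R_onto (ih (sh ω))

lemma RR_trans (m : ℕ) : ∀ ω : ℕ → Fin 3, (RR m ω).Trans := by
  induction m with
  | zero => intro ω; exact Rec.triv_trans
  | succ m ih => intro ω; exact Rec.Trans.comp (RGS ω).R_trans (RGS ω).R_onto (ih (sh ω))

/-- an element which moves a word moves a point of every deep level -/
lemma RR_moved (v : List Bool) : ∀ (ω : ℕ → Fin 3) (h : (RG ω).X), h.1 v ≠ v →
    ∀ m, v.length ≤ m → ∃ w, (RR m ω).act h w ≠ w := by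
  induction v with
  | nil => intro ω h hv; exact absurd (lnil ω h) hv
  | cons x v ih =>
    intro ω h hv m hm
    obtain ⟨m', rfl⟩ : ∃ m', m = m' + 1 := ⟨m - 1, by simp at hm; omega⟩
    have hm' : v.length ≤ m' := by simpa using hm
    rw [lspec] at hv
    by_cases hx : lact ω h x = x
    · rw [hx] at hv
      have hv' : (lsec ω h x).1 v ≠ v := fun hc => hv (by rw [hc])
      obtain ⟨w, hw⟩ := ih (sh ω) (lsec ω h x) hv' m' hm'
      refine ⟨(x, w), fun hc => hw ?_⟩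
      exact (Prod.ext_iff.mp hc).2
    · refine ⟨(x, Classical.arbitrary (DD m')), fun hc => hx ?_⟩
      exact (Prod.ext_iff.mp hc).1

/-- finite verbal width in the Grigorchuk groups -/
theorem grig_width_fi (ω : ℕ → Fin 3) (hω : ∀ i N, ∃ n ≥ N, ω n ≠ i) (W : Set (RG ω).X)
    (hW : ∀ g, ∀ w ∈ W, g * w * g⁻¹ ∈ W) (h : (RG ω).X) (hh : h ∈ W) (hne : h ≠ 1) :
    (∃ m : ℕ, ∀ g ∈ Subgroup.closure W, g ∈ (W ∪ W⁻¹ ∪ {1} : Set (RG ω).X) ^ m) ∧
      (Subgroup.closure W).FiniteIndex := by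
  classical
  obtain ⟨v, hv⟩ : ∃ v, h.1 v ≠ v := by
    by_contra hc
    push Not at hc
    exact hne (Subtype.ext (Equiv.ext hc))
  obtain ⟨n, hn, hgood⟩ := exists_good hω v.length
  obtain ⟨N, hN⟩ := cw_real
  have hcw := hN ω hω n hgood
  -- the letters
  have e0 : shn (n + 1) ω 0 = ω (n + 1) := congrArg ω (by omega)
  have e1 : sh (shn (n + 1) ω) 0 = ω (n + 2) := congrArg ω (by omega)
  have e2 : sh (sh (shn (n + 1) ω)) 0 = ω (n + 3) := congrArg ω (by omega)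
  have e3 : shn (n + 2) ω = sh (shn (n + 1) ω) := (sh_shn (n + 1) ω).symm
  rw [e3, ← e0] at hcw
  have hfi : (⁅(RG (sh (shn (n + 1) ω))).SS (ω n) (shn (n + 1) ω 0),
      (RG (sh (shn (n + 1) ω))).SS (ω n) (shn (n + 1) ω 0)⁆ :
        Subgroup (RG (sh (shn (n + 1) ω))).X).FiniteIndex := by
    have hd := St.good (RGS (sh (shn (n + 1) ω))) (RGS (sh (sh (shn (n + 1) ω))))
      (g := shn (n + 1) ω 0) (c := ω n) (by rw [e0, e1]; exact hgood.1)
      (by rw [e0, e1, e2]; exact hgood.2)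
    exact (hd.spec inferInstance).2.2.2
  set T := RGS (shn (n + 1) ω) with hT
  have hbr : (RR (n + 1) ω).Branch ⊤ ((RG (shn (n + 1) ω)).Kc (ω n)) := by
    intro z hz
    obtain ⟨g, -, hg⟩ := RR_branch n ω 0 z hz
    exact ⟨g, trivial, hg⟩
  obtain ⟨w, hw⟩ := RR_moved v ω h hv (n + 1) (by omega)
  have hDf : Finite (DD (n + 1) × Bool) := inferInstance
  exact verbal_core ((RR (n + 1) ω).comp T.R) _ inferInstance
    (Rec.Branch.comp hbr (T.branch_comm (ω n))) N hcw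
    (Rec.Trans.comp (RR_trans _ _) (RR_onto _ _) T.R_trans) W hW (w, true) 4
    (T.single_claim (ω n) _ hbr _ U_inv (U_conj hW) h (Or.inl (Or.inl hh)) w hw)

/-- finite verbal width in the Grigorchuk groups -/
theorem grig_width (ω : ℕ → Fin 3) (hω : ∀ i N, ∃ n ≥ N, ω n ≠ i) (W : Set (RG ω).X)
    (hW : ∀ g, ∀ w ∈ W, g * w * g⁻¹ ∈ W) :
    ∃ m : ℕ, ∀ g ∈ Subgroup.closure W, g ∈ (W ∪ W⁻¹ ∪ {1} : Set (RG ω).X) ^ m := by
  by_cases htriv : ∀ h ∈ W, h = 1
  · refine ⟨0, fun g hg => ?_⟩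
    have h1 : Subgroup.closure W ≤ ⊥ := by
      rw [Subgroup.closure_le]
      intro x hx
      rw [htriv x hx]
      exact Subgroup.one_mem _
    have h2 := h1 hg
    rw [Subgroup.mem_bot] at h2
    rw [h2]; simp
  push Not at htriv
  obtain ⟨h, hh, hne⟩ := htriv
  exact (grig_width_fi ω hω W hW h hh hne).1

/-- the final form -/
theorem grig_verbal (ω : ℕ → Fin 3) (hω : ∀ i N, ∃ n ≥ N, ω n ≠ i) (V : Set (FreeGroup ℕ)) :
    ∃ m : ℕ, ∀ g ∈ Subgroup.closure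
        {h : Pool.Agent.Y803.GR.G ω | ∃ w ∈ V, ∃ f : ℕ → Pool.Agent.Y803.GR.G ω,
          FreeGroup.lift f w = h},
      ∃ l : List (Pool.Agent.Y803.GR.G ω), l.length ≤ m ∧
        (∀ x ∈ l, (∃ w ∈ V, ∃ f : ℕ → Pool.Agent.Y803.GR.G ω, FreeGroup.lift f w = x) ∨
          (∃ w ∈ V, ∃ f : ℕ → Pool.Agent.Y803.GR.G ω, FreeGroup.lift f w = x⁻¹)) ∧
        l.prod = g := by
  set W : Set (Pool.Agent.Y803.GR.G ω) :=
    {h | ∃ w ∈ V, ∃ f : ℕ → Pool.Agent.Y803.GR.G ω, FreeGroup.lift f w = h} with hWdef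
  have hW : ∀ g, ∀ w ∈ W, g * w * g⁻¹ ∈ W := by
    rintro g _ ⟨w, hw, f, rfl⟩
    exact ⟨w, hw, fun i => g * f i * g⁻¹, conj_lift g f w⟩
  obtain ⟨m, hm⟩ := grig_width ω hω W hW
  refine ⟨m, fun g hg => ?_⟩
  exact exists_list W m g (hm g hg)

end Pool.Agent.Helper220_VW
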