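import Pool.Agent.Helper220_VW.GrigDef
import Pool.Agent.Helper220_VW.GrigFin

set_option autoImplicit false

namespace Pool.Agent.Helper220_VW.Grig

lemma a_eq (w : List Bool) : a w = Pool.Agent.Y803.GR.fa w := by
  cases w <;> rfl

lemma b_eq (i : Fin 3) (w : List Bool) : ∀ ω : ℕ → Fin 3,
    b i ω w = Pool.Agent.Y803.GR.fb i ω w := by
  induction w with
  | nil => intro ω; rfl
  | cons x w ih =>
    intro ω
    cases x with
    | false =>
      change false :: (if ω 0 = i then w else a w) =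
        false :: (if ω 0 = i then w else Pool.Agent.Y803.GR.fa w)
      rw [a_eq]
    | true =>
      change true :: b i (fun n => ω (n + 1)) w =
        true :: Pool.Agent.Y803.GR.fb i (fun n => ω (n + 1)) w
      rw [ih]

lemma Gr_eq (ω : ℕ → Fin 3) : Gr ω = Pool.Agent.Y803.GR.G ω := by
  refine congrArg Subgroup.closure ?_
  ext g
  constructor
  · rintro (h | ⟨i, h⟩)
    · left
      exact Equiv.ext fun w => (h w).trans (a_eq w)
    · right
      exact ⟨i, Equiv.ext fun w => ((h w).trans (b_eq i w ω)).symm⟩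
  · rintro (h | ⟨i, h⟩)
    · left
      rw [Set.mem_singleton_iff] at h
      intro w
      rw [h]
      exact (a_eq w).symm
    · right
      refine ⟨i, fun w => ?_⟩
      rw [← h]
      exact (b_eq i w ω).symm

/-- finite verbal width -/
theorem width (ω : ℕ → Fin 3) (hω : ∀ i N, ∃ n ≥ N, ω n ≠ i) (V : Set (FreeGroup ℕ)) :
    ∃ m : ℕ, ∀ g ∈ Subgroup.closure {h : Gr ω | ∃ w ∈ V, ∃ f : ℕ → Gr ω,
        FreeGroup.lift f w = h},
      ∃ l : List (Gr ω), l.length ≤ m ∧
        (∀ x ∈ l, (∃ w ∈ V, ∃ f : ℕ → Gr ω, FreeGroup.lift f w = x) ∨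
          (∃ w ∈ V, ∃ f : ℕ → Gr ω, FreeGroup.lift f w = x⁻¹)) ∧
        l.prod = g := by
  rw [Gr_eq]
  exact grig_verbal ω hω V

end Pool.Agent.Helper220_VW.Grig
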