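import Pool.Agent.Helper220_VW.GrigW

set_option autoImplicit false

open Pointwise
open scoped commutatorElement

namespace Pool.Agent.Helper220_VW

open Pool.Agent.Y803.GR (fa fb pa pb sh fa_fa fb_fb pa_mem pb_mem pa_mul_pa pb_mul_pb pb_mul)

namespace MG

/-- homomorphisms of marked groups -/
def IsH (M M' : MG) (φ : M.X →* M'.X) : Prop := φ M.a = M'.a ∧ ∀ i, φ (M.b i) = M'.b i

namespace IsH

variable {M M' : MG} {φ : M.X →* M'.X} (h : IsH M M' φ)

include h

lemma sg (c g : Fin 3) : φ (M.sg c g) = M'.sg c g := by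
  unfold MG.sg
  rw [map_mul, h.2]
  by_cases hc : c = g
  · rw [if_pos hc, if_pos hc, map_one]
  · rw [if_neg hc, if_neg hc, h.1]

lemma SS_le (c g : Fin 3) : ∀ x ∈ M.SS c g, φ x ∈ M'.SS c g := by
  have h1 : M.SS c g ≤ (M'.SS c g).comap φ := by
    apply Subgroup.normalClosure_le_normal
    intro x hx
    rw [Set.mem_singleton_iff] at hx
    rw [hx]
    change φ (M.sg c g) ∈ M'.SS c g
    rw [h.sg]
    exact M'.sg_mem c g
  exact fun x hx => h1 hx

lemma surj : Function.Surjective φ := by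
  intro y
  refine M'.induct (P := fun y => ∃ x, φ x = y) ⟨1, map_one _⟩ ?_ ?_ y
  · rintro _ ⟨x, rfl⟩
    exact ⟨M.a * x, by rw [map_mul, h.1]⟩
  · rintro i _ ⟨x, rfl⟩
    exact ⟨M.b i * x, by rw [map_mul, h.2]⟩

lemma B_mem : ∀ x ∈ M.B, φ x ∈ M'.B := by
  rintro x (hx | hx | ⟨i, rfl⟩)
  · rw [Set.mem_singleton_iff] at hx
    rw [hx, map_one]; exact M'.one_mem_B
  · rw [Set.mem_singleton_iff] at hx
    rw [hx, h.1]; exact M'.a_mem_B
  · rw [h.2]; exact M'.b_mem_B i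

lemma B_pow (n : ℕ) : ∀ x ∈ M.B ^ n, φ x ∈ M'.B ^ n := by
  induction n with
  | zero =>
    intro x hx
    rw [pow_zero, Set.mem_one] at hx
    rw [pow_zero, Set.mem_one, hx, map_one]
  | succ n ih =>
    intro x hx
    rw [pow_succ, Set.mem_mul] at hx
    obtain ⟨y, hy, z, hz, rfl⟩ := hx
    rw [pow_succ, map_mul]
    exact Set.mul_mem_mul (ih y hy) (h.B_mem z hz)

lemma len_le (x : M.X) : M'.len (φ x) ≤ M.len x :=
  M'.len_le (h.B_pow _ _ (M.mem_len x))

lemma map_SS (c g : Fin 3) : (M.SS c g).map φ = M'.SS c g := by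
  have h1 := Subgroup.map_normalClosure {M.sg c g} φ h.surj
  rw [Set.image_singleton, h.sg] at h1
  exact h1

lemma comm_lift (c g : Fin 3) : ∀ y ∈ ⁅M'.SS c g, M'.SS c g⁆, ∃ x ∈ ⁅M.SS c g, M.SS c g⁆,
    φ x = y := by
  intro y hy
  rw [← h.map_SS, ← Subgroup.map_commutator] at hy
  exact hy

lemma comm_mem (c g : Fin 3) : ∀ x ∈ ⁅M.SS c g, M.SS c g⁆, φ x ∈ ⁅M'.SS c g, M'.SS c g⁆ := by
  intro x hx
  rw [← h.map_SS, ← Subgroup.map_commutator]
  exact Subgroup.mem_map_of_mem φ hx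

lemma Cm_pow (c g : Fin 3) (n : ℕ) : ∀ x ∈ Cm (M.SS c g) ^ n, φ x ∈ Cm (M'.SS c g) ^ n := by
  induction n with
  | zero =>
    intro x hx
    rw [pow_zero, Set.mem_one] at hx
    rw [pow_zero, Set.mem_one, hx, map_one]
  | succ n ih =>
    intro x hx
    rw [pow_succ, Set.mem_mul] at hx
    obtain ⟨y, hy, z, hz, rfl⟩ := hx
    rw [pow_succ, map_mul]
    refine Set.mul_mem_mul (ih y hy) ?_
    obtain ⟨p, hp, q, hq, rfl⟩ := hz
    exact ⟨φ p, h.SS_le c g p hp, φ q, h.SS_le c g q hq, (map_commutatorElement φ p q).symm⟩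

lemma comp {M'' : MG} {ψ : M'.X →* M''.X} (h' : IsH M' M'' ψ) : IsH M M'' (ψ.comp φ) :=
  ⟨by rw [MonoidHom.comp_apply, h.1, h'.1], fun i => by rw [MonoidHom.comp_apply, h.2, h'.2]⟩

lemma eq {ψ : M.X →* M'.X} (h' : IsH M M' ψ) (x : M.X) : φ x = ψ x := by
  refine M.induct (P := fun x => φ x = ψ x) (by rw [map_one, map_one]) ?_ ?_ x
  · intro x hx
    rw [map_mul, map_mul, h.1, h'.1, hx]
  · intro i x hx
    rw [map_mul, map_mul, h.2, h'.2, hx]

end IsH

end MG

/-- the free product maps to every marked group -/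
lemma FB_to (M : MG) : ∃ φ : FB.X →* M.X, MG.IsH FB M φ :=
  FB_lift M.a M.b M.aa M.bb M.bbb

section lift

variable {P M : MG} {g : Fin 3} (T : St P M g) (φ : M.X →* Equiv.Perm (List Bool))

/-- lifting of an action one level up, as a function -/
def upF (p : P.X) : List Bool → List Bool
  | [] => []
  | x :: w => T.R.act p x :: φ (T.R.sec p x) w

lemma upF_one (w : List Bool) : upF T φ 1 w = w := by
  cases w with
  | nil => rfl
  | cons x w =>
    change T.R.act 1 x :: φ (T.R.sec 1 x) w = x :: w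
    rw [map_one, Rec.sec_one, map_one]
    rfl

lemma upF_mul (p q : P.X) (w : List Bool) : upF T φ (p * q) w = upF T φ p (upF T φ q w) := by
  cases w with
  | nil => rfl
  | cons x w =>
    change T.R.act (p * q) x :: φ (T.R.sec (p * q) x) w =
      T.R.act p (T.R.act q x) :: φ (T.R.sec p (T.R.act q x)) (φ (T.R.sec q x) w)
    rw [map_mul, T.R.sec_mul, map_mul]
    rfl

/-- lifting of an action one level up -/
def upH : P.X →* Equiv.Perm (List Bool) where
  toFun p :=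
    { toFun := upF T φ p
      invFun := upF T φ p⁻¹
      left_inv := fun w => by rw [← upF_mul, inv_mul_cancel, upF_one]
      right_inv := fun w => by rw [← upF_mul, mul_inv_cancel, upF_one] }
  map_one' := Equiv.ext fun w => upF_one T φ w
  map_mul' := fun p q => Equiv.ext fun w => upF_mul T φ p q w

lemma upH_a : upH T φ P.a = pa := by
  apply Equiv.ext
  intro w
  cases w with
  | nil => rfl
  | cons x w =>
    change T.R.act P.a x :: φ (T.R.sec P.a x) w = (!x) :: w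
    rw [T.act_a, T.sec_a, map_one]
    rfl

lemma upH_b {ω : ℕ → Fin 3} (h0 : ω 0 = g) (ha : φ M.a = pa) (hb : ∀ i, φ (M.b i) = pb i (sh ω))
    (i : Fin 3) : upH T φ (P.b i) = pb i ω := by
  apply Equiv.ext
  intro w
  cases w with
  | nil => rfl
  | cons x w =>
    change T.R.act (P.b i) x :: φ (T.R.sec (P.b i) x) w = fb i ω (x :: w)
    rw [T.act_b]
    cases x with
    | true =>
      rw [T.sec_b1, hb]
      rfl
    | false =>
      rw [T.sec_b0]
      change false :: (φ (if i = g then 1 else M.a)) w = false :: (if ω 0 = i then w else fa w)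
      by_cases hi : i = g
      · rw [if_pos hi, if_pos (by rw [h0, hi]), map_one]
        rfl
      · rw [if_neg hi, if_neg (by rw [h0]; exact fun h => hi h.symm), ha]
        rfl

end lift

/-- shifted sequences -/
def shn (m : ℕ) (ω : ℕ → Fin 3) : ℕ → Fin 3 := fun n => ω (n + m)

lemma sh_shn (m : ℕ) (ω : ℕ → Fin 3) : sh (shn m ω) = shn (m + 1) ω := by
  funext n
  change ω (n + 1 + m) = ω (n + (m + 1))
  congr 1
  omega

/-- the letters of the approximating tower for `ω` with `T` levels -/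
def tht (ω : ℕ → Fin 3) (T : ℕ) : ℕ → Fin 3 := fun j => ω (T - 1 - j)

lemma App_perm (ω : ℕ → Fin 3) (T : ℕ) : ∀ k ≤ T,
    ∃ φ : ((App (tht ω T)).M k).X →* Equiv.Perm (List Bool),
      φ ((App (tht ω T)).M k).a = pa ∧
      ∀ i, φ (((App (tht ω T)).M k).b i) = pb i (shn (T - k) ω) := by
  intro k
  induction k with
  | zero =>
    intro _
    exact FB_lift pa (fun i => pb i (shn (T - 0) ω)) pa_mul_pa (fun i => pb_mul_pb i _)
      (fun i j l hij hjl hil => pb_mul hij hjl hil _)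
  | succ k ih =>
    intro hk
    obtain ⟨φ, ha, hb⟩ := ih (by omega)
    refine ⟨upH ((App (tht ω T)).st k) φ, upH_a _ _, ?_⟩
    apply upH_b
    · change ω (0 + (T - (k + 1))) = ω (T - 1 - k)
      congr 1
      omega
    · exact ha
    · intro i
      rw [hb, sh_shn]
      congr 2
      omega

/-- every homomorphism to permutations with the right generators is one to the Grigorchuk group -/
lemma toRG {M : MG} {ω : ℕ → Fin 3} {φ : M.X →* Equiv.Perm (List Bool)} (ha : φ M.a = pa)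
    (hb : ∀ i, φ (M.b i) = pb i ω) : ∃ ψ : M.X →* (RG ω).X, MG.IsH M (RG ω) ψ := by
  have h1 : ∀ x, φ x ∈ Pool.Agent.Y803.GR.G ω := by
    intro x
    refine M.induct (P := fun x => φ x ∈ Pool.Agent.Y803.GR.G ω) ?_ ?_ ?_ x
    · rw [map_one]; exact Subgroup.one_mem _
    · intro x hx
      rw [map_mul, ha]
      exact Subgroup.mul_mem _ (pa_mem ω) hx
    · intro i x hx
      rw [map_mul, hb]
      exact Subgroup.mul_mem _ (pb_mem i ω) hx
  exact ⟨φ.codRestrict _ h1, Subtype.ext ha, fun i => Subtype.ext (hb i)⟩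

/-- good positions of a sequence -/
def GoodW (ω : ℕ → Fin 3) (n : ℕ) : Prop :=
  ω (n + 1) ≠ ω (n + 2) ∧ (ω n = ω (n + 1) ∨ ω n = ω (n + 2) ∨ ω n = ω (n + 3))

lemma goodAt_of {ω : ℕ → Fin 3} {n : ℕ} (h : GoodW ω n) (k : ℕ) :
    GoodAt (tht ω (n + 4 + k)) k := by
  have e1 : n + 4 + k - 1 - (k + 2) = n + 1 := by omega
  have e2 : n + 4 + k - 1 - (k + 1) = n + 2 := by omega
  have e3 : n + 4 + k - 1 - (k + 3) = n := by omega
  have e4 : n + 4 + k - 1 - k = n + 3 := by omega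
  have h1 : tht ω (n + 4 + k) (k + 2) = ω (n + 1) := congrArg ω e1
  have h2 : tht ω (n + 4 + k) (k + 1) = ω (n + 2) := congrArg ω e2
  have h3 : tht ω (n + 4 + k) (k + 3) = ω n := congrArg ω e3
  have h4 : tht ω (n + 4 + k) k = ω (n + 3) := congrArg ω e4
  unfold GoodAt
  rw [h1, h2, h3, h4]
  exact h

lemma fin3_four : ∀ p q r s : Fin 3, ¬ (p ≠ q ∧ q ≠ r ∧ r ≠ s ∧ p ≠ r ∧ p ≠ s ∧ q ≠ s) := by
  decide

/-- there are arbitrarily large good positions -/
lemma exists_good {ω : ℕ → Fin 3} (hω : ∀ i N, ∃ n ≥ N, ω n ≠ i) (N : ℕ) :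
    ∃ n ≥ N, GoodW ω n := by
  classical
  by_cases hrep : ∃ m ≥ N, ω m = ω (m + 1)
  · obtain ⟨m, hm, hmm⟩ := hrep
    -- the end of the run of `ω m`
    have hex : ∃ d, ω (m + 1 + (d + 1)) ≠ ω m := by
      obtain ⟨n, hn, hne⟩ := hω (ω m) (m + 2)
      refine ⟨n - (m + 2), ?_⟩
      have : m + 1 + (n - (m + 2) + 1) = n := by omega
      rw [this]
      exact hne
    obtain ⟨d, hspec, hmin⟩ : ∃ d, ω (m + 1 + (d + 1)) ≠ ω m ∧
        ∀ e ≤ d, ω (m + 1 + e) = ω m := by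
      refine ⟨Nat.find hex, Nat.find_spec hex, fun e he => ?_⟩
      cases e with
      | zero => exact hmm.symm
      | succ e =>
        by_contra hc
        have := Nat.find_min' hex hc
        omega
    have h1 : ω (m + d) = ω m := by
      cases d with
      | zero => rfl
      | succ d =>
        have := hmin d (by omega)
        rwa [show m + 1 + d = m + (d + 1) by omega] at this
    have h2 : ω (m + d + 1) = ω m := by
      have := hmin d le_rfl
      rwa [show m + 1 + d = m + d + 1 by omega] at this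
    have h3 : ω (m + d + 2) ≠ ω m := by
      rwa [show m + 1 + (d + 1) = m + d + 2 by omega] at hspec
    refine ⟨m + d, by omega, ?_, Or.inl ?_⟩
    · rw [h2]; exact h3.symm
    · rw [h1, h2]
  · have hne : ∀ m ≥ N, ω m ≠ ω (m + 1) := fun m hm h => hrep ⟨m, hm, h⟩
    by_contra hcon
    have hbad : ∀ n ≥ N, ¬ GoodW ω n := fun n hn h => hcon ⟨n, hn, h⟩
    have hA : ∀ n ≥ N, ω n ≠ ω (n + 2) ∧ ω n ≠ ω (n + 3) := by
      intro n hn
      have h1 := hbad n hn
      have h2 : ω (n + 1) ≠ ω (n + 2) := hne (n + 1) (by omega)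
      refine ⟨fun h => h1 ⟨h2, Or.inr (Or.inl h)⟩, fun h => h1 ⟨h2, Or.inr (Or.inr h)⟩⟩
    have k1 := hA N le_rfl
    have k2 := hne N le_rfl
    have k3 := hne (N + 1) (by omega)
    have k4 := hne (N + 2) (by omega)
    have k5 := hA (N + 1) (by omega)
    exact fin3_four (ω N) (ω (N + 1)) (ω (N + 2)) (ω (N + 3)) ⟨k2, k3, k4, k1.1, k1.2, k5.1⟩

/-- arbitrarily many good levels can be reached -/
lemma exists_reach {ω : ℕ → Fin 3} (hω : ∀ i N, ∃ n ≥ N, ω n ≠ i) (i : ℕ) :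
    ∀ n, GoodW ω n → ∃ k, Reach (tht ω (n + 4 + k)) i k := by
  induction i with
  | zero =>
    intro n hn
    exact ⟨0, rfl, goodAt_of hn 0⟩
  | succ i ih =>
    intro n hn
    obtain ⟨n1, hn1, hg1⟩ := exists_good hω (n + 2)
    obtain ⟨n2, hn2, hg2⟩ := exists_good hω (n1 + 3)
    obtain ⟨k, hk⟩ := ih n2 hg2
    have eT : n + 4 + (k + (n2 - n)) = n2 + 4 + k := by omega
    refine ⟨k + (n2 - n), goodAt_of hn _, k, n2 - n1 - 3, n1 - n - 2, ?_, ?_, by omega⟩
    · rw [eT]; exact hk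
    · rw [eT]
      have e1 : n2 + 4 + k - 1 - (k + 2 + 1 + (n2 - n1 - 3 + 2)) = n1 + 1 := by omega
      have e2 : n2 + 4 + k - 1 - (k + 2 + 1 + (n2 - n1 - 3 + 1)) = n1 + 2 := by omega
      have h1 : tht ω (n2 + 4 + k) (k + 2 + 1 + (n2 - n1 - 3 + 2)) = ω (n1 + 1) := congrArg ω e1
      have h2 : tht ω (n2 + 4 + k) (k + 2 + 1 + (n2 - n1 - 3 + 1)) = ω (n1 + 2) := congrArg ω e2
      rw [h1, h2]
      exact hg1.1

/-- uniform commutator width of the subgroups `SS` at good positions -/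
theorem cw_real : ∃ N : ℕ, ∀ ω : ℕ → Fin 3, (∀ i N, ∃ n ≥ N, ω n ≠ i) → ∀ n, GoodW ω n →
    ∀ y ∈ ⁅(RG (shn (n + 2) ω)).SS (ω n) (ω (n + 1)), (RG (shn (n + 2) ω)).SS (ω n) (ω (n + 1))⁆,
      y ∈ Cm ((RG (shn (n + 2) ω)).SS (ω n) (ω (n + 1))) ^ N := by
  obtain ⟨A, N, hA, hN⟩ := App_bound
  refine ⟨N, fun ω hω n hn y hy => ?_⟩
  obtain ⟨ψ, hψ⟩ := FB_to (RG (shn (n + 2) ω))
  obtain ⟨z, hz, rfl⟩ := hψ.comm_lift _ _ y hy
  obtain ⟨i, hi⟩ : ∃ i : ℕ, A * (1 / 2) ^ i * FB.len z ≤ 1 := by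
    have h1 : Filter.Tendsto (fun i : ℕ => A * (1 / 2 : ℝ) ^ i * FB.len z) Filter.atTop
        (nhds (A * 0 * FB.len z)) :=
      ((tendsto_pow_atTop_nhds_zero_of_lt_one (by norm_num) (by norm_num)).const_mul A).mul_const _
    rw [mul_zero, zero_mul] at h1
    exact (h1.eventually (ge_mem_nhds (by norm_num : (0 : ℝ) < 1))).exists
  obtain ⟨k, hk⟩ := exists_reach hω i n hn
  have hk2 := hN _ i k hk
  -- the homomorphisms
  obtain ⟨η, hη⟩ := FB_to ((App (tht ω (n + 4 + k))).M (k + 2))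
  obtain ⟨φ, ha, hb⟩ := App_perm ω (n + 4 + k) (k + 2) (by omega)
  have eT : n + 4 + k - (k + 2) = n + 2 := by omega
  rw [eT] at hb
  obtain ⟨χ, hχ⟩ := toRG ha hb
  have e1 : tht ω (n + 4 + k) (k + 3) = ω n := congrArg ω (by omega)
  have e2 : tht ω (n + 4 + k) (k + 2) = ω (n + 1) := congrArg ω (by omega)
  have eS : (App (tht ω (n + 4 + k))).S (k + 2) =
      ((App (tht ω (n + 4 + k))).M (k + 2)).SS (ω n) (ω (n + 1)) := by
    change ((App (tht ω (n + 4 + k))).M (k + 2)).SS (tht ω (n + 4 + k) (k + 3))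
      (tht ω (n + 4 + k) (k + 2)) = _
    rw [e1, e2]
  rw [eS] at hk2
  have h3 := hk2 (η z) (hη.comm_mem _ _ z hz) ?_
  · have h4 := hχ.Cm_pow _ _ N _ h3
    have h5 : χ (η z) = ψ z := (hη.comp hχ).eq hψ z
    rwa [h5] at h4
  · have h6 : (((App (tht ω (n + 4 + k))).M (k + 2)).len (η z) : ℝ) ≤ FB.len z := by
      exact_mod_cast hη.len_le z
    refine le_trans ?_ hi
    exact mul_le_mul_of_nonneg_left h6 (by positivity)

end Pool.Agent.Helper220_VW
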