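import Mathlib

set_option autoImplicit false

namespace Pool.Agent.Helper220_VW

namespace NoLaw

variable {X : Type}

/-- the element given by a letter -/
def act {G : Type*} [Group G] (f : ℕ → G) (l : ℕ × Bool) : G := cond l.2 (f l.1) (f l.1)⁻¹

/-- the image of the start point under a word -/
def pt {G : Subgroup (Equiv.Perm (List X))} (f : ℕ → G) (L : List (ℕ × Bool)) (u : List X) :
    List X := ((L.map (act f)).prod).1 u

variable {G : Subgroup (Equiv.Perm (List X))}

lemma pt_nil (f : ℕ → G) (u : List X) : pt f [] u = u := rfl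

lemma pt_cons (f : ℕ → G) (l : ℕ × Bool) (L : List (ℕ × Bool)) (u : List X) :
    pt f (l :: L) u = (act f l).1 (pt f L u) := by
  unfold pt
  rw [List.map_cons, List.prod_cons]
  rfl

/-- A group of automorphisms of a rooted tree in which every vertex has a nontrivial element
acting below this vertex only satisfies no law. -/
theorem no_law_list
    (hT : ∀ g ∈ G, ∀ (w : List X) (n : ℕ), (g w).take n = g (w.take n))
    (hR : ∀ z : List X, ∃ γ ∈ G, ∃ t : List X, γ (z ++ t) ≠ z ++ t ∧
      ∀ w : List X, z.length ≤ w.length → w.take z.length ≠ z → γ w = w)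
    (L : List (ℕ × Bool)) (hL : FreeGroup.IsReduced L) :
    ∃ (f : ℕ → G) (u : List X), ∀ S₁, S₁ <:+ L → ∀ S₂, S₂ <:+ L → pt f S₁ u = pt f S₂ u →
      S₁ = S₂ := by
  have hlen : ∀ g ∈ G, ∀ w : List X, (g w).length = w.length := by
    have h1 : ∀ g ∈ G, ∀ w : List X, (g w).length ≤ w.length := by
      intro g hg w
      have h := hT g hg w w.length
      rw [List.take_length] at h
      calc (g w).length = ((g w).take w.length).length := by rw [h]
        _ ≤ w.length := List.length_take_le _ _
    intro g hg w
    apply le_antisymm (h1 g hg w)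
    have := h1 g⁻¹ (G.inv_mem hg) (g w)
    simpa using this
  induction L with
  | nil =>
    refine ⟨fun _ => 1, [], fun S₁ h1 S₂ h2 _ => ?_⟩
    rw [List.suffix_nil] at h1 h2
    rw [h1, h2]
  | cons l L ih =>
    obtain ⟨f, u, hD⟩ := ih (by
      cases L with
      | nil => exact FreeGroup.IsReduced.nil
      | cons l' L => exact (FreeGroup.isReduced_cons_cons.mp hL).2)
    -- it is enough to find a new point outside
    have key : ∀ (f : ℕ → G) (u : List X), (∀ S₁, S₁ <:+ L → ∀ S₂, S₂ <:+ L →
        pt f S₁ u = pt f S₂ u → S₁ = S₂) → (∀ S, S <:+ L → pt f S u ≠ pt f (l :: L) u) →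
        ∃ (f : ℕ → G) (u : List X), ∀ S₁, S₁ <:+ (l :: L) → ∀ S₂, S₂ <:+ (l :: L) →
          pt f S₁ u = pt f S₂ u → S₁ = S₂ := by
      intro f u h1 h2
      refine ⟨f, u, fun S₁ hS₁ S₂ hS₂ h => ?_⟩
      rw [List.suffix_cons_iff] at hS₁ hS₂
      rcases hS₁ with rfl | hS₁
      · rcases hS₂ with rfl | hS₂
        · rfl
        · exact absurd h.symm (h2 S₂ hS₂)
      · rcases hS₂ with rfl | hS₂
        · exact absurd h (h2 S₁ hS₁)
        · exact h1 S₁ hS₁ S₂ hS₂ h
    by_cases hA : ∀ S, S <:+ L → pt f S u ≠ pt f (l :: L) u
    · exact key f u hD hA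
    set z := pt f L u with hz
    set n := z.length with hn
    obtain ⟨γ, hγG, t, hγ, hfix⟩ := hR z
    set γ' : G := ⟨γ, hγG⟩ with hγ'
    set P : G := (L.map (act f)).prod with hP
    set u' : List X := (P⁻¹).1 (z ++ t) with hu'
    have hPu : P.1 u = z := rfl
    have hPu' : P.1 u' = z ++ t := by
      rw [hu']; simp
    have hun : u.length = n := by rw [hn, ← hPu, hlen P.1 P.2]
    have htake : u'.take n = u := by
      rw [hu', hT _ (P⁻¹).2]
      have : (z ++ t).take n = z := by rw [hn]; simp
      rw [this, ← hPu]; simp
    have hu'len : u'.length = n + t.length := by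
      rw [hu', hlen _ (P⁻¹).2, List.length_append]
    have hpt : ∀ S, (pt f S u').take n = pt f S u := by
      intro S
      unfold pt
      rw [hT _ (Subtype.prop _), htake]
    have hptlen : ∀ (f : ℕ → G) S v, (pt f S v).length = v.length := fun f S v =>
      hlen _ (Subtype.prop _) v
    have hD' : ∀ S₁, S₁ <:+ L → ∀ S₂, S₂ <:+ L → pt f S₁ u' = pt f S₂ u' → S₁ = S₂ := by
      intro S₁ h1 S₂ h2 h
      apply hD S₁ h1 S₂ h2
      rw [← hpt, ← hpt, h]
    by_cases hB : ∀ S, S <:+ L → pt f S u' ≠ pt f (l :: L) u'
    · exact key f u' hD' hB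
    push Not at hB
    obtain ⟨S0, hS0, hS0e⟩ := hB
    -- the modified tuple
    set f' : ℕ → G := Function.update f l.1 (cond l.2 (f l.1 * γ') (γ'⁻¹ * f l.1)) with hf'
    have hact1 : ∀ s : ℕ × Bool, s.1 ≠ l.1 → act f' s = act f s := by
      intro s hs
      unfold act
      rw [hf', Function.update_of_ne hs]
    have hact2 : act f' l = act f l * γ' := by
      unfold act
      rw [hf', Function.update_self]
      cases l.2 with
      | true => rfl
      | false =>
        change (γ'⁻¹ * f l.1)⁻¹ = (f l.1)⁻¹ * γ'
        group
    have hact3 : ∀ s : ℕ × Bool, s.1 = l.1 → s.2 ≠ l.2 → act f' s = γ'⁻¹ * act f s := by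
      intro s h1 h2
      unfold act
      rw [hf', h1, Function.update_self]
      have h3 : s.2 = !l.2 := by
        revert h2
        cases s.2 <;> cases l.2 <;> simp
      rw [h3]
      cases l.2 with
      | true =>
        change (f l.1 * γ')⁻¹ = γ'⁻¹ * (f l.1)⁻¹
        group
      | false => rfl
    have hsame : ∀ S, S <:+ L → pt f' S u' = pt f S u' := by
      intro S
      induction S with
      | nil => intro _; rfl
      | cons s S ihS =>
        intro hS
        have hS' : S <:+ L := (List.suffix_cons s S).trans hS
        rw [pt_cons, pt_cons, ihS hS']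
        have hne : S ≠ L := by
          intro h
          rw [h] at hS
          have := hS.length_le
          simp at this
        have hq : (pt f S u').take n ≠ z := by
          rw [hpt]
          intro h
          exact hne (hD S hS' L List.suffix_rfl h)
        have hqlen : n ≤ (pt f S u').length := by
          rw [hptlen, hu'len]; omega
        by_cases h1 : s.1 = l.1
        · by_cases h2 : s.2 = l.2
          · have : s = l := Prod.ext h1 h2
            rw [this, hact2]
            change (act f l).1 (γ (pt f S u')) = _
            rw [hfix _ hqlen hq]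
          · rw [hact3 s h1 h2]
            change γ⁻¹ ((act f s).1 (pt f S u')) = _
            rw [← pt_cons, Equiv.Perm.inv_eq_iff_eq]
            symm
            apply hfix
            · change n ≤ _
              rw [hptlen, hu'len]; omega
            · change (pt f (s :: S) u').take n ≠ z
              rw [hpt]
              intro h
              have h3 := hD _ hS L List.suffix_rfl h
              rw [← h3, FreeGroup.isReduced_cons_cons] at hL
              exact h2 (hL.1 h1.symm).symm
        · rw [hact1 s h1]
    have hγz : γ z = z := by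
      by_contra hc
      have h1 : γ (γ z) = γ z := by
        apply hfix
        · rw [hlen γ hγG]
        · have : (γ z).take z.length = γ z := by
            rw [List.take_of_length_le (by rw [hlen γ hγG])]
          rw [this]
          exact hc
      exact hc (γ.injective h1)
    refine key f' u' (fun S₁ h1 S₂ h2 h => ?_) (fun S hS h => ?_)
    · rw [hsame S₁ h1, hsame S₂ h2] at h
      exact hD' S₁ h1 S₂ h2 h
    · rw [hsame S hS, pt_cons, hsame L List.suffix_rfl, hact2] at h
      have hPL : pt f L u' = z ++ t := hPu'
      rw [hPL] at h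
      change pt f S u' = (act f l).1 (γ (z ++ t)) at h
      rw [pt_cons, hPL] at hS0e
      have h1 : pt f S u = (act f l).1 z := by
        rw [← hpt, h, hT _ (Subtype.prop _), hT _ hγG]
        have : (z ++ t).take n = z := by rw [hn]; simp
        rw [this, hγz]
      have h2 : pt f S0 u = (act f l).1 z := by
        rw [← hpt, hS0e, hT _ (Subtype.prop _)]
        have : (z ++ t).take n = z := by rw [hn]; simp
        rw [this]
      have h3 : S = S0 := hD S hS S0 hS0 (h1.trans h2.symm)
      rw [h3, hS0e] at h
      exact hγ ((act f l).1.injective h.symm)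

/-- A group of automorphisms of a rooted tree in which every vertex has a nontrivial element
acting below this vertex only satisfies no law. -/
theorem no_law
    (hT : ∀ g ∈ G, ∀ (w : List X) (n : ℕ), (g w).take n = g (w.take n))
    (hR : ∀ z : List X, ∃ γ ∈ G, ∃ t : List X, γ (z ++ t) ≠ z ++ t ∧
      ∀ w : List X, z.length ≤ w.length → w.take z.length ≠ z → γ w = w)
    (v : FreeGroup ℕ) (hv : v ≠ 1) : ∃ f : ℕ → G, FreeGroup.lift f v ≠ 1 := by
  obtain ⟨f, u, hD⟩ := no_law_list hT hR v.toWord FreeGroup.isReduced_toWord
  refine ⟨f, fun h => hv ?_⟩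
  have h1 : pt f v.toWord u = pt f [] u := by
    have h2 : FreeGroup.lift f v = (v.toWord.map (act f)).prod := by
      conv_lhs => rw [← FreeGroup.mk_toWord (x := v)]
      rw [FreeGroup.lift_mk]
      rfl
    rw [h] at h2
    unfold pt
    rw [← h2]
    rfl
  have h3 := hD _ List.suffix_rfl [] List.nil_suffix h1
  exact FreeGroup.toWord_eq_nil_iff.mp h3

end NoLaw

end Pool.Agent.Helper220_VW
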