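import Pool.Agent.Helper220_VW.GrigFin
import Pool.Agent.Helper220_VW.NoLaw

set_option autoImplicit false

open Pointwise
open scoped commutatorElement

namespace Pool.Agent.Helper220_VW

open Pool.Agent.Y803.GR (fa fb pa pb sh fa_fa fb_fb pa_mem pb_mem pa_mul_pa pb_mul_pb pb_mul)

lemma RG_take (w : List Bool) : ∀ (ω : ℕ → Fin 3) (g : (RG ω).X) (n : ℕ),
    (g.1 w).take n = g.1 (w.take n) := by
  induction w with
  | nil =>
    intro ω g n
    rw [lnil, List.take_nil, lnil]
  | cons x w ih =>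
    intro ω g n
    cases n with
    | zero => rw [List.take_zero, List.take_zero, lnil]
    | succ n =>
      rw [lspec, List.take_succ_cons, List.take_succ_cons, lspec, ih]

lemma pb_moves (i : Fin 3) (k : ℕ) : ∀ ω : ℕ → Fin 3, ω k ≠ i → ∃ t, pb i ω t ≠ t := by
  induction k with
  | zero =>
    intro ω h
    refine ⟨[false, false], ?_⟩
    change false :: (if ω 0 = i then [false] else fa [false]) ≠ [false, false]
    rw [if_neg h]
    simp [fa]
  | succ k ih =>
    intro ω h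
    obtain ⟨t, ht⟩ := ih (sh ω) h
    refine ⟨true :: t, ?_⟩
    change true :: pb i (sh ω) t ≠ true :: t
    intro hc
    exact ht (List.cons.inj hc).2

lemma shift_nec {ω : ℕ → Fin 3} (hω : ∀ i N, ∃ n ≥ N, ω n ≠ i) : ∀ i N, ∃ n ≥ N, sh ω n ≠ i := by
  intro i N
  obtain ⟨n, hn, h⟩ := hω i (N + 1)
  refine ⟨n - 1, by omega, ?_⟩
  change ω (n - 1 + 1) ≠ i
  rwa [show n - 1 + 1 = n by omega]

/-- below every vertex there is a nontrivial element of the subgroup `Kc e` -/
lemma RG_rist (z : List Bool) : ∀ (ω : ℕ → Fin 3), (∀ i N, ∃ n ≥ N, ω n ≠ i) → ∀ e : Fin 3,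
    ∃ γ ∈ (RG ω).Kc e, ∃ t : List Bool, γ.1 (z ++ t) ≠ z ++ t ∧
      ∀ w : List Bool, z.length ≤ w.length → w.take z.length ≠ z → γ.1 w = w := by
  induction z with
  | nil =>
    intro ω hω e
    refine ⟨⁅(RG ω).a, (RG ω).b e⁆, (RG ω).kap_mem e, ?_⟩
    have h1 : (RGS ω).R.sec ⁅(RG ω).a, (RG ω).b e⁆ true = (RG (sh ω)).sg e (ω 0) :=
      (RGS ω).kap_sec1 e
    have h2 : (RGS ω).R.act ⁅(RG ω).a, (RG ω).b e⁆ = 1 := (RGS ω).kap_act e
    have h3 : ∀ w, (⁅(RG ω).a, (RG ω).b e⁆ : (RG ω).X).1 (true :: w) =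
        true :: ((RG (sh ω)).sg e (ω 0)).1 w := by
      intro w
      rw [lspec]
      have h4 : lact ω ⁅(RG ω).a, (RG ω).b e⁆ true = true := Equiv.ext_iff.mp h2 true
      have h5 : lsec ω ⁅(RG ω).a, (RG ω).b e⁆ true = (RG (sh ω)).sg e (ω 0) := h1
      rw [h4, h5]
    obtain ⟨t, ht⟩ : ∃ t, ((RG (sh ω)).sg e (ω 0)).1 t ≠ t := by
      unfold MG.sg
      by_cases he : e = ω 0
      · rw [if_pos he, one_mul]
        obtain ⟨k, -, hk⟩ := shift_nec hω e 0
        exact pb_moves e k (sh ω) hk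
      · rw [if_neg he]
        refine ⟨[true], ?_⟩
        change fa (fb e (sh ω) [true]) ≠ [true]
        simp [fa, fb]
    refine ⟨true :: t, ?_, ?_⟩
    · rw [List.nil_append, h3]
      intro hc
      exact ht (List.cons.inj hc).2
    · intro w _ h
      simp at h
  | cons x z ih =>
    intro ω hω e
    obtain ⟨γ, hγ, t, ht, hfix⟩ := ih (sh ω) (shift_nec hω) (ω 0)
    obtain ⟨g, hg, hgd⟩ := (RGS ω).branch_K e (Pi.mulSingle x γ) (by
      intro v
      by_cases hv : v = x
      · subst hv; simpa using hγ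
      · rw [Pi.mulSingle_eq_of_ne hv]; exact Subgroup.one_mem _)
    have h1 : ∀ y w, g.1 (y :: w) = y :: ((Pi.mulSingle x γ : Bool → (RG (sh ω)).X) y).1 w := by
      intro y w
      rw [lspec]
      have h4 : lact ω g y = y := Equiv.ext_iff.mp hgd.1 y
      have h5 : lsec ω g y = (Pi.mulSingle x γ : Bool → (RG (sh ω)).X) y := hgd.2 y
      rw [h4, h5]
    refine ⟨g, hg, t, ?_, ?_⟩
    · rw [List.cons_append, h1, Pi.mulSingle_eq_same]
      intro hc
      exact ht (List.cons.inj hc).2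
    · intro w hw1 hw2
      cases w with
      | nil => simp at hw1
      | cons y w =>
        rw [h1]
        by_cases hy : y = x
        · subst hy
          rw [Pi.mulSingle_eq_same, hfix w (by simpa using hw1) (by
            intro hc
            apply hw2
            rw [List.length_cons, List.take_succ_cons, hc])]
        · rw [Pi.mulSingle_eq_of_ne hy]
          rfl

/-- the Grigorchuk groups satisfy no law -/
theorem RG_no_law (ω : ℕ → Fin 3) (hω : ∀ i N, ∃ n ≥ N, ω n ≠ i) (v : FreeGroup ℕ)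
    (hv : v ≠ 1) : ∃ f : ℕ → Pool.Agent.Y803.GR.G ω, FreeGroup.lift f v ≠ 1 := by
  refine NoLaw.no_law ?_ ?_ v hv
  · intro g hg w n
    exact RG_take w ω ⟨g, hg⟩ n
  · intro z
    obtain ⟨γ, -, t, ht, hfix⟩ := RG_rist z ω hω 0
    exact ⟨γ.1, γ.2, t, ht, hfix⟩

end Pool.Agent.Helper220_VW
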