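import Pool.Agent.Helper220_VW.Appr
import Pool.Agent.Y803.GR.Fam

set_option autoImplicit false

open Pointwise
open scoped commutatorElement

namespace Pool.Agent.Helper220_VW

open Pool.Agent.Y803.GR (fa fb pa pb sh fa_fa fb_fb pa_mem pb_mem pa_mul_pa pb_mul_pb pb_mul)

/-- the Grigorchuk group as a marked group -/
def RG (ω : ℕ → Fin 3) : MG where
  X := Pool.Agent.Y803.GR.G ω
  a := ⟨pa, pa_mem ω⟩
  b i := ⟨pb i ω, pb_mem i ω⟩
  aa := Subtype.ext pa_mul_pa
  bb i := Subtype.ext (pb_mul_pb i ω)
  bbb i j l hij hjl hil := Subtype.ext (pb_mul hij hjl hil ω)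
  gen := by
    refine Eq.trans ?_
      (Subgroup.closure_closure_coe_preimage (k := {pa} ∪ Set.range fun i => pb i ω))
    refine congrArg Subgroup.closure ?_
    ext x
    constructor
    · rintro (hx | ⟨i, rfl⟩)
      · rw [Set.mem_singleton_iff] at hx
        rw [hx]; exact Or.inl rfl
      · exact Or.inr ⟨i, rfl⟩
    · rintro (hx | ⟨i, hi⟩)
      · left
        exact Subtype.ext hx
      · right
        exact ⟨i, Subtype.ext hi⟩

/-- the self-similarity of the family -/
lemma RG_self (ω : ℕ → Fin 3) : ∀ g ∈ Pool.Agent.Y803.GR.G ω, ∀ x : Bool, ∃ y : Bool,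
    ∃ s ∈ Pool.Agent.Y803.GR.G (sh ω), ∀ w : List Bool, g (x :: w) = y :: s w := by
  intro g hg
  induction hg using Subgroup.closure_induction with
  | mem g hg =>
    intro x
    rcases hg with hg | ⟨i, rfl⟩
    · rw [Set.mem_singleton_iff] at hg
      subst hg
      exact ⟨!x, 1, Subgroup.one_mem _, fun w => rfl⟩
    · cases x with
      | true => exact ⟨true, pb i (sh ω), pb_mem i (sh ω), fun w => rfl⟩
      | false =>
        by_cases h : ω 0 = i
        · refine ⟨false, 1, Subgroup.one_mem _, fun w => ?_⟩
          change false :: (if ω 0 = i then w else fa w) = false :: w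
          rw [if_pos h]
        · refine ⟨false, pa, pa_mem _, fun w => ?_⟩
          change false :: (if ω 0 = i then w else fa w) = false :: fa w
          rw [if_neg h]
  | one => intro x; exact ⟨x, 1, Subgroup.one_mem _, fun w => rfl⟩
  | mul g h _ _ hg hh =>
    intro x
    obtain ⟨y, s, hs, h1⟩ := hh x
    obtain ⟨z, t, ht, h2⟩ := hg y
    refine ⟨z, t * s, Subgroup.mul_mem _ ht hs, fun w => ?_⟩
    change g (h (x :: w)) = z :: t (s w)
    rw [h1, h2]
  | inv g hg' ih =>
    intro x
    -- `g` permutes first letters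
    have hnil : g [] = [] := by
      obtain ⟨w, hw⟩ := g.surjective []
      cases w with
      | nil => exact hw
      | cons y w =>
        obtain ⟨z, s, -, h⟩ := ih y
        rw [h] at hw
        exact absurd hw (by simp)
    obtain ⟨w, hw⟩ := g.surjective [x]
    cases w with
    | nil => rw [hnil] at hw; exact absurd hw (by simp)
    | cons y w =>
      obtain ⟨z, s, hs, h⟩ := ih y
      rw [h] at hw
      have hz : z = x := by
        have := congrArg List.head? hw
        simpa using this
      subst hz
      refine ⟨y, s⁻¹, Subgroup.inv_mem _ hs, fun w => ?_⟩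
      rw [Equiv.Perm.inv_eq_iff_eq, h]
      simp

/-- the first letter action -/
noncomputable def lact (ω : ℕ → Fin 3) (g : (RG ω).X) (x : Bool) : Bool :=
  (RG_self ω g.1 g.2 x).choose

/-- the section -/
noncomputable def lsec (ω : ℕ → Fin 3) (g : (RG ω).X) (x : Bool) : (RG (sh ω)).X :=
  ⟨(RG_self ω g.1 g.2 x).choose_spec.choose, (RG_self ω g.1 g.2 x).choose_spec.choose_spec.1⟩

lemma lspec (ω : ℕ → Fin 3) (g : (RG ω).X) (x : Bool) (w : List Bool) :
    g.1 (x :: w) = lact ω g x :: (lsec ω g x).1 w :=
  (RG_self ω g.1 g.2 x).choose_spec.choose_spec.2 w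

lemma luniq (ω : ℕ → Fin 3) (g : (RG ω).X) (x y : Bool) (s : Equiv.Perm (List Bool))
    (h : ∀ w, g.1 (x :: w) = y :: s w) : lact ω g x = y ∧ (lsec ω g x).1 = s := by
  have h1 : ∀ w, lact ω g x :: (lsec ω g x).1 w = y :: s w := fun w => by
    rw [← lspec, h]
  refine ⟨?_, ?_⟩
  · have := h1 []
    exact (List.cons.inj this).1
  · apply Equiv.ext
    intro w
    exact (List.cons.inj (h1 w)).2

lemma lnil (ω : ℕ → Fin 3) (g : (RG ω).X) : g.1 [] = [] := by
  obtain ⟨w, hw⟩ := g.1.surjective []
  cases w with
  | nil => exact hw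
  | cons y w =>
    rw [lspec] at hw
    exact absurd hw (by simp)

lemma lmul (ω : ℕ → Fin 3) (g h : (RG ω).X) (x : Bool) :
    lact ω (g * h) x = lact ω g (lact ω h x) ∧
      lsec ω (g * h) x = lsec ω g (lact ω h x) * lsec ω h x := by
  have := luniq ω (g * h) x (lact ω g (lact ω h x))
    (lsec ω g (lact ω h x) * lsec ω h x).1 (fun w => by
      change g.1 (h.1 (x :: w)) = _
      rw [lspec ω h, lspec ω g]
      rfl)
  exact ⟨this.1, Subtype.ext this.2⟩

lemma lone (ω : ℕ → Fin 3) (x : Bool) : lact ω 1 x = x ∧ lsec ω 1 x = 1 := by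
  have := luniq ω 1 x x 1 (fun w => rfl)
  exact ⟨this.1, Subtype.ext this.2⟩

/-- the wreath recursion -/
noncomputable def RGR (ω : ℕ → Fin 3) : Rec (RG ω).X (RG (sh ω)).X Bool where
  act :=
    { toFun := fun g =>
        { toFun := lact ω g
          invFun := lact ω g⁻¹
          left_inv := fun x => by
            rw [← (lmul ω g⁻¹ g x).1, inv_mul_cancel, (lone ω x).1]
          right_inv := fun x => by
            rw [← (lmul ω g g⁻¹ x).1, mul_inv_cancel, (lone ω x).1] }
      map_one' := by
        apply Equiv.ext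
        intro x
        exact (lone ω x).1
      map_mul' := fun g h => by
        apply Equiv.ext
        intro x
        exact (lmul ω g h x).1 }
  sec := lsec ω
  sec_mul := fun g h x => (lmul ω g h x).2
  inj := by
    intro g h1 h2
    apply Subtype.ext
    apply Equiv.ext
    intro w
    cases w with
    | nil => exact lnil ω g
    | cons x w =>
      rw [lspec, h2]
      have : lact ω g x = x := Equiv.ext_iff.mp h1 x
      rw [this]
      rfl

/-- the Grigorchuk groups form a system of the type considered -/
noncomputable def RGS (ω : ℕ → Fin 3) : St (RG ω) (RG (sh ω)) (ω 0) where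
  R := RGR ω
  act_a x := (luniq ω (RG ω).a x (!x) 1 (fun w => rfl)).1
  sec_a x := Subtype.ext (luniq ω (RG ω).a x (!x) 1 (fun w => rfl)).2
  act_b i := by
    apply Equiv.ext
    intro x
    obtain ⟨y, s, hs, h⟩ := RG_self ω _ (pb_mem i ω) x
    cases x with
    | true => exact (luniq ω ((RG ω).b i) true true (pb i (sh ω)) (fun w => rfl)).1
    | false =>
      by_cases h : ω 0 = i
      · exact (luniq ω ((RG ω).b i) false false 1 (fun w => by
          change false :: (if ω 0 = i then w else fa w) = false :: w
          rw [if_pos h])).1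
      · exact (luniq ω ((RG ω).b i) false false pa (fun w => by
          change false :: (if ω 0 = i then w else fa w) = false :: fa w
          rw [if_neg h])).1
  sec_b0 i := by
    by_cases h : ω 0 = i
    · rw [if_pos h.symm]
      exact Subtype.ext (luniq ω ((RG ω).b i) false false 1 (fun w => by
          change false :: (if ω 0 = i then w else fa w) = false :: w
          rw [if_pos h])).2
    · rw [if_neg (fun h' => h h'.symm)]
      exact Subtype.ext (luniq ω ((RG ω).b i) false false pa (fun w => by
          change false :: (if ω 0 = i then w else fa w) = false :: fa w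
          rw [if_neg h])).2
  sec_b1 i := Subtype.ext (luniq ω ((RG ω).b i) true true (pb i (sh ω)) (fun w => rfl)).2

end Pool.Agent.Helper220_VW
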