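import Pool.Agent.Helper220_VW.Step2

set_option autoImplicit false

open Pointwise
open scoped commutatorElement

namespace Pool.Agent.Helper220_VW

/-- a group with marked involutions `a`, `b 0`, `b 1`, `b 2` which generate it, where the `b i`
and one form a Klein four group (or an image of it) -/
structure MG where
  X : Type
  [grp : Group X]
  a : X
  b : Fin 3 → X
  aa : a * a = 1
  bb : ∀ i, b i * b i = 1
  bbb : ∀ i j l, i ≠ j → j ≠ l → i ≠ l → b i * b j = b l
  gen : Subgroup.closure ({a} ∪ Set.range b) = ⊤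

attribute [instance] MG.grp

namespace MG

variable (M : MG)

lemma a_inv : M.a⁻¹ = M.a := inv_eq_of_mul_eq_one_right M.aa
lemma b_inv (i : Fin 3) : (M.b i)⁻¹ = M.b i := inv_eq_of_mul_eq_one_right (M.bb i)

lemma b_comm (i j : Fin 3) : M.b i * M.b j = M.b j * M.b i := by
  by_cases h : i = j
  · rw [h]
  · obtain ⟨l, h1, h2⟩ : ∃ l : Fin 3, j ≠ l ∧ i ≠ l := by
      revert i j; decide
    rw [M.bbb i j l h h1 h2, M.bbb j i l (Ne.symm h) h2 h1]

/-- the generating ball -/
def B : Set M.X := {1} ∪ ({M.a} ∪ Set.range M.b)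

lemma B_finite : M.B.Finite :=
  (Set.finite_singleton _).union ((Set.finite_singleton _).union (Set.finite_range _))

lemma one_mem_B : (1 : M.X) ∈ M.B := Or.inl rfl
lemma a_mem_B : M.a ∈ M.B := Or.inr (Or.inl rfl)
lemma b_mem_B (i : Fin 3) : M.b i ∈ M.B := Or.inr (Or.inr ⟨i, rfl⟩)

lemma inv_mem_B : ∀ g ∈ M.B, g⁻¹ ∈ M.B := by
  rintro g (hg | hg | ⟨i, rfl⟩)
  · rw [Set.mem_singleton_iff] at hg
    rw [hg, inv_one]; exact M.one_mem_B
  · rw [Set.mem_singleton_iff] at hg
    rw [hg, M.a_inv]; exact M.a_mem_B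
  · rw [M.b_inv]; exact M.b_mem_B i

lemma exists_B (g : M.X) : ∃ n, g ∈ M.B ^ n := by
  apply exists_mem_pow_of_mem_closure M.inv_mem_B
  have h : g ∈ Subgroup.closure ({M.a} ∪ Set.range M.b) := by rw [M.gen]; trivial
  exact Subgroup.closure_mono (fun x hx => Or.inr hx) h

/-- word length -/
noncomputable def len : M.X → ℕ := wlen M.B

lemma isLen : IsLen M.len := isLen_wlen M.inv_mem_B M.exists_B

lemma mem_len (g : M.X) : g ∈ M.B ^ M.len g := mem_pow_wlen M.exists_B g

lemma len_le {g : M.X} {n : ℕ} (h : g ∈ M.B ^ n) : M.len g ≤ n := wlen_le h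

/-- induction over the generators -/
lemma induct {P : M.X → Prop} (h1 : P 1) (ha : ∀ x, P x → P (M.a * x))
    (hb : ∀ i x, P x → P (M.b i * x)) (g : M.X) : P g := by
  have h : g ∈ Subgroup.closure ({M.a} ∪ Set.range M.b) := by rw [M.gen]; trivial
  induction h using Subgroup.closure_induction_left with
  | one => exact h1
  | mul_left x hx y _ ih =>
    rcases hx with hx | ⟨i, rfl⟩
    · rw [Set.mem_singleton_iff] at hx
      rw [hx]; exact ha _ ih
    · exact hb _ _ ih
  | inv_mul_cancel x hx y _ ih =>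
    rcases hx with hx | ⟨i, rfl⟩
    · rw [Set.mem_singleton_iff] at hx
      rw [hx, M.a_inv]; exact ha _ ih
    · rw [M.b_inv]; exact hb _ _ ih

/-- a subgroup is normal as soon as the generators normalise it -/
lemma normal_of (N : Subgroup M.X) (ha : ∀ x ∈ N, M.a * x * M.a ∈ N)
    (hb : ∀ i, ∀ x ∈ N, M.b i * x * M.b i ∈ N) : N.Normal := by
  constructor
  intro n hn g
  revert n
  refine M.induct (P := fun g => ∀ n, n ∈ N → g * n * g⁻¹ ∈ N) ?_ ?_ ?_ g
  · intro n hn; simpa using hn
  · intro x ih n hn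
    have := ha _ (ih n hn)
    have e : M.a * x * n * (M.a * x)⁻¹ = M.a * (x * n * x⁻¹) * M.a := by
      rw [mul_inv_rev, M.a_inv]; group
    rw [e]; exact this
  · intro i x ih n hn
    have := hb i _ (ih n hn)
    have e : M.b i * x * n * (M.b i * x)⁻¹ = M.b i * (x * n * x⁻¹) * M.b i := by
      rw [mul_inv_rev, M.b_inv]; group
    rw [e]; exact this

/-- the normal closure of `[a, b i]` -/
def Kc (i : Fin 3) : Subgroup M.X := Subgroup.normalClosure {⁅M.a, M.b i⁆}

instance (i : Fin 3) : (M.Kc i).Normal := Subgroup.normalClosure_normal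

lemma kap_mem (i : Fin 3) : ⁅M.a, M.b i⁆ ∈ M.Kc i := Subgroup.subset_normalClosure rfl

lemma kap_eq (i : Fin 3) : ⁅M.a, M.b i⁆ = M.a * M.b i * M.a * M.b i := by
  rw [commutatorElement_def, M.a_inv, M.b_inv]

/-- the element whose normal closure is used -/
def sg (c g : Fin 3) : M.X := (if c = g then 1 else M.a) * M.b c

/-- the normal closure of `sg` -/
def SS (c g : Fin 3) : Subgroup M.X := Subgroup.normalClosure {M.sg c g}

instance (c g : Fin 3) : (M.SS c g).Normal := Subgroup.normalClosure_normal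

lemma sg_mem (c g : Fin 3) : M.sg c g ∈ M.SS c g := Subgroup.subset_normalClosure rfl

lemma Kc_le_SS (c g : Fin 3) : M.Kc g ≤ M.SS c g := by
  apply Subgroup.normalClosure_le_normal
  intro x hx
  rw [Set.mem_singleton_iff] at hx
  rw [hx]
  change ⁅M.a, M.b g⁆ ∈ M.SS c g
  have hs := M.sg_mem c g
  by_cases h : c = g
  · subst h
    have h1 : M.sg c c = M.b c := by simp [sg]
    rw [h1] at hs
    rw [commutatorElement_def]
    exact Subgroup.mul_mem _ (Subgroup.Normal.conj_mem inferInstance _ hs M.a)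
      (Subgroup.inv_mem _ hs)
  · have h1 : M.sg c g = M.a * M.b c := by simp [sg, h]
    rw [h1] at hs
    have h2 : ⁅M.a, M.b g⁆ = (M.a * M.b c) * ((M.b c * M.b g) * (M.a * M.b c) *
        (M.b c * M.b g)⁻¹) := by
      rw [M.kap_eq, mul_inv_rev, M.b_inv, M.b_inv]
      have e1 : M.a * M.b c * (M.b c * M.b g * (M.a * M.b c) * (M.b g * M.b c)) =
          M.a * (M.b c * M.b c) * M.b g * M.a * M.b c * (M.b g * M.b c) := by group
      rw [e1, M.bb, M.b_comm g c]
      have e2 : M.a * 1 * M.b g * M.a * M.b c * (M.b c * M.b g) =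
          M.a * M.b g * M.a * (M.b c * M.b c) * M.b g := by group
      rw [e2, M.bb, mul_one]
    rw [h2]
    exact Subgroup.mul_mem _ hs (Subgroup.Normal.conj_mem inferInstance _ hs _)

/-- elements of `SS` are powers of `sg` modulo `Kc` -/
lemma SS_decomp (c g : Fin 3) : ∀ p ∈ M.SS c g, ∃ j : ℤ, ∃ k ∈ M.Kc g, p = (M.sg c g) ^ j * k := by
  set s := M.sg c g with hs
  set N : Subgroup M.X := Subgroup.zpowers s ⊔ M.Kc g with hN
  have hsN : s ∈ N := Subgroup.mem_sup_left (Subgroup.mem_zpowers s)
  have hKN : M.Kc g ≤ N := le_sup_right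
  -- conjugation by an element which sends `s` into `N`
  have key : ∀ h : M.X, h * s * h⁻¹ ∈ N → ∀ x ∈ N, h * x * h⁻¹ ∈ N := by
    intro h hh x hx
    rw [hN, Subgroup.mem_sup_of_normal_right] at hx
    obtain ⟨y, hy, k, hk, rfl⟩ := hx
    obtain ⟨j, rfl⟩ := Subgroup.mem_zpowers_iff.mp hy
    have e : h * (s ^ j * k) * h⁻¹ = (h * s * h⁻¹) ^ j * (h * k * h⁻¹) := by
      rw [conj_zpow]; group
    rw [e]
    exact N.mul_mem (N.zpow_mem hh j) (hKN (Subgroup.Normal.conj_mem inferInstance _ hk h))
  have hkap : M.a * M.b g * M.a * M.b g ∈ N := by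
    rw [← M.kap_eq]; exact hKN (M.kap_mem g)
  have hnorm : N.Normal := by
    by_cases h : c = g
    · subst h
      have hs1 : s = M.b c := by simp [hs, sg]
      apply M.normal_of
      · intro x hx
        have := key M.a (by
          rw [hs1, M.a_inv]
          have : M.a * M.b c * M.a = (M.a * M.b c * M.a * M.b c) * M.b c := by
            rw [mul_assoc _ (M.b c) (M.b c), M.bb, mul_one]
          rw [this, ← hs1]
          rw [← hs1] at hkap
          exact N.mul_mem hkap hsN) x hx
        rwa [M.a_inv] at this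
      · intro i x hx
        have := key (M.b i) (by
          rw [hs1, M.b_inv, M.b_comm i c, mul_assoc, M.bb, mul_one, ← hs1]
          exact hsN) x hx
        rwa [M.b_inv] at this
    · have hs1 : s = M.a * M.b c := by simp [hs, sg, h]
      have hsinv : s⁻¹ = M.b c * M.a := by rw [hs1, mul_inv_rev, M.a_inv, M.b_inv]
      have ha : ∀ x ∈ N, M.a * x * M.a ∈ N := by
        intro x hx
        have := key M.a (by
          rw [M.a_inv, hs1]
          have : M.a * (M.a * M.b c) * M.a = M.b c * M.a := by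
            rw [← mul_assoc, M.aa, one_mul]
          rw [this, ← hsinv]
          exact N.inv_mem hsN) x hx
        rwa [M.a_inv] at this
      have hc : ∀ x ∈ N, M.b c * x * M.b c ∈ N := by
        intro x hx
        have := key (M.b c) (by
          rw [M.b_inv, hs1]
          have : M.b c * (M.a * M.b c) * M.b c = M.b c * M.a := by
            rw [← mul_assoc, mul_assoc, M.bb, mul_one]
          rw [this, ← hsinv]
          exact N.inv_mem hsN) x hx
        rwa [M.b_inv] at this
      have hg : ∀ x ∈ N, M.b g * x * M.b g ∈ N := by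
        intro x hx
        have := key (M.b g) (by
          rw [M.b_inv, hs1]
          have e : M.b g * (M.a * M.b c) * M.b g =
              (M.a * M.b g * M.a * M.b g)⁻¹ * (M.a * M.b c) := by
            rw [mul_inv_rev, mul_inv_rev, mul_inv_rev, M.a_inv, M.b_inv]
            have e1 : M.b g * (M.a * (M.b g * M.a)) * (M.a * M.b c) =
                M.b g * M.a * M.b g * (M.a * M.a) * M.b c := by group
            rw [e1, M.aa, mul_one]
            have e2 : M.b g * (M.a * M.b c) * M.b g = M.b g * M.a * (M.b c * M.b g) := by group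
            rw [e2, M.b_comm c g]; group
          rw [e, ← hs1]
          exact N.mul_mem (N.inv_mem hkap) hsN) x hx
        rwa [M.b_inv] at this
      apply M.normal_of _ ha
      intro i x hx
      by_cases hi1 : i = c
      · subst hi1; exact hc x hx
      by_cases hi2 : i = g
      · subst hi2; exact hg x hx
      have e : M.b i = M.b g * M.b c := (M.bbb g c i (Ne.symm h) (Ne.symm hi1) (Ne.symm hi2)).symm
      have e' : M.b i * x * M.b i = M.b g * (M.b c * x * M.b c) * M.b g := by
        rw [e]
        have : M.b g * M.b c * x * (M.b g * M.b c) = M.b g * M.b c * x * (M.b c * M.b g) := by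
          rw [M.b_comm g c]
        rw [this]; group
      rw [e']
      exact hg _ (hc _ hx)
  intro p hp
  have hle : M.SS c g ≤ N := by
    apply Subgroup.normalClosure_le_normal
    intro x hx
    rw [Set.mem_singleton_iff] at hx
    rw [hx]; exact hsN
  have := hle hp
  rw [hN, Subgroup.mem_sup_of_normal_right] at this
  obtain ⟨y, hy, k, hk, rfl⟩ := this
  obtain ⟨j, rfl⟩ := Subgroup.mem_zpowers_iff.mp hy
  exact ⟨j, k, hk, rfl⟩

end MG

end Pool.Agent.Helper220_VW
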