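import Pool.Agent.Helper220_VW.Gen

set_option autoImplicit false

open Pointwise
open scoped commutatorElement

namespace Pool.Agent.Helper220_VW

namespace Rec

variable {G H D : Type*} [Group G] [Group H] {R : Rec G H D}

/-- moving the coordinates along a list to their roots costs one commutator each -/
lemma move [Fintype D] [DecidableEq D] {K : Subgroup G} {L : Subgroup H} (hL : L.Normal)
    (hbr : R.Branch K L) (r : D → D) (s : D → H) (kk : D → G) (hkk : ∀ u, kk u ∈ K)
    (hact : ∀ u, R.act (kk u) (r u) = u) (hsec : ∀ u, R.sec (kk u) (r u) = s u)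
    (z : D → H) (hz : ∀ u, z u ∈ L) (l : List D) :
    ∀ g, R.Dg g (l.map (fun u => (Pi.mulSingle u (z u) : D → H))).prod →
      ∃ t ∈ Cm K ^ l.length, ∃ P ∈ K,
        R.Dg P (l.map (fun u => (Pi.mulSingle (r u) ((s u)⁻¹ * z u * s u) : D → H))).prod ∧
        g = t * P := by
  induction l with
  | nil =>
    intro g hg
    simp only [List.map_nil, List.prod_nil] at hg ⊢
    have : g = 1 := hg.unique Dg.one
    exact ⟨1, by simp, 1, K.one_mem, Dg.one, by rw [this, one_mul]⟩
  | cons a t ih =>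
    intro g hg
    rw [List.map_cons, List.prod_cons] at hg
    have hyL : (s a)⁻¹ * z a * s a ∈ L := by
      have := hL.conj_mem (z a) (hz a) (s a)⁻¹
      simpa using this
    have hsL : ∀ (v : D) (x : H), x ∈ L → ∀ w, (Pi.mulSingle v x : D → H) w ∈ L := by
      intro v x hx w
      by_cases hw : w = v
      · subst hw; simpa using hx
      · rw [Pi.mulSingle_eq_of_ne hw]; exact L.one_mem
    obtain ⟨d, hdK, hd⟩ := hbr (Pi.mulSingle (r a) ((s a)⁻¹ * z a * s a)) (hsL _ _ hyL)
    have htL : ∀ w, (t.map (fun u => (Pi.mulSingle u (z u) : D → H))).prod w ∈ L := by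
      intro w
      rw [list_prod_mulSingle t (fun u => u) z w]
      apply Subgroup.list_prod_mem
      intro x hx
      obtain ⟨u, -, rfl⟩ := List.mem_map.mp hx
      exact hz u
    obtain ⟨gt, -, hgt⟩ := hbr _ htL
    obtain ⟨c, hc, P, hP, hPd, hgc⟩ := ih gt hgt
    have h1 : R.Dg (kk a * d * (kk a)⁻¹) (Pi.mulSingle a (z a)) := by
      have := hd.conj_single (kk a)
      rw [hact, hsec] at this
      have e : s a * ((s a)⁻¹ * z a * s a) * (s a)⁻¹ = z a := by group
      rwa [e] at this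
    have h2 : g = kk a * d * (kk a)⁻¹ * gt := hg.unique (h1.mul hgt)
    refine ⟨⁅kk a, d⁆ * (d * c * d⁻¹), ?_, d * P, K.mul_mem hdK hP, ?_, ?_⟩
    · rw [List.length_cons, add_comm, pow_add, pow_one]
      refine Set.mul_mem_mul ⟨kk a, hkk a, d, hdK, rfl⟩ ?_
      exact conj_mem_pow (conj_mem_Cm (fun x hx =>
        K.mul_mem (K.mul_mem hdK hx) (K.inv_mem hdK))) hc
    · rw [List.map_cons, List.prod_cons]
      exact hd.mul hPd
    · rw [h2, hgc, commutatorElement_def]
      group

/-- two elements with the same block products differ by a bounded number of commutators -/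
lemma redistribute [Fintype D] [DecidableEq D] {K : Subgroup G} {L : Subgroup H} (hL : L.Normal)
    (hbr : R.Branch K L) (r : D → D) (s : D → H) (kk : D → G) (hkk : ∀ u, kk u ∈ K)
    (hact : ∀ u, R.act (kk u) (r u) = u) (hsec : ∀ u, R.sec (kk u) (r u) = s u)
    (z z' : D → H) (hz : ∀ u, z u ∈ L) (hz' : ∀ u, z' u ∈ L)
    (hprod : ∀ v, ((Finset.univ.toList.filter (fun u => r u = v)).map
          (fun u => (s u)⁻¹ * z u * s u)).prod =
        ((Finset.univ.toList.filter (fun u => r u = v)).map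
          (fun u => (s u)⁻¹ * z' u * s u)).prod)
    (g g' : G) (hg : R.Dg g z) (hg' : R.Dg g' z') :
    ∃ t ∈ Cm K ^ (2 * Fintype.card D), g = t * g' := by
  have hlen : (Finset.univ : Finset D).toList.length = Fintype.card D := by simp
  rw [← list_prod_mulSingle_univ z] at hg
  rw [← list_prod_mulSingle_univ z'] at hg'
  obtain ⟨t, ht, P, -, hPd, hgt⟩ := move hL hbr r s kk hkk hact hsec z hz _ g hg
  obtain ⟨t', ht', P', -, hPd', hgt'⟩ := move hL hbr r s kk hkk hact hsec z' hz' _ g' hg'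
  have hPP : P = P' := by
    refine hPd.unique (hPd'.congr fun v => ?_)
    rw [list_prod_mulSingle, list_prod_mulSingle]
    exact (hprod v).symm
  refine ⟨t * t'⁻¹, ?_, ?_⟩
  · rw [two_mul, ← hlen]
    exact mul_mem_pow_add ht (inv_mem_pow inv_mem_Cm ht')
  · rw [hgt, hgt', hPP]; group

end Rec

section Linear

variable {G : Type*} [Group G]

/-- a linear bound for the commutator length on a commutator subgroup of finite index -/
theorem linear_bound (B : Set G) (hB : B.Finite) (K : Subgroup G) (hK : K.Normal)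
    [(⁅K, K⁆ : Subgroup G).FiniteIndex] :
    ∃ A A₀ : ℕ, ∀ n : ℕ, ∀ g ∈ B ^ n, g ∈ ⁅K, K⁆ → g ∈ Cm K ^ (A * n + A₀) := by
  classical
  have hKK : (⁅K, K⁆ : Subgroup G).Normal := Subgroup.commutator_normal K K
  set M : Subgroup G := ⁅K, K⁆ with hM
  have hfin : Finite (G ⧸ M) := inferInstance
  set rep : G → G := fun g => (Quotient.out (g : G ⧸ M)) with hrep
  have hrepmk : ∀ g, ((rep g : G) : G ⧸ M) = (g : G ⧸ M) := fun g => by simp [hrep]
  have hrepfin : (Set.range rep).Finite := by
    have : Set.range rep ⊆ Set.range (fun q : G ⧸ M => q.out) := by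
      rintro _ ⟨g, rfl⟩; exact ⟨(g : G ⧸ M), rfl⟩
    exact (Set.finite_range _).subset this
  -- a uniform bound over a finite set
  have hunif : ∀ F : Set G, F.Finite → ∃ A : ℕ, ∀ g ∈ F, g ∈ M → g ∈ Cm K ^ A := by
    intro F hF
    have h1 : ∀ g : G, ∃ n : ℕ, g ∈ M → g ∈ Cm K ^ n := by
      intro g
      by_cases hg : g ∈ M
      · obtain ⟨n, hn⟩ := exists_mem_Cm_pow hg
        exact ⟨n, fun _ => hn⟩
      · exact ⟨0, fun h => absurd h hg⟩
    choose f hf using h1
    refine ⟨hF.toFinset.sup f, fun g hg hgM => ?_⟩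
    refine pow_mono_of_one (one_mem_Cm K) ?_ (hf g hgM)
    exact Finset.le_sup (f := f) (hF.mem_toFinset.mpr hg)
  have hF1 : ((Set.range rep) * B * (Set.range rep)⁻¹).Finite :=
    (hrepfin.mul hB).mul hrepfin.inv
  obtain ⟨A, hA⟩ := hunif _ hF1
  obtain ⟨A₁, hA₁⟩ := hunif (Set.range rep) hrepfin
  obtain ⟨A₂, hA₂⟩ := hunif ({1} * (Set.range rep)⁻¹) ((Set.finite_singleton _).mul hrepfin.inv)
  have key : ∀ n : ℕ, ∀ g ∈ B ^ n, ∃ h ∈ Cm K ^ (A * n + A₂), g = h * rep g := by
    intro n
    induction n with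
    | zero =>
      intro g hg
      simp only [pow_zero, Set.mem_one] at hg
      subst hg
      refine ⟨(rep 1)⁻¹, ?_, by group⟩
      rw [mul_zero, zero_add]
      apply hA₂
      · exact Set.mem_mul.mpr ⟨1, rfl, (rep 1)⁻¹, Set.inv_mem_inv.mpr ⟨1, rfl⟩, by group⟩
      · have : ((rep 1 : G) : G ⧸ M) = ((1 : G) : G ⧸ M) := hrepmk 1
        rw [QuotientGroup.eq] at this
        simpa using this
    | succ n ih =>
      intro g hg
      rw [pow_succ] at hg
      obtain ⟨g', hg', b, hb, rfl⟩ := Set.mem_mul.mp hg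
      obtain ⟨h', hh', hgh⟩ := ih g' hg'
      set m := rep g' * b * (rep (g' * b))⁻¹ with hm
      have hmM : m ∈ M := by
        rw [← QuotientGroup.eq_one_iff, hm, QuotientGroup.mk_mul, QuotientGroup.mk_mul,
          QuotientGroup.mk_inv, hrepmk, hrepmk, QuotientGroup.mk_mul]
        group
      have hmA : m ∈ Cm K ^ A := by
        apply hA _ _ hmM
        exact Set.mul_mem_mul (Set.mul_mem_mul ⟨g', rfl⟩ hb) (Set.inv_mem_inv.mpr ⟨_, rfl⟩)
      refine ⟨h' * m, ?_, ?_⟩
      · have : A * (n + 1) + A₂ = (A * n + A₂) + A := by ring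
        rw [this]
        exact mul_mem_pow_add hh' hmA
      · rw [hm]
        nth_rewrite 1 [hgh]
        group
  refine ⟨A, A₂ + A₁, fun n g hg hgM => ?_⟩
  obtain ⟨h, hh, hgh⟩ := key n g hg
  have h1 : rep g ∈ M := by
    have h2 : h ∈ M := Cm_pow_subset K _ hh
    have h3 : rep g = h⁻¹ * g := by rw [eq_inv_mul_iff_mul_eq]; exact hgh.symm
    rw [h3]
    exact M.mul_mem (M.inv_mem h2) hgM
  rw [hgh, ← add_assoc]
  exact mul_mem_pow_add hh (hA₁ _ ⟨g, rfl⟩ h1)

end Linear

section Len

variable {G : Type*} [Group G]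

/-- word length with respect to a set `B` -/
noncomputable def wlen (B : Set G) (g : G) : ℕ := sInf {n | g ∈ B ^ n}

variable {B : Set G}

lemma mem_pow_wlen (hB : ∀ g : G, ∃ n, g ∈ B ^ n) (g : G) : g ∈ B ^ wlen B g :=
  Nat.sInf_mem (hB g)

lemma wlen_le {g : G} {n : ℕ} (h : g ∈ B ^ n) : wlen B g ≤ n := Nat.sInf_le h

lemma isLen_wlen (hinv : ∀ g ∈ B, g⁻¹ ∈ B) (hB : ∀ g : G, ∃ n, g ∈ B ^ n) : IsLen (wlen B) where
  one := Nat.le_zero.mp (wlen_le (by simp))
  mul g h := wlen_le (mul_mem_pow_add (mem_pow_wlen hB g) (mem_pow_wlen hB h))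
  inv g := by
    apply le_antisymm
    · exact wlen_le (inv_mem_pow hinv (mem_pow_wlen hB g))
    · have := wlen_le (B := B) (inv_mem_pow hinv (mem_pow_wlen hB g⁻¹))
      simpa using this

/-- a finitely generated group has a finite symmetric set containing one whose powers exhaust it -/
lemma exists_ball [Group.FG G] : ∃ B : Set G, B.Finite ∧ 1 ∈ B ∧ (∀ g ∈ B, g⁻¹ ∈ B) ∧
    ∀ g : G, ∃ n, g ∈ B ^ n := by
  obtain ⟨S, hS, hSf⟩ := Group.fg_iff.mp (inferInstance : Group.FG G)
  refine ⟨S ∪ S⁻¹ ∪ {1}, (hSf.union hSf.inv).union (Set.finite_singleton _), by simp, ?_, ?_⟩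
  · rintro g ((hg | hg) | hg)
    · exact Or.inl (Or.inr (by simpa using hg))
    · exact Or.inl (Or.inl (by simpa using hg))
    · right
      simp only [Set.mem_singleton_iff] at hg ⊢
      rw [hg, inv_one]
  · intro g
    apply exists_mem_pow_of_mem_closure
    · rintro g ((hg | hg) | hg)
      · exact Or.inl (Or.inr (by simpa using hg))
      · exact Or.inl (Or.inl (by simpa using hg))
      · right
        simp only [Set.mem_singleton_iff] at hg ⊢
        rw [hg, inv_one]
    · have : g ∈ Subgroup.closure S := by rw [hS]; trivial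
      exact Subgroup.closure_mono (fun x hx => Or.inl (Or.inl hx)) this

end Len

end Pool.Agent.Helper220_VW
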