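import Pool.Agent.Helper220_VW.Movers

set_option autoImplicit false

open Pointwise
open scoped commutatorElement

namespace Pool.Agent.Helper220_VW

/-- Finite commutator width of the branching subgroup in the self-similar contracting case. -/
theorem cw_self {G D : Type*} [Group G] [Finite D] (B : Set G) (hBf : B.Finite)
    (_hB1 : (1 : G) ∈ B) (hBinv : ∀ g ∈ B, g⁻¹ ∈ B) (hBex : ∀ g : G, ∃ n, g ∈ B ^ n)
    (R : Rec G G D) (K : Subgroup G) (hK : K.Normal) [(⁅K, K⁆ : Subgroup G).FiniteIndex]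
    (hbr : R.Branch K K) (c : ℝ) (hc : 0 ≤ c)
    (hcon : ∀ g u, (wlen B (R.sec g u) : ℝ) ≤ 1 / 2 * wlen B g + c)
    (hmove : ∀ u, ∃ k ∈ K, R.act k u ≠ u) :
    ∃ N : ℕ, ∀ g ∈ ⁅K, K⁆, g ∈ Cm K ^ N := by
  classical
  have := Fintype.ofFinite D
  have hlen : IsLen (wlen B) := isLen_wlen hBinv hBex
  have hKK : (⁅K, K⁆ : Subgroup G).Normal := Subgroup.commutator_normal K K
  -- the orbit relation
  let rel : Setoid D :=
    { r := fun u v => ∃ k ∈ K, R.act k u = v
      iseqv := by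
        refine ⟨fun u => ⟨1, K.one_mem, by simp⟩, ?_, ?_⟩
        · rintro u v ⟨k, hk, rfl⟩
          exact ⟨k⁻¹, K.inv_mem hk, by simp⟩
        · rintro u v w ⟨k, hk, rfl⟩ ⟨l, hl, rfl⟩
          exact ⟨l * k, K.mul_mem hl hk, by simp⟩ }
  let r : D → D := fun u => (Quotient.mk rel u).out
  have hru : ∀ u, ∃ k ∈ K, R.act k (r u) = u := fun u => Quotient.exact (Quotient.out_eq (Quotient.mk rel u))
  have hreq : ∀ u v, (∃ k ∈ K, R.act k u = v) → r u = r v := by
    intro u v h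
    have : Quotient.mk rel u = Quotient.mk rel v := Quotient.sound h
    simp only [r, this]
  have hrr : ∀ u, r (r u) = r u := fun u => hreq _ _ (hru u)
  choose kk hkk hact using hru
  let s : D → G := fun u => R.sec (kk u) (r u)
  -- the transversal
  have hfi : (R.dsub ⁅K, K⁆).FiniteIndex := Rec.dsub_finiteIndex _
  have hfq : Finite (G ⧸ R.dsub ⁅K, K⁆) := inferInstance
  have hTex : ∀ q : G ⧸ R.dsub ⁅K, K⁆, ∃ t : G, ∃ n : ℕ, t ∈ Cm K ^ n ∧
      ∀ g ∈ ⁅K, K⁆, (g : G ⧸ R.dsub ⁅K, K⁆) = q → t⁻¹ * g ∈ R.dsub ⁅K, K⁆ := by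
    intro q
    by_cases hq : ∃ t ∈ ⁅K, K⁆, ((t : G) : G ⧸ R.dsub ⁅K, K⁆) = q
    · obtain ⟨t, ht, htq⟩ := hq
      obtain ⟨n, hn⟩ := exists_mem_Cm_pow ht
      refine ⟨t, n, hn, fun g _ hgq => ?_⟩
      rw [← QuotientGroup.eq, htq, hgq]
    · refine ⟨1, 0, by simp, fun g hg hgq => absurd ⟨g, hg, hgq⟩ hq⟩
  choose T nT hTn hTg using hTex
  have := Fintype.ofFinite (G ⧸ R.dsub ⁅K, K⁆)
  let E₀ : ℕ := Finset.univ.sup nT
  let LT : ℕ := Finset.univ.sup (fun q => wlen B (T q))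
  let Ls : ℕ := Finset.univ.sup (fun u => wlen B (s u))
  let E : ℕ := max E₀ (2 * Fintype.card D)
  let c' : ℝ := LT + c + Ls
  have hc' : 0 ≤ c' := by positivity
  obtain ⟨A, A₀, hA⟩ := linear_bound B hBf K hK
  let P : ℝ → ℝ → Prop := fun α β => ∀ g ∈ ⁅K, K⁆, ∃ m : ℕ, (m : ℝ) ≤ α * wlen B g + β ∧
    g ∈ Cm K ^ m
  have hP0 : P A A₀ := by
    intro g hg
    refine ⟨A * wlen B g + A₀, by push_cast; exact le_rfl, hA _ g (mem_pow_wlen hBex g) hg⟩
  have hPmono : ∀ α β β', β ≤ β' → P α β → P α β' := by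
    intro α β β' hβ hP g hg
    obtain ⟨m, hm, hmg⟩ := hP g hg
    exact ⟨m, by linarith, hmg⟩
  have hstep : ∀ α β, 0 ≤ α → 0 ≤ β → P α β →
      P (α * (1 / 2)) ((2 * E + 1) + α * (3 * c') + β / 2) := by
    intro α β hα hβ hP
    have h := step R K K hK hbr (wlen B) (wlen B) hlen E (1 / 2) c' (by norm_num) hc' ?_ r hrr ?_
      s ?_ ?_ α β hα hβ hP
    · intro g hg
      obtain ⟨m, hm, hmg⟩ := h g hg
      exact ⟨m, by linarith, hmg⟩
    · intro g hg
      let q : G ⧸ R.dsub ⁅K, K⁆ := (g : G ⧸ R.dsub ⁅K, K⁆)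
      have hmem := hTg q g hg rfl
      refine ⟨T q, ?_, fun u => R.sec ((T q)⁻¹ * g) u, hmem.2, ?_, hmem.1, fun u => rfl⟩
      · refine pow_mono_of_one (one_mem_Cm K) ?_ (hTn q)
        exact le_trans (Finset.le_sup (f := nT) (Finset.mem_univ q)) (le_max_left _ _)
      · intro u
        have h1 := hcon ((T q)⁻¹ * g) u
        have h2 : wlen B ((T q)⁻¹ * g) ≤ LT + wlen B g := by
          refine le_trans (hlen.mul _ _) (Nat.add_le_add_right ?_ _)
          rw [hlen.inv]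
          exact Finset.le_sup (f := fun q => wlen B (T q)) (Finset.mem_univ q)
        have h3 : (wlen B ((T q)⁻¹ * g) : ℝ) ≤ LT + wlen B g := by exact_mod_cast h2
        have h4 : (0 : ℝ) ≤ LT := by positivity
        have h5 : (0 : ℝ) ≤ Ls := by positivity
        simp only [c']
        linarith
    · intro u
      obtain ⟨k, hk, hku⟩ := hmove u
      have h1 : r (R.act k u) = r u := (hreq _ _ ⟨k, hk, rfl⟩).symm
      have h2 : ({u, R.act k u} : Finset D) ⊆
          (Finset.univ.toList.filter (fun v => r v = r u)).toFinset := by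
        intro v hv
        simp only [Finset.mem_insert, Finset.mem_singleton] at hv
        rcases hv with rfl | rfl
        · simp
        · simp [h1]
      calc 2 = ({u, R.act k u} : Finset D).card := (Finset.card_pair (Ne.symm hku)).symm
        _ ≤ (Finset.univ.toList.filter (fun v => r v = r u)).toFinset.card :=
            Finset.card_le_card h2
        _ ≤ _ := List.toFinset_card_le _
    · intro u
      have h1 : wlen B (s u) ≤ Ls := Finset.le_sup (f := fun u => wlen B (s u)) (Finset.mem_univ u)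
      have h2 : (wlen B (s u) : ℝ) ≤ Ls := by exact_mod_cast h1
      have h3 : (0 : ℝ) ≤ LT := by positivity
      simp only [c']
      linarith
    · intro z z' hz hz' hprod g g' hg hg'
      obtain ⟨t, ht, hgt⟩ := Rec.redistribute hK hbr r s kk hkk hact (fun u => rfl) z z' hz hz'
        hprod g g' hg hg'
      exact ⟨t, pow_mono_of_one (one_mem_Cm K) (le_max_right _ _) ht, hgt⟩
  have hall := iterate (P := P) (A := A) (A₀ := A₀) (lam := 1 / 2) (e := 2 * E + 1) (c := 3 * c')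
    (by positivity) (by positivity) (by norm_num) (by norm_num) (by positivity) (by positivity)
    hP0 hPmono hstep
  refine ⟨⌈2 * ((2 * (E : ℝ) + 1) + A * (3 * c')) + A₀ + 1⌉₊, fun g hg => ?_⟩
  -- choose n large
  obtain ⟨n, hn⟩ : ∃ n : ℕ, (A : ℝ) * wlen B g * (1 / 2) ^ n ≤ 1 := by
    have h1 : Filter.Tendsto (fun n : ℕ => (A : ℝ) * wlen B g * (1 / 2 : ℝ) ^ n) Filter.atTop
        (nhds ((A : ℝ) * wlen B g * 0)) :=
      (tendsto_pow_atTop_nhds_zero_of_lt_one (by norm_num) (by norm_num)).const_mul _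
    rw [mul_zero] at h1
    obtain ⟨n, hn⟩ := (h1.eventually (ge_mem_nhds (show (0 : ℝ) < 1 by norm_num))).exists
    exact ⟨n, hn⟩
  obtain ⟨m, hm, hmg⟩ := hall n g hg
  refine pow_mono_of_one (one_mem_Cm K) ?_ hmg
  have h2 : (m : ℝ) ≤ 2 * ((2 * (E : ℝ) + 1) + A * (3 * c')) + A₀ + 1 := by
    have : (A : ℝ) * (1 / 2) ^ n * wlen B g = A * wlen B g * (1 / 2) ^ n := by ring
    rw [this] at hm
    linarith
  exact_mod_cast h2.trans (Nat.le_ceil _)

/-- From bounded commutator width of the branching subgroup to verbal width. -/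
theorem verbal_generic {G H D : Type*} [Group G] [Group H] [Finite D] (R : Rec G H D)
    (K : Subgroup G) (L : Subgroup H) (hL : L.Normal) [(⁅L, L⁆ : Subgroup H).FiniteIndex]
    (hbr : R.Branch K L) (N : ℕ) (hN : ∀ y ∈ ⁅L, L⁆, y ∈ Cm L ^ N)
    (htrans : ∀ u v, ∃ g, R.act g u = v) (W : Set G) (hW : ∀ g, ∀ w ∈ W, g * w * g⁻¹ ∈ W)
    (h : G) (hh : h ∈ W) (u : D) (hu : R.act h u ≠ u) :
    ∃ m : ℕ, ∀ g ∈ Subgroup.closure W, g ∈ (W ∪ W⁻¹ ∪ {1} : Set G) ^ m := by
  classical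
  have := Fintype.ofFinite D
  set U : Set G := W ∪ W⁻¹ ∪ {1} with hU
  have hU1 : (1 : G) ∈ U := by simp [hU]
  have hUinv : ∀ g ∈ U, g⁻¹ ∈ U := by
    rintro g ((hg | hg) | hg)
    · exact Or.inl (Or.inr (by simpa using hg))
    · exact Or.inl (Or.inl (by simpa using hg))
    · right
      simp only [Set.mem_singleton_iff] at hg ⊢
      rw [hg, inv_one]
  have hUconj : ∀ a : G, ∀ g ∈ U, a * g * a⁻¹ ∈ U := by
    rintro a g ((hg | hg) | hg)
    · exact Or.inl (Or.inl (hW a g hg))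
    · refine Or.inl (Or.inr ?_)
      rw [Set.mem_inv] at hg ⊢
      have := hW a _ hg
      have e : (a * g * a⁻¹)⁻¹ = a * g⁻¹ * a⁻¹ := by group
      rwa [e]
    · right
      simp only [Set.mem_singleton_iff] at hg ⊢
      rw [hg]; group
  have hhU : h ∈ U := Or.inl (Or.inl hh)
  have hUcl : ∀ g ∈ U, g ∈ Subgroup.closure W := by
    rintro g ((hg | hg) | hg)
    · exact Subgroup.subset_closure hg
    · have := Subgroup.subset_closure (Set.mem_inv.mp hg)
      simpa using (Subgroup.closure W).inv_mem this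
    · simp only [Set.mem_singleton_iff] at hg
      rw [hg]; exact Subgroup.one_mem _
  have hUpcl : ∀ n : ℕ, ∀ g ∈ U ^ n, g ∈ Subgroup.closure W := by
    intro n
    induction n with
    | zero =>
      intro g hg
      simp only [pow_zero, Set.mem_one] at hg
      rw [hg]; exact Subgroup.one_mem _
    | succ n ih =>
      intro g hg
      rw [pow_succ] at hg
      obtain ⟨x, hx, y, hy, rfl⟩ := Set.mem_mul.mp hg
      exact Subgroup.mul_mem _ (ih x hx) (hUcl y hy)
  have hsL : ∀ (v : D) (x : H), x ∈ L → ∀ w, (Pi.mulSingle v x : D → H) w ∈ L := by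
    intro v x hx w
    by_cases hw : w = v
    · subst hw; simpa using hx
    · rw [Pi.mulSingle_eq_of_ne hw]; exact L.one_mem
  -- single commutators at `u`
  have h1 : ∀ x ∈ Cm L, ∀ g, R.Dg g (Pi.mulSingle u x) → g ∈ U ^ 4 := by
    rintro _ ⟨x, hx, y, hy, rfl⟩ g hg
    obtain ⟨gx, -, hgx⟩ := hbr _ (hsL u x hx)
    obtain ⟨gy, -, hgy⟩ := hbr _ (hsL u y hy)
    -- the element `⁅⁅gx, h⁆, gy⁆`
    have e1 : R.Dg (h * gx⁻¹ * h⁻¹) (Pi.mulSingle (R.act h u)
        (R.sec h u * x⁻¹ * (R.sec h u)⁻¹)) := by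
      have h2 : R.Dg gx⁻¹ (Pi.mulSingle u x⁻¹) := by
        refine hgx.inv.congr fun v => ?_
        rw [← Pi.mulSingle_inv]
      exact h2.conj_single h
    have e2 : R.Dg ⁅gx * (h * gx⁻¹ * h⁻¹), gy⁆ (Pi.mulSingle u ⁅x, y⁆) := by
      refine ((hgx.mul e1).commutator hgy).congr fun v => ?_
      by_cases hv : v = u
      · subst hv
        rw [commutatorElement_def, commutatorElement_def]
        simp only [Pi.mul_apply, Pi.inv_apply, Pi.mulSingle_eq_same]
        rw [Pi.mulSingle_eq_of_ne (Ne.symm hu)]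
        simp
      · rw [commutatorElement_def]
        simp only [Pi.mul_apply, Pi.inv_apply, Pi.mulSingle_eq_of_ne hv]
        simp
    have e3 : g = ⁅gx * (h * gx⁻¹ * h⁻¹), gy⁆ := hg.unique e2
    have e4 : g = (gx * h * gx⁻¹) * h⁻¹ * (gy * ((gx * h * gx⁻¹) * h⁻¹)⁻¹ * gy⁻¹) := by
      rw [e3, commutatorElement_def]; group
    have m2 : (gx * h * gx⁻¹) * h⁻¹ ∈ U ^ 2 := by
      rw [pow_two]
      exact Set.mul_mem_mul (hUconj gx h hhU) (hUinv h hhU)
    rw [e4]
    have : (4 : ℕ) = 2 + 2 := rfl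
    rw [this]
    exact mul_mem_pow_add m2 (conj_mem_pow (hUconj gy) (inv_mem_pow hUinv m2))
  -- products of commutators at `u`
  have h2 : ∀ n : ℕ, ∀ x ∈ Cm L ^ n, ∀ g, R.Dg g (Pi.mulSingle u x) → g ∈ U ^ (4 * n) := by
    intro n
    induction n with
    | zero =>
      intro x hx g hg
      simp only [pow_zero, Set.mem_one] at hx
      subst hx
      have : g = 1 := hg.unique (Rec.Dg.one.congr fun v => by simp)
      rw [this]; simp
    | succ n ih =>
      intro x hx g hg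
      rw [pow_succ] at hx
      obtain ⟨a, ha, b, hb, rfl⟩ := Set.mem_mul.mp hx
      obtain ⟨ga, -, hga⟩ := hbr _ (hsL u a (Cm_pow_mem L n ha))
      obtain ⟨gb, -, hgb⟩ := hbr _ (hsL u b (Subgroup.commutator_le_self L (Cm_subset L hb)))
      have : g = ga * gb := by
        refine hg.unique ((hga.mul hgb).congr fun v => ?_)
        rw [← Pi.mulSingle_mul]
      rw [this, Nat.mul_succ]
      exact mul_mem_pow_add (ih a ha ga hga) (h1 b hb gb hgb)
  have hLL : (⁅L, L⁆ : Subgroup H).Normal := Subgroup.commutator_normal L L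
  -- elements of the commutator subgroup at any vertex
  have h3 : ∀ v : D, ∀ x ∈ ⁅L, L⁆, ∀ g, R.Dg g (Pi.mulSingle v x) → g ∈ U ^ (4 * N) := by
    intro v x hx g hg
    obtain ⟨a, ha⟩ := htrans v u
    have h4 : R.Dg (a * g * a⁻¹) (Pi.mulSingle u (R.sec a v * x * (R.sec a v)⁻¹)) := by
      have := hg.conj_single a
      rwa [ha] at this
    have h5 := h2 N _ (hN _ (hLL.conj_mem x hx (R.sec a v))) _ h4
    have h6 : g = a⁻¹ * (a * g * a⁻¹) * (a⁻¹)⁻¹ := by group
    rw [h6]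
    exact conj_mem_pow (hUconj a⁻¹) h5
  -- all of `dsub`
  have h4 : ∀ l : List D, ∀ z : D → H, (∀ v, z v ∈ ⁅L, L⁆) → ∀ g,
      R.Dg g (l.map (fun v => (Pi.mulSingle v (z v) : D → H))).prod →
      g ∈ U ^ (4 * N * l.length) := by
    intro l z hz
    induction l with
    | nil =>
      intro g hg
      simp only [List.map_nil, List.prod_nil] at hg
      have : g = 1 := hg.unique Rec.Dg.one
      rw [this]; simp
    | cons a t ih =>
      intro g hg
      rw [List.map_cons, List.prod_cons] at hg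
      obtain ⟨ga, -, hga⟩ := hbr _ (hsL a (z a) (Subgroup.commutator_le_self L (hz a)))
      have htL : ∀ w, (t.map (fun u => (Pi.mulSingle u (z u) : D → H))).prod w ∈ L := by
        intro w
        rw [Rec.list_prod_mulSingle t (fun u => u) z w]
        apply Subgroup.list_prod_mem
        intro x hx
        obtain ⟨u, -, rfl⟩ := List.mem_map.mp hx
        exact Subgroup.commutator_le_self L (hz u)
      obtain ⟨gt, -, hgt⟩ := hbr _ htL
      have : g = ga * gt := hg.unique (hga.mul hgt)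
      rw [this, List.length_cons, Nat.mul_succ, add_comm]
      exact mul_mem_pow_add (h3 a (z a) (hz a) ga hga) (ih gt hgt)
  set M := 4 * N * Fintype.card D with hM
  have h5 : ∀ g ∈ R.dsub ⁅L, L⁆, g ∈ U ^ M := by
    intro g hg
    have h6 : R.Dg g (Finset.univ.toList.map
        (fun v => (Pi.mulSingle v (R.sec g v) : D → H))).prod := by
      rw [Rec.list_prod_mulSingle_univ]
      exact ⟨hg.1, fun _ => rfl⟩
    have h7 := h4 _ _ hg.2 g h6
    have h8 : (Finset.univ : Finset D).toList.length = Fintype.card D := by simp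
    rwa [h8] at h7
  -- finitely many cosets
  have hfi : (R.dsub ⁅L, L⁆).FiniteIndex := Rec.dsub_finiteIndex _
  have hfq : Finite (G ⧸ R.dsub ⁅L, L⁆) := inferInstance
  have := Fintype.ofFinite (G ⧸ R.dsub ⁅L, L⁆)
  have hTex : ∀ q : G ⧸ R.dsub ⁅L, L⁆, ∃ n : ℕ, ∃ t ∈ U ^ n,
      ∀ g ∈ Subgroup.closure W, (g : G ⧸ R.dsub ⁅L, L⁆) = q → t⁻¹ * g ∈ R.dsub ⁅L, L⁆ := by
    intro q
    by_cases hq : ∃ t ∈ Subgroup.closure W, ((t : G) : G ⧸ R.dsub ⁅L, L⁆) = q
    · obtain ⟨t, ht, htq⟩ := hq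
      have ht' : t ∈ Subgroup.closure U :=
        Subgroup.closure_mono (fun x hx => Or.inl (Or.inl hx)) ht
      obtain ⟨n, hn⟩ := exists_mem_pow_of_mem_closure hUinv ht'
      refine ⟨n, t, hn, fun g _ hgq => ?_⟩
      rw [← QuotientGroup.eq, htq, hgq]
    · refine ⟨0, 1, by simp, fun g hg hgq => absurd ⟨g, hg, hgq⟩ hq⟩
  choose nT T hTn hTg using hTex
  refine ⟨Finset.univ.sup nT + M, fun g hg => ?_⟩
  have h9 := hTg (g : G ⧸ R.dsub ⁅L, L⁆) g hg rfl
  have h10 : g = T (g : G ⧸ R.dsub ⁅L, L⁆) * ((T (g : G ⧸ R.dsub ⁅L, L⁆))⁻¹ * g) := by group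
  rw [h10]
  refine mul_mem_pow_add ?_ (h5 _ h9)
  refine pow_mono_of_one hU1 ?_ (hTn _)
  exact Finset.le_sup (f := nT) (Finset.mem_univ _)

end Pool.Agent.Helper220_VW
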