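import Pool.Agent.Helper220_VW.Comp
import Pool.Agent.Helper220_VW.Width

set_option autoImplicit false

open Pointwise
open scoped commutatorElement

namespace Pool.Agent.Helper220_VW

/-- elements of the subgroup generated by a symmetric set are short modulo a subgroup of small
index -/
lemma ball {G : Type*} [Group G] (S : Set G) (h1 : (1 : G) ∈ S) (hinv : ∀ g ∈ S, g⁻¹ ∈ S)
    (H : Subgroup G) [hf : H.FiniteIndex] (I : ℕ) (hI : H.index ≤ I) :
    ∀ g ∈ Subgroup.closure S, ∃ t ∈ S ^ I, t⁻¹ * g ∈ H := by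
  classical
  have hfin : Finite (G ⧸ H) := inferInstance
  let C : ℕ → Set (G ⧸ H) := fun n => (fun g : G => (g : G ⧸ H)) '' (S ^ n)
  have hmono : ∀ m n, m ≤ n → C m ⊆ C n := fun m n hmn =>
    Set.image_mono (pow_mono_of_one h1 hmn)
  have hstep : ∀ n, C n = C (n + 1) → ∀ m, C (n + m) = C n := by
    intro n hn m
    induction m with
    | zero => rfl
    | succ m ih =>
      apply Set.Subset.antisymm
      · rintro _ ⟨g, hg, rfl⟩
        rw [← add_assoc, pow_succ'] at hg
        obtain ⟨s, hs, g', hg', rfl⟩ := Set.mem_mul.mp hg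
        have h2 : (g' : G ⧸ H) ∈ C n := by
          rw [← ih]; exact ⟨g', hg', rfl⟩
        obtain ⟨g'', hg'', h3⟩ := h2
        rw [hn]
        refine ⟨s * g'', ?_, ?_⟩
        · rw [pow_succ']
          exact Set.mul_mem_mul hs hg''
        · simp only
          simp only at h3
          rw [QuotientGroup.eq] at h3 ⊢
          have : (s * g'')⁻¹ * (s * g') = g''⁻¹ * g' := by group
          rw [this]
          exact h3
      · exact hmono _ _ (by omega)
  have hclaim : ∀ n, n + 1 ≤ (C n).ncard ∨ ∀ g ∈ Subgroup.closure S, (g : G ⧸ H) ∈ C n := by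
    intro n
    induction n with
    | zero =>
      left
      have : C 0 = {((1 : G) : G ⧸ H)} := by
        simp only [C, pow_zero, Set.image_one]
      rw [this, Set.ncard_singleton]
    | succ n ih =>
      rcases ih with ih | ih
      · by_cases heq : C n = C (n + 1)
        · right
          intro g hg
          obtain ⟨m, hm⟩ := exists_mem_pow_of_mem_closure hinv hg
          rw [← heq, ← hstep n heq m]
          exact hmono m _ (by omega) ⟨g, hm, rfl⟩
        · left
          have hss : C n ⊂ C (n + 1) := lt_of_le_of_ne (hmono _ _ (by omega)) heq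
          have := Set.ncard_lt_ncard hss (Set.toFinite _)
          omega
      · right
        exact fun g hg => hmono _ _ (by omega) (ih g hg)
  have hcard : (C I).ncard ≤ I := by
    calc (C I).ncard ≤ (Set.univ : Set (G ⧸ H)).ncard :=
          Set.ncard_le_ncard (Set.subset_univ _) (Set.toFinite _)
      _ = Nat.card (G ⧸ H) := Set.ncard_univ _
      _ = H.index := rfl
      _ ≤ I := hI
  intro g hg
  rcases hclaim I with h | h
  · omega
  · obtain ⟨t, ht, h2⟩ := h g hg
    exact ⟨t, ht, QuotientGroup.eq.mp h2⟩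

/-- index of the subgroups `dsub` -/
lemma Rec.dsub_index {G H D : Type*} [Group G] [Group H] [Finite D] (R : Rec G H D)
    (M : Subgroup H) [M.FiniteIndex] :
    (R.dsub M).index ≤ Nat.card (Equiv.Perm D) * M.index ^ Nat.card D := by
  classical
  have hfq : Finite (H ⧸ M) := inferInstance
  have hfp : Finite (Equiv.Perm D) := inferInstance
  have hpi : Finite (D → H ⧸ M) := inferInstance
  have hFD := Fintype.ofFinite D
  let F : G ⧸ R.dsub M → Equiv.Perm D × (D → H ⧸ M) := fun q =>
    (R.act q.out, fun x => (R.sec q.out x : H ⧸ M))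
  have hF : Function.Injective F := by
    intro p q hpq
    rw [← Quotient.out_eq' p, ← Quotient.out_eq' q]
    change ((p.out : G) : G ⧸ R.dsub M) = (q.out : G)
    rw [QuotientGroup.eq]
    have h1 : R.act p.out = R.act q.out := (Prod.ext_iff.mp hpq).1
    have h2 : ∀ x, (R.sec p.out x : H ⧸ M) = R.sec q.out x := fun x =>
      congrFun (Prod.ext_iff.mp hpq).2 x
    refine ⟨by rw [map_mul, map_inv, h1, inv_mul_cancel], fun x => ?_⟩
    rw [R.sec_mul, Rec.sec_inv, ← h1]
    have h3 : (R.act p.out)⁻¹ (R.act p.out x) = x := by simp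
    rw [h3, ← QuotientGroup.eq]
    exact h2 x
  have h4 : (R.dsub M).index = Nat.card (G ⧸ R.dsub M) := rfl
  have h5 : M.index = Nat.card (H ⧸ M) := rfl
  rw [h4, h5]
  have h6 : Nat.card (G ⧸ R.dsub M) ≤ Nat.card (Equiv.Perm D × (D → H ⧸ M)) :=
    Nat.card_le_card_of_injective F hF
  rwa [Nat.card_prod, Nat.card_fun] at h6

/-- a group generated by finitely many central elements of finite order is finite -/
lemma finite_closure_central {Γ ι : Type*} [Group Γ] [Finite ι] (κ : ι → Γ)
    (hc : ∀ i, κ i ∈ Subgroup.center Γ) (n : ℕ) (hn : 0 < n) (hκ : ∀ i, κ i ^ n = 1) :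
    Finite (Subgroup.closure (Set.range κ)) := by
  classical
  have hle : Subgroup.closure (Set.range κ) ≤ Subgroup.center Γ := by
    rw [Subgroup.closure_le]
    rintro _ ⟨i, rfl⟩
    exact hc i
  have hcomm : ∀ x ∈ Subgroup.closure (Set.range κ), ∀ y, x * y = y * x := fun x hx y =>
    (Subgroup.mem_center_iff.mp (hle hx) y).symm
  letI : CommGroup (Subgroup.closure (Set.range κ)) :=
    { (inferInstance : Group (Subgroup.closure (Set.range κ))) with
      mul_comm := fun x y => Subtype.ext (hcomm x.1 x.2 y.1) }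
  have hfin : (Set.range κ).Finite := Set.finite_range κ
  have hfg : Group.FG (Subgroup.closure (Set.range κ)) := by
    have := hfin.to_subtype
    exact Group.closure_finite_fg _
  refine CommGroup.finite_of_fg_torsion _ ?_
  rintro ⟨x, hx⟩
  rw [isOfFinOrder_iff_pow_eq_one]
  refine ⟨n, hn, ?_⟩
  apply Subtype.ext
  change x ^ n = 1
  induction hx using Subgroup.closure_induction with
  | mem x hx =>
    obtain ⟨i, rfl⟩ := hx
    exact hκ i
  | one => exact one_pow _
  | mul x y hx hy ihx ihy =>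
    have : Commute x y := hcomm x hx y
    rw [this.mul_pow, ihx, ihy, one_mul]
  | inv x _ hx => rw [inv_pow, hx, inv_one]

/-- a group with two marked subgroups generating it -/
structure SG (A B : Type) [Group A] [Group B] where
  X : Type
  [grp : Group X]
  iA : A →* X
  iB : B →* X
  gen : Subgroup.closure (Set.range iA ∪ Set.range iB) = ⊤

attribute [instance] SG.grp

namespace SG

variable {A B : Type} [CommGroup A] [CommGroup B] (M : SG A B)

/-- the generating set -/
def S : Set M.X := Set.range M.iA ∪ Set.range M.iB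

lemma S_finite [Finite A] [Finite B] : M.S.Finite := (Set.finite_range _).union (Set.finite_range _)

lemma iA_mem (a : A) : M.iA a ∈ M.S := Or.inl ⟨a, rfl⟩
lemma iB_mem (b : B) : M.iB b ∈ M.S := Or.inr ⟨b, rfl⟩
lemma one_mem_S : (1 : M.X) ∈ M.S := by rw [← map_one M.iA]; exact M.iA_mem 1

lemma inv_mem_S : ∀ g ∈ M.S, g⁻¹ ∈ M.S := by
  rintro _ (⟨a, rfl⟩ | ⟨b, rfl⟩)
  · rw [← map_inv]; exact M.iA_mem _
  · rw [← map_inv]; exact M.iB_mem _

lemma mem_closure (g : M.X) : g ∈ Subgroup.closure M.S := by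
  have : Subgroup.closure M.S = ⊤ := M.gen
  rw [this]; trivial

lemma exists_S (g : M.X) : ∃ n, g ∈ M.S ^ n :=
  exists_mem_pow_of_mem_closure M.inv_mem_S (M.mem_closure g)

/-- word length -/
noncomputable def len : M.X → ℕ := wlen M.S

lemma isLen : IsLen M.len := isLen_wlen M.inv_mem_S M.exists_S
lemma mem_len (g : M.X) : g ∈ M.S ^ M.len g := mem_pow_wlen M.exists_S g
lemma len_le {g : M.X} {n : ℕ} (h : g ∈ M.S ^ n) : M.len g ≤ n := wlen_le h

/-- induction over the generators -/
lemma induct {P : M.X → Prop} (h1 : P 1) (ha : ∀ a x, P x → P (M.iA a * x))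
    (hb : ∀ b x, P x → P (M.iB b * x)) (g : M.X) : P g := by
  have h := M.mem_closure g
  induction h using Subgroup.closure_induction_left with
  | one => exact h1
  | mul_left x hx y _ ih =>
    rcases hx with ⟨a, rfl⟩ | ⟨b, rfl⟩
    · exact ha _ _ ih
    · exact hb _ _ ih
  | inv_mul_cancel x hx y _ ih =>
    rcases hx with ⟨a, rfl⟩ | ⟨b, rfl⟩
    · rw [← map_inv]; exact ha _ _ ih
    · rw [← map_inv]; exact hb _ _ ih

/-- the normal closure of the commutators of the two subgroups -/
def N : Subgroup M.X := Subgroup.normalClosure {g | ∃ a b, ⁅M.iA a, M.iB b⁆ = g}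

instance : M.N.Normal := Subgroup.normalClosure_normal

lemma comm_mem_N (a : A) (b : B) : ⁅M.iA a, M.iB b⁆ ∈ M.N :=
  Subgroup.subset_normalClosure ⟨a, b, rfl⟩

/-- the subgroup `[G, N]` -/
def Z : Subgroup M.X := ⁅(⊤ : Subgroup M.X), M.N⁆

instance : M.Z.Normal := Subgroup.commutator_normal _ _

lemma Z_le_N : M.Z ≤ M.N := Subgroup.commutator_le_right _ _

/-- elements of `N` are central modulo `Z` -/
lemma central (n : M.X) (hn : n ∈ M.N) (g : M.X) :
    (QuotientGroup.mk' M.Z g) * (QuotientGroup.mk' M.Z n) =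
      (QuotientGroup.mk' M.Z n) * (QuotientGroup.mk' M.Z g) := by
  rw [← map_mul, ← map_mul]
  have h : ⁅g, n⁆ ∈ M.Z := Subgroup.commutator_mem_commutator trivial hn
  have h2 : g * n = ⁅g, n⁆ * (n * g) := by rw [commutatorElement_def]; group
  rw [h2, map_mul]
  have h3 : QuotientGroup.mk' M.Z ⁅g, n⁆ = 1 := (QuotientGroup.eq_one_iff _).mpr h
  rw [h3, one_mul]

lemma kap_pow (a : A) (b : B) (n : ℕ) : (QuotientGroup.mk' M.Z ⁅M.iA a, M.iB b⁆) ^ n =
    QuotientGroup.mk' M.Z ⁅M.iA (a ^ n), M.iB b⁆ := by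
  induction n with
  | zero =>
    rw [pow_zero, pow_zero, map_one]
    simp
  | succ n ih =>
    have h1 : ⁅M.iA (a ^ (n + 1)), M.iB b⁆ =
        M.iA a * ⁅M.iA (a ^ n), M.iB b⁆ * (M.iA a)⁻¹ * ⁅M.iA a, M.iB b⁆ := by
      rw [pow_succ', map_mul, commutatorElement_def, commutatorElement_def, commutatorElement_def]
      group
    rw [h1, map_mul, map_mul, map_mul, M.central _ (M.comm_mem_N _ _), map_inv,
      mul_inv_cancel_right, pow_succ, ih]

/-- `Z` has finite index -/
theorem Z_finiteIndex [Finite A] [Finite B] : M.Z.FiniteIndex := by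
  classical
  have hFA := Fintype.ofFinite A
  obtain ⟨π, hπ⟩ : ∃ π : M.X →* M.X ⧸ M.Z, π = QuotientGroup.mk' M.Z := ⟨_, rfl⟩
  have hcent : ∀ n ∈ M.N, π n ∈ Subgroup.center (M.X ⧸ M.Z) := by
    intro n hn
    rw [Subgroup.mem_center_iff]
    intro γ
    obtain ⟨g, rfl⟩ := QuotientGroup.mk'_surjective M.Z γ
    rw [hπ]
    exact M.central n hn g
  let κ : A × B → M.X ⧸ M.Z := fun p => π ⁅M.iA p.1, M.iB p.2⁆
  have hκc : ∀ p, κ p ∈ Subgroup.center (M.X ⧸ M.Z) := fun p => hcent _ (M.comm_mem_N p.1 p.2)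
  have hκn : ∀ p, κ p ^ Fintype.card A = 1 := by
    intro p
    change (π ⁅M.iA p.1, M.iB p.2⁆) ^ (Fintype.card A) = 1
    rw [hπ, M.kap_pow, pow_card_eq_one, map_one]
    simp
  have hCfin : Finite (Subgroup.closure (Set.range κ)) :=
    finite_closure_central κ hκc _ Fintype.card_pos hκn
  have hcc : ∀ c ∈ Subgroup.closure (Set.range κ), ∀ γ, c * γ = γ * c := by
    intro c hc γ
    have hle : Subgroup.closure (Set.range κ) ≤ Subgroup.center (M.X ⧸ M.Z) := by
      rw [Subgroup.closure_le]
      rintro _ ⟨i, rfl⟩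
      exact hκc i
    exact (Subgroup.mem_center_iff.mp (hle hc) γ).symm
  -- every element is a product
  have hprod : ∀ g : M.X, ∃ (a : A) (b : B), ∃ c ∈ Subgroup.closure (Set.range κ),
      π g = π (M.iA a) * π (M.iB b) * c := by
    intro g
    refine M.induct (P := fun g => ∃ (a : A) (b : B), ∃ c ∈ Subgroup.closure (Set.range κ),
      π g = π (M.iA a) * π (M.iB b) * c) ?_ ?_ ?_ g
    · exact ⟨1, 1, 1, Subgroup.one_mem _, by simp⟩
    · rintro a x ⟨a', b', c', hc', h⟩
      refine ⟨a * a', b', c', hc', ?_⟩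
      rw [map_mul, h, map_mul, map_mul]
      group
    · rintro b x ⟨a', b', c', hc', h⟩
      have hk : κ (a', b) ∈ Subgroup.closure (Set.range κ) := Subgroup.subset_closure ⟨(a', b), rfl⟩
      refine ⟨a', b * b', (κ (a', b))⁻¹ * c', Subgroup.mul_mem _ (Subgroup.inv_mem _ hk) hc', ?_⟩
      rw [map_mul, h]
      have h1 : π (M.iB b) * π (M.iA a') = (κ (a', b))⁻¹ * (π (M.iA a') * π (M.iB b)) := by
        change _ = (π ⁅M.iA a', M.iB b⁆)⁻¹ * _
        rw [← map_mul, ← map_mul, ← map_inv, ← map_mul]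
        congr 1
        rw [commutatorElement_def]; group
      calc π (M.iB b) * (π (M.iA a') * π (M.iB b') * c') =
          (π (M.iB b) * π (M.iA a')) * π (M.iB b') * c' := by group
        _ = (κ (a', b))⁻¹ * (π (M.iA a') * π (M.iB b)) * π (M.iB b') * c' := by
          rw [h1]
        _ = (κ (a', b))⁻¹ * (π (M.iA a') * π (M.iB (b * b'))) * c' := by
          rw [map_mul M.iB, map_mul π]; group
        _ = (π (M.iA a') * π (M.iB (b * b'))) * (κ (a', b))⁻¹ * c' := by
          rw [hcc _ (Subgroup.inv_mem _ hk)]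
        _ = _ := by group
  have hfin : Finite (M.X ⧸ M.Z) := by
    let F : A × B × Subgroup.closure (Set.range κ) → M.X ⧸ M.Z :=
      fun p => π (M.iA p.1) * π (M.iB p.2.1) * p.2.2.1
    refine Finite.of_surjective F fun γ => ?_
    obtain ⟨g, rfl⟩ := QuotientGroup.mk'_surjective M.Z γ
    obtain ⟨a, b, c, hc, h⟩ := hprod g
    rw [hπ] at h
    refine ⟨(a, b, ⟨c, hc⟩), ?_⟩
    change π (M.iA a) * π (M.iB b) * c = _
    rw [hπ]
    exact h.symm
  exact Subgroup.finiteIndex_of_finite_quotient

end SG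

end Pool.Agent.Helper220_VW
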