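import Pool.Agent.Helper220_VW.Sp1

set_option autoImplicit false

open Pointwise
open scoped commutatorElement

namespace Pool.Agent.Helper220_VW

/-- the wreath recursion of a spinal group -/
structure SpT {A B : Type} [CommGroup A] [CommGroup B] (P M : SG A B) (ω : A → (B →* A)) where
  R : Rec P.X M.X A
  act_A : ∀ α x, R.act (P.iA α) x = α * x
  sec_A : ∀ α x, R.sec (P.iA α) x = 1
  act_B : ∀ β, R.act (P.iB β) = 1
  sec_B1 : ∀ β, R.sec (P.iB β) 1 = M.iB β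
  sec_B : ∀ β x, x ≠ 1 → R.sec (P.iB β) x = M.iA (ω x β)

/-- the asymmetry condition -/
def Asym {A B : Type} [CommGroup A] [CommGroup B] (ω : A → (B →* A)) : Prop :=
  ∃ c : A, c ≠ 1 ∧ Function.Surjective (ω c) ∧ ω c⁻¹ = 1

namespace SpT

variable {A B : Type} [CommGroup A] [CommGroup B] {P M : SG A B} {ω : A → (B →* A)}
  (T : SpT P M ω)

include T

lemma Dg_B (β : B) : T.R.Dg (P.iB β) (fun x => T.R.sec (P.iB β) x) := ⟨T.act_B β, fun _ => rfl⟩

lemma conjA {g : P.X} {z : A → M.X} (h : T.R.Dg g z) (α : A) :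
    T.R.Dg (P.iA α * g * (P.iA α)⁻¹) (fun x => z (α⁻¹ * x)) := by
  refine (h.conj (P.iA α)).congr fun v => ?_
  have h1 : (T.R.act (P.iA α))⁻¹ v = α⁻¹ * v := by
    rw [Equiv.Perm.inv_eq_iff_eq, T.act_A, mul_inv_cancel_left]
  rw [h1, T.sec_A, one_mul, inv_one, mul_one]

/-- sections are arbitrary -/
lemma ontoB (hω : Asym ω) (u : A) (h : M.X) : ∃ s, T.R.act s = 1 ∧ T.R.sec s u = h := by
  obtain ⟨c, hc1, hcs, hc⟩ := hω
  refine M.induct (P := fun h => ∃ s, T.R.act s = 1 ∧ T.R.sec s u = h) ?_ ?_ ?_ h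
  · exact ⟨1, map_one _, Rec.sec_one u⟩
  · rintro a x ⟨s, hs1, hs2⟩
    obtain ⟨β, rfl⟩ := hcs a
    have h1 := T.conjA (T.Dg_B β) (u * c⁻¹)
    refine ⟨(P.iA (u * c⁻¹) * P.iB β * (P.iA (u * c⁻¹))⁻¹) * s, ?_, ?_⟩
    · rw [map_mul, h1.1, hs1, one_mul]
    · rw [T.R.sec_mul, hs1, hs2, Equiv.Perm.one_apply, h1.2]
      have h2 : (u * c⁻¹)⁻¹ * u = c := by
        rw [mul_inv_rev, inv_inv, mul_assoc, inv_mul_cancel, mul_one]
      beta_reduce
      rw [h2, T.sec_B β c hc1]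
  · rintro β x ⟨s, hs1, hs2⟩
    have h1 := T.conjA (T.Dg_B β) u
    refine ⟨(P.iA u * P.iB β * (P.iA u)⁻¹) * s, ?_, ?_⟩
    · rw [map_mul, h1.1, hs1, one_mul]
    · rw [T.R.sec_mul, hs1, hs2, Equiv.Perm.one_apply, h1.2]
      beta_reduce
      rw [inv_mul_cancel, T.sec_B1]

/-- the marked commutators act trivially on the first level -/
lemma kap_Dg (a : A) (β : B) : T.R.Dg ⁅P.iA a, P.iB β⁆
    (fun x => T.R.sec (P.iB β) (a⁻¹ * x) * (T.R.sec (P.iB β) x)⁻¹) := by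
  have h1 := (T.conjA (T.Dg_B β) a).mul (T.Dg_B β).inv
  have h2 : ⁅P.iA a, P.iB β⁆ = P.iA a * P.iB β * (P.iA a)⁻¹ * (P.iB β)⁻¹ := commutatorElement_def _ _
  rw [h2]
  exact h1.congr fun x => rfl

/-- sections of elements of `N` are arbitrary -/
lemma ontoN (hω : Asym ω) (u : A) (h : M.X) :
    ∃ s ∈ P.N, T.R.act s = 1 ∧ T.R.sec s u = h := by
  obtain ⟨c, hc1, hcs, hc⟩ := hω
  have hci : c⁻¹ ≠ 1 := by
    intro h
    exact hc1 (inv_eq_one.mp h)
  have hmove : ∀ (k : P.X) (v : A), k ∈ P.N → T.R.act k = 1 →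
      ∃ k' ∈ P.N, T.R.act k' = 1 ∧ T.R.sec k' u = T.R.sec k v := by
    intro k v hk hk1
    have h1 := T.conjA (g := k) (z := fun x => T.R.sec k x) ⟨hk1, fun _ => rfl⟩ (u * v⁻¹)
    refine ⟨_, (inferInstance : P.N.Normal).conj_mem k hk (P.iA (u * v⁻¹)), h1.1, ?_⟩
    rw [h1.2]
    have h2 : (u * v⁻¹)⁻¹ * u = v := by
      rw [mul_inv_rev, inv_inv, mul_assoc, inv_mul_cancel, mul_one]
    beta_reduce
    rw [h2]
  refine M.induct (P := fun h => ∃ s ∈ P.N, T.R.act s = 1 ∧ T.R.sec s u = h) ?_ ?_ ?_ h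
  · exact ⟨1, Subgroup.one_mem _, map_one _, Rec.sec_one u⟩
  · rintro a x ⟨s, hs0, hs1, hs2⟩
    obtain ⟨β, rfl⟩ := hcs a
    have h1 := T.kap_Dg (c⁻¹ * c⁻¹) β
    obtain ⟨k', hk', hk1, hk2⟩ := hmove _ c⁻¹ (P.comm_mem_N (c⁻¹ * c⁻¹) β) h1.1
    refine ⟨k' * s, Subgroup.mul_mem _ hk' hs0, by rw [map_mul, hk1, hs1, one_mul], ?_⟩
    rw [T.R.sec_mul, hs1, hs2, Equiv.Perm.one_apply, hk2, h1.2]
    have h2 : (c⁻¹ * c⁻¹)⁻¹ * c⁻¹ = c := by
      rw [mul_inv_rev, inv_inv, mul_assoc, mul_inv_cancel, mul_one]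
    beta_reduce
    rw [h2, T.sec_B β c hc1, T.sec_B β c⁻¹ hci, hc, MonoidHom.one_apply, map_one, inv_one, mul_one]
  · rintro β x ⟨s, hs0, hs1, hs2⟩
    have h1 := T.kap_Dg c⁻¹ β
    obtain ⟨k', hk', hk1, hk2⟩ := hmove _ c⁻¹ (P.comm_mem_N c⁻¹ β) h1.1
    refine ⟨k' * s, Subgroup.mul_mem _ hk' hs0, by rw [map_mul, hk1, hs1, one_mul], ?_⟩
    rw [T.R.sec_mul, hs1, hs2, Equiv.Perm.one_apply, hk2, h1.2]
    have h2 : (c⁻¹)⁻¹ * c⁻¹ = 1 := by rw [inv_inv, mul_inv_cancel]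
    beta_reduce
    rw [h2, T.sec_B1, T.sec_B β c⁻¹ hci, hc, MonoidHom.one_apply, map_one, inv_one, mul_one]

/-- the marked commutators appear at a single vertex -/
lemma single_kap [DecidableEq A] (hω : Asym ω) (u : A) (a : A) (β : B) :
    ∃ k ∈ P.N, T.R.Dg k (Pi.mulSingle u ⁅M.iA a, M.iB β⁆) := by
  obtain ⟨c, hc1, hcs, hc⟩ := hω
  have hci : c⁻¹ ≠ 1 := by
    intro h
    exact hc1 (inv_eq_one.mp h)
  obtain ⟨b₁, rfl⟩ := hcs a
  set q : P.X := P.iA c * P.iB β * (P.iA c)⁻¹ with hq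
  have hqD : T.R.Dg q (fun x => T.R.sec (P.iB β) (c⁻¹ * x)) := T.conjA (T.Dg_B β) c
  have hk : ⁅P.iB b₁, q⁆ ∈ P.N := by
    have h1 : q = ⁅P.iA c, P.iB β⁆ * P.iB β := by
      rw [hq, commutatorElement_def]; group
    have h2 : P.iB b₁ * P.iB β = P.iB β * P.iB b₁ := by
      rw [← map_mul, ← map_mul, mul_comm]
    have h3 : ⁅P.iB b₁, q⁆ = (P.iB b₁ * ⁅P.iA c, P.iB β⁆ * (P.iB b₁)⁻¹) *
        ⁅P.iA c, P.iB β⁆⁻¹ := by
      rw [h1]
      generalize ⁅P.iA c, P.iB β⁆ = n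
      rw [commutatorElement_def]
      have h4 : P.iB β * (P.iB b₁)⁻¹ * (P.iB β)⁻¹ = (P.iB b₁)⁻¹ := by
        rw [mul_inv_eq_iff_eq_mul, eq_inv_mul_iff_mul_eq, ← mul_assoc, h2, mul_inv_cancel_right]
      calc P.iB b₁ * (n * P.iB β) * (P.iB b₁)⁻¹ * (n * P.iB β)⁻¹ =
          P.iB b₁ * n * (P.iB β * (P.iB b₁)⁻¹ * (P.iB β)⁻¹) * n⁻¹ := by group
        _ = _ := by rw [h4]
    rw [h3]
    exact Subgroup.mul_mem _ ((inferInstance : P.N.Normal).conj_mem _ (P.comm_mem_N c β) _)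
      (Subgroup.inv_mem _ (P.comm_mem_N c β))
  have hD : T.R.Dg ⁅P.iB b₁, q⁆ (Pi.mulSingle c ⁅M.iA (ω c b₁), M.iB β⁆) := by
    refine ((T.Dg_B b₁).commutator hqD).congr fun x => ?_
    rw [commutatorElement_def]
    simp only [Pi.mul_apply, Pi.inv_apply]
    by_cases hx : x = c
    · subst hx
      rw [Pi.mulSingle_eq_same, inv_mul_cancel, T.sec_B1, T.sec_B b₁ x hc1, commutatorElement_def]
    · rw [Pi.mulSingle_eq_of_ne hx]
      have hcx : c⁻¹ * x ≠ 1 := by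
        intro h
        apply hx
        rw [← mul_one c, ← h, mul_inv_cancel_left]
      by_cases hx1 : x = 1
      · subst hx1
        rw [mul_one, T.sec_B β c⁻¹ hci, hc, MonoidHom.one_apply, map_one]
        group
      · rw [T.sec_B b₁ x hx1, T.sec_B β _ hcx]
        have : M.iA (ω x b₁) * M.iA (ω (c⁻¹ * x) β) = M.iA (ω (c⁻¹ * x) β) * M.iA (ω x b₁) := by
          rw [← map_mul, ← map_mul, mul_comm]
        rw [this]
        group
  refine ⟨P.iA (u * c⁻¹) * ⁅P.iB b₁, q⁆ * (P.iA (u * c⁻¹))⁻¹,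
    (inferInstance : P.N.Normal).conj_mem _ hk _, ?_⟩
  have h5 := hD.conj_single (P.iA (u * c⁻¹))
  rw [T.act_A, T.sec_A, one_mul, inv_one, mul_one] at h5
  have h6 : u * c⁻¹ * c = u := by rw [mul_assoc, inv_mul_cancel, mul_one]
  rw [h6] at h5
  exact h5

/-- branching over `N` -/
lemma branch_N [Finite A] (hω : Asym ω) : T.R.Branch P.N M.N := by
  classical
  apply Rec.branch_of_single
  intro u y hy
  change y ∈ Subgroup.closure _ at hy
  induction hy using Subgroup.closure_induction with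
  | mem y hy =>
    rw [Group.mem_conjugatesOfSet_iff] at hy
    obtain ⟨x, ⟨a, β, rfl⟩, hxy⟩ := hy
    rw [isConj_iff] at hxy
    obtain ⟨g, rfl⟩ := hxy
    obtain ⟨k, hk, hkD⟩ := T.single_kap hω u a β
    obtain ⟨s, hs1, hs2⟩ := T.ontoB hω u g
    refine ⟨s * k * s⁻¹, (inferInstance : P.N.Normal).conj_mem _ hk _, ?_⟩
    have := hkD.conj_single s
    rwa [hs1, hs2, Equiv.Perm.one_apply] at this
  | one => exact ⟨1, Subgroup.one_mem _, Rec.Dg.one.congr fun v => by simp⟩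
  | mul x y _ _ hx hy =>
    obtain ⟨k, hk, hkd⟩ := hx
    obtain ⟨l, hl, hld⟩ := hy
    refine ⟨k * l, Subgroup.mul_mem _ hk hl, (hkd.mul hld).congr fun v => ?_⟩
    rw [← Pi.mulSingle_mul]
  | inv x _ hx =>
    obtain ⟨k, hk, hkd⟩ := hx
    refine ⟨k⁻¹, Subgroup.inv_mem _ hk, hkd.inv.congr fun v => ?_⟩
    rw [← Pi.mulSingle_inv]

/-- branching of the commutator subgroup of `N` over `Z` -/
lemma branch_Z [Finite A] (hω : Asym ω) : T.R.Branch ⁅P.N, P.N⁆ M.Z := by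
  classical
  have hbN := T.branch_N hω
  apply Rec.branch_of_single
  intro u y hy
  change y ∈ Subgroup.closure _ at hy
  induction hy using Subgroup.closure_induction with
  | mem y hy =>
    obtain ⟨g, -, n, hn, rfl⟩ := hy
    obtain ⟨k, hk, hk1, hk2⟩ := T.ontoN hω u g
    obtain ⟨l, hl, hlD⟩ := hbN (Pi.mulSingle u n) (by
      intro w
      by_cases hw : w = u
      · subst hw; simpa using hn
      · rw [Pi.mulSingle_eq_of_ne hw]; exact Subgroup.one_mem _)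
    refine ⟨⁅k, l⁆, Subgroup.commutator_mem_commutator hk hl, ?_⟩
    have hkD : T.R.Dg k (fun x => T.R.sec k x) := ⟨hk1, fun _ => rfl⟩
    refine (hkD.commutator hlD).congr fun w => ?_
    rw [commutatorElement_def]
    simp only [Pi.mul_apply, Pi.inv_apply]
    by_cases hw : w = u
    · subst hw
      rw [Pi.mulSingle_eq_same, Pi.mulSingle_eq_same, hk2, commutatorElement_def]
    · rw [Pi.mulSingle_eq_of_ne hw, Pi.mulSingle_eq_of_ne hw]
      group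
  | one => exact ⟨1, Subgroup.one_mem _, Rec.Dg.one.congr fun v => by simp⟩
  | mul x y _ _ hx hy =>
    obtain ⟨k, hk, hkd⟩ := hx
    obtain ⟨l, hl, hld⟩ := hy
    refine ⟨k * l, Subgroup.mul_mem _ hk hl, (hkd.mul hld).congr fun v => ?_⟩
    rw [← Pi.mulSingle_mul]
  | inv x _ hx =>
    obtain ⟨k, hk, hkd⟩ := hx
    refine ⟨k⁻¹, Subgroup.inv_mem _ hk, hkd.inv.congr fun v => ?_⟩
    rw [← Pi.mulSingle_inv]

lemma sec_S (g : P.X) (hg : g ∈ P.S) (x : A) : T.R.sec g x ∈ M.S := by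
  rcases hg with ⟨a, rfl⟩ | ⟨b, rfl⟩
  · rw [T.sec_A]; exact M.one_mem_S
  · by_cases hx : x = 1
    · subst hx; rw [T.sec_B1]; exact M.iB_mem b
    · rw [T.sec_B b x hx]; exact M.iA_mem _

/-- sections of products of two generators are generators -/
lemma sec_S2 (g h : P.X) (hg : g ∈ P.S) (hh : h ∈ P.S) (x : A) : T.R.sec (g * h) x ∈ M.S := by
  rcases hg with ⟨a, rfl⟩ | ⟨b, rfl⟩
  · rw [T.R.sec_mul, T.sec_A, one_mul]; exact T.sec_S h hh x
  · rcases hh with ⟨a, rfl⟩ | ⟨b', rfl⟩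
    · rw [T.R.sec_mul, T.sec_A, mul_one]; exact T.sec_S _ (P.iB_mem b) _
    · rw [← map_mul]; exact T.sec_S _ (P.iB_mem _) x

/-- contraction -/
lemma sec_pow (n : ℕ) : ∀ g ∈ P.S ^ n, ∀ x, T.R.sec g x ∈ M.S ^ ((n + 1) / 2) := by
  induction n using Nat.strong_induction_on with
  | _ n ih =>
    intro g hg x
    match n, ih, hg with
    | 0, _, hg =>
      simp only [pow_zero, Set.mem_one] at hg
      rw [hg, Rec.sec_one]; simp
    | 1, _, hg =>
      rw [pow_one] at hg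
      have : (1 + 1) / 2 = 1 := rfl
      rw [this, pow_one]
      exact T.sec_S g hg x
    | n + 2, ih, hg =>
      have e : n + 2 = (1 + 1) + n := by omega
      rw [e, pow_add, pow_add, pow_one] at hg
      obtain ⟨p, hp, q, hq, rfl⟩ := Set.mem_mul.mp hg
      obtain ⟨s, hs, t, ht, rfl⟩ := Set.mem_mul.mp hp
      have e2 : (n + 2 + 1) / 2 = 1 + (n + 1) / 2 := by omega
      rw [T.R.sec_mul, e2, pow_add, pow_one]
      exact Set.mul_mem_mul (T.sec_S2 s t hs ht _) (ih n (by omega) q hq x)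

lemma len_sec (g : P.X) (x : A) : M.len (T.R.sec g x) ≤ (P.len g + 1) / 2 :=
  M.len_le (T.sec_pow _ g (P.mem_len g) x)

end SpT

end Pool.Agent.Helper220_VW
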