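import Pool.Agent.Helper220_VW.Sp2

set_option autoImplicit false

open Pointwise
open scoped commutatorElement

namespace Pool.Agent.Helper220_VW

lemma Rec.dsub_le {G H D : Type*} [Group G] [Group H] {R : Rec G H D} {K : Subgroup G}
    {L : Subgroup H} (h : R.Branch K L) : R.dsub L ≤ K := by
  intro g hg
  obtain ⟨g', hg', hd⟩ := h (fun u => R.sec g u) hg.2
  have : g = g' := Rec.Dg.unique (R := R) (z := fun u => R.sec g u) ⟨hg.1, fun _ => rfl⟩ hd
  rw [this]; exact hg'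

lemma Rec.dsub_normal {G H D : Type*} [Group G] [Group H] {R : Rec G H D} {L : Subgroup H}
    (hL : L.Normal) : (R.dsub L).Normal := by
  refine ⟨fun g hg k => ?_⟩
  have h1 : R.Dg g (fun u => R.sec g u) := ⟨hg.1, fun _ => rfl⟩
  have h2 := h1.conj k
  exact ⟨h2.1, fun u => by rw [h2.2]; exact hL.conj_mem _ (hg.2 _) _⟩

/-- the commutator length of elements of `K'` modulo a finite-index subgroup is bounded, with
short witnesses -/
lemma short_comm {G : Type*} [Group G] (S : Set G) (h1 : (1 : G) ∈ S) (hinv : ∀ g ∈ S, g⁻¹ ∈ S)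
    (hS : Subgroup.closure S = ⊤) (K N : Subgroup G) (hNK : N ≤ K) (hN : N.Normal)
    [N.FiniteIndex] (I : ℕ) (hI : N.index ≤ I) :
    ∀ g ∈ ⁅K, K⁆, ∃ t ∈ Cm K ^ I, t ∈ S ^ (4 * I * I) ∧ t⁻¹ * g ∈ N := by
  classical
  set C : Set G := {g | ∃ x ∈ K, ∃ y ∈ K, x ∈ S ^ I ∧ y ∈ S ^ I ∧ ⁅x, y⁆ = g} with hC
  have hC1 : (1 : G) ∈ C := ⟨1, K.one_mem, 1, K.one_mem,
    pow_mono_of_one h1 (Nat.zero_le I) (by simp), pow_mono_of_one h1 (Nat.zero_le I) (by simp),
    by simp⟩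
  have hCinv : ∀ g ∈ C, g⁻¹ ∈ C := by
    rintro _ ⟨x, hx, y, hy, hxS, hyS, rfl⟩
    exact ⟨y, hy, x, hx, hyS, hxS, by rw [← commutatorElement_inv]⟩
  have hshort : ∀ k ∈ K, ∃ x ∈ K, x ∈ S ^ I ∧ x⁻¹ * k ∈ N := by
    intro k hk
    obtain ⟨t, ht, htk⟩ := ball S h1 hinv N I hI k (by rw [hS]; trivial)
    refine ⟨t, ?_, ht, htk⟩
    have h2 : t = k * (t⁻¹ * k)⁻¹ := by group
    rw [h2]
    exact K.mul_mem hk (K.inv_mem (hNK htk))
  have hmem : ∀ g ∈ ⁅K, K⁆, ∃ g' ∈ Subgroup.closure C, g'⁻¹ * g ∈ N := by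
    intro g hg
    change g ∈ Subgroup.closure _ at hg
    induction hg using Subgroup.closure_induction with
    | mem g hg =>
      obtain ⟨x, hx, y, hy, rfl⟩ := hg
      obtain ⟨x', hx', hxS, hxN⟩ := hshort x hx
      obtain ⟨y', hy', hyS, hyN⟩ := hshort y hy
      refine ⟨⁅x', y'⁆, Subgroup.subset_closure ⟨x', hx', y', hy', hxS, hyS, rfl⟩, ?_⟩
      rw [← QuotientGroup.eq]
      have e1 : ((x' : G) : G ⧸ N) = (x : G ⧸ N) := QuotientGroup.eq.mpr hxN
      have e2 : ((y' : G) : G ⧸ N) = (y : G ⧸ N) := QuotientGroup.eq.mpr hyN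
      simp only [commutatorElement_def, QuotientGroup.mk_mul, QuotientGroup.mk_inv, e1, e2]
    | one => exact ⟨1, Subgroup.one_mem _, by simp⟩
    | mul a b _ _ ha hb =>
      obtain ⟨a', ha', haN⟩ := ha
      obtain ⟨b', hb', hbN⟩ := hb
      refine ⟨a' * b', Subgroup.mul_mem _ ha' hb', ?_⟩
      rw [← QuotientGroup.eq, QuotientGroup.mk_mul, QuotientGroup.mk_mul,
        QuotientGroup.eq.mpr haN, QuotientGroup.eq.mpr hbN]
    | inv a _ ha =>
      obtain ⟨a', ha', haN⟩ := ha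
      refine ⟨a'⁻¹, Subgroup.inv_mem _ ha', ?_⟩
      rw [← QuotientGroup.eq, QuotientGroup.mk_inv, QuotientGroup.mk_inv,
        QuotientGroup.eq.mpr haN]
  intro g hg
  obtain ⟨g', hg', hgN⟩ := hmem g hg
  obtain ⟨t, ht, htN⟩ := ball C hC1 hCinv N I hI g' hg'
  refine ⟨t, ?_, ?_, ?_⟩
  · refine Set.pow_subset_pow_left ?_ ht
    rintro _ ⟨x, hx, y, hy, -, -, rfl⟩
    exact ⟨x, hx, y, hy, rfl⟩
  · have h2 : C ⊆ S ^ (4 * I) := by
      rintro _ ⟨x, -, y, -, hx, hy, rfl⟩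
      rw [commutatorElement_def]
      have e : 4 * I = ((I + I) + I) + I := by ring
      rw [e]
      exact mul_mem_pow_add (mul_mem_pow_add (mul_mem_pow_add hx hy) (inv_mem_pow hinv hx))
        (inv_mem_pow hinv hy)
    have h3 := Set.pow_subset_pow_left (n := I) h2 ht
    rwa [← pow_mul] at h3
  · have : t⁻¹ * g = (t⁻¹ * g') * (g'⁻¹ * g) := by group
    rw [this]
    exact N.mul_mem htN hgN

section step

variable {A B : Type} [CommGroup A] [CommGroup B] [Finite A] [Finite B] {P M' M : SG A B}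
  {ω₁ ω₂ : A → (B →* A)}

/-- the two-level step -/
theorem sp_step (T₁ : SpT P M' ω₁) (T₂ : SpT M' M ω₂) (h₁ : Asym ω₁) (h₂ : Asym ω₂)
    (J : ℕ) [hfi : (⁅M.N, M.N⁆ : Subgroup M.X).FiniteIndex] (hJ : (⁅M.N, M.N⁆ : Subgroup M.X).index ≤ J)
    (I : ℕ) (hI : Nat.card (Equiv.Perm (A × A)) * J ^ Nat.card (A × A) ≤ I)
    (hIA : 2 * Nat.card (A × A) ≤ I) (α β : ℝ) (hα : 0 ≤ α) (hβ : 0 ≤ β)
    (hH : ∀ y ∈ ⁅M.N, M.N⁆, ∃ m : ℕ, (m : ℝ) ≤ α * M.len y + β ∧ y ∈ Cm M.N ^ m) :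
    ∀ g ∈ ⁅P.N, P.N⁆, ∃ m : ℕ,
      (m : ℝ) ≤ α * (1 / 2) * P.len g + ((2 * I + 1) + α * (3 * (4 * I * I + 2)) + β / 2) ∧
      g ∈ Cm P.N ^ m := by
  classical
  have := Fintype.ofFinite A
  obtain ⟨c, hc1, -, -⟩ := id h₁
  set R := T₁.R.comp T₂.R with hR
  have hbr : R.Branch P.N M.N := Rec.Branch.comp (T₁.branch_N h₁) (T₂.branch_N h₂)
  have hLL : (⁅M.N, M.N⁆ : Subgroup M.X).Normal := Subgroup.commutator_normal _ _
  have hdf : (R.dsub ⁅M.N, M.N⁆).FiniteIndex := Rec.dsub_finiteIndex _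
  have hdn : (R.dsub ⁅M.N, M.N⁆).Normal := Rec.dsub_normal hLL
  have hdle : R.dsub ⁅M.N, M.N⁆ ≤ P.N := by
    refine le_trans ?_ (Rec.dsub_le hbr)
    intro g hg
    exact ⟨hg.1, fun u => Subgroup.commutator_le_self _ (hg.2 u)⟩
  have hdi : (R.dsub ⁅M.N, M.N⁆).index ≤ I := by
    refine le_trans (Rec.dsub_index R _) (le_trans ?_ hI)
    exact Nat.mul_le_mul_left _ (Nat.pow_le_pow_left hJ _)
  have hS : Subgroup.closure P.S = ⊤ := P.gen
  choose kk hkN hk1 hk2 using fun u : A × A => T₁.ontoN h₁ u.1 (M'.iA u.2)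
  have hcon : ∀ g u, (M.len (R.sec g u) : ℝ) ≤ 1 / 2 * P.len g + 1 := by
    rintro g ⟨x, y⟩
    have e1 : R.sec g (x, y) = T₂.R.sec (T₁.R.sec g x) y := rfl
    have e2 := T₁.len_sec g x
    have e3 := T₂.len_sec (T₁.R.sec g x) y
    rw [e1]
    have e4 : 2 * M.len (T₂.R.sec (T₁.R.sec g x) y) ≤ P.len g + 2 := by omega
    have e5 : (2 : ℝ) * M.len (T₂.R.sec (T₁.R.sec g x) y) ≤ P.len g + 2 := by exact_mod_cast e4
    linarith
  have hcard : Fintype.card (A × A) = Nat.card (A × A) := (Nat.card_eq_fintype_card).symm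
  have h := step R P.N M.N inferInstance hbr P.len M.len M.isLen I (1 / 2) (4 * I * I + 2)
    (by norm_num) (by positivity) ?_ (fun u => (u.1, 1)) (fun u => rfl) ?_ (fun _ => 1) ?_ ?_
    α β hα hβ hH
  · intro g hg
    obtain ⟨m, hm, hmg⟩ := h g hg
    exact ⟨m, by linarith, hmg⟩
  · intro g hg
    obtain ⟨t, ht, htS, htg⟩ := short_comm P.S P.one_mem_S P.inv_mem_S hS P.N
      (R.dsub ⁅M.N, M.N⁆) hdle hdn I hdi g hg
    refine ⟨t, ht, fun u => R.sec (t⁻¹ * g) u, htg.2, ?_, htg.1, fun u => rfl⟩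
    intro u
    have e1 := hcon (t⁻¹ * g) u
    have e2 : P.len (t⁻¹ * g) ≤ 4 * I * I + P.len g := by
      refine le_trans (P.isLen.mul _ _) (Nat.add_le_add_right ?_ _)
      rw [P.isLen.inv]
      exact P.len_le htS
    have e3 : (P.len (t⁻¹ * g) : ℝ) ≤ 4 * I * I + P.len g := by exact_mod_cast e2
    have e4 : (0 : ℝ) ≤ 4 * I * I := by positivity
    linarith
  · rintro ⟨x, y⟩
    have h2 : ({(x, 1), (x, c)} : Finset (A × A)) ⊆
        (Finset.univ.toList.filter (fun v : A × A => (v.1, (1 : A)) = (x, 1))).toFinset := by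
      intro v hv
      simp only [Finset.mem_insert, Finset.mem_singleton] at hv
      rcases hv with rfl | rfl
      · simp
      · simp
    have h3 : ((x, 1) : A × A) ≠ (x, c) := by
      intro h
      exact hc1 (Prod.ext_iff.mp h).2.symm
    calc 2 = ({(x, 1), (x, c)} : Finset (A × A)).card := (Finset.card_pair h3).symm
      _ ≤ (Finset.univ.toList.filter (fun v : A × A => (v.1, (1 : A)) = (x, 1))).toFinset.card :=
          Finset.card_le_card h2
      _ ≤ _ := List.toFinset_card_le _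
  · intro u
    rw [M.isLen.one]
    push_cast
    positivity
  · intro z z' hz hz' hprod g g' hg hg'
    obtain ⟨t, ht, hgt⟩ := Rec.redistribute inferInstance hbr (fun u => (u.1, 1)) (fun _ => 1) kk
      hkN (fun u => by
        rw [hR, Rec.comp_act, hk1, hk2, T₂.act_A, mul_one]
        rfl) (fun u => by
        rw [hR, Rec.comp_sec, hk2, T₂.sec_A]) z z' hz hz'
      hprod g g' hg hg'
    refine ⟨t, pow_mono_of_one (one_mem_Cm _) ?_ ht, hgt⟩
    rw [hcard]; exact hIA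

end step

end Pool.Agent.Helper220_VW
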