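import Pool.Agent.Helper220_VW.Sp3

set_option autoImplicit false

open Pointwise
open scoped commutatorElement

namespace Pool.Agent.Helper220_VW

/-- the wreath product of a group with the group of permutations of a set -/
structure WA (A X : Type) where
  p : Equiv.Perm A
  s : A → X

namespace WA

variable {A X : Type}

@[ext] lemma ext' {g h : WA A X} (h1 : g.p = h.p) (h2 : g.s = h.s) : g = h := by
  cases g; cases h; simp_all

instance [Group X] : Group (WA A X) where
  mul g h := ⟨g.p * h.p, fun x => g.s (h.p x) * h.s x⟩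
  one := ⟨1, fun _ => 1⟩
  inv g := ⟨g.p⁻¹, fun x => (g.s (g.p⁻¹ x))⁻¹⟩
  mul_assoc a b c := by
    apply ext'
    · exact mul_assoc _ _ _
    · funext x
      exact mul_assoc _ _ _
  one_mul a := by
    apply ext'
    · exact one_mul _
    · funext x
      exact one_mul _
  mul_one a := by
    apply ext'
    · exact mul_one _
    · funext x
      exact mul_one _
  inv_mul_cancel a := by
    apply ext'
    · exact inv_mul_cancel _
    · funext x
      change (a.s (a.p⁻¹ (a.p x)))⁻¹ * a.s x = 1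
      have : a.p⁻¹ (a.p x) = x := by simp
      rw [this, inv_mul_cancel]

end WA

variable {A B : Type} [CommGroup A] [CommGroup B]

namespace SG

/-- rooted elements one level up -/
def upA (M : SG A B) : A →* WA A M.X where
  toFun α := ⟨Equiv.mulLeft α, fun _ => 1⟩
  map_one' := by
    apply WA.ext'
    · apply Equiv.ext
      intro x
      exact one_mul x
    · rfl
  map_mul' α α' := by
    apply WA.ext'
    · apply Equiv.ext
      intro x
      exact mul_assoc α α' x
    · funext x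
      change (1 : M.X) = 1 * 1
      rw [one_mul]

open Classical in
/-- directed elements one level up -/
noncomputable def upB (M : SG A B) (ω : A → (B →* A)) : B →* WA A M.X where
  toFun β := ⟨1, fun x => if x = 1 then M.iB β else M.iA (ω x β)⟩
  map_one' := by
    apply WA.ext'
    · rfl
    · funext x
      change (if x = 1 then M.iB 1 else M.iA (ω x 1)) = 1
      split
      · exact map_one _
      · rw [map_one, map_one]
  map_mul' β β' := by
    apply WA.ext'
    · exact (one_mul _).symm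
    · funext x
      change (if x = 1 then M.iB (β * β') else M.iA (ω x (β * β'))) =
        (if x = 1 then M.iB β else M.iA (ω x β)) * (if x = 1 then M.iB β' else M.iA (ω x β'))
      by_cases hx : x = 1
      · rw [if_pos hx, if_pos hx, if_pos hx, map_mul]
      · rw [if_neg hx, if_neg hx, if_neg hx, map_mul, map_mul]

/-- the group one level up -/
def upX (M : SG A B) (ω : A → (B →* A)) : Subgroup (WA A M.X) :=
  Subgroup.closure (Set.range M.upA ∪ Set.range (M.upB ω))

/-- the marked group one level up -/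
noncomputable def up (M : SG A B) (ω : A → (B →* A)) : SG A B where
  X := M.upX ω
  iA := M.upA.codRestrict (M.upX ω) (fun α => Subgroup.subset_closure (Or.inl ⟨α, rfl⟩))
  iB := (M.upB ω).codRestrict (M.upX ω) (fun β => Subgroup.subset_closure (Or.inr ⟨β, rfl⟩))
  gen := by
    have h := Subgroup.closure_closure_coe_preimage
      (k := Set.range M.upA ∪ Set.range (M.upB ω))
    refine Eq.trans ?_ h
    refine congrArg Subgroup.closure ?_
    ext x
    constructor
    · rintro (⟨a, rfl⟩ | ⟨b, rfl⟩)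
      · exact Or.inl ⟨a, rfl⟩
      · exact Or.inr ⟨b, rfl⟩
    · rintro (⟨a, ha⟩ | ⟨b, hb⟩)
      · exact Or.inl ⟨a, Subtype.ext ha⟩
      · exact Or.inr ⟨b, Subtype.ext hb⟩

/-- the recursion of `up` -/
noncomputable def upT (M : SG A B) (ω : A → (B →* A)) : SpT (M.up ω) M ω where
  R :=
    { act :=
        { toFun := fun x => x.1.p
          map_one' := rfl
          map_mul' := fun _ _ => rfl }
      sec := fun x => x.1.s
      sec_mul := fun _ _ _ => rfl
      inj := fun x h1 h2 => Subtype.ext (WA.ext' h1 (funext h2)) }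
  act_A α x := rfl
  sec_A α x := rfl
  act_B β := rfl
  sec_B1 β := if_pos rfl
  sec_B β x hx := if_neg hx

end SG

/-- the free product as a marked group -/
def FAB (A B : Type) [CommGroup A] [CommGroup B] : SG A B where
  X := Monoid.Coprod A B
  iA := Monoid.Coprod.inl
  iB := Monoid.Coprod.inr
  gen := Monoid.Coprod.closure_range_inl_union_inr

/-- homomorphisms of marked groups -/
def IsHom (M M' : SG A B) (φ : M.X →* M'.X) : Prop :=
  (∀ a, φ (M.iA a) = M'.iA a) ∧ ∀ b, φ (M.iB b) = M'.iB b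

lemma FAB_to (M : SG A B) : ∃ φ : (FAB A B).X →* M.X, IsHom (FAB A B) M φ :=
  ⟨Monoid.Coprod.lift M.iA M.iB, fun a => Monoid.Coprod.lift_apply_inl _ _ a,
    fun b => Monoid.Coprod.lift_apply_inr _ _ b⟩

namespace IsHom

variable {M M' M'' : SG A B} {φ : M.X →* M'.X} (h : IsHom M M' φ)

include h

lemma surj : Function.Surjective φ := by
  intro y
  refine M'.induct (P := fun y => ∃ x, φ x = y) ⟨1, map_one _⟩ ?_ ?_ y
  · rintro a _ ⟨x, rfl⟩
    exact ⟨M.iA a * x, by rw [map_mul, h.1]⟩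
  · rintro b _ ⟨x, rfl⟩
    exact ⟨M.iB b * x, by rw [map_mul, h.2]⟩

lemma comp {ψ : M'.X →* M''.X} (h' : IsHom M' M'' ψ) : IsHom M M'' (ψ.comp φ) :=
  ⟨fun a => by rw [MonoidHom.comp_apply, h.1, h'.1],
    fun i => by rw [MonoidHom.comp_apply, h.2, h'.2]⟩

lemma eq {ψ : M.X →* M'.X} (h' : IsHom M M' ψ) (x : M.X) : φ x = ψ x := by
  refine M.induct (P := fun x => φ x = ψ x) (by rw [map_one, map_one]) ?_ ?_ x
  · intro a x hx
    rw [map_mul, map_mul, h.1, h'.1, hx]
  · intro i x hx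
    rw [map_mul, map_mul, h.2, h'.2, hx]

lemma map_N : M.N.map φ = M'.N := by
  apply le_antisymm
  · rw [Subgroup.map_le_iff_le_comap]
    have : (M'.N.comap φ).Normal := inferInstance
    refine Subgroup.normalClosure_le_normal ?_
    rintro _ ⟨a, b, rfl⟩
    change φ ⁅M.iA a, M.iB b⁆ ∈ M'.N
    rw [map_commutatorElement, h.1, h.2]
    exact M'.comm_mem_N a b
  · have : (M.N.map φ).Normal := (inferInstance : M.N.Normal).map φ h.surj
    refine Subgroup.normalClosure_le_normal ?_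
    rintro _ ⟨a, b, rfl⟩
    refine ⟨⁅M.iA a, M.iB b⁆, M.comm_mem_N a b, ?_⟩
    rw [map_commutatorElement, h.1, h.2]

lemma map_NN : (⁅M.N, M.N⁆ : Subgroup M.X).map φ = ⁅M'.N, M'.N⁆ := by
  rw [Subgroup.map_commutator, h.map_N]

lemma map_Z : M.Z.map φ = M'.Z := by
  have h1 : (⊤ : Subgroup M.X).map φ = ⊤ := Subgroup.map_top_of_surjective φ h.surj
  change (⁅(⊤ : Subgroup M.X), M.N⁆).map φ = _
  rw [Subgroup.map_commutator, h.map_N, h1]
  rfl

lemma index_Z [Finite A] [Finite B] : M'.Z.index ≤ M.Z.index := by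
  have hf := M.Z_finiteIndex
  have h1 : M'.Z.index = (M'.Z.comap φ).index := (Subgroup.index_comap_of_surjective _ h.surj).symm
  rw [h1]
  apply Subgroup.index_antitone
  rw [← h.map_Z]
  exact Subgroup.le_comap_map φ _

lemma Cm_pow (n : ℕ) (x : M.X) (hx : x ∈ Cm M.N ^ n) : φ x ∈ Cm M'.N ^ n := by
  have h1 : φ '' (Cm M.N) ⊆ Cm M'.N := by
    rintro _ ⟨_, ⟨p, hp, q, hq, rfl⟩, rfl⟩
    refine ⟨φ p, ?_, φ q, ?_, (map_commutatorElement φ p q).symm⟩
    · rw [← h.map_N]; exact ⟨p, hp, rfl⟩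
    · rw [← h.map_N]; exact ⟨q, hq, rfl⟩
  have h2 : φ x ∈ (φ '' (Cm M.N)) ^ n := by
    rw [← Set.image_pow]
    exact ⟨x, hx, rfl⟩
  exact Set.pow_subset_pow_left h1 h2

lemma len_le (x : M.X) : M'.len (φ x) ≤ M.len x := by
  apply M'.len_le
  have h1 : φ '' M.S ⊆ M'.S := by
    rintro _ ⟨_, ⟨a, rfl⟩ | ⟨b, rfl⟩, rfl⟩
    · rw [h.1]; exact M'.iA_mem a
    · rw [h.2]; exact M'.iB_mem b
  have h2 : φ x ∈ (φ '' M.S) ^ M.len x := by
    rw [← Set.image_pow]
    exact ⟨x, M.mem_len x, rfl⟩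
  exact Set.pow_subset_pow_left h1 h2

lemma mem_NN (x : M.X) (hx : x ∈ ⁅M.N, M.N⁆) : φ x ∈ ⁅M'.N, M'.N⁆ := by
  rw [← h.map_NN]; exact ⟨x, hx, rfl⟩

end IsHom

/-- the uniform index bound -/
noncomputable def IZ (A B : Type) [CommGroup A] [CommGroup B] : ℕ := (FAB A B).Z.index

/-- the uniform index bound for the commutator subgroup of `N` -/
noncomputable def JN (A B : Type) [CommGroup A] [CommGroup B] : ℕ :=
  Nat.card (Equiv.Perm A) * IZ A B ^ Nat.card A

section index

variable [Finite A] [Finite B] {P M : SG A B} {ω : A → (B →* A)} (T : SpT P M ω)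

include T

lemma SpT.dsubZ_le (hω : Asym ω) : T.R.dsub M.Z ≤ ⁅P.N, P.N⁆ := Rec.dsub_le (T.branch_Z hω)

lemma SpT.NN_finiteIndex (hω : Asym ω) : (⁅P.N, P.N⁆ : Subgroup P.X).FiniteIndex := by
  have := M.Z_finiteIndex
  have h1 : (T.R.dsub M.Z).FiniteIndex := Rec.dsub_finiteIndex _
  exact Subgroup.finiteIndex_of_le (T.dsubZ_le hω)

lemma SpT.NN_index (hω : Asym ω) : (⁅P.N, P.N⁆ : Subgroup P.X).index ≤ JN A B := by
  have := M.Z_finiteIndex
  have h1 : (T.R.dsub M.Z).FiniteIndex := Rec.dsub_finiteIndex _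
  refine le_trans (Subgroup.index_antitone (T.dsubZ_le hω)) ?_
  refine le_trans (Rec.dsub_index T.R M.Z) ?_
  obtain ⟨φ, hφ⟩ := FAB_to M
  exact Nat.mul_le_mul_left _ (Nat.pow_le_pow_left hφ.index_Z _)

end index

/-- the marked groups of the approximating tower -/
noncomputable def spM (th : ℕ → A → (B →* A)) : ℕ → SG A B
  | 0 => FAB A B
  | k + 1 => (spM th k).up (th k)

/-- the recursions of the approximating tower -/
noncomputable def spTow (th : ℕ → A → (B →* A)) (k : ℕ) :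
    SpT (spM th (k + 1)) (spM th k) (th k) := (spM th k).upT (th k)

/-- the statement carried by the recursion -/
def SpH (M : SG A B) (α β : ℝ) : Prop :=
  ∀ y ∈ ⁅M.N, M.N⁆, ∃ m : ℕ, (m : ℝ) ≤ α * M.len y + β ∧ y ∈ Cm M.N ^ m

/-- the constant of the recursion -/
noncomputable def IC (A B : Type) [CommGroup A] [CommGroup B] : ℕ :=
  Nat.card (Equiv.Perm (A × A)) * JN A B ^ Nat.card (A × A) + 2 * Nat.card (A × A)

section tower

variable [Finite A] [Finite B]

lemma SpH_step (th : ℕ → A → (B →* A)) (hth : ∀ n, Asym (th n)) (k : ℕ) (α β : ℝ)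
    (hα : 0 ≤ α) (hβ : 0 ≤ β) (h : SpH (spM th (k + 1)) α β) :
    SpH (spM th (k + 3)) (α * (1 / 2)) ((2 * (IC A B) + 1) +
      α * (3 * (4 * (IC A B) * (IC A B) + 2)) + β / 2) := by
  have hfi := (spTow th k).NN_finiteIndex (hth k)
  exact sp_step (spTow th (k + 2)) (spTow th (k + 1)) (hth _) (hth _) (JN A B)
    ((spTow th k).NN_index (hth k)) (IC A B) (Nat.le_add_right _ _) (Nat.le_add_left _ _)
    α β hα hβ h

lemma SpH_tower (th : ℕ → A → (B →* A)) (hth : ∀ n, Asym (th n)) (A₁ A₀ : ℝ) (hA : 0 ≤ A₁)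
    (hA₀ : 0 ≤ A₀) (h0 : SpH (spM th 1) A₁ A₀) (i : ℕ) :
    SpH (spM th (2 * i + 1)) (A₁ * (1 / 2) ^ i) (2 * ((2 * (IC A B) + 1) +
      A₁ * (3 * (4 * (IC A B) * (IC A B) + 2))) + A₀) := by
  have hmono : ∀ (M : SG A B) (α β β' : ℝ), β ≤ β' → SpH M α β → SpH M α β' := by
    intro M α β β' hβ h y hy
    obtain ⟨m, hm, hmy⟩ := h y hy
    exact ⟨m, by linarith, hmy⟩
  induction i with
  | zero =>
    rw [pow_zero, mul_one]
    refine hmono _ _ _ _ ?_ h0
    have : (0 : ℝ) ≤ 2 * ((2 * (IC A B) + 1) + A₁ * (3 * (4 * (IC A B) * (IC A B) + 2))) := by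
      positivity
    linarith
  | succ i ih =>
    have h1 := SpH_step th hth (2 * i) _ _ (by positivity) (by positivity) ih
    have e : 2 * (i + 1) + 1 = 2 * i + 3 := by ring
    rw [e, pow_succ, ← mul_assoc]
    refine hmono _ _ _ _ ?_ h1
    have h2 : (1 / 2 : ℝ) ^ i ≤ 1 := pow_le_one₀ (by norm_num) (by norm_num)
    have h3 : A₁ * (1 / 2) ^ i * (3 * (4 * (IC A B : ℝ) * (IC A B) + 2)) ≤
        A₁ * (3 * (4 * (IC A B) * (IC A B) + 2)) := by
      have : A₁ * (1 / 2) ^ i ≤ A₁ := mul_le_of_le_one_right hA h2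
      exact mul_le_mul_of_nonneg_right this (by positivity)
    linarith

/-- uniform bound at the bottom -/
lemma sp_base : ∃ A₁ A₀ : ℕ, ∀ th : ℕ → A → (B →* A), (∀ n, Asym (th n)) →
    SpH (spM th 1) A₁ A₀ := by
  classical
  have h1 : ∀ ω : A → (B →* A), ∃ A₁ A₀ : ℕ, Asym ω →
      ∀ y ∈ ⁅((FAB A B).up ω).N, ((FAB A B).up ω).N⁆,
        y ∈ Cm ((FAB A B).up ω).N ^ (A₁ * ((FAB A B).up ω).len y + A₀) := by
    intro ω
    by_cases hω : Asym ω
    · have hfi := ((FAB A B).upT ω).NN_finiteIndex hω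
      obtain ⟨A₁, A₀, hA⟩ := linear_bound ((FAB A B).up ω).S ((FAB A B).up ω).S_finite
        ((FAB A B).up ω).N inferInstance
      exact ⟨A₁, A₀, fun _ y hy => hA _ y (((FAB A B).up ω).mem_len y) hy⟩
    · exact ⟨0, 0, fun h => absurd h hω⟩
  choose A₁ A₀ hA using h1
  have hfin0 : Finite (B →* A) := Finite.of_injective (fun f : B →* A => (f : B → A))
    DFunLike.coe_injective
  have hfin : Finite (A → (B →* A)) := inferInstance
  have := Fintype.ofFinite (A → (B →* A))
  refine ⟨Finset.univ.sup A₁, Finset.univ.sup A₀, fun th hth y hy => ?_⟩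
  have h2 := hA (th 0) (hth 0) y hy
  have h3 : A₁ (th 0) ≤ Finset.univ.sup A₁ := Finset.le_sup (f := A₁) (Finset.mem_univ _)
  have h4 : A₀ (th 0) ≤ Finset.univ.sup A₀ := Finset.le_sup (f := A₀) (Finset.mem_univ _)
  refine ⟨Finset.univ.sup A₁ * (spM th 1).len y + Finset.univ.sup A₀, ?_, ?_⟩
  · push_cast; exact le_rfl
  · refine pow_mono_of_one (one_mem_Cm _) ?_ h2
    exact Nat.add_le_add (Nat.mul_le_mul_right _ h3) h4

/-- uniform bound for the commutator width in the approximating towers -/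
theorem sp_bound : ∃ (A₁ : ℝ) (N : ℕ), 0 ≤ A₁ ∧ ∀ (th : ℕ → A → (B →* A)),
    (∀ n, Asym (th n)) → ∀ i : ℕ, ∀ y ∈ ⁅(spM th (2 * i + 1)).N, (spM th (2 * i + 1)).N⁆,
      A₁ * (1 / 2) ^ i * (spM th (2 * i + 1)).len y ≤ 1 →
      y ∈ Cm (spM th (2 * i + 1)).N ^ N := by
  obtain ⟨A₁, A₀, hA⟩ := sp_base (A := A) (B := B)
  refine ⟨A₁, ⌈2 * ((2 * (IC A B : ℝ) + 1) +
      A₁ * (3 * (4 * (IC A B) * (IC A B) + 2))) + A₀ + 1⌉₊, by positivity, ?_⟩
  intro th hth i y hy hlen
  obtain ⟨m, hm, hmy⟩ := SpH_tower th hth A₁ A₀ (by positivity) (by positivity) (hA th hth) i y hy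
  refine pow_mono_of_one (one_mem_Cm _) ?_ hmy
  have h2 : (m : ℝ) ≤ 2 * ((2 * (IC A B : ℝ) + 1) +
      A₁ * (3 * (4 * (IC A B) * (IC A B) + 2))) + A₀ + 1 := by linarith
  exact_mod_cast h2.trans (Nat.le_ceil _)

end tower

end Pool.Agent.Helper220_VW
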