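import Mathlib

set_option autoImplicit false

namespace Pool.Agent.Helper220_VW.Spn

variable {A B : Type}

/-- multiplication of the first letter by `α` -/
def root [Mul A] (α : A) : List A → List A
  | [] => []
  | x :: w => (α * x) :: w

/-- the directed map: at the letter `1` it goes on to the next level, at a letter `x ≠ 1` of level
`n` it multiplies the next letter by `ω n x β` -/
def dir [CommGroup A] [CommGroup B] [DecidableEq A] (ω : ℕ → A → (B →* A)) (β : B) :
    ℕ → List A → List A
  | _, [] => []
  | n, x :: w => x :: (if x = 1 then dir ω β (n + 1) w else root (ω n x β) w)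

/-- the group generated by the rooted and the directed maps of level `n` -/
def Gp [CommGroup A] [CommGroup B] [DecidableEq A] (ω : ℕ → A → (B →* A)) (n : ℕ) :
    Subgroup (Equiv.Perm (List A)) :=
  Subgroup.closure {g | (∃ α : A, ∀ w, g w = root α w) ∨ ∃ β : B, ∀ w, g w = dir ω β n w}

/-- The width of the verbal subgroup `V(Γ)` with respect to the set of words `V` is finite: for
some `m` every element of the subgroup generated by the values of the words from `V` is a product
of at most `m` factors, each of which is such a value or the inverse of one. -/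
def FinWidth (V : Set (FreeGroup ℕ)) (Γ : Type) [Group Γ] : Prop :=
  ∃ m : ℕ, ∀ g ∈ Subgroup.closure {h : Γ | ∃ w ∈ V, ∃ f : ℕ → Γ, FreeGroup.lift f w = h},
    ∃ l : List Γ, l.length ≤ m ∧
      (∀ x ∈ l, (∃ w ∈ V, ∃ f : ℕ → Γ, FreeGroup.lift f w = x) ∨
        (∃ w ∈ V, ∃ f : ℕ → Γ, FreeGroup.lift f w = x⁻¹)) ∧
      l.prod = g

end Pool.Agent.Helper220_VW.Spn
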