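import Pool.Agent.Helper220_VW.Sp4
import Pool.Agent.Helper220_VW.SpDef
import Pool.Agent.Helper220_VW.Final

set_option autoImplicit false

open Pointwise
open scoped commutatorElement

namespace Pool.Agent.Helper220_VW

namespace Spn

variable {A B : Type} [CommGroup A] [CommGroup B] [DecidableEq A] (ω : ℕ → A → (B →* A))

lemma root_mul (α α' : A) (w : List A) : root (α * α') w = root α (root α' w) := by
  cases w with
  | nil => rfl
  | cons x w =>
    change (α * α' * x) :: w = (α * (α' * x)) :: w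
    rw [mul_assoc]

lemma root_one (w : List A) : root (1 : A) w = w := by
  cases w with
  | nil => rfl
  | cons x w =>
    change (1 * x) :: w = x :: w
    rw [one_mul]

lemma dir_cons (β : B) (n : ℕ) (x : A) (w : List A) : dir ω β n (x :: w) =
    x :: (if x = 1 then dir ω β (n + 1) w else root (ω n x β) w) := rfl

lemma dir_mul (β β' : B) (w : List A) : ∀ n, dir ω (β * β') n w = dir ω β n (dir ω β' n w) := by
  induction w with
  | nil => intro n; rfl
  | cons x w ih =>
    intro n
    rw [dir_cons, dir_cons, dir_cons]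
    by_cases hx : x = 1
    · rw [if_pos hx, if_pos hx, if_pos hx, ih]
    · rw [if_neg hx, if_neg hx, if_neg hx, map_mul, root_mul]

lemma dir_one (w : List A) : ∀ n, dir ω (1 : B) n w = w := by
  induction w with
  | nil => intro n; rfl
  | cons x w ih =>
    intro n
    rw [dir_cons]
    by_cases hx : x = 1
    · rw [if_pos hx, ih]
    · rw [if_neg hx, map_one, root_one]

/-- rooted permutations -/
def rootP : A →* Equiv.Perm (List A) where
  toFun α :=
    { toFun := root α
      invFun := root α⁻¹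
      left_inv := fun w => by rw [← root_mul, inv_mul_cancel, root_one]
      right_inv := fun w => by rw [← root_mul, mul_inv_cancel, root_one] }
  map_one' := Equiv.ext root_one
  map_mul' α α' := Equiv.ext (root_mul α α')

/-- directed permutations -/
def dirP (n : ℕ) : B →* Equiv.Perm (List A) where
  toFun β :=
    { toFun := dir ω β n
      invFun := dir ω β⁻¹ n
      left_inv := fun w => by rw [← dir_mul, inv_mul_cancel, dir_one]
      right_inv := fun w => by rw [← dir_mul, mul_inv_cancel, dir_one] }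
  map_one' := Equiv.ext fun w => dir_one ω w n
  map_mul' β β' := Equiv.ext fun w => dir_mul ω β β' w n

lemma Gp_eq (n : ℕ) : Gp ω n = Subgroup.closure (Set.range (rootP (A := A)) ∪
    Set.range (dirP ω n)) := by
  refine congrArg Subgroup.closure ?_
  ext g
  constructor
  · rintro (⟨α, h⟩ | ⟨β, h⟩)
    · exact Or.inl ⟨α, Equiv.ext fun w => (h w).symm⟩
    · exact Or.inr ⟨β, Equiv.ext fun w => (h w).symm⟩
  · rintro (⟨α, rfl⟩ | ⟨β, rfl⟩)
    · exact Or.inl ⟨α, fun w => rfl⟩
    · exact Or.inr ⟨β, fun w => rfl⟩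

lemma root_mem (n : ℕ) (α : A) : rootP α ∈ Gp ω n := by
  rw [Gp_eq]; exact Subgroup.subset_closure (Or.inl ⟨α, rfl⟩)

lemma dir_mem (n : ℕ) (β : B) : dirP ω n β ∈ Gp ω n := by
  rw [Gp_eq]; exact Subgroup.subset_closure (Or.inr ⟨β, rfl⟩)

/-- the spinal group as a marked group -/
def GG (n : ℕ) : SG A B where
  X := Gp ω n
  iA := rootP.codRestrict (Gp ω n) (root_mem ω n)
  iB := (dirP ω n).codRestrict (Gp ω n) (dir_mem ω n)
  gen := by
    have key : ∀ (G : Subgroup (Equiv.Perm (List A))) (h : G = Subgroup.closure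
        (Set.range (rootP (A := A)) ∪ Set.range (dirP ω n)))
        (h1 : ∀ α, rootP α ∈ G) (h2 : ∀ β, dirP ω n β ∈ G),
        Subgroup.closure (Set.range (rootP.codRestrict G h1) ∪
          Set.range ((dirP ω n).codRestrict G h2)) = ⊤ := by
      rintro G rfl h1 h2
      have h := Subgroup.closure_closure_coe_preimage
        (k := Set.range (rootP (A := A)) ∪ Set.range (dirP ω n))
      refine Eq.trans ?_ h
      refine congrArg Subgroup.closure ?_
      ext x
      constructor
      · rintro (⟨a, rfl⟩ | ⟨b, rfl⟩)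
        · exact Or.inl ⟨a, rfl⟩
        · exact Or.inr ⟨b, rfl⟩
      · rintro (⟨a, ha⟩ | ⟨b, hb⟩)
        · exact Or.inl ⟨a, Subtype.ext ha⟩
        · exact Or.inr ⟨b, Subtype.ext hb⟩
    exact key (Gp ω n) (Gp_eq ω n) _ _

/-- self-similarity of the family -/
lemma self (n : ℕ) : ∀ g ∈ Gp ω n, ∀ x : A, ∃ y : A, ∃ s ∈ Gp ω (n + 1),
    ∀ w : List A, g (x :: w) = y :: s w := by
  intro g hg
  rw [Gp_eq] at hg
  induction hg using Subgroup.closure_induction with
  | mem g hg =>
    intro x
    rcases hg with ⟨α, rfl⟩ | ⟨β, rfl⟩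
    · exact ⟨α * x, 1, Subgroup.one_mem _, fun w => rfl⟩
    · by_cases hx : x = 1
      · refine ⟨x, dirP ω (n + 1) β, dir_mem ω (n + 1) β, fun w => ?_⟩
        change dir ω β n (x :: w) = x :: dir ω β (n + 1) w
        rw [dir_cons, if_pos hx]
      · refine ⟨x, rootP (ω n x β), root_mem ω (n + 1) _, fun w => ?_⟩
        change dir ω β n (x :: w) = x :: root (ω n x β) w
        rw [dir_cons, if_neg hx]
  | one => intro x; exact ⟨x, 1, Subgroup.one_mem _, fun w => rfl⟩
  | mul g h _ _ hg hh =>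
    intro x
    obtain ⟨y, s, hs, h1⟩ := hh x
    obtain ⟨z, t, ht, h2⟩ := hg y
    refine ⟨z, t * s, Subgroup.mul_mem _ ht hs, fun w => ?_⟩
    change g (h (x :: w)) = z :: t (s w)
    rw [h1, h2]
  | inv g hg' ih =>
    intro x
    have hnil : g [] = [] := by
      obtain ⟨w, hw⟩ := g.surjective []
      cases w with
      | nil => exact hw
      | cons y w =>
        obtain ⟨z, s, -, h⟩ := ih y
        rw [h] at hw
        exact absurd hw (by simp)
    obtain ⟨w, hw⟩ := g.surjective [x]
    cases w with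
    | nil => rw [hnil] at hw; exact absurd hw (by simp)
    | cons y w =>
      obtain ⟨z, s, hs, h⟩ := ih y
      rw [h] at hw
      have hz : z = x := by
        have := congrArg List.head? hw
        simpa using this
      subst hz
      refine ⟨y, s⁻¹, Subgroup.inv_mem _ hs, fun w => ?_⟩
      rw [Equiv.Perm.inv_eq_iff_eq, h]
      simp

/-- the first letter action -/
noncomputable def lact (n : ℕ) (g : (GG ω n).X) (x : A) : A := (self ω n g.1 g.2 x).choose

/-- the section -/
noncomputable def lsec (n : ℕ) (g : (GG ω n).X) (x : A) : (GG ω (n + 1)).X :=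
  ⟨(self ω n g.1 g.2 x).choose_spec.choose, (self ω n g.1 g.2 x).choose_spec.choose_spec.1⟩

lemma lspec (n : ℕ) (g : (GG ω n).X) (x : A) (w : List A) :
    g.1 (x :: w) = lact ω n g x :: (lsec ω n g x).1 w :=
  (self ω n g.1 g.2 x).choose_spec.choose_spec.2 w

lemma luniq (n : ℕ) (g : (GG ω n).X) (x y : A) (s : Equiv.Perm (List A))
    (h : ∀ w, g.1 (x :: w) = y :: s w) : lact ω n g x = y ∧ (lsec ω n g x).1 = s := by
  have h1 : ∀ w, lact ω n g x :: (lsec ω n g x).1 w = y :: s w := fun w => by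
    rw [← lspec, h]
  refine ⟨?_, ?_⟩
  · have := h1 []
    exact (List.cons.inj this).1
  · apply Equiv.ext
    intro w
    exact (List.cons.inj (h1 w)).2

lemma lnil (n : ℕ) (g : (GG ω n).X) : g.1 [] = [] := by
  obtain ⟨w, hw⟩ := g.1.surjective []
  cases w with
  | nil => exact hw
  | cons y w =>
    rw [lspec] at hw
    exact absurd hw (by simp)

lemma lmul (n : ℕ) (g h : (GG ω n).X) (x : A) :
    lact ω n (g * h) x = lact ω n g (lact ω n h x) ∧
      lsec ω n (g * h) x = lsec ω n g (lact ω n h x) * lsec ω n h x := by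
  have := luniq ω n (g * h) x (lact ω n g (lact ω n h x))
    (lsec ω n g (lact ω n h x) * lsec ω n h x).1 (fun w => by
      change g.1 (h.1 (x :: w)) = _
      rw [lspec ω n h, lspec ω n g]
      rfl)
  exact ⟨this.1, Subtype.ext this.2⟩

lemma lone (n : ℕ) (x : A) : lact ω n 1 x = x ∧ lsec ω n 1 x = 1 := by
  have := luniq ω n 1 x x 1 (fun w => rfl)
  exact ⟨this.1, Subtype.ext this.2⟩

/-- the wreath recursion -/
noncomputable def GR (n : ℕ) : Rec (GG ω n).X (GG ω (n + 1)).X A where
  act :=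
    { toFun := fun g =>
        { toFun := lact ω n g
          invFun := lact ω n g⁻¹
          left_inv := fun x => by
            rw [← (lmul ω n g⁻¹ g x).1, inv_mul_cancel, (lone ω n x).1]
          right_inv := fun x => by
            rw [← (lmul ω n g g⁻¹ x).1, mul_inv_cancel, (lone ω n x).1] }
      map_one' := by
        apply Equiv.ext
        intro x
        exact (lone ω n x).1
      map_mul' := fun g h => by
        apply Equiv.ext
        intro x
        exact (lmul ω n g h x).1 }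
  sec := lsec ω n
  sec_mul := fun g h x => (lmul ω n g h x).2
  inj := by
    intro g h1 h2
    apply Subtype.ext
    apply Equiv.ext
    intro w
    cases w with
    | nil => exact lnil ω n g
    | cons x w =>
      rw [lspec, h2]
      have : lact ω n g x = x := Equiv.ext_iff.mp h1 x
      rw [this]
      rfl

lemma iB_cons1 (n : ℕ) (β : B) (w : List A) : ((GG ω n).iB β).1 (1 :: w) =
    1 :: dirP ω (n + 1) β w := by
  change dir ω β n (1 :: w) = 1 :: dir ω β (n + 1) w
  rw [dir_cons, if_pos rfl]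

lemma iB_cons (n : ℕ) (β : B) (x : A) (hx : x ≠ 1) (w : List A) : ((GG ω n).iB β).1 (x :: w) =
    x :: rootP (ω n x β) w := by
  change dir ω β n (x :: w) = x :: root (ω n x β) w
  rw [dir_cons, if_neg hx]

/-- the spinal groups form a system of the type considered -/
noncomputable def GT (n : ℕ) : SpT (GG ω n) (GG ω (n + 1)) (ω n) where
  R := GR ω n
  act_A α x := (luniq ω n ((GG ω n).iA α) x (α * x) 1 (fun w => rfl)).1
  sec_A α x := Subtype.ext (luniq ω n ((GG ω n).iA α) x (α * x) 1 (fun w => rfl)).2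
  act_B β := by
    apply Equiv.ext
    intro x
    by_cases hx : x = 1
    · subst hx
      exact (luniq ω n ((GG ω n).iB β) 1 1 _ (iB_cons1 ω n β)).1
    · exact (luniq ω n ((GG ω n).iB β) x x _ (iB_cons ω n β x hx)).1
  sec_B1 β := Subtype.ext (luniq ω n ((GG ω n).iB β) 1 1 _ (iB_cons1 ω n β)).2
  sec_B β x hx := Subtype.ext (luniq ω n ((GG ω n).iB β) x x _ (iB_cons ω n β x hx)).2

section lift

variable {ω} {P M : SG A B} {ω₀ : A → (B →* A)} (T : SpT P M ω₀) (φ : M.X →* Equiv.Perm (List A))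

/-- lifting of an action one level up, as a function -/
def upF (p : P.X) : List A → List A
  | [] => []
  | x :: w => T.R.act p x :: φ (T.R.sec p x) w

lemma upF_one (w : List A) : upF T φ 1 w = w := by
  cases w with
  | nil => rfl
  | cons x w =>
    change T.R.act 1 x :: φ (T.R.sec 1 x) w = x :: w
    rw [map_one, Rec.sec_one, map_one]
    rfl

lemma upF_mul (p q : P.X) (w : List A) : upF T φ (p * q) w = upF T φ p (upF T φ q w) := by
  cases w with
  | nil => rfl
  | cons x w =>
    change T.R.act (p * q) x :: φ (T.R.sec (p * q) x) w =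
      T.R.act p (T.R.act q x) :: φ (T.R.sec p (T.R.act q x)) (φ (T.R.sec q x) w)
    rw [map_mul, T.R.sec_mul, map_mul]
    rfl

/-- lifting of an action one level up -/
def upH : P.X →* Equiv.Perm (List A) where
  toFun p :=
    { toFun := upF T φ p
      invFun := upF T φ p⁻¹
      left_inv := fun w => by rw [← upF_mul, inv_mul_cancel, upF_one]
      right_inv := fun w => by rw [← upF_mul, mul_inv_cancel, upF_one] }
  map_one' := Equiv.ext fun w => upF_one T φ w
  map_mul' := fun p q => Equiv.ext fun w => upF_mul T φ p q w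

lemma upH_A (α : A) : upH T φ (P.iA α) = rootP α := by
  apply Equiv.ext
  intro w
  cases w with
  | nil => rfl
  | cons x w =>
    change T.R.act (P.iA α) x :: φ (T.R.sec (P.iA α) x) w = (α * x) :: w
    rw [T.act_A, T.sec_A, map_one]
    rfl

lemma upH_B {n : ℕ} (h0 : ω n = ω₀) (ha : ∀ α, φ (M.iA α) = rootP α)
    (hb : ∀ β, φ (M.iB β) = dirP ω (n + 1) β) (β : B) : upH T φ (P.iB β) = dirP ω n β := by
  apply Equiv.ext
  intro w
  cases w with
  | nil => rfl
  | cons x w =>
    change T.R.act (P.iB β) x :: φ (T.R.sec (P.iB β) x) w = dir ω β n (x :: w)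
    rw [T.act_B, dir_cons]
    by_cases hx : x = 1
    · subst hx
      rw [T.sec_B1, hb, if_pos rfl]
      rfl
    · rw [T.sec_B β x hx, ha, if_neg hx, h0]
      rfl

end lift

/-- the letters of the approximating tower with `T` levels -/
def tht (T : ℕ) : ℕ → A → (B →* A) := fun j => ω (T - 1 - j)

lemma App_perm (T : ℕ) : ∀ k ≤ T, ∃ φ : (spM (tht ω T) k).X →* Equiv.Perm (List A),
      (∀ α, φ ((spM (tht ω T) k).iA α) = rootP α) ∧
      ∀ β, φ ((spM (tht ω T) k).iB β) = dirP ω (T - k) β := by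
  intro k
  induction k with
  | zero =>
    intro _
    exact ⟨Monoid.Coprod.lift rootP (dirP ω (T - 0)), fun a => Monoid.Coprod.lift_apply_inl _ _ a,
      fun b => Monoid.Coprod.lift_apply_inr _ _ b⟩
  | succ k ih =>
    intro hk
    obtain ⟨φ, ha, hb⟩ := ih (by omega)
    refine ⟨upH (spTow (tht ω T) k) φ, upH_A _ _, ?_⟩
    apply upH_B
    · change ω (T - (k + 1)) = ω (T - 1 - k)
      congr 1
      omega
    · exact ha
    · intro i
      rw [hb]
      congr 2
      omega

/-- every homomorphism to permutations with the right generators is one to the spinal group -/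
lemma toGG {M : SG A B} {n : ℕ} {φ : M.X →* Equiv.Perm (List A)} (ha : ∀ α, φ (M.iA α) = rootP α)
    (hb : ∀ β, φ (M.iB β) = dirP ω n β) : ∃ ψ : M.X →* (GG ω n).X, IsHom M (GG ω n) ψ := by
  have h1 : ∀ x, φ x ∈ Gp ω n := by
    intro x
    refine M.induct (P := fun x => φ x ∈ Gp ω n) ?_ ?_ ?_ x
    · rw [map_one]; exact Subgroup.one_mem _
    · intro a x hx
      rw [map_mul, ha]
      exact Subgroup.mul_mem _ (root_mem ω n a) hx
    · intro i x hx
      rw [map_mul, hb]
      exact Subgroup.mul_mem _ (dir_mem ω n i) hx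
  exact ⟨φ.codRestrict _ h1, fun a => Subtype.ext (ha a), fun i => Subtype.ext (hb i)⟩

/-- uniform commutator width of the subgroups `N` -/
theorem cw_real [Finite A] [Finite B] : ∃ N : ℕ, ∀ ω : ℕ → A → (B →* A), (∀ n, Asym (ω n)) →
    ∀ n, ∀ y ∈ ⁅(GG ω n).N, (GG ω n).N⁆, y ∈ Cm (GG ω n).N ^ N := by
  obtain ⟨A₁, N, hA, hN⟩ := sp_bound (A := A) (B := B)
  refine ⟨N, fun ω hω n y hy => ?_⟩
  obtain ⟨ψ, hψ⟩ := FAB_to (GG ω n)
  rw [← hψ.map_NN] at hy
  obtain ⟨z, hz, rfl⟩ := hy
  obtain ⟨i, hi⟩ : ∃ i : ℕ, A₁ * (1 / 2) ^ i * (FAB A B).len z ≤ 1 := by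
    have h1 : Filter.Tendsto (fun i : ℕ => A₁ * (1 / 2 : ℝ) ^ i * (FAB A B).len z) Filter.atTop
        (nhds (A₁ * 0 * (FAB A B).len z)) :=
      ((tendsto_pow_atTop_nhds_zero_of_lt_one (by norm_num) (by norm_num)).const_mul A₁).mul_const _
    rw [mul_zero, zero_mul] at h1
    exact (h1.eventually (ge_mem_nhds (by norm_num : (0 : ℝ) < 1))).exists
  have hk2 := hN (tht ω (n + (2 * i + 1))) (fun j => hω _) i
  obtain ⟨η, hη⟩ := FAB_to (spM (tht ω (n + (2 * i + 1))) (2 * i + 1))
  obtain ⟨φ, ha, hb⟩ := App_perm ω (n + (2 * i + 1)) (2 * i + 1) (by omega)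
  have eT : n + (2 * i + 1) - (2 * i + 1) = n := by omega
  rw [eT] at hb
  obtain ⟨χ, hχ⟩ := toGG ω ha hb
  have h3 := hk2 (η z) (hη.mem_NN z hz) ?_
  · have h4 := hχ.Cm_pow N _ h3
    have h5 : χ (η z) = ψ z := (hη.comp hχ).eq hψ z
    rwa [h5] at h4
  · have h6 : ((spM (tht ω (n + (2 * i + 1))) (2 * i + 1)).len (η z) : ℝ) ≤ (FAB A B).len z := by
      exact_mod_cast hη.len_le z
    refine le_trans ?_ hi
    exact mul_le_mul_of_nonneg_left h6 (by positivity)

/-- words as iterated products -/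
def DA (A : Type) : ℕ → Type
  | 0 => Unit
  | n + 1 => A × DA A n

instance DA.nonempty (A : Type) [One A] : ∀ n, Nonempty (DA A n)
  | 0 => ⟨()⟩
  | n + 1 => by
    have := DA.nonempty A n
    exact ⟨(1, Classical.arbitrary _)⟩

instance DA.finite (A : Type) [Finite A] : ∀ n, Finite (DA A n)
  | 0 => inferInstanceAs (Finite Unit)
  | n + 1 => by
    have := DA.finite A n
    exact inferInstanceAs (Finite (A × DA A n))

/-- the recursion over `m` levels -/
lemma exists_RR [Finite A] (hω : ∀ n, Asym (ω n)) : ∀ (m n k : ℕ), k = n + m →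
    ∃ R : Rec (GG ω n).X (GG ω k).X (DA A m), R.Branch (GG ω n).N (GG ω k).N ∧ R.Onto ∧
      R.Trans ∧ ∀ (v : List A) (h : (GG ω n).X), h.1 v ≠ v → v.length ≤ m →
        ∃ w, R.act h w ≠ w := by
  intro m
  induction m with
  | zero =>
    intro n k hk
    obtain rfl : n = k := hk.symm
    refine ⟨Rec.triv (GG ω n).X, Rec.triv_branch _, Rec.triv_onto, Rec.triv_trans, ?_⟩
    intro v h hv hl
    have : v = [] := List.eq_nil_of_length_eq_zero (Nat.le_zero.mp hl)
    rw [this] at hv
    exact absurd (lnil ω n h) hv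
  | succ m ih =>
    intro n k hk
    obtain ⟨R, hb, ho, ht, hm⟩ := ih (n + 1) k (by omega)
    have hT1 : (GT ω n).R.Onto := fun u h => by
      obtain ⟨s, hs1, hs2⟩ := (GT ω n).ontoB (hω n) u h
      exact ⟨s, by rw [hs1]; rfl, hs2⟩
    have hT2 : (GT ω n).R.Trans := fun u v =>
      ⟨(GG ω n).iA (v * u⁻¹), by rw [(GT ω n).act_A, inv_mul_cancel_right]⟩
    refine ⟨(GT ω n).R.comp R, Rec.Branch.comp ((GT ω n).branch_N (hω n)) hb,
      Rec.Onto.comp hT1 ho, Rec.Trans.comp hT2 hT1 ht, ?_⟩
    intro v h hv hl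
    cases v with
    | nil => exact absurd (lnil ω n h) hv
    | cons x v =>
      rw [lspec] at hv
      by_cases hx : lact ω n h x = x
      · rw [hx] at hv
        have hv' : (lsec ω n h x).1 v ≠ v := fun hc => hv (by rw [hc])
        obtain ⟨w, hw⟩ := hm v (lsec ω n h x) hv' (by simpa using hl)
        refine ⟨(x, w), fun hc => hw ?_⟩
        exact (Prod.ext_iff.mp hc).2
      · refine ⟨(x, Classical.arbitrary (DA A m)), fun hc => hx ?_⟩
        exact (Prod.ext_iff.mp hc).1

/-- finite verbal width in the spinal groups -/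
theorem sp_width [Finite A] [Finite B] (hω : ∀ n, Asym (ω n)) (n : ℕ) (W : Set (GG ω n).X)
    (hW : ∀ g, ∀ w ∈ W, g * w * g⁻¹ ∈ W) :
    ∃ m : ℕ, ∀ g ∈ Subgroup.closure W, g ∈ (W ∪ W⁻¹ ∪ {1} : Set (GG ω n).X) ^ m := by
  classical
  by_cases htriv : ∀ h ∈ W, h = 1
  · refine ⟨0, fun g hg => ?_⟩
    have h1 : Subgroup.closure W ≤ ⊥ := by
      rw [Subgroup.closure_le]
      intro x hx
      rw [htriv x hx]
      exact Subgroup.one_mem _
    have h2 := h1 hg
    rw [Subgroup.mem_bot] at h2
    rw [h2]; simp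
  push Not at htriv
  obtain ⟨h, hh, hne⟩ := htriv
  obtain ⟨v, hv⟩ : ∃ v, h.1 v ≠ v := by
    by_contra hc
    push Not at hc
    exact hne (Subtype.ext (Equiv.ext hc))
  obtain ⟨R, hb, -, ht, hm⟩ := exists_RR ω hω v.length n (n + v.length) rfl
  obtain ⟨w, hw⟩ := hm v h hv le_rfl
  obtain ⟨N, hN⟩ := cw_real (A := A) (B := B)
  have hfi := (GT ω (n + v.length)).NN_finiteIndex (hω _)
  exact verbal_generic R (GG ω n).N (GG ω (n + v.length)).N inferInstance hb N
    (hN ω hω (n + v.length)) ht W hW h hh w hw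

/-- the final form -/
theorem sp_verbal [Finite A] [Finite B] (hω : ∀ n, Asym (ω n)) (n : ℕ) (V : Set (FreeGroup ℕ)) :
    ∃ m : ℕ, ∀ g ∈ Subgroup.closure
        {h : Gp ω n | ∃ w ∈ V, ∃ f : ℕ → Gp ω n, FreeGroup.lift f w = h},
      ∃ l : List (Gp ω n), l.length ≤ m ∧
        (∀ x ∈ l, (∃ w ∈ V, ∃ f : ℕ → Gp ω n, FreeGroup.lift f w = x) ∨
          (∃ w ∈ V, ∃ f : ℕ → Gp ω n, FreeGroup.lift f w = x⁻¹)) ∧
        l.prod = g := by
  set W : Set (Gp ω n) := {h | ∃ w ∈ V, ∃ f : ℕ → Gp ω n, FreeGroup.lift f w = h} with hWdef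
  have hW : ∀ g, ∀ w ∈ W, g * w * g⁻¹ ∈ W := by
    rintro g _ ⟨w, hw, f, rfl⟩
    exact ⟨w, hw, fun i => g * f i * g⁻¹, conj_lift g f w⟩
  obtain ⟨m, hm⟩ := sp_width ω hω n W hW
  refine ⟨m, fun g hg => ?_⟩
  exact exists_list W m g (hm g hg)

end Spn

end Pool.Agent.Helper220_VW
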