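import Pool.Agent.Helper220_VW.Movers
import Pool.Agent.H16R2.Nilp

set_option autoImplicit false

open Pointwise
open scoped commutatorElement

namespace Pool.Agent.Helper220_VW

namespace Rec

variable {G H D U : Type*} [Group G] [Group H] {R : Rec G H D}

/-- moving the content of four classes of points to the first class -/
lemma move4 {S : Subgroup G} {L : Subgroup H} (hL : L.Normal)
    (hbr : R.Branch S L) (e : U × Fin 4 ≃ D) (rho : Fin 4 → G) (hrS : ∀ j, rho j ∈ S)
    (hact : ∀ j v, R.act (rho j) (e (v, 0)) = e (v, j))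
    (z : D → H) (hz : ∀ u, z u ∈ L) (l : List (Fin 4)) :
    ∀ g, R.Dg g (fun d => (l.map (fun j => if (e.symm d).2 = j then z d else 1)).prod) →
      ∃ t ∈ Cm S ^ l.length, ∃ P ∈ S,
        R.Dg P (fun d => if (e.symm d).2 = 0 then (l.map (fun j =>
          (R.sec (rho j) (e ((e.symm d).1, 0)))⁻¹ * z (e ((e.symm d).1, j)) *
            R.sec (rho j) (e ((e.symm d).1, 0)))).prod else 1) ∧
        g = t * P := by
  induction l with
  | nil =>
    intro g hg
    have h1 : g = 1 := hg.unique (Dg.one.congr fun v => by simp)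
    refine ⟨1, by simp, 1, S.one_mem, Dg.one.congr fun v => by simp, by rw [h1, one_mul]⟩
  | cons a t ih =>
    intro g hg
    set y : U → Fin 4 → H := fun v j =>
      (R.sec (rho j) (e (v, 0)))⁻¹ * z (e (v, j)) * R.sec (rho j) (e (v, 0)) with hy
    have hyL : ∀ v j, y v j ∈ L := by
      intro v j
      have := hL.conj_mem (z (e (v, j))) (hz _) (R.sec (rho j) (e (v, 0)))⁻¹
      simpa [hy] using this
    obtain ⟨dd, hdS, hd⟩ := hbr (fun d => if (e.symm d).2 = 0 then y (e.symm d).1 a else 1)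
      (fun d => by
        by_cases h : (e.symm d).2 = 0
        · simp only [h, if_true]; exact hyL _ _
        · simp only [h, if_false]; exact L.one_mem)
    obtain ⟨gt, -, hgt⟩ := hbr (fun d => (t.map (fun j => if (e.symm d).2 = j then z d else 1)).prod)
      (fun d => by
        apply Subgroup.list_prod_mem
        intro x hx
        obtain ⟨j, -, rfl⟩ := List.mem_map.mp hx
        by_cases h : (e.symm d).2 = j
        · simp only [h, if_true]; exact hz _
        · simp only [h, if_false]; exact L.one_mem)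
    obtain ⟨c, hc, P, hP, hPd, hgc⟩ := ih gt hgt
    have h1 : R.Dg (rho a * dd * (rho a)⁻¹) (fun d => if (e.symm d).2 = a then z d else 1) := by
      refine (hd.conj (rho a)).congr fun d => ?_
      obtain ⟨⟨v, j⟩, rfl⟩ := e.surjective d
      by_cases hj : j = a
      · subst hj
        have h2 : (R.act (rho j))⁻¹ (e (v, j)) = e (v, 0) := by
          rw [Equiv.Perm.inv_eq_iff_eq, hact]
        rw [h2]
        simp only [Equiv.symm_apply_apply, if_true, hy]
        group
      · have h2 : (e.symm ((R.act (rho a))⁻¹ (e (v, j)))).2 ≠ 0 := by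
          intro h0
          apply hj
          have h3 : (R.act (rho a))⁻¹ (e (v, j)) =
              e ((e.symm ((R.act (rho a))⁻¹ (e (v, j)))).1, 0) := by
            rw [← h0]
            simp
          rw [Equiv.Perm.inv_eq_iff_eq, hact] at h3
          have h4 := e.injective h3
          exact (Prod.ext_iff.mp h4).2
        simp only [h2, if_false, Equiv.symm_apply_apply, hj, mul_one, mul_inv_cancel]
    have h2 : g = rho a * dd * (rho a)⁻¹ * gt := by
      refine hg.unique ((h1.mul hgt).congr fun d => ?_)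
      simp [List.map_cons, List.prod_cons]
    refine ⟨⁅rho a, dd⁆ * (dd * c * dd⁻¹), ?_, dd * P, S.mul_mem hdS hP, ?_, ?_⟩
    · rw [List.length_cons, add_comm, pow_add, pow_one]
      refine Set.mul_mem_mul ⟨rho a, hrS a, dd, hdS, rfl⟩ ?_
      exact conj_mem_pow (conj_mem_Cm (fun x hx =>
        S.mul_mem (S.mul_mem hdS hx) (S.inv_mem hdS))) hc
    · refine (hd.mul hPd).congr fun d => ?_
      by_cases h : (e.symm d).2 = 0
      · simp only [Pi.mul_apply, h, if_true, List.map_cons, List.prod_cons, hy]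
      · simp only [Pi.mul_apply, h, if_false, mul_one]
    · rw [h2, hgc, commutatorElement_def]
      group

lemma split4 (e : U × Fin 4 ≃ D) (z : D → H) (d : D) :
    ((List.finRange 4).map (fun j => if (e.symm d).2 = j then z d else 1)).prod = z d := by
  have h : List.finRange 4 = [0, 1, 2, 3] := by decide
  rw [h]
  generalize (e.symm d).2 = j
  fin_cases j <;> simp

/-- any element can be changed by an element with sections in `L` to have short sections -/
lemma exists_mod {L : Subgroup H} (hbr : R.Branch ⊤ L) (lenH : H → ℕ) (c₀ : ℕ)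
    (hrep : ∀ h : H, ∃ ν ∈ L, lenH (h * ν) ≤ c₀) (g : G) :
    ∃ n ∈ R.dsub L, R.act (g * n) = R.act g ∧ ∀ u, lenH (R.sec (g * n) u) ≤ c₀ := by
  choose ν hν hνl using hrep
  obtain ⟨n, -, hn⟩ := hbr (fun u => ν (R.sec g u)) (fun u => hν _)
  refine ⟨n, ⟨hn.1, fun u => by rw [hn.2]; exact hν _⟩, by rw [map_mul, hn.1, mul_one],
    fun u => ?_⟩
  rw [R.sec_mul, hn.1, Equiv.Perm.one_apply, hn.2]
  exact hνl _

/-- all sections are short -/
def Short (R : Rec G H D) (lenH : H → ℕ) (c : ℕ) (g : G) : Prop := ∀ u, lenH (R.sec g u) ≤ c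

lemma Short.mul {lenH : H → ℕ} (hlen : IsLen lenH) {c c' : ℕ} {g h : G} (hg : R.Short lenH c g)
    (hh : R.Short lenH c' h) : R.Short lenH (c + c') (g * h) := by
  intro u
  rw [R.sec_mul]
  exact le_trans (hlen.mul _ _) (Nat.add_le_add (hg _) (hh _))

lemma Short.inv {lenH : H → ℕ} (hlen : IsLen lenH) {c : ℕ} {g : G} (hg : R.Short lenH c g) :
    R.Short lenH c g⁻¹ := by
  intro u
  rw [sec_inv, hlen.inv]
  exact hg _

lemma Short.comm {lenH : H → ℕ} (hlen : IsLen lenH) {c : ℕ} {g h : G} (hg : R.Short lenH c g)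
    (hh : R.Short lenH c h) : R.Short lenH (4 * c) ⁅g, h⁆ := by
  rw [commutatorElement_def]
  have := ((hg.mul hlen hh).mul hlen (hg.inv hlen)).mul hlen (hh.inv hlen)
  intro u
  refine le_trans (this u) (by omega)

lemma Short.list_prod {lenH : H → ℕ} (hlen : IsLen lenH) {c : ℕ} (l : List G)
    (h : ∀ g ∈ l, R.Short lenH c g) : R.Short lenH (l.length * c) l.prod := by
  induction l with
  | nil =>
    intro u
    rw [List.prod_nil, sec_one, hlen.one]
    exact Nat.zero_le _
  | cons a t ih =>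
    rw [List.prod_cons, List.length_cons]
    have := (h a (by simp)).mul hlen (ih (fun g hg => h g (by simp [hg])))
    intro u
    refine le_trans (this u) ?_
    rw [Nat.succ_mul]
    omega

/-- writing elements of the commutator subgroup, modulo the elements with sections in `⁅L, L⁆`,
as a product of few commutators with short sections -/
theorem exists_T [Finite D] {S : Subgroup G} {L : Subgroup H} (hS : S.Normal) (hL : L.Normal)
    [(⁅L, L⁆ : Subgroup H).FiniteIndex] (hbr : R.Branch S ⁅L, L⁆)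
    (lenG : G → ℕ) (lenH : H → ℕ) (hlen : IsLen lenH) (c₀ : ℕ)
    (hrep : ∀ h : H, ∃ ν ∈ ⁅L, L⁆, lenH (h * ν) ≤ c₀)
    {d : ℕ} (gs : Fin d → G) (hgs : Subgroup.closure (Set.range gs) = S)
    (hp : ∀ g : G, ∃ j : ℕ, g ^ (2 ^ j) ∈ R.dsub ⁅L, L⁆)
    (lam : ℝ) (hcon : ∀ g u, (lenH (R.sec g u) : ℝ) ≤ lam * lenG g + 1) :
    ∀ g ∈ ⁅S, S⁆, ∃ t ∈ Cm S ^ d, ∃ z : D → H, (∀ u, z u ∈ ⁅L, L⁆) ∧
      (∀ u, (lenH (z u) : ℝ) ≤ lam * lenG g + (4 * c₀ * d + 1)) ∧ R.Dg (t⁻¹ * g) z := by
  classical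
  intro y hy
  set N : Subgroup G := R.dsub ⁅L, L⁆ with hN
  have hLL : (⁅L, L⁆ : Subgroup H).Normal := Subgroup.commutator_normal L L
  have hNn : N.Normal := by
    constructor
    intro n hn g
    have h1 : R.Dg n (fun u => R.sec n u) := ⟨hn.1, fun _ => rfl⟩
    have h2 := h1.conj g
    refine ⟨h2.1, fun u => ?_⟩
    rw [h2.2]
    exact hLL.conj_mem _ (hn.2 _) _
  have hNS : N ≤ S := by
    intro n hn
    obtain ⟨g, hg, hgd⟩ := hbr (fun u => R.sec n u) hn.2
    have h1 : R.Dg n (fun u => R.sec n u) := ⟨hn.1, fun _ => rfl⟩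
    rw [h1.unique hgd]; exact hg
  have hNfi : N.FiniteIndex := dsub_finiteIndex _
  have hbrT : R.Branch ⊤ ⁅L, L⁆ := by
    intro z hz
    obtain ⟨g, -, hg⟩ := hbr z hz
    exact ⟨g, Subgroup.mem_top _, hg⟩
  -- the quotient
  let NS : Subgroup S := N.subgroupOf S
  have hNSn : NS.Normal := inferInstance
  have hNSfi : NS.FiniteIndex := inferInstance
  let Q := S ⧸ NS
  have hQf : Finite Q := inferInstance
  have hQp : IsPGroup 2 Q := by
    intro q
    obtain ⟨s, rfl⟩ := QuotientGroup.mk_surjective q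
    obtain ⟨j, hj⟩ := hp s.1
    refine ⟨j, ?_⟩
    rw [← QuotientGroup.mk_pow, QuotientGroup.eq_one_iff]
    exact hj
  have hQn : Group.IsNilpotent Q := by
    have : Fact (Nat.Prime 2) := ⟨Nat.prime_two⟩
    exact IsPGroup.isNilpotent hQp
  obtain ⟨c, hc⟩ := Subgroup.nilpotent_iff_lowerCentralSeries.mp hQn
  have hgsS : ∀ i, gs i ∈ S := fun i => by
    rw [← hgs]; exact Subgroup.subset_closure ⟨i, rfl⟩
  let gS : Fin d → S := fun i => ⟨gs i, hgsS i⟩
  have hgStop : Subgroup.closure (Set.range gS) = ⊤ := by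
    apply Subgroup.map_injective S.subtype_injective
    rw [MonoidHom.map_closure, ← Set.range_comp]
    have : (⇑S.subtype ∘ gS) = gs := rfl
    rw [this, hgs, ← MonoidHom.range_eq_map, Subgroup.range_subtype]
  let e : Fin d → Q := fun i => (gS i : Q)
  have hetop : Subgroup.closure (Set.range e) = ⊤ := by
    have h1 : Set.range e = (QuotientGroup.mk' NS) '' Set.range gS := by
      rw [← Set.range_comp]; rfl
    rw [h1, ← MonoidHom.map_closure, hgStop]
    exact Subgroup.map_top_of_surjective _ (QuotientGroup.mk'_surjective NS)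
  obtain ⟨y', hy', rfl⟩ : ∃ y' ∈ commutator S, S.subtype y' = y := by
    rw [← Subgroup.map_subtype_commutator] at hy
    exact hy
  have hyQ : (y' : Q) ∈ commutator Q := by
    have h1 : (commutator S).map (QuotientGroup.mk' NS) ≤ commutator Q := by
      rw [commutator_def, Subgroup.map_commutator, commutator_def]
      exact Subgroup.commutator_mono le_top le_top
    exact h1 (Subgroup.mem_map_of_mem _ hy')
  obtain ⟨g, hg⟩ := Pool.Agent.H16R2.nilp_aux c Q e hc (by rw [hetop]; exact top_sup_eq _) _ hyQ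
  have hlift : ∀ i, ∃ s : S, (s : Q) = g i := fun i => QuotientGroup.mk_surjective (g i)
  choose s hs using hlift
  choose n hnN _ hnl using fun i => exists_mod hbrT lenH c₀ hrep (s i).1
  choose m hmN _ hml using fun i => exists_mod hbrT lenH c₀ hrep (gs i)
  let YS : Fin d → S := fun i => s i * ⟨n i, hNS (hnN i)⟩
  let GS : Fin d → S := fun i => gS i * ⟨m i, hNS (hmN i)⟩
  have hYQ : ∀ i, (YS i : Q) = g i := by
    intro i
    have h1 : ((⟨n i, hNS (hnN i)⟩ : S) : Q) = 1 := by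
      rw [QuotientGroup.eq_one_iff]; exact hnN i
    have h2 : (YS i : Q) = (s i : Q) * ((⟨n i, hNS (hnN i)⟩ : S) : Q) := rfl
    rw [h2, h1, mul_one, hs]
  have hGQ : ∀ i, (GS i : Q) = e i := by
    intro i
    have h1 : ((⟨m i, hNS (hmN i)⟩ : S) : Q) = 1 := by
      rw [QuotientGroup.eq_one_iff]; exact hmN i
    have h2 : (GS i : Q) = (gS i : Q) * ((⟨m i, hNS (hmN i)⟩ : S) : Q) := rfl
    rw [h2, h1, mul_one]
  let tS : S := (List.ofFn fun i => ⁅YS i, GS i⁆).prod
  have htQ : (tS : Q) = (y' : Q) := by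
    rw [hg]
    have h1 : (tS : Q) = QuotientGroup.mk' NS (List.ofFn fun i => ⁅YS i, GS i⁆).prod := rfl
    rw [h1, map_list_prod, List.map_ofFn]
    congr 1
    congr 1
    funext i
    simp only [Function.comp_apply, map_commutatorElement]
    congr 1
    · exact hYQ i
    · exact hGQ i
  have htN : tS⁻¹ * y' ∈ NS := QuotientGroup.eq.mp htQ
  have htN' : (tS.1)⁻¹ * y'.1 ∈ N := htN
  have ht1 : tS.1 = (List.ofFn fun i => ⁅(YS i).1, (GS i).1⁆).prod := by
    have h1 : tS.1 = S.subtype (List.ofFn fun i => ⁅YS i, GS i⁆).prod := rfl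
    rw [h1, map_list_prod, List.map_ofFn]
    rfl
  have htshort : R.Short lenH (d * (4 * c₀)) tS.1 := by
    rw [ht1]
    have h2 := Short.list_prod (R := R) hlen (c := 4 * c₀)
      (List.ofFn fun i => ⁅(YS i).1, (GS i).1⁆) (by
        intro x hx
        rw [List.mem_ofFn] at hx
        obtain ⟨i, rfl⟩ := hx
        exact Short.comm hlen (hnl i) (hml i))
    rwa [List.length_ofFn] at h2
  refine ⟨tS.1, ?_, fun u => R.sec ((tS.1)⁻¹ * y'.1) u, htN'.2, ?_, htN'.1, fun u => rfl⟩
  · rw [ht1]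
    have h3 : ∀ (k : ℕ) (f : Fin k → G), (∀ i, f i ∈ Cm S) → (List.ofFn f).prod ∈ Cm S ^ k := by
      intro k
      induction k with
      | zero => intro f _; simp
      | succ k ih =>
        intro f hf
        rw [List.ofFn_succ, List.prod_cons, pow_succ']
        exact Set.mul_mem_mul (hf 0) (ih _ (fun i => hf i.succ))
    exact h3 d _ (fun i => ⟨(YS i).1, (YS i).2, (GS i).1, (GS i).2, rfl⟩)
  · intro u
    change (lenH (R.sec ((tS.1)⁻¹ * y'.1) u) : ℝ) ≤ lam * (lenG y'.1 : ℝ) + (4 * c₀ * d + 1)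
    rw [R.sec_mul]
    have h4 := htshort.inv hlen
    have h5 : lenH (R.sec (tS.1)⁻¹ (R.act y'.1 u) * R.sec y'.1 u) ≤
        d * (4 * c₀) + lenH (R.sec y'.1 u) :=
      le_trans (hlen.mul _ _) (Nat.add_le_add_right (h4 _) _)
    have h6 : (lenH (R.sec (tS.1)⁻¹ (R.act y'.1 u) * R.sec y'.1 u) : ℝ) ≤
        (d : ℝ) * (4 * c₀) + lenH (R.sec y'.1 u) := by exact_mod_cast h5
    have h7 := hcon y'.1 u
    linarith

end Rec

/-- One step of the recursion, version with four classes of points. -/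
theorem step4 {G H D U : Type*} [Group G] [Group H] [Finite D] (R : Rec G H D)
    (S : Subgroup G) (L : Subgroup H) (hS : S.Normal) (hL : L.Normal)
    [(⁅L, L⁆ : Subgroup H).FiniteIndex] (hbr : R.Branch S ⁅L, L⁆)
    (e : U × Fin 4 ≃ D) (rho : Fin 4 → G) (hrS : ∀ j, rho j ∈ S)
    (hact : ∀ j v, R.act (rho j) (e (v, 0)) = e (v, j))
    (hbatch : ∀ (q : ℕ) (z : D → H) (g : G), (∀ u, z u ∈ Cm L ^ q) → R.Dg g z →
      g ∈ Cm S ^ (2 * q))
    (lenG : G → ℕ) (lenH : H → ℕ) (hlen : IsLen lenH) (c₀ : ℕ)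
    (hrep : ∀ h : H, ∃ ν ∈ ⁅L, L⁆, lenH (h * ν) ≤ c₀)
    {d : ℕ} (gs : Fin d → G) (hgs : Subgroup.closure (Set.range gs) = S)
    (hp : ∀ g : G, ∃ j : ℕ, g ^ (2 ^ j) ∈ R.dsub ⁅L, L⁆)
    (lam : ℝ) (hlam : 0 ≤ lam) (hcon : ∀ g u, (lenH (R.sec g u) : ℝ) ≤ lam * lenG g + 1)
    (α β : ℝ) (hα : 0 ≤ α) (hβ : 0 ≤ β)
    (hH : ∀ y ∈ ⁅L, L⁆, ∃ m : ℕ, (m : ℝ) ≤ α * lenH y + β ∧ y ∈ Cm L ^ m) :
    ∀ g ∈ ⁅S, S⁆, ∃ m : ℕ, (m : ℝ) ≤ α * (2 * lam) * lenG g +
      ((d + 10) + α * (2 * (4 * c₀ * d + 1 + 2 * c₀)) + β / 2) ∧ g ∈ Cm S ^ m := by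
  classical
  intro g hg
  have hLL : (⁅L, L⁆ : Subgroup H).Normal := Subgroup.commutator_normal L L
  obtain ⟨t, ht, z, hz, hzl, hDg⟩ := Rec.exists_T hS hL hbr lenG lenH hlen c₀ hrep gs hgs hp lam
    hcon g hg
  have hbrT : R.Branch ⊤ ⁅L, L⁆ := by
    intro z hz
    obtain ⟨g, -, hg⟩ := hbr z hz
    exact ⟨g, Subgroup.mem_top _, hg⟩
  have hNS : R.dsub ⁅L, L⁆ ≤ S := by
    intro n hn
    obtain ⟨g, hg, hgd⟩ := hbr (fun u => R.sec n u) hn.2
    have h1 : R.Dg n (fun u => R.sec n u) := ⟨hn.1, fun _ => rfl⟩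
    rw [h1.unique hgd]; exact hg
  -- short movers
  choose n hnN hnact hnl using fun j => Rec.exists_mod hbrT lenH c₀ hrep (rho j)
  set rho' : Fin 4 → G := fun j => rho j * n j with hrho'
  have hrS' : ∀ j, rho' j ∈ S := fun j => S.mul_mem (hrS j) (hNS (hnN j))
  have hact' : ∀ j v, R.act (rho' j) (e (v, 0)) = e (v, j) := fun j v => by
    rw [hrho']; simp only [hnact]; exact hact j v
  have hbrL : R.Branch S ⁅L, L⁆ := hbr
  -- combine the content
  have hsp : ∀ z : D → H, (fun d => ((List.finRange 4).map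
      (fun j => if (e.symm d).2 = j then z d else 1)).prod) = z := fun z => by
    funext d; exact Rec.split4 e z d
  obtain ⟨t₁, ht₁, P, -, hPd, hgt⟩ := Rec.move4 hLL hbr e rho' hrS' hact' z hz (List.finRange 4)
    (t⁻¹ * g) (by rw [hsp]; exact hDg)
  set s : U → Fin 4 → H := fun v j => R.sec (rho' j) (e (v, 0)) with hs
  set Y : U → H := fun v => ((List.finRange 4).map (fun j =>
    (s v j)⁻¹ * z (e (v, j)) * s v j)).prod with hY
  set ℓ : ℝ := (lenG g : ℝ) with hℓ
  set B : ℝ := lam * ℓ + (4 * c₀ * d + 1) + 2 * c₀ with hB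
  have hB0 : 0 ≤ B := by positivity
  have hYc : ∀ v, Y v ∈ ⁅L, L⁆ := by
    intro v
    apply Subgroup.list_prod_mem
    intro x hx
    obtain ⟨j, -, rfl⟩ := List.mem_map.mp hx
    have := hLL.conj_mem (z (e (v, j))) (hz _) (s v j)⁻¹
    simpa using this
  have hYl : ∀ v, (lenH (Y v) : ℝ) ≤ 4 * B := by
    intro v
    have h1 := hlen.list_prod (List.finRange 4) (fun j => (s v j)⁻¹ * z (e (v, j)) * s v j) B
      (by
        intro j _
        have h2 : lenH ((s v j)⁻¹ * z (e (v, j)) * s v j) ≤ c₀ + lenH (z (e (v, j))) + c₀ := by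
          refine le_trans (hlen.mul _ _) (Nat.add_le_add (le_trans (hlen.mul _ _)
            (Nat.add_le_add_right ?_ _)) ?_)
          · rw [hlen.inv]; exact hnl j _
          · exact hnl j _
        have h3 : (lenH ((s v j)⁻¹ * z (e (v, j)) * s v j) : ℝ) ≤
            c₀ + lenH (z (e (v, j))) + c₀ := by exact_mod_cast h2
        have h4 := hzl (e (v, j))
        rw [hB]; linarith)
    have h5 : ((List.finRange 4).length : ℝ) = 4 := by simp
    rw [h5] at h1
    exact h1
  set q : ℕ := ⌈α * B + β / 4⌉₊ with hq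
  have hq1 : α * B + β / 4 ≤ q := Nat.le_ceil _
  have hq2 : (q : ℝ) < α * B + β / 4 + 1 := Nat.ceil_lt_add_one (by positivity)
  have hchunk : ∀ v, ∃ w : Fin 4 → H, (∀ j, w j ∈ Cm L ^ q) ∧
      ((List.finRange 4).map w).prod = Y v := by
    intro v
    obtain ⟨m, hm, hmY⟩ := hH _ (hYc v)
    have h3 : m ≤ q * (List.finRange 4).length := by
      have h4 : (m : ℝ) ≤ α * (4 * B) + β := by
        have := mul_le_mul_of_nonneg_left (hYl v) hα
        linarith
      have h7 : (m : ℝ) ≤ q * 4 := by linarith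
      have h8 : (List.finRange 4).length = 4 := by simp
      rw [h8]
      exact_mod_cast h7
    exact chunk (one_mem_Cm L) q (List.finRange 4) (List.nodup_finRange 4) m _ hmY h3
  choose w hw hwp using hchunk
  set z' : D → H := fun d => s (e.symm d).1 (e.symm d).2 * w (e.symm d).1 (e.symm d).2 *
    (s (e.symm d).1 (e.symm d).2)⁻¹ with hz'
  have hz'q : ∀ u, z' u ∈ Cm L ^ q := fun u =>
    conj_mem_pow (conj_mem_Cm (fun x hx => hL.conj_mem x hx _)) (hw _ _)
  have hz'L : ∀ u, z' u ∈ ⁅L, L⁆ := fun u => Cm_pow_subset L q (hz'q u)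
  obtain ⟨g', -, hg'⟩ := hbr z' hz'L
  have hg'q : g' ∈ Cm S ^ (2 * q) := hbatch q z' g' hz'q hg'
  obtain ⟨t₂, ht₂, P', -, hPd', hgt'⟩ := Rec.move4 hLL hbr e rho' hrS' hact' z' hz'L
    (List.finRange 4) g' (by rw [hsp]; exact hg')
  have hPP : P = P' := by
    refine hPd.unique (hPd'.congr fun d => ?_)
    by_cases h0 : (e.symm d).2 = 0
    · simp only [h0, if_true]
      have h1 : ∀ v, ((List.finRange 4).map (fun j => (R.sec (rho' j) (e (v, 0)))⁻¹ *
          z' (e (v, j)) * R.sec (rho' j) (e (v, 0)))).prod = Y v := by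
        intro v
        rw [← hwp v]
        congr 1
        apply List.map_congr_left
        intro j _
        simp only [hz', Equiv.symm_apply_apply, hs]
        group
      rw [h1]
    · simp only [h0, if_false]
  refine ⟨d + (4 + (4 + 2 * q)), ?_, ?_⟩
  · push_cast
    have e1 : α * B = α * lam * ℓ + α * (4 * c₀ * d + 1 + 2 * c₀) := by rw [hB]; ring
    rw [e1] at hq2
    have e2 : α * (2 * lam) * ℓ = 2 * (α * lam * ℓ) := by ring
    have e3 : α * (2 * (4 * c₀ * d + 1 + 2 * c₀)) = 2 * (α * (4 * (c₀ : ℝ) * d + 1 + 2 * c₀)) := by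
      ring
    rw [e2, e3]
    linarith
  · have h4 : (List.finRange 4).length = 4 := by simp
    rw [h4] at ht₁ ht₂
    have h5 : g = t * (t₁ * (t₂⁻¹ * g')) := by
      have h6 : t⁻¹ * g = t₁ * (t₂⁻¹ * g') := by
        rw [hgt, hPP]
        have : P' = t₂⁻¹ * g' := by rw [hgt']; group
        rw [this]
      rw [← h6]; group
    rw [h5]
    exact mul_mem_pow_add ht (mul_mem_pow_add ht₁ (mul_mem_pow_add
      (inv_mem_pow inv_mem_Cm ht₂) hg'q))

end Pool.Agent.Helper220_VW
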