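import Pool.Agent.Helper220_VW.Mark

set_option autoImplicit false

open Pointwise
open scoped commutatorElement

namespace Pool.Agent.Helper220_VW

lemma fin3_third : ∀ i j : Fin 3, ∃ l : Fin 3, j ≠ l ∧ i ≠ l := by decide
lemma fin3_other : ∀ g : Fin 3, ∃ i : Fin 3, i ≠ g := by decide

/-- a wreath recursion of Grigorchuk type between marked groups -/
structure St (P M : MG) (g : Fin 3) where
  R : Rec P.X M.X Bool
  act_a : ∀ x, R.act P.a x = !x
  sec_a : ∀ x, R.sec P.a x = 1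
  act_b : ∀ i, R.act (P.b i) = 1
  sec_b0 : ∀ i, R.sec (P.b i) false = if i = g then 1 else M.a
  sec_b1 : ∀ i, R.sec (P.b i) true = M.b i

namespace St

variable {P M : MG} {g : Fin 3} (T : St P M g)

lemma sec_B {p : P.X} (hp : p ∈ P.B) (x : Bool) : T.R.sec p x ∈ M.B := by
  rcases hp with hp | hp | ⟨i, rfl⟩
  · rw [Set.mem_singleton_iff] at hp
    rw [hp, Rec.sec_one]; exact M.one_mem_B
  · rw [Set.mem_singleton_iff] at hp
    rw [hp, T.sec_a]; exact M.one_mem_B
  · cases x with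
    | false =>
      rw [T.sec_b0]
      by_cases h : i = g
      · rw [if_pos h]; exact M.one_mem_B
      · rw [if_neg h]; exact M.a_mem_B
    | true => rw [T.sec_b1]; exact M.b_mem_B i

lemma sec_B2 {p : P.X} (hp : p ∈ P.B ^ 2) (x : Bool) : T.R.sec p x ∈ M.B := by
  rw [pow_two] at hp
  obtain ⟨u, hu, v, hv, rfl⟩ := Set.mem_mul.mp hp
  rcases hu with hu | hu | ⟨i, rfl⟩
  · rw [Set.mem_singleton_iff] at hu
    rw [hu, one_mul]; exact T.sec_B hv x
  · rw [Set.mem_singleton_iff] at hu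
    rw [hu, T.R.sec_mul, T.sec_a, one_mul]; exact T.sec_B hv x
  · rcases hv with hv | hv | ⟨j, rfl⟩
    · rw [Set.mem_singleton_iff] at hv
      rw [hv, mul_one]; exact T.sec_B (P.b_mem_B i) x
    · rw [Set.mem_singleton_iff] at hv
      rw [hv, T.R.sec_mul, T.sec_a, mul_one]; exact T.sec_B (P.b_mem_B i) _
    · by_cases h : i = j
      · subst h
        rw [P.bb, Rec.sec_one]; exact M.one_mem_B
      · obtain ⟨l, h1, h2⟩ := fin3_third i j
        rw [P.bbb i j l h h1 h2]
        exact T.sec_B (P.b_mem_B l) x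

lemma sec_pow (k : ℕ) : ∀ p ∈ P.B ^ (2 * k), ∀ x, T.R.sec p x ∈ M.B ^ k := by
  induction k with
  | zero =>
    intro p hp x
    simp only [mul_zero, pow_zero, Set.mem_one] at hp ⊢
    rw [hp, Rec.sec_one]
  | succ k ih =>
    intro p hp x
    rw [Nat.mul_succ, pow_add] at hp
    obtain ⟨u, hu, v, hv, rfl⟩ := Set.mem_mul.mp hp
    rw [T.R.sec_mul, pow_succ]
    exact Set.mul_mem_mul (ih u hu _) (T.sec_B2 hv x)

lemma len_sec (p : P.X) (x : Bool) : M.len (T.R.sec p x) ≤ (P.len p + 1) / 2 := by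
  apply M.len_le
  apply T.sec_pow
  refine pow_mono_of_one P.one_mem_B ?_ (P.mem_len p)
  omega

lemma act_a' : ∀ x, T.R.act P.a x = !x := T.act_a

/-- elements with trivial action and prescribed section at a point -/
lemma onto (x : Bool) (h : M.X) : ∃ s : P.X, T.R.act s = 1 ∧ T.R.sec s x = h := by
  have key : ∀ h : M.X, ∀ x : Bool, ∃ s : P.X, T.R.act s = 1 ∧ T.R.sec s x = h := by
    intro h
    have hflip : ∀ s : P.X, T.R.act s = 1 → ∀ x, T.R.act (P.a * s * P.a) = 1 ∧
        T.R.sec (P.a * s * P.a) x = T.R.sec s (!x) := by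
      intro s hs x
      constructor
      · rw [map_mul, map_mul, hs, mul_one, ← map_mul, P.aa, map_one]
      · rw [T.R.sec_mul, T.R.sec_mul, T.sec_a, T.sec_a, T.act_a, one_mul, mul_one]
    refine M.induct (P := fun h => ∀ x : Bool, ∃ s : P.X, T.R.act s = 1 ∧ T.R.sec s x = h)
      ?_ ?_ ?_ h
    · intro x; exact ⟨1, map_one _, Rec.sec_one x⟩
    · intro h ih x
      obtain ⟨s, hs1, hs2⟩ := ih x
      obtain ⟨i, hi⟩ := fin3_other g
      cases x with
      | false =>
        refine ⟨P.b i * s, by rw [map_mul, T.act_b, hs1, one_mul], ?_⟩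
        rw [T.R.sec_mul, hs1, Equiv.Perm.one_apply, T.sec_b0, if_neg hi, hs2]
      | true =>
        obtain ⟨h1, h2⟩ := hflip (P.b i) (T.act_b i) true
        refine ⟨P.a * P.b i * P.a * s, by rw [map_mul, h1, hs1, one_mul], ?_⟩
        rw [T.R.sec_mul, hs1, Equiv.Perm.one_apply, h2, Bool.not_true, T.sec_b0, if_neg hi, hs2]
    · intro i h ih x
      obtain ⟨s, hs1, hs2⟩ := ih x
      cases x with
      | true =>
        refine ⟨P.b i * s, by rw [map_mul, T.act_b, hs1, one_mul], ?_⟩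
        rw [T.R.sec_mul, hs1, Equiv.Perm.one_apply, T.sec_b1, hs2]
      | false =>
        obtain ⟨h1, h2⟩ := hflip (P.b i) (T.act_b i) false
        refine ⟨P.a * P.b i * P.a * s, by rw [map_mul, h1, hs1, one_mul], ?_⟩
        rw [T.R.sec_mul, hs1, Equiv.Perm.one_apply, h2, Bool.not_false, T.sec_b1, hs2]
  exact key h x

/-- the action and sections of the commutator `[a, b c]` -/
lemma kap_act (c : Fin 3) : T.R.act ⁅P.a, P.b c⁆ = 1 := by
  rw [P.kap_eq, map_mul, map_mul, map_mul, T.act_b, mul_one, mul_one, ← map_mul, P.aa, map_one]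

lemma kap_sec1 (c : Fin 3) : T.R.sec ⁅P.a, P.b c⁆ true = M.sg c g := by
  rw [P.kap_eq, T.R.sec_mul, T.R.sec_mul, T.R.sec_mul, T.sec_a, T.sec_a, T.act_b,
    Equiv.Perm.one_apply, T.act_a, Bool.not_true, T.sec_b0, T.sec_b1]
  simp [MG.sg]

lemma kap_sec0 (c : Fin 3) : T.R.sec ⁅P.a, P.b c⁆ false = (M.sg c g)⁻¹ := by
  rw [P.kap_eq, T.R.sec_mul, T.R.sec_mul, T.R.sec_mul, T.sec_a, T.sec_a, T.act_b,
    Equiv.Perm.one_apply, T.act_a, Bool.not_false, T.sec_b0, T.sec_b1]
  unfold MG.sg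
  by_cases h : c = g
  · rw [if_pos h]
    simp [M.b_inv]
  · rw [if_neg h, mul_inv_rev, M.a_inv, M.b_inv]
    simp

/-- swapping sides -/
lemma flip_single {k : P.X} {x : Bool} {y : M.X} (hk : T.R.Dg k (Pi.mulSingle x y)) :
    T.R.Dg (P.a * k * P.a⁻¹) (Pi.mulSingle (!x) y) := by
  have := hk.conj_single P.a
  rwa [T.act_a, T.sec_a, one_mul, inv_one, mul_one] at this

/-- branching for the subgroups `Kc` -/
lemma branch_K (e : Fin 3) : T.R.Branch (P.Kc e) (M.Kc g) := by
  have h1 : ∃ k ∈ P.Kc e, T.R.Dg k (Pi.mulSingle true ⁅M.a, M.b g⁆) := by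
    by_cases he : e = g
    · obtain ⟨i, hi⟩ := fin3_other g
      refine ⟨⁅P.a * P.b i * P.a, ⁅P.a, P.b e⁆⁆, ?_, ?_, ?_⟩
      · rw [commutatorElement_def]
        exact Subgroup.mul_mem _ (Subgroup.Normal.conj_mem inferInstance _ (P.kap_mem e) _)
          (Subgroup.inv_mem _ (P.kap_mem e))
      · rw [map_commutatorElement, T.kap_act]; simp
      · intro x
        have hs : T.R.Dg (P.a * P.b i * P.a) (fun x => T.R.sec (P.b i) (!x)) := by
          refine ⟨?_, fun x => ?_⟩
          · rw [map_mul, map_mul, T.act_b, mul_one, ← map_mul, P.aa, map_one]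
          · rw [T.R.sec_mul, T.R.sec_mul, T.sec_a, T.sec_a, T.act_a, one_mul, mul_one]
        have hk : T.R.Dg ⁅P.a, P.b e⁆ (fun x => T.R.sec ⁅P.a, P.b e⁆ x) :=
          ⟨T.kap_act e, fun _ => rfl⟩
        rw [(hs.commutator hk).2]
        rw [commutatorElement_def]
        simp only [Pi.mul_apply, Pi.inv_apply]
        have hsg : M.sg e g = M.b g := by simp [MG.sg, he]
        cases x with
        | false =>
          rw [Bool.not_false, T.sec_b1, T.kap_sec0, hsg, M.b_inv, M.b_inv,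
            Pi.mulSingle_eq_of_ne (by decide), M.b_comm i g, mul_assoc (M.b g), M.bb, mul_one,
            mul_inv_cancel]
        | true =>
          rw [Bool.not_true, T.sec_b0, if_neg hi, T.kap_sec1, hsg, Pi.mulSingle_eq_same,
            M.kap_eq, M.a_inv, M.b_inv]
    · refine ⟨⁅⁅P.a, P.b e⁆, P.b g⁆, ?_, ?_, ?_⟩
      · have := Subgroup.Normal.conj_mem (inferInstance : (P.Kc e).Normal) _
          (Subgroup.inv_mem _ (P.kap_mem e)) (P.b g)
        have e1 : ⁅⁅P.a, P.b e⁆, P.b g⁆ = ⁅P.a, P.b e⁆ * (P.b g * ⁅P.a, P.b e⁆⁻¹ * (P.b g)⁻¹) := by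
          rw [commutatorElement_def ⁅P.a, P.b e⁆]; group
        rw [e1]
        exact Subgroup.mul_mem _ (P.kap_mem e) this
      · rw [map_commutatorElement, T.kap_act]; simp
      · intro x
        have hs : T.R.Dg (P.b g) (fun x => T.R.sec (P.b g) x) := ⟨T.act_b g, fun _ => rfl⟩
        have hk : T.R.Dg ⁅P.a, P.b e⁆ (fun x => T.R.sec ⁅P.a, P.b e⁆ x) :=
          ⟨T.kap_act e, fun _ => rfl⟩
        rw [(hk.commutator hs).2]
        rw [commutatorElement_def]
        simp only [Pi.mul_apply, Pi.inv_apply]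
        have hsg : M.sg e g = M.a * M.b e := by simp [MG.sg, he]
        cases x with
        | false =>
          rw [T.kap_sec0, T.sec_b0, if_pos rfl, Pi.mulSingle_eq_of_ne (by decide)]
          simp
        | true =>
          rw [T.kap_sec1, T.sec_b1, hsg, Pi.mulSingle_eq_same, M.kap_eq, mul_inv_rev, M.a_inv,
            M.b_inv, M.b_inv]
          have e1 : M.a * M.b e * M.b g * (M.b e * M.a) * M.b g =
              M.a * (M.b e * M.b g) * M.b e * M.a * M.b g := by group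
          rw [e1, M.b_comm e g]
          have e2 : M.a * (M.b g * M.b e) * M.b e * M.a * M.b g =
              M.a * M.b g * (M.b e * M.b e) * M.a * M.b g := by group
          rw [e2, M.bb, mul_one]
  have h2 : ∀ y ∈ M.Kc g, ∃ k ∈ P.Kc e, T.R.Dg k (Pi.mulSingle true y) := by
    intro y hy
    change y ∈ Subgroup.closure _ at hy
    induction hy using Subgroup.closure_induction with
    | mem x hx =>
      rw [Group.mem_conjugatesOfSet_iff] at hx
      obtain ⟨κ, hκ, hc⟩ := hx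
      rw [Set.mem_singleton_iff] at hκ
      subst hκ
      obtain ⟨h, rfl⟩ := isConj_iff.mp hc
      obtain ⟨k, hk, hkd⟩ := h1
      obtain ⟨s, hs1, hs2⟩ := T.onto true h
      refine ⟨s * k * s⁻¹, Subgroup.Normal.conj_mem inferInstance _ hk _, ?_⟩
      have := hkd.conj_single s
      rwa [hs1, hs2, Equiv.Perm.one_apply] at this
    | one => exact ⟨1, Subgroup.one_mem _, Rec.Dg.one.congr fun v => by simp⟩
    | mul x y _ _ hx hy =>
      obtain ⟨k, hk, hkd⟩ := hx
      obtain ⟨l, hl, hld⟩ := hy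
      refine ⟨k * l, Subgroup.mul_mem _ hk hl, (hkd.mul hld).congr fun v => ?_⟩
      rw [← Pi.mulSingle_mul]
    | inv x _ hx =>
      obtain ⟨k, hk, hkd⟩ := hx
      refine ⟨k⁻¹, Subgroup.inv_mem _ hk, hkd.inv.congr fun v => ?_⟩
      rw [← Pi.mulSingle_inv]
  apply Rec.branch_of_single
  intro u y hy
  obtain ⟨k, hk, hkd⟩ := h2 y hy
  cases u with
  | true => exact ⟨k, hk, hkd⟩
  | false =>
    refine ⟨P.a * k * P.a⁻¹, Subgroup.Normal.conj_mem inferInstance _ hk _, ?_⟩
    exact T.flip_single hkd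

/-- the pair property: any element of `SS` is a section of an element of `Kc` whose other section
is a power of `sg` -/
lemma pair (c : Fin 3) (x : Bool) (p : M.X) (hp : p ∈ M.SS c g) :
    ∃ ph ∈ P.Kc c, T.R.act ph = 1 ∧ T.R.sec ph x = p ∧
      ∃ j : ℤ, T.R.sec ph (!x) = (M.sg c g) ^ j := by
  have h1 : ∃ ph ∈ P.Kc c, T.R.act ph = 1 ∧ T.R.sec ph true = p ∧
      ∃ j : ℤ, T.R.sec ph false = (M.sg c g) ^ j := by
    obtain ⟨j, k, hk, rfl⟩ := M.SS_decomp c g p hp
    obtain ⟨k', hk', hkd⟩ := T.branch_K c (Pi.mulSingle true k) (by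
      intro v
      by_cases hv : v = true
      · subst hv; simpa using hk
      · rw [Pi.mulSingle_eq_of_ne hv]; exact Subgroup.one_mem _)
    have hkap : T.R.Dg ⁅P.a, P.b c⁆ (fun x => if x then M.sg c g else (M.sg c g)⁻¹) := by
      refine ⟨T.kap_act c, fun x => ?_⟩
      cases x with
      | true => rw [T.kap_sec1]; rfl
      | false => rw [T.kap_sec0]; rfl
    have hpow : ∀ n : ℕ, T.R.Dg (⁅P.a, P.b c⁆ ^ n)
        (fun x => (if x then M.sg c g else (M.sg c g)⁻¹) ^ n) := by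
      intro n
      induction n with
      | zero => rw [pow_zero]; exact Rec.Dg.one.congr fun v => by simp
      | succ n ih =>
        rw [pow_succ]
        refine (ih.mul hkap).congr fun v => ?_
        simp only [Pi.mul_apply]
        rw [pow_succ]
    have hzpow : T.R.Dg (⁅P.a, P.b c⁆ ^ j)
        (fun x => (if x then M.sg c g else (M.sg c g)⁻¹) ^ j) := by
      cases j with
      | ofNat n => simpa using hpow n
      | negSucc n =>
        rw [zpow_negSucc]
        refine (hpow (n + 1)).inv.congr fun v => ?_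
        simp only [Pi.inv_apply]
        rw [zpow_negSucc]
    refine ⟨⁅P.a, P.b c⁆ ^ j * k', Subgroup.mul_mem _ (Subgroup.zpow_mem _ (P.kap_mem c) j) hk',
      ?_, ?_, -j, ?_⟩
    · rw [map_mul, hzpow.1, hkd.1, one_mul]
    · rw [(hzpow.mul hkd).2]
      simp
    · rw [(hzpow.mul hkd).2]
      simp
  cases x with
  | true => exact h1
  | false =>
    obtain ⟨ph, hph, h2, h3, j, h4⟩ := h1
    have hflip : ∀ x, T.R.sec (P.a * ph * P.a⁻¹) x = T.R.sec ph (!x) := by
      intro x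
      rw [P.a_inv, T.R.sec_mul, T.R.sec_mul, T.sec_a, T.sec_a, T.act_a, one_mul, mul_one]
    refine ⟨P.a * ph * P.a⁻¹, Subgroup.Normal.conj_mem inferInstance _ hph _, ?_, ?_, j, ?_⟩
    · rw [map_mul, map_mul, h2, mul_one, map_inv, mul_inv_cancel]
    · rw [hflip]; exact h3
    · rw [hflip]; exact h4

include T in
/-- the product `a b_g` has order dividing four -/
lemma ab_pow_four : (P.a * P.b g) ^ 4 = 1 := by
  have h1 : (P.a * P.b g) ^ 2 = ⁅P.a, P.b g⁆ := by
    rw [P.kap_eq, pow_two]; group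
  have h2 : (P.a * P.b g) ^ 4 = ⁅P.a, P.b g⁆ * ⁅P.a, P.b g⁆ := by
    rw [← h1, ← pow_add]
  rw [h2]
  apply T.R.inj
  · rw [map_mul, T.kap_act, one_mul]
  · intro x
    rw [T.R.sec_mul, T.kap_act, Equiv.Perm.one_apply]
    have hsg : M.sg g g = M.b g := by simp [MG.sg]
    cases x with
    | true => rw [T.kap_sec1, hsg, M.bb]
    | false => rw [T.kap_sec0, hsg, M.b_inv, M.bb]

include T in
/-- if `(a b_c)^4 = 1` below then `(a b_c)^8 = 1` above -/
lemma ab_pow_eight (c : Fin 3) (hc : c ≠ g) (h : (M.a * M.b c) ^ 4 = 1) :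
    (P.a * P.b c) ^ 8 = 1 := by
  have h1 : (P.a * P.b c) ^ 2 = ⁅P.a, P.b c⁆ := by
    rw [P.kap_eq, pow_two]; group
  have h2 : (P.a * P.b c) ^ 8 = ⁅P.a, P.b c⁆ ^ 4 := by
    rw [← h1, ← pow_mul]
  have hkap : T.R.Dg ⁅P.a, P.b c⁆ (fun x => T.R.sec ⁅P.a, P.b c⁆ x) := ⟨T.kap_act c, fun _ => rfl⟩
  have hpow : ∀ n : ℕ, T.R.Dg (⁅P.a, P.b c⁆ ^ n) (fun x => (T.R.sec ⁅P.a, P.b c⁆ x) ^ n) := by
    intro n
    induction n with
    | zero => rw [pow_zero]; exact Rec.Dg.one.congr fun v => by simp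
    | succ n ih =>
      rw [pow_succ]
      refine (ih.mul hkap).congr fun v => ?_
      simp only [Pi.mul_apply]
      rw [pow_succ]
  rw [h2]
  apply T.R.inj _ (hpow 4).1
  intro x
  rw [(hpow 4).2]
  change (T.R.sec ⁅P.a, P.b c⁆ x) ^ 4 = 1
  have hsg : M.sg c g = M.a * M.b c := by simp [MG.sg, hc]
  cases x with
  | true => rw [T.kap_sec1, hsg, h]
  | false => rw [T.kap_sec0, hsg, inv_pow, h, inv_one]

end St

end Pool.Agent.Helper220_VW
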