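import Pool.Agent.Helper220_VW.Chain

set_option autoImplicit false

open Pointwise
open scoped commutatorElement

namespace Pool.Agent.Helper220_VW

/-- the second letter of a word of length at least two -/
def lab {n : ℕ} (d : DD (n + 2)) : Bool :=
  let d' : Bool × (Bool × DD n) := d
  d'.2.1

/-- good levels: level `k + 2` -/
def GoodAt (th : ℕ → Fin 3) (k : ℕ) : Prop :=
  th (k + 2) ≠ th (k + 1) ∧ (th (k + 3) = th (k + 2) ∨ th (k + 3) = th (k + 1) ∨ th (k + 3) = th k)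

/-- level `k + 2` is reached after `i` steps of the recursion -/
def Reach (th : ℕ → Fin 3) : ℕ → ℕ → Prop
  | 0, k => k = 0 ∧ GoodAt th 0
  | i + 1, k' => GoodAt th k' ∧ ∃ k j2 j1 : ℕ, Reach th i k ∧
      th (k + 2 + 1 + (j2 + 2)) ≠ th (k + 2 + 1 + (j2 + 1)) ∧ k' = k + 2 + 1 + (j2 + 2) + j1

lemma Reach.good {th : ℕ → Fin 3} {i k : ℕ} (h : Reach th i k) : GoodAt th k := by
  cases i with
  | zero => obtain ⟨rfl, h⟩ := h; exact h
  | succ i => exact h.1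

namespace Tow

variable (W : Tow)

/-- the subgroup `S` at level `k` -/
def S (k : ℕ) : Subgroup (W.M k).X := (W.M k).SS (W.th (k + 1)) (W.th k)

instance (k : ℕ) : (W.S k).Normal := inferInstanceAs ((W.M k).SS _ _).Normal

lemma K_le_S (k : ℕ) : W.K k ≤ W.S k := (W.M k).Kc_le_SS _ _

lemma goodData (k : ℕ) (h : GoodAt W.th k) : (W.M (k + 2)).GoodData (W.S (k + 2)) :=
  St.good (W.st (k + 1)) (W.st k) h.1 h.2

/-- the commutator `[a, b]` at a level flips the second letter -/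
lemma kap_lab (m n : ℕ) (h : W.th (m + (n + 2)) ≠ W.th (m + (n + 1))) (d : DD (n + 2)) :
    lab ((W.tr m (n + 2)).act ⁅(W.M (m + (n + 2))).a, (W.M (m + (n + 2))).b
      (W.th (m + (n + 2)))⁆ d) = !(lab d) := by
  obtain ⟨x, y, d⟩ := (d : Bool × (Bool × DD n))
  set κ := ⁅(W.M (m + (n + 2))).a, (W.M (m + (n + 2))).b (W.th (m + (n + 2)))⁆ with hκ
  change (W.st (m + n)).R.act ((W.st (m + (n + 1))).R.sec κ x) y = !y
  have h1 : (W.st (m + (n + 1))).R.sec κ x =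
      (if x then (W.M (m + (n + 1))).sg (W.th (m + (n + 2))) (W.th (m + (n + 1))) else
        ((W.M (m + (n + 1))).sg (W.th (m + (n + 2))) (W.th (m + (n + 1))))⁻¹) := by
    cases x with
    | true => exact (W.st (m + (n + 1))).kap_sec1 _
    | false => exact (W.st (m + (n + 1))).kap_sec0 _
  have h2 : (W.M (m + (n + 1))).sg (W.th (m + (n + 2))) (W.th (m + (n + 1))) =
      (W.M (m + (n + 1))).a * (W.M (m + (n + 1))).b (W.th (m + (n + 2))) := by
    simp [MG.sg, h]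
  have h3 : ∀ i y, (W.st (m + n)).R.act ((W.M (m + (n + 1))).a * (W.M (m + (n + 1))).b i) y =
      !y := by
    intro i y
    have h4 : (W.st (m + n)).R.act ((W.M (m + (n + 1))).b i) = 1 := (W.st (m + n)).act_b i
    rw [map_mul, h4, mul_one]
    exact (W.st (m + n)).act_a y
  rw [h1, h2]
  cases x with
  | true => exact h3 _ y
  | false =>
    change (W.st (m + n)).R.act (((W.M (m + (n + 1))).a * (W.M (m + (n + 1))).b
      (W.th (m + (n + 2))))⁻¹) y = !y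
    rw [map_inv, Equiv.Perm.inv_eq_iff_eq, h3, Bool.not_not]

/-- the statement carried by the recursion -/
def H (k : ℕ) (α β : ℝ) : Prop :=
  ∀ y ∈ ⁅W.S k, W.S k⁆, ∃ m : ℕ, (m : ℝ) ≤ α * (W.M k).len y + β ∧ y ∈ Cm (W.S k) ^ m

/-- the step of the recursion on towers -/
theorem H_step (k j2 j1 : ℕ) (hk : GoodAt W.th k)
    (hmid : W.th (k + 2 + 1 + (j2 + 2)) ≠ W.th (k + 2 + 1 + (j2 + 1)))
    (hup : GoodAt W.th (k + 2 + 1 + (j2 + 2) + j1)) (α β : ℝ) (hα : 0 ≤ α) (hβ : 0 ≤ β)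
    (hH : W.H (k + 2) α β) :
    W.H (k + 2 + 1 + (j2 + 2) + j1 + 2) (α * (1 / 2)) (14 + α * 8354 + β / 2) := by
  classical
  set lo := k + 2 with hlo
  set mid := lo + 1 + (j2 + 2) with hmidd
  obtain ⟨-, hrep, hpow, hfi⟩ := (W.goodData k hk).spec (inferInstance : (W.S (k + 2)).Normal)
  obtain ⟨⟨gs, hgs⟩, -, -, -⟩ := (W.goodData (mid + j1) hup).spec
    (inferInstance : (W.S (mid + j1 + 2)).Normal)
  set R1 := W.tr mid (j1 + 2) with hR1
  set R2 := W.tr (lo + 1) (j2 + 2) with hR2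
  set R12 := R1.comp R2 with hR12
  set R := R12.comp (W.st lo).R with hR
  have hb1 : R1.Branch (W.K (mid + (j1 + 2))) (W.K mid) := W.tr_branch mid (j1 + 2)
  have hb12 : R12.Branch (W.K (mid + (j1 + 2))) (W.K (lo + 1)) :=
    Rec.Branch.comp hb1 (W.tr_branch (lo + 1) (j2 + 2))
  have hb : R.Branch (W.K (mid + (j1 + 2))) ⁅W.S lo, W.S lo⁆ :=
    Rec.Branch.comp hb12 ((W.st lo).branch_comm (W.th (lo + 1)))
  have hbS : R.Branch (W.S (mid + (j1 + 2))) ⁅W.S lo, W.S lo⁆ := by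
    intro z hz
    obtain ⟨g, hg, hgd⟩ := hb z hz
    exact ⟨g, W.K_le_S _ hg, hgd⟩
  -- movers
  set κ := ⁅(W.M (mid + (j1 + 2))).a, (W.M (mid + (j1 + 2))).b (W.th (mid + (j1 + 2)))⁆ with hκ
  have hκK : κ ∈ W.K (mid + (j1 + 2)) := (W.M (mid + (j1 + 2))).kap_mem _
  set κm := ⁅(W.M mid).a, (W.M mid).b (W.th mid)⁆ with hκm
  have hκmK : κm ∈ W.K mid := (W.M mid).kap_mem _
  obtain ⟨ρ, hρK, hρ⟩ := hb1 (fun _ => κm) (fun _ => hκmK)
  obtain ⟨U, e, he⟩ := exists_classes (D := (DD (j1 + 2) × DD (j2 + 2)) × Bool)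
    (fun d => lab d.1.1) (fun d => lab d.1.2) (R.act κ) (R.act ρ)
    (by
      rintro ⟨⟨d1, d2⟩, z⟩
      exact W.kap_lab mid j1 hup.1 d1)
    (by
      rintro ⟨⟨d1, d2⟩, z⟩
      change lab (R1.act ρ d1) = lab d1
      rw [hρ.1]; rfl)
    (by
      rintro ⟨⟨d1, d2⟩, z⟩
      change lab (R2.act (R1.sec ρ d1) d2) = !(lab d2)
      rw [hρ.2]
      exact W.kap_lab (lo + 1) j2 hmid d2)
  set rho : Fin 4 → (W.M (mid + (j1 + 2))).X := ![1, ρ, κ, κ * ρ] with hrho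
  have hrhoS : ∀ j, rho j ∈ W.S (mid + (j1 + 2)) := by
    intro j
    fin_cases j
    · exact Subgroup.one_mem _
    · exact W.K_le_S _ hρK
    · exact W.K_le_S _ hκK
    · exact Subgroup.mul_mem _ (W.K_le_S _ hκK) (W.K_le_S _ hρK)
  have hrhoact : ∀ j v, R.act (rho j) (e (v, 0)) = e (v, j) := by
    intro j v
    obtain ⟨h1, h2, h3⟩ := he v
    fin_cases j
    · change R.act 1 (e (v, 0)) = e (v, 0)
      rw [map_one]; rfl
    · exact h1.symm
    · exact h2.symm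
    · change R.act (κ * ρ) (e (v, 0)) = e (v, 3)
      rw [map_mul, h3]; rfl
  -- contraction
  have hcon0 : R.Con (W.M (mid + (j1 + 2))).len (W.M lo).len ((j1 + 2) + (j2 + 2) + 1) :=
    Rec.Con.comp (Rec.Con.comp (W.tr_con mid (j1 + 2)) (W.tr_con (lo + 1) (j2 + 2)))
      (W.st lo).R_con
  have hcon : ∀ g u, ((W.M lo).len (R.sec g u) : ℝ) ≤
      1 / 4 * (W.M (mid + (j1 + 2))).len g + 1 := by
    intro g u
    have h1 := hcon0 g u
    set x : ℝ := ((W.M lo).len (R.sec g u) : ℝ) with hx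
    set l : ℝ := ((W.M (mid + (j1 + 2))).len g : ℝ) with hl
    have hl0 : 0 ≤ l := by positivity
    have h2 : (4 : ℝ) ≤ 2 ^ ((j1 + 2) + (j2 + 2) + 1) := by
      have h3 : (2 : ℝ) ^ 2 ≤ 2 ^ ((j1 + 2) + (j2 + 2) + 1) :=
        pow_le_pow_right₀ (by norm_num) (by omega)
      norm_num at h3 ⊢
      exact h3
    by_cases hx1 : x ≤ 1
    · linarith
    · push Not at hx1
      have h4 : 4 * (x - 1) ≤ 2 ^ ((j1 + 2) + (j2 + 2) + 1) * (x - 1) :=
        mul_le_mul_of_nonneg_right h2 (by linarith)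
      linarith
  -- two-powers
  have hTP : R.TP := Rec.TP.comp (Rec.TP.comp (W.tr_TP mid (j1 + 2)) (W.tr_TP (lo + 1) (j2 + 2)))
    (W.st lo).R_TP
  have hp := hTP ⁅W.S lo, W.S lo⁆ (fun h => ⟨5, hpow h⟩)
  have main := step4 R (W.S (mid + (j1 + 2))) (W.S lo) inferInstance inferInstance hbS e rho
    hrhoS hrhoact
    (fun q z g hz hg => by
      have h1 := (W.st lo).batch (W.th (lo + 1)) hb12 q z g hz hg
      have h2 : Cm (W.K (mid + (j1 + 2))) ⊆ Cm (W.S (mid + (j1 + 2))) := by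
        rintro _ ⟨x, hx, y, hy, rfl⟩
        exact ⟨x, W.K_le_S _ hx, y, W.K_le_S _ hy, rfl⟩
      exact Set.pow_subset_pow_left h2 h1)
    (W.M (mid + (j1 + 2))).len (W.M lo).len (W.M lo).isLen 232 hrep gs hgs hp (1 / 4)
    (by norm_num) hcon α β hα hβ hH
  intro y hy
  obtain ⟨m, hm, hmy⟩ := main y hy
  refine ⟨m, ?_, hmy⟩
  have e1 : α * (2 * (1 / 4)) = α * (1 / 2) := by ring
  rw [e1] at hm
  refine le_trans hm ?_
  push_cast
  have : ((4 : ℝ) + 10 + α * (2 * (4 * 232 * 4 + 1 + 2 * 232)) + β / 2) =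
      14 + α * 8354 + β / 2 := by ring
  rw [this]
  exact le_of_eq rfl

/-- the recursion along a chain of good levels -/
theorem H_reach (A A₀ : ℝ) (hA : 0 ≤ A) (hA₀ : 0 ≤ A₀) (h0 : W.H 2 A A₀) :
    ∀ i k, Reach W.th i k → W.H (k + 2) (A * (1 / 2) ^ i) (2 * (14 + A * 8354) + A₀) := by
  intro i
  induction i with
  | zero =>
    rintro k ⟨rfl, -⟩
    intro y hy
    obtain ⟨m, hm, hmy⟩ := h0 y hy
    refine ⟨m, ?_, hmy⟩
    rw [pow_zero, mul_one]
    have : 0 ≤ 2 * (14 + A * 8354) := by positivity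
    linarith
  | succ i ih =>
    rintro k' ⟨hk', k, j2, j1, hR, hmid, rfl⟩
    have h1 := ih k hR
    have h2 := W.H_step k j2 j1 hR.good hmid hk' _ _ (by positivity) (by positivity) h1
    intro y hy
    obtain ⟨m, hm, hmy⟩ := h2 y hy
    refine ⟨m, ?_, hmy⟩
    have h3 : A * (1 / 2 : ℝ) ^ i * (1 / 2) = A * (1 / 2) ^ (i + 1) := by rw [pow_succ]; ring
    rw [h3] at hm
    have h4 : A * (1 / 2 : ℝ) ^ i ≤ A := by
      have : (1 / 2 : ℝ) ^ i ≤ 1 := pow_le_one₀ (by norm_num) (by norm_num)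
      exact mul_le_of_le_one_right hA this
    have h5 : A * (1 / 2 : ℝ) ^ i * 8354 ≤ A * 8354 := mul_le_mul_of_nonneg_right h4 (by norm_num)
    linarith

end Tow

end Pool.Agent.Helper220_VW
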