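import Pool.Agent.Helper220_VW.Width

set_option autoImplicit false

open Pointwise
open scoped commutatorElement

namespace Pool.Agent.Helper220_VW

namespace Tree

variable {X : Type}

/-- self-similarity of a group of permutations of the finite words -/
def SelfSim (G : Subgroup (Equiv.Perm (List X))) : Prop :=
  ∀ g ∈ G, ∀ x : X, ∃ y : X, ∃ s ∈ G, ∀ w : List X, g (x :: w) = y :: s w

variable {G : Subgroup (Equiv.Perm (List X))}

lemma apply_nil (hG : SelfSim G) {g : Equiv.Perm (List X)} (hg : g ∈ G) : g [] = [] := by
  obtain ⟨w, hw⟩ := g.surjective []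
  cases w with
  | nil => exact hw
  | cons x w =>
    obtain ⟨y, s, -, h⟩ := hG g hg x
    rw [h] at hw
    exact absurd hw (by simp)

lemma exists_sec (hG : SelfSim G) (u : List X) : ∀ g ∈ G, (g u).length = u.length ∧
    ∃ s ∈ G, ∀ w : List X, g (u ++ w) = g u ++ s w := by
  induction u with
  | nil =>
    intro g hg
    refine ⟨by rw [apply_nil hG hg], g, hg, fun w => ?_⟩
    rw [apply_nil hG hg]; rfl
  | cons x u ih =>
    intro g hg
    obtain ⟨y, s, hs, h⟩ := hG g hg x
    obtain ⟨h1, s', hs', h2⟩ := ih s hs
    refine ⟨by rw [h]; simp [h1], s', hs', fun w => ?_⟩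
    rw [List.cons_append, h, h, h2]; rfl

/-- the section of `g` at `u` -/
noncomputable def sec (hG : SelfSim G) (g : G) (u : List X) : G :=
  ⟨(exists_sec hG u g.1 g.2).2.choose, (exists_sec hG u g.1 g.2).2.choose_spec.1⟩

lemma apply_append (hG : SelfSim G) (g : G) (u w : List X) :
    g.1 (u ++ w) = g.1 u ++ (sec hG g u).1 w :=
  (exists_sec hG u g.1 g.2).2.choose_spec.2 w

lemma length_apply (hG : SelfSim G) (g : G) (u : List X) : (g.1 u).length = u.length :=
  (exists_sec hG u g.1 g.2).1

lemma sec_unique (hG : SelfSim G) (g : G) (u : List X) (s : Equiv.Perm (List X))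
    (h : ∀ w, g.1 (u ++ w) = g.1 u ++ s w) : (sec hG g u).1 = s := by
  apply Equiv.ext
  intro w
  have h1 := apply_append hG g u w
  rw [h w] at h1
  exact (List.append_cancel_left h1).symm

/-- level `n` of the tree -/
abbrev Lev (X : Type) (n : ℕ) : Type := {u : List X // u.length = n}

instance [Finite X] (n : ℕ) : Finite (Lev X n) := by
  have := Fintype.ofFinite X
  exact (inferInstance : Finite (List.Vector X n))

/-- the wreath recursion at level `n` -/
noncomputable def recLev [Nonempty X] (hG : SelfSim G) (n : ℕ) : Rec G G (Lev X n) where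
  act :=
    { toFun := fun g =>
        { toFun := fun u => ⟨g.1 u.1, by rw [length_apply hG]; exact u.2⟩
          invFun := fun u => ⟨(g⁻¹).1 u.1, by rw [length_apply hG]; exact u.2⟩
          left_inv := fun u => by
            apply Subtype.ext
            simp
          right_inv := fun u => by
            apply Subtype.ext
            simp }
      map_one' := by
        ext u; rfl
      map_mul' := fun g h => by
        ext u; rfl }
  sec := fun g u => sec hG g u.1
  sec_mul := fun g h u => by
    apply Subtype.ext
    refine sec_unique hG (g * h) u.1 _ fun w => ?_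
    change g.1 (h.1 (u.1 ++ w)) = g.1 (h.1 u.1) ++ (sec hG g (h.1 u.1)).1 ((sec hG h u.1).1 w)
    rw [apply_append hG h, apply_append hG g]
  inj := by
    intro g h1 h2
    have key : ∀ w : List X, n ≤ w.length → g.1 w = w := by
      intro w hw
      have e : w = w.take n ++ w.drop n := (List.take_append_drop n w).symm
      have hl : (w.take n).length = n := by simp [hw]
      have h3 := apply_append hG g (w.take n) (w.drop n)
      have h4 : sec hG g (w.take n) = 1 := h2 ⟨w.take n, hl⟩
      have h5 : g.1 (w.take n) = w.take n := by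
        have := congrArg (fun (f : Equiv.Perm (Lev X n)) => (f ⟨w.take n, hl⟩).1) h1
        exact this
      rw [h4, h5, ← e] at h3
      rw [h3]
      change w.take n ++ w.drop n = w
      exact e.symm
    apply Subtype.ext
    apply Equiv.ext
    intro w
    change g.1 w = w
    by_cases hw : n ≤ w.length
    · exact key w hw
    · let x : X := Classical.arbitrary X
      have h3 := key (w ++ List.replicate (n - w.length) x) (by simp; omega)
      rw [apply_append hG] at h3
      exact (List.append_inj h3 (length_apply hG g w)).1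

/-- the branching condition -/
def Branching (K : Subgroup (Equiv.Perm (List X))) : Prop :=
  ∀ k ∈ K, ∀ x : X, ∃ g ∈ K, (∀ w : List X, g (x :: w) = x :: k w) ∧
    ∀ y : X, y ≠ x → ∀ w : List X, g (y :: w) = y :: w

lemma exists_del {K : Subgroup (Equiv.Perm (List X))} (hK : Branching K) (u : List X) :
    ∀ k ∈ K, ∃ g ∈ K, (∀ w : List X, g (u ++ w) = u ++ k w) ∧
      ∀ v : List X, v.length = u.length → v ≠ u → ∀ w : List X, g (v ++ w) = v ++ w := by
  induction u with
  | nil =>
    intro k hk
    refine ⟨k, hk, fun w => rfl, fun v hv hvu => ?_⟩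
    exact absurd (List.length_eq_zero_iff.mp hv) hvu
  | cons x u ih =>
    intro k hk
    obtain ⟨g', hg', h1, h2⟩ := ih k hk
    obtain ⟨g, hg, h3, h4⟩ := hK g' hg' x
    refine ⟨g, hg, fun w => ?_, fun v hv hvu w => ?_⟩
    · rw [List.cons_append, h3, h1]; rfl
    · cases v with
      | nil => simp at hv
      | cons y v =>
        rw [List.cons_append]
        by_cases hy : y = x
        · subst hy
          rw [h3, h2 v (by simpa using hv) (by rintro rfl; exact hvu rfl)]
        · rw [h4 y hy]

lemma branch_lev [Finite X] [Nonempty X] (hG : SelfSim G) (K : Subgroup G)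
    (hK : Branching (K.map G.subtype)) (n : ℕ) : (recLev hG n).Branch K K := by
  classical
  apply Rec.branch_of_single
  intro u y hy
  obtain ⟨g, hg, h1, h2⟩ := exists_del hK u.1 y.1 ⟨y, hy, rfl⟩
  obtain ⟨g', hg', rfl⟩ := hg
  have hu0 : g'.1 u.1 = u.1 := by
    have h3 : g'.1 (u.1 ++ []) = u.1 ++ y.1 [] := h1 []
    rw [apply_nil hG y.2, List.append_nil] at h3
    exact h3
  have hv0 : ∀ v : Lev X n, v ≠ u → ∀ w, g'.1 (v.1 ++ w) = v.1 ++ w := fun v hv w =>
    h2 v.1 (by rw [v.2, u.2]) (fun h => hv (Subtype.ext h)) w
  have hv1 : ∀ v : Lev X n, v ≠ u → g'.1 v.1 = v.1 := by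
    intro v hv
    have := hv0 v hv []
    rwa [List.append_nil] at this
  refine ⟨g', hg', ?_, ?_⟩
  · apply Equiv.ext
    intro v
    apply Subtype.ext
    change g'.1 v.1 = v.1
    by_cases hv : v = u
    · subst hv; exact hu0
    · exact hv1 v hv
  · intro v
    apply Subtype.ext
    by_cases hv : v = u
    · subst hv
      rw [Pi.mulSingle_eq_same]
      refine sec_unique hG g' v.1 _ fun w => ?_
      rw [hu0]
      exact h1 w
    · rw [Pi.mulSingle_eq_of_ne hv]
      refine sec_unique hG g' v.1 _ fun w => ?_
      rw [hv1 v hv]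
      exact hv0 v hv w

end Tree

end Pool.Agent.Helper220_VW
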