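import Pool.Agent.Helper220_VW.WrDef
import Pool.Agent.Helper220_VW.VCore

set_option autoImplicit false

open Pointwise
open scoped commutatorElement

namespace Pool.Agent.Helper220_VW.Wrp

open SemidirectProduct

section lists

lemma list_pow_mem {W ι : Type*} [Group W] (U : Set W) (k : ℕ) (F : ι → W) (l : List ι)
    (h : ∀ i ∈ l, F i ∈ U ^ k) : (l.map F).prod ∈ U ^ (k * l.length) := by
  induction l with
  | nil => simp
  | cons a l ih =>
    rw [List.map_cons, List.prod_cons, List.length_cons, Nat.mul_succ, add_comm]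
    exact mul_mem_pow_add (h a (by simp)) (ih fun i hi => h i (by simp [hi]))

lemma list_prod_one {M ι : Type*} [Monoid M] (l : List ι) (F : ι → M) (h : ∀ i ∈ l, F i = 1) :
    (l.map F).prod = 1 := by
  induction l with
  | nil => simp
  | cons a l ih =>
    rw [List.map_cons, List.prod_cons, h a (by simp), one_mul]
    exact ih fun i hi => h i (by simp [hi])

lemma list_prod_single {M ι : Type*} [Monoid M] (l : List ι) (hl : l.Nodup) (F : ι → M) (i₀ : ι)
    (hi₀ : i₀ ∈ l) (h : ∀ i ∈ l, i ≠ i₀ → F i = 1) : (l.map F).prod = F i₀ := by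
  induction l with
  | nil => simp at hi₀
  | cons a l ih =>
    rw [List.map_cons, List.prod_cons]
    rw [List.nodup_cons] at hl
    by_cases ha : a = i₀
    · subst ha
      rw [list_prod_one l F fun i hi => h i (by simp [hi]) (by
        rintro rfl
        exact hl.1 hi), mul_one]
    · rw [h a (by simp) ha, one_mul]
      apply ih hl.2
      · rcases List.mem_cons.mp hi₀ with h | h
        · exact absurd h.symm ha
        · exact h
      · exact fun i hi => h i (by simp [hi])

lemma fin3_avoid : ∀ p q : Fin 3, ∃ k : Fin 3, k ≠ p ∧ k ≠ q := by decide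

/-- a permutation has a colouring by three colours on any finite set -/
lemma coloring {X : Type*} [DecidableEq X] (h : Equiv.Perm X) (S : Finset X) :
    ∃ c : X → Fin 3, ∀ x ∈ S, h x ∈ S → h x ≠ x → c (h x) ≠ c x := by
  induction S using Finset.induction_on with
  | empty => exact ⟨fun _ => 0, by simp⟩
  | insert y S hy ih =>
    obtain ⟨c, hc⟩ := ih
    obtain ⟨k, hk1, hk2⟩ := fin3_avoid (c (h y)) (c (h⁻¹ y))
    refine ⟨Function.update c y k, fun x hx hhx hne => ?_⟩
    by_cases hxy : x = y
    · subst hxy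
      rw [Function.update_of_ne hne, Function.update_self]
      exact hk1.symm
    · by_cases hxy' : h x = y
      · rw [hxy', Function.update_self, Function.update_of_ne hxy]
        have : h⁻¹ y = x := by rw [← hxy']; simp
        rw [this] at hk2
        exact hk2
      · rw [Function.update_of_ne hxy, Function.update_of_ne hxy']
        exact hc x ((Finset.mem_insert.mp hx).resolve_left hxy)
          ((Finset.mem_insert.mp hhx).resolve_left hxy') hne

end lists

variable {G X A : Type} [Group G] [Group A] [MulAction G X]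

lemma perm_apply (g : G) (f : FS X A) (x : X) : (perm G X A g f).1 x = f.1 (g⁻¹ • x) := rfl

lemma FS_ext {f f' : FS X A} (h : ∀ x, f.1 x = f'.1 x) : f = f' := Subtype.ext (funext h)

/-- evaluation at a point -/
def ev (x : X) : FS X A →* A := (Pi.evalMonoidHom (fun _ => A) x).comp (FS X A).subtype

lemma ev_apply (x : X) (f : FS X A) : ev x f = f.1 x := rfl

/-- a symmetric conjugation invariant set containing one -/
structure Ug (U : Set (FS X A ⋊[perm G X A] G)) : Prop where
  one : 1 ∈ U
  inv : ∀ g ∈ U, g⁻¹ ∈ U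
  conj : ∀ a, ∀ g ∈ U, a * g * a⁻¹ ∈ U

variable {U : Set (FS X A ⋊[perm G X A] G)}

/-- commutators of base elements with elements of the acting group -/
lemma push_mem (hU : Ug U) (h : G) (k : ℕ) (hh : (inr h : FS X A ⋊[perm G X A] G) ∈ U ^ k)
    (f : FS X A) : (inl (f * (perm G X A h f)⁻¹) : FS X A ⋊[perm G X A] G) ∈ U ^ (2 * k) := by
  have e : (inl (f * (perm G X A h f)⁻¹) : FS X A ⋊[perm G X A] G) =
      (inl f * inr h * (inl f)⁻¹) * (inr h)⁻¹ := by
    rw [map_mul, ← map_inv, ← map_inv, inl_aut, map_inv, map_inv]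
    group
  rw [e, two_mul]
  exact mul_mem_pow_add (conj_mem_pow (hU.conj _) hh) (inv_mem_pow hU.inv hh)

/-- commutators of base elements displaced by an element of the acting group -/
lemma disp (hU : Ug U) (h : G) (k : ℕ) (hh : (inr h : FS X A ⋊[perm G X A] G) ∈ U ^ k)
    (a b : FS X A) (hab : ∀ x, b.1 x ≠ 1 → a.1 (h⁻¹ • x) = 1) :
    (inl ⁅a, b⁆ : FS X A ⋊[perm G X A] G) ∈ U ^ (4 * k) := by
  set z : FS X A := (perm G X A h a)⁻¹ with hz
  have hcomm : z * b = b * z := by
    apply FS_ext
    intro x
    change (a.1 (h⁻¹ • x))⁻¹ * b.1 x = b.1 x * (a.1 (h⁻¹ • x))⁻¹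
    by_cases hb : b.1 x = 1
    · rw [hb, mul_one, one_mul]
    · rw [hab x hb, inv_one, mul_one, one_mul]
  have h1 := push_mem hU h k hh a
  rw [← hz] at h1
  have e1 : ⁅a, b⁆ = (a * z) * (b * (a * z)⁻¹ * b⁻¹) := by
    rw [commutatorElement_def, mul_inv_rev]
    have : a * z * (b * (z⁻¹ * a⁻¹) * b⁻¹) = a * (z * b) * z⁻¹ * a⁻¹ * b⁻¹ := by group
    rw [this, hcomm]
    group
  have e2 : (inl ⁅a, b⁆ : FS X A ⋊[perm G X A] G) =
      inl (a * z) * (inl b * (inl (a * z))⁻¹ * (inl b)⁻¹) := by
    rw [e1]
    generalize a * z = q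
    rw [map_mul, map_mul, map_mul, map_inv, map_inv]
  rw [e2]
  have : 4 * k = 2 * k + 2 * k := by ring
  rw [this]
  exact mul_mem_pow_add h1 (conj_mem_pow (hU.conj _) (inv_mem_pow hU.inv h1))

open Classical in
/-- restriction of the support -/
noncomputable def res (P : X → Prop) (a : FS X A) : FS X A :=
  ⟨fun x => if P x then a.1 x else 1, a.2.subset fun x hx => by
    by_contra hc
    apply hx
    have hc' : a.1 x = 1 := by
      by_contra h
      exact hc h
    change (if P x then a.1 x else 1) = 1
    by_cases hP : P x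
    · rw [if_pos hP]; exact hc'
    · rw [if_neg hP]⟩

lemma res_pos {P : X → Prop} {a : FS X A} {x : X} (h : P x) : (res P a).1 x = a.1 x :=
  if_pos h

lemma res_neg {P : X → Prop} {a : FS X A} {x : X} (h : ¬ P x) : (res P a).1 x = 1 :=
  if_neg h

/-- all commutators of base elements are bounded products -/
lemma comm_mem (hU : Ug U) {J : Type} [Fintype J] (h : J → G)
    (hh : ∀ j, (inr (h j) : FS X A ⋊[perm G X A] G) ∈ U) (hmov : ∀ x : X, ∃ j, h j • x ≠ x)
    (a b : FS X A) : (inl ⁅a, b⁆ : FS X A ⋊[perm G X A] G) ∈ U ^ (12 * Fintype.card J) := by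
  classical
  choose jx hjx using hmov
  set S : Finset X := a.2.toFinset ∪ b.2.toFinset with hS
  have hSa : ∀ x, a.1 x ≠ 1 → x ∈ S := by
    intro x hx
    rw [hS, Finset.mem_union]
    exact Or.inl (a.2.mem_toFinset.mpr hx)
  have hSb : ∀ x, b.1 x ≠ 1 → x ∈ S := by
    intro x hx
    rw [hS, Finset.mem_union]
    exact Or.inr (b.2.mem_toFinset.mpr hx)
  have hcol := fun j => coloring (MulAction.toPermHom G X (h j)) S
  choose c hc using hcol
  let P : J × Fin 3 → X → Prop := fun i x => jx x = i.1 ∧ c i.1 x = i.2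
  set L := (Finset.univ : Finset (J × Fin 3)).toList with hL
  have hLlen : L.length = Fintype.card J * 3 := by
    rw [hL, Finset.length_toList, Finset.card_univ, Fintype.card_prod, Fintype.card_fin]
  have e : ⁅a, b⁆ = (L.map fun i => ⁅res (P i) a, res (P i) b⁆).prod := by
    apply FS_ext
    intro x
    have h1 : ((L.map fun i => ⁅res (P i) a, res (P i) b⁆).prod).1 x =
        (L.map fun i => ⁅(res (P i) a).1 x, (res (P i) b).1 x⁆).prod := by
      rw [← ev_apply, map_list_prod, List.map_map]
      rfl
    rw [h1, list_prod_single L (Finset.nodup_toList _) _ (jx x, c (jx x) x) (by simp [hL])]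
    · have hP : P (jx x, c (jx x) x) x := ⟨rfl, rfl⟩
      rw [res_pos hP, res_pos hP]
      rfl
    · intro i _ hi
      have hP : ¬ P i x := by
        rintro ⟨h2, h3⟩
        apply hi
        apply Prod.ext
        · exact h2.symm
        · simp only
          rw [h2, h3]
      rw [res_neg hP, res_neg hP]
      simp
  rw [e, map_list_prod, List.map_map]
  have h12 : 12 * Fintype.card J = 4 * L.length := by rw [hLlen]; ring
  rw [h12]
  apply list_pow_mem
  intro i _
  change (inl ⁅res (P i) a, res (P i) b⁆ : FS X A ⋊[perm G X A] G) ∈ U ^ 4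
  have h4 := disp hU (h i.1) 1 (by rw [pow_one]; exact hh i.1) (res (P i) a) (res (P i) b) ?_
  · rwa [mul_one] at h4
  · intro x hx
    by_cases hPx : P i x
    · by_contra hy
      by_cases hPy : P i ((h i.1)⁻¹ • x)
      · rw [res_pos hPy] at hy
        rw [res_pos hPx] at hx
        have hm := hjx ((h i.1)⁻¹ • x)
        rw [hPy.1, smul_inv_smul] at hm
        have h5 := hc i.1 ((h i.1)⁻¹ • x) (hSa _ hy)
        simp only [MulAction.toPermHom_apply, MulAction.toPerm_apply, smul_inv_smul] at h5
        exact h5 (hSb _ hx) hm (hPx.2.trans hPy.2.symm)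
      · exact hy (res_neg hPy)
    · exact absurd (res_neg hPx) hx

end Pool.Agent.Helper220_VW.Wrp
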