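import Mathlib

set_option autoImplicit false

namespace Pool.Agent.Helper220_VW.Wrp

/-- The group of functions from `X` to `A` with finite support, under pointwise multiplication:
the restricted direct power of `A` over `X`. -/
def FS (X A : Type) [Group A] : Subgroup (X → A) where
  carrier := {f | {x | f x ≠ 1}.Finite}
  one_mem' := by simp
  mul_mem' := by
    intro f g hf hg
    refine (hf.union hg).subset fun x hx => ?_
    by_contra hc
    simp only [Set.mem_union, Set.mem_setOf_eq, not_or, not_not] at hc
    apply hx
    rw [Pi.mul_apply, hc.1, hc.2, one_mul]
  inv_mem' := by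
    intro f hf
    refine hf.subset fun x hx => ?_
    simpa using hx

/-- A group `G` acting on `X` acts on the functions with finite support:
`(g f)(x) = f(g⁻¹ x)`. -/
def perm (G X A : Type) [Group G] [Group A] [MulAction G X] : G →* MulAut (FS X A) where
  toFun g :=
    { toFun := fun f => ⟨fun x => f.1 (g⁻¹ • x), by
        have h := f.2.image (fun x => g • x)
        refine h.subset fun x hx => ⟨g⁻¹ • x, hx, ?_⟩
        simp⟩
      invFun := fun f => ⟨fun x => f.1 (g • x), by
        have h := f.2.image (fun x => g⁻¹ • x)
        refine h.subset fun x hx => ⟨g • x, hx, ?_⟩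
        simp⟩
      left_inv := fun f => by
        apply Subtype.ext
        funext x
        simp
      right_inv := fun f => by
        apply Subtype.ext
        funext x
        simp
      map_mul' := fun f f' => rfl }
  map_one' := by
    ext f x
    simp
  map_mul' g g' := by
    ext f x
    change f.1 ((g * g')⁻¹ • x) = f.1 (g'⁻¹ • (g⁻¹ • x))
    rw [mul_inv_rev, mul_smul]

end Pool.Agent.Helper220_VW.Wrp
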