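import Pool.Agent.Helper220_VW.WrTree

set_option autoImplicit false

open Pointwise
open scoped commutatorElement

namespace Pool.Agent.Helper220_VW.Wrp

open SemidirectProduct

/-- the values of words -/
def vals (V : Set (FreeGroup ℕ)) (Γ : Type) [Group Γ] : Set Γ :=
  {h : Γ | ∃ w ∈ V, ∃ f : ℕ → Γ, FreeGroup.lift f w = h}

/-- the values of words and their inverses -/
def UU (V : Set (FreeGroup ℕ)) (Γ : Type) [Group Γ] : Set Γ := vals V Γ ∪ (vals V Γ)⁻¹ ∪ {1}

lemma vals_conj (V : Set (FreeGroup ℕ)) (Γ : Type) [Group Γ] :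
    ∀ g, ∀ w ∈ vals V Γ, g * w * g⁻¹ ∈ vals V Γ := by
  rintro g _ ⟨w, hw, f, rfl⟩
  exact ⟨w, hw, fun i => g * f i * g⁻¹, conj_lift g f w⟩

lemma UU_mono {Γ Δ : Type} [Group Γ] [Group Δ] (φ : Γ →* Δ) (V : Set (FreeGroup ℕ)) :
    ∀ g ∈ UU V Γ, φ g ∈ UU V Δ := by
  have h1 : ∀ g ∈ vals V Γ, φ g ∈ vals V Δ := by
    rintro _ ⟨w, hw, f, rfl⟩
    refine ⟨w, hw, fun i => φ (f i), ?_⟩
    have : FreeGroup.lift (fun i => φ (f i)) = φ.comp (FreeGroup.lift f) := by
      ext i
      simp
    rw [this]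
    rfl
  rintro g ((hg | hg) | hg)
  · exact Or.inl (Or.inl (h1 g hg))
  · refine Or.inl (Or.inr ?_)
    rw [Set.mem_inv] at hg ⊢
    rw [← map_inv]
    exact h1 _ hg
  · right
    rw [Set.mem_singleton_iff] at hg ⊢
    rw [hg, map_one]

lemma UU_pow_mono {Γ Δ : Type} [Group Γ] [Group Δ] (φ : Γ →* Δ) (V : Set (FreeGroup ℕ)) (n : ℕ) :
    ∀ g ∈ UU V Γ ^ n, φ g ∈ UU V Δ ^ n := by
  induction n with
  | zero =>
    intro g hg
    rw [pow_zero, Set.mem_one] at hg
    rw [pow_zero, Set.mem_one, hg, map_one]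
  | succ n ih =>
    intro g hg
    rw [pow_succ] at hg
    obtain ⟨x, hx, y, hy, rfl⟩ := Set.mem_mul.mp hg
    rw [pow_succ, map_mul]
    exact Set.mul_mem_mul (ih x hx) (UU_mono φ V y hy)

variable {G X A : Type} [Group G] [Group A] [MulAction G X]

lemma Ug_UU (V : Set (FreeGroup ℕ)) : Ug (UU V (FS X A ⋊[perm G X A] G)) where
  one := Or.inr rfl
  inv := U_inv
  conj := U_conj (vals_conj V _)

/-- permutational wreath products: finite width from finite width of the acting group -/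
theorem wr_width [Group.FG A] (V : Set (FreeGroup ℕ)) (m : ℕ)
    (hm : ∀ g ∈ Subgroup.closure (vals V G), g ∈ UU V G ^ m)
    {J : Type} [Fintype J] [Nonempty J] (h : J → G) (hsymm : ∀ j, ∃ j', h j' = (h j)⁻¹)
    (hhU : ∀ j, h j ∈ UU V G)
    (hH : Subgroup.closure (Set.range h) = Subgroup.closure (vals V G))
    (hq : Finite (MulAction.orbitRel.Quotient (Subgroup.closure (vals V G)) X))
    (horb : ∀ x : X, (MulAction.orbit (Subgroup.closure (vals V G)) x).Infinite) :
    ∃ M : ℕ, ∀ w ∈ Subgroup.closure (vals V (FS X A ⋊[perm G X A] G)),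
      w ∈ UU V (FS X A ⋊[perm G X A] G) ^ M := by
  classical
  set H : Subgroup G := Subgroup.closure (vals V G) with hHdef
  set U : Set (FS X A ⋊[perm G X A] G) := UU V (FS X A ⋊[perm G X A] G) with hUdef
  have hU : Ug U := Ug_UU V
  have hHj : ∀ j, h j ∈ H := fun j => by
    rw [← hH]; exact Subgroup.subset_closure ⟨j, rfl⟩
  obtain ⟨F, huniq, hdeep⟩ := exists_forest (X := X) h hsymm H hH hq horb
  obtain ⟨c, hc⟩ := base_mem (A := A) hU h (fun j => UU_mono inr V _ (hhU j)) H hHj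
    (exists_moves h H hH horb) F huniq hdeep
  -- the subgroups of the abelian quotient
  let T : {v // v ∈ V} × (ℕ → G) → Subgroup (MulAction.orbitRel.Quotient H X →
      Abelianization A) := fun p =>
    (MonoidHom.mk' (fun n : ℕ → FS X A => tau H (wv p.2 n p.1.1).left) (fun n n' => by
      have h1 := fox (tau H) p.2 p.1.1 1 n n'
      rw [map_one] at h1
      exact h1)).range
  have hAb : Group.FG (Abelianization A) := QuotientGroup.fg _
  have hPi : Group.FG (MulAction.orbitRel.Quotient H X → Abelianization A) := inferInstance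
  obtain ⟨t, ht⟩ := fin_sup T
  -- values lie in the subgroup determined by `T`
  let Q : Subgroup (FS X A ⋊[perm G X A] G) :=
    { carrier := {w | w.right ∈ H ∧ tau H w.left ∈ ⨆ i, T i}
      one_mem' := ⟨Subgroup.one_mem _, by
        rw [one_left, map_one]; exact Subgroup.one_mem _⟩
      mul_mem' := by
        rintro a b ⟨ha1, ha2⟩ ⟨hb1, hb2⟩
        refine ⟨H.mul_mem ha1 hb1, ?_⟩
        rw [mul_left, map_mul, tau_perm H ha1]
        exact Subgroup.mul_mem _ ha2 hb2
      inv_mem' := by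
        rintro a ⟨ha1, ha2⟩
        refine ⟨H.inv_mem ha1, ?_⟩
        rw [inv_left, tau_perm H (H.inv_mem ha1), map_inv]
        exact Subgroup.inv_mem _ ha2 }
  have hQ : Subgroup.closure (vals V (FS X A ⋊[perm G X A] G)) ≤ Q := by
    rw [Subgroup.closure_le]
    rintro _ ⟨w, hw, f, rfl⟩
    rw [wv_surj]
    refine ⟨?_, ?_⟩
    · rw [wv_right]
      exact Subgroup.subset_closure ⟨w, hw, _, rfl⟩
    · exact Subgroup.mem_iSup_of_mem (⟨w, hw⟩, fun i => (f i).right)
        ⟨fun i => (f i).left, rfl⟩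
  -- realising elements of finite suprema
  have hreal : ∀ s : Finset ({v // v ∈ V} × (ℕ → G)), ∀ x ∈ ⨆ i ∈ s, T i,
      ∃ d : FS X A, (inl d : FS X A ⋊[perm G X A] G) ∈ U ^ (2 * s.card) ∧ tau H d = x := by
    intro s
    induction s using Finset.induction_on with
    | empty =>
      intro x hx
      have hx1 : x = 1 := by simpa using hx
      exact ⟨1, by simp, by rw [map_one, hx1]⟩
    | insert p s hp ih =>
      intro x hx
      rw [Finset.iSup_insert, Subgroup.mem_sup] at hx
      obtain ⟨y, ⟨n, hn⟩, z, hz, rfl⟩ := hx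
      obtain ⟨d, hd1, hd2⟩ := ih z hz
      refine ⟨(wv p.2 n p.1.1).left * d, ?_, ?_⟩
      · rw [map_mul, Finset.card_insert_of_notMem hp]
        have : 2 * (s.card + 1) = 2 + 2 * s.card := by ring
        rw [this]
        refine mul_mem_pow_add ?_ hd1
        have e : (inl (wv p.2 n p.1.1).left : FS X A ⋊[perm G X A] G) =
            wv p.2 n p.1.1 * (inr (FreeGroup.lift p.2 p.1.1))⁻¹ := by
          have h1 := inl_left_mul_inr_right (wv p.2 n p.1.1)
          rw [wv_right] at h1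
          rw [eq_mul_inv_iff_mul_eq]
          exact h1
        rw [e, pow_two]
        refine Set.mul_mem_mul ?_ (hU.inv _ ?_)
        · exact Or.inl (Or.inl ⟨p.1.1, p.1.2, _, rfl⟩)
        · exact UU_mono inr V _ (Or.inl (Or.inl ⟨p.1.1, p.1.2, p.2, rfl⟩))
      · rw [map_mul, hd2]
        congr 1
  refine ⟨c + 2 * t.card + m, fun w hw => ?_⟩
  obtain ⟨hw1, hw2⟩ := hQ hw
  obtain ⟨d, hd1, hd2⟩ := hreal t _ (ht _ hw2)
  have h1 : (inr w.right : FS X A ⋊[perm G X A] G) ∈ U ^ m := UU_pow_mono inr V m _ (hm _ hw1)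
  have h2 : (inl (w.left * d⁻¹) : FS X A ⋊[perm G X A] G) ∈ U ^ c := by
    apply hc
    rw [map_mul, map_inv, hd2, mul_inv_cancel]
  have h3 : w = inl (w.left * d⁻¹) * inl d * inr w.right := by
    rw [← map_mul, inv_mul_cancel_right, inl_left_mul_inr_right]
  rw [h3]
  exact mul_mem_pow_add (mul_mem_pow_add h2 hd1) h1

/-- a finitely generated closure is generated by finitely many of the given elements -/
lemma exists_finite_gen {Γ : Type} [Group Γ] (S : Set Γ) (hfg : (Subgroup.closure S).FG) :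
    ∃ T : Set Γ, T.Finite ∧ T ⊆ S ∧ Subgroup.closure T = Subgroup.closure S := by
  classical
  obtain ⟨B, hB⟩ := hfg
  have hel : ∀ x ∈ Subgroup.closure S, ∃ T : Set Γ, T.Finite ∧ T ⊆ S ∧
      x ∈ Subgroup.closure T := by
    intro x hx
    induction hx using Subgroup.closure_induction with
    | mem x hx => exact ⟨{x}, Set.finite_singleton x, by simpa using hx,
        Subgroup.subset_closure rfl⟩
    | one => exact ⟨∅, Set.finite_empty, Set.empty_subset _, Subgroup.one_mem _⟩
    | mul x y _ _ hx hy =>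
      obtain ⟨T, hT1, hT2, hT3⟩ := hx
      obtain ⟨T', hT1', hT2', hT3'⟩ := hy
      exact ⟨T ∪ T', hT1.union hT1', Set.union_subset hT2 hT2', Subgroup.mul_mem _
        (Subgroup.closure_mono Set.subset_union_left hT3)
        (Subgroup.closure_mono Set.subset_union_right hT3')⟩
    | inv x _ hx =>
      obtain ⟨T, hT1, hT2, hT3⟩ := hx
      exact ⟨T, hT1, hT2, Subgroup.inv_mem _ hT3⟩
  have hel' : ∀ x : Γ, ∃ T : Set Γ, T.Finite ∧ T ⊆ S ∧ (x ∈ Subgroup.closure S →
      x ∈ Subgroup.closure T) := by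
    intro x
    by_cases hx : x ∈ Subgroup.closure S
    · obtain ⟨T, h1, h2, h3⟩ := hel x hx
      exact ⟨T, h1, h2, fun _ => h3⟩
    · exact ⟨∅, Set.finite_empty, Set.empty_subset _, fun h => absurd h hx⟩
  choose T hT1 hT2 hT3 using hel'
  refine ⟨⋃ x ∈ B, T x, B.finite_toSet.biUnion fun x _ => hT1 x,
    Set.iUnion₂_subset fun x _ => hT2 x, ?_⟩
  apply le_antisymm
  · exact Subgroup.closure_mono (Set.iUnion₂_subset fun x _ => hT2 x)
  · rw [← hB, Subgroup.closure_le]
    intro x hx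
    have h1 : x ∈ Subgroup.closure S := by rw [← hB]; exact Subgroup.subset_closure hx
    exact Subgroup.closure_mono (Set.subset_biUnion_of_mem (u := T) hx) (hT3 x h1)

/-- orbits of subgroups of finite index -/
lemma orbit_infinite (H : Subgroup G) [H.FiniteIndex] (x : X)
    (hx : (MulAction.orbit G x).Infinite) : (MulAction.orbit H x).Infinite := by
  intro hfin
  apply hx
  have hfq : Finite (G ⧸ H) := inferInstance
  have h1 : (⋃ q : G ⧸ H, (fun y => q.out • y) '' (MulAction.orbit H x)).Finite :=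
    Set.finite_iUnion fun q => hfin.image _
  refine h1.subset ?_
  rintro _ ⟨g, rfl⟩
  refine Set.mem_iUnion.mpr ⟨(g : G ⧸ H), ((g : G ⧸ H).out⁻¹ * g) • x, ⟨⟨_, ?_⟩, rfl⟩, ?_⟩
  · rw [← QuotientGroup.eq]; simp
  · simp only
    rw [← mul_smul]
    congr 1
    group

lemma orbits_finite (H : Subgroup G) [H.FiniteIndex]
    (hX : Finite (MulAction.orbitRel.Quotient G X)) :
    Finite (MulAction.orbitRel.Quotient H X) := by
  have hfq : Finite (G ⧸ H) := inferInstance
  let Φ : (MulAction.orbitRel.Quotient G X) × (G ⧸ H) → MulAction.orbitRel.Quotient H X :=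
    fun p => om H ((p.2.out)⁻¹ • (Quotient.out p.1))
  refine Finite.of_surjective Φ fun q => ?_
  obtain ⟨x, rfl⟩ : ∃ x, om H x = q := ⟨q.out, Quotient.out_eq' q⟩
  have h1 : (Quotient.mk'' (Quotient.out (Quotient.mk'' x : MulAction.orbitRel.Quotient G X)) :
      MulAction.orbitRel.Quotient G X) = Quotient.mk'' x := Quotient.out_eq' _
  obtain ⟨g, hg⟩ := Quotient.exact' h1
  refine ⟨(Quotient.mk'' x, (g : G ⧸ H)), ?_⟩
  change om H (((g : G ⧸ H).out)⁻¹ •
    (Quotient.out (Quotient.mk'' x : MulAction.orbitRel.Quotient G X))) = om H x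
  rw [← hg]
  change om H (((g : G ⧸ H).out)⁻¹ • (g • x)) = om H x
  rw [← mul_smul]
  apply om_smul
  rw [← QuotientGroup.eq]; simp

/-- permutational wreath products over groups whose nontrivial verbal subgroups have finite
index -/
theorem wr_width' [Group.FG A] [Group.FG G] (V : Set (FreeGroup ℕ)) (m : ℕ)
    (hm : ∀ g ∈ Subgroup.closure (vals V G), g ∈ UU V G ^ m)
    (hfi : (Subgroup.closure (vals V G)).FiniteIndex)
    (hq : Finite (MulAction.orbitRel.Quotient G X))
    (horb : ∀ x : X, (MulAction.orbit G x).Infinite) :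
    ∃ M : ℕ, ∀ w ∈ Subgroup.closure (vals V (FS X A ⋊[perm G X A] G)),
      w ∈ UU V (FS X A ⋊[perm G X A] G) ^ M := by
  classical
  have hfg : (Subgroup.closure (vals V G)).FG :=
    (Group.fg_iff_subgroup_fg _).mp (Subgroup.fg_of_index_ne_zero _)
  obtain ⟨T, hT1, hT2, hT3⟩ := exists_finite_gen (vals V G) hfg
  set S : Set G := T ∪ T⁻¹ ∪ {1} with hS
  have hSfin : S.Finite := (hT1.union hT1.inv).union (Set.finite_singleton _)
  have hSF : Fintype S := hSfin.fintype
  have hSne : Nonempty S := ⟨⟨1, Or.inr rfl⟩⟩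
  refine wr_width V m hm (fun s : S => s.1) ?_ ?_ ?_ (orbits_finite _ hq)
    (fun x => orbit_infinite _ x (horb x))
  · intro s
    exact ⟨⟨s.1⁻¹, U_inv s.1 s.2⟩, rfl⟩
  · rintro ⟨s, (hs | hs) | hs⟩
    · exact Or.inl (Or.inl (hT2 hs))
    · exact Or.inl (Or.inr (hT2 hs))
    · exact Or.inr hs
  · rw [Subtype.range_coe, hS, closure_U, hT3]

end Pool.Agent.Helper220_VW.Wrp
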