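import Pool.Agent.Helper220_VW.WrBase

set_option autoImplicit false

open Pointwise
open scoped commutatorElement

namespace Pool.Agent.Helper220_VW.Wrp

open SemidirectProduct

variable {G X A : Type} [Group G] [Group A] [MulAction G X]

/-- a rooted forest in the Schreier graph of a finite family -/
structure Forest {J : Type} (h : J → G) (X : Type) [MulAction G X] where
  ht : X → ℕ
  lab : X → J
  par : ∀ x, ht x ≠ 0 → ht ((h (lab x))⁻¹ • x) + 1 = ht x
  fin : ∀ n, {x | ht x ≤ n}.Finite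

namespace Forest

variable {J : Type} [Fintype J] {h : J → G} (F : Forest h X)

/-- `h j • y` is a child of `y` -/
def child (y : X) (j : J) : Prop := F.ht (h j • y) ≠ 0 ∧ F.lab (h j • y) = j

lemma child_ht {y : X} {j : J} (hc : F.child y j) : F.ht (h j • y) = F.ht y + 1 := by
  have := F.par (h j • y) hc.1
  rw [hc.2, inv_smul_smul] at this
  exact this.symm

lemma child_inv {x : X} (hx : F.ht x ≠ 0) : F.child ((h (F.lab x))⁻¹ • x) (F.lab x) := by
  unfold child
  rw [smul_inv_smul]
  exact ⟨hx, rfl⟩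

open Classical in
/-- the function sent along the edges with a given label from the points of a given parity -/
noncomputable def Phi (ε : ℕ) (κ : FS X A) (j : J) : FS X A :=
  ⟨fun y => if F.child y j ∧ F.ht y % 2 = ε then κ.1 (h j • y) else 1, by
    refine (κ.2.image fun x => (h j)⁻¹ • x).subset fun y hy => ⟨h j • y, ?_, by simp⟩
    by_contra hc
    apply hy
    change (if F.child y j ∧ F.ht y % 2 = ε then κ.1 (h j • y) else 1) = 1
    have hc' : κ.1 (h j • y) = 1 := by
      by_contra h'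
      exact hc h'
    rw [hc', ite_self]⟩

lemma Phi_pos {ε : ℕ} {κ : FS X A} {j : J} {y : X} (h1 : F.child y j) (h2 : F.ht y % 2 = ε) :
    (F.Phi ε κ j).1 y = κ.1 (h j • y) := if_pos ⟨h1, h2⟩

lemma Phi_neg {ε : ℕ} {κ : FS X A} {j : J} {y : X} (h1 : ¬ (F.child y j ∧ F.ht y % 2 = ε)) :
    (F.Phi ε κ j).1 y = 1 := if_neg h1

/-- the product of the commutators -/
noncomputable def E (ε : ℕ) (κ : FS X A) : FS X A :=
  ((Finset.univ : Finset J).toList.map fun j =>
    F.Phi ε κ j * (perm G X A (h j) (F.Phi ε κ j))⁻¹).prod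

lemma E_mem {U : Set (FS X A ⋊[perm G X A] G)} (hU : Ug U)
    (hh : ∀ j, (inr (h j) : FS X A ⋊[perm G X A] G) ∈ U) (ε : ℕ) (κ : FS X A) :
    (inl (F.E ε κ) : FS X A ⋊[perm G X A] G) ∈ U ^ (2 * Fintype.card J) := by
  unfold E
  rw [map_list_prod, List.map_map]
  have e : 2 * Fintype.card J = 2 * (Finset.univ : Finset J).toList.length := by simp
  rw [e]
  apply list_pow_mem
  intro j _
  have h1 := push_mem hU (h j) 1 (by rw [pow_one]; exact hh j) (F.Phi ε κ j)
  rwa [mul_one] at h1

open Classical in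
/-- the value received from the children -/
noncomputable def cv (κ : FS X A) (y : X) : A :=
  ((Finset.univ : Finset J).toList.map fun j => if F.child y j then κ.1 (h j • y) else 1).prod

lemma E_val (ε : ℕ) (κ : FS X A) (y : X) : (F.E ε κ).1 y =
    ((Finset.univ : Finset J).toList.map fun j =>
      (F.Phi ε κ j).1 y * ((F.Phi ε κ j).1 ((h j)⁻¹ • y))⁻¹).prod := by
  unfold E
  rw [← ev_apply, map_list_prod, List.map_map]
  rfl

lemma E_same {ε : ℕ} {κ : FS X A} {y : X} (hy : F.ht y % 2 = ε) : (F.E ε κ).1 y = F.cv κ y := by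
  classical
  rw [E_val]
  unfold cv
  congr 1
  apply List.map_congr_left
  intro j _
  have h2 : (F.Phi ε κ j).1 ((h j)⁻¹ • y) = 1 := by
    apply F.Phi_neg
    rintro ⟨h3, h4⟩
    have h5 := F.child_ht h3
    rw [smul_inv_smul] at h5
    omega
  rw [h2, inv_one, mul_one]
  by_cases hc : F.child y j
  · rw [F.Phi_pos hc hy, if_pos hc]
  · rw [if_neg hc]
    exact F.Phi_neg fun h' => hc h'.1

lemma E_other {ε : ℕ} (hε : ε < 2) {κ : FS X A} (hκ : ∀ x, F.ht x = 0 → κ.1 x = 1) {y : X}
    (hy : F.ht y % 2 ≠ ε) : (F.E ε κ).1 y = (κ.1 y)⁻¹ := by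
  rw [E_val]
  have h1 : ∀ j, (F.Phi ε κ j).1 y = 1 := fun j => F.Phi_neg fun h' => hy h'.2
  by_cases h0 : F.ht y = 0
  · rw [hκ y h0, inv_one]
    apply list_prod_one
    intro j _
    rw [h1, one_mul, inv_eq_one]
    apply F.Phi_neg
    rintro ⟨h3, -⟩
    apply h3.1
    rw [smul_inv_smul]; exact h0
  · rw [list_prod_single _ (Finset.nodup_toList _) _ (F.lab y) (by simp)]
    · rw [h1, one_mul]
      have h2 := F.child_inv h0
      have h3 := F.par y h0
      rw [F.Phi_pos h2 (by omega), smul_inv_smul]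
    · intro j _ hj
      rw [h1, one_mul, inv_eq_one]
      apply F.Phi_neg
      rintro ⟨h3, -⟩
      apply hj
      have := h3.2
      rw [smul_inv_smul] at this
      exact this.symm

/-- the value of the product of the two parities at a point -/
lemma EE_val {κ : FS X A} (hκ : ∀ x, F.ht x = 0 → κ.1 x = 1) (y : X) :
    (F.ht y % 2 = 0 → (F.E 0 κ * F.E 1 κ).1 y = F.cv κ y * (κ.1 y)⁻¹) ∧
    (F.ht y % 2 = 1 → (F.E 0 κ * F.E 1 κ).1 y = (κ.1 y)⁻¹ * F.cv κ y) := by
  constructor
  · intro hy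
    change (F.E 0 κ).1 y * (F.E 1 κ).1 y = _
    rw [F.E_same hy, F.E_other (by norm_num) hκ (by omega)]
  · intro hy
    change (F.E 0 κ).1 y * (F.E 1 κ).1 y = _
    rw [F.E_same hy, F.E_other (by norm_num) hκ (by omega)]

open Classical in
/-- the auxiliary recursion -/
noncomputable def aux (f : FS X A) : ℕ → X → A
  | 0, _ => 1
  | n + 1, y => (f.1 y)⁻¹ * ((Finset.univ : Finset J).toList.map fun j =>
      if F.child y j then aux f n (h j • y) else 1).prod

/-- every function of finite support is concentrated at the roots, up to two products of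
commutators with the acting group and one commutator of base elements -/
lemma push1 (f : FS X A) : ∃ κ : FS X A, (∀ x, F.ht x = 0 → κ.1 x = 1) ∧
    ∀ y, F.ht y ≠ 0 → ((F.E 0 κ * F.E 1 κ)⁻¹ * f).1 y ∈ Cm (⊤ : Subgroup A) := by
  classical
  obtain ⟨D, hD⟩ : ∃ D, ∀ y, D < F.ht y → f.1 y = 1 := by
    refine ⟨f.2.toFinset.sup F.ht, fun y hy => ?_⟩
    by_contra hc
    have := Finset.le_sup (f := F.ht) (f.2.mem_toFinset.mpr hc)
    omega
  let κ : FS X A := ⟨fun y => if F.ht y = 0 then 1 else F.aux f (D + 1 - F.ht y) y, by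
    refine (F.fin D).subset fun y hy => ?_
    by_contra hc
    apply hy
    simp only [Set.mem_setOf_eq, not_le] at hc
    have h1 : F.ht y ≠ 0 := by omega
    have h2 : D + 1 - F.ht y = 0 := by omega
    change (if F.ht y = 0 then 1 else F.aux f (D + 1 - F.ht y) y) = 1
    rw [if_neg h1, h2]
    rfl⟩
  have hκ : ∀ y, F.ht y ≠ 0 → κ.1 y = F.aux f (D + 1 - F.ht y) y := fun y hy => if_neg hy
  have hκ0 : ∀ y, F.ht y = 0 → κ.1 y = 1 := fun y hy => if_pos hy
  have hrec : ∀ y, F.ht y ≠ 0 → κ.1 y = (f.1 y)⁻¹ * F.cv κ y := by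
    intro y hy
    rw [hκ y hy]
    by_cases h1 : F.ht y ≤ D
    · have h2 : D + 1 - F.ht y = (D - F.ht y) + 1 := by omega
      rw [h2]
      change (f.1 y)⁻¹ * _ = _
      congr 1
      unfold cv
      congr 1
      apply List.map_congr_left
      intro j _
      by_cases hc : F.child y j
      · rw [if_pos hc, if_pos hc, hκ _ hc.1, F.child_ht hc]
        congr 1
        omega
      · rw [if_neg hc, if_neg hc]
    · have h2 : D + 1 - F.ht y = 0 := by omega
      rw [h2]
      change (1 : A) = _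
      rw [hD y (by omega), inv_one, one_mul]
      unfold cv
      rw [list_prod_one]
      intro j _
      by_cases hc : F.child y j
      · rw [if_pos hc, hκ _ hc.1, F.child_ht hc]
        have : D + 1 - (F.ht y + 1) = 0 := by omega
        rw [this]
        rfl
      · rw [if_neg hc]
  refine ⟨κ, hκ0, fun y hy => ?_⟩
  have h1 := hrec y hy
  have h2 : f.1 y = F.cv κ y * (κ.1 y)⁻¹ := by
    rw [h1]; group
  obtain ⟨h3, h4⟩ := F.EE_val hκ0 y
  have h5 : ((F.E 0 κ * F.E 1 κ)⁻¹ * f).1 y = ((F.E 0 κ * F.E 1 κ).1 y)⁻¹ * f.1 y := rfl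
  rw [h5]
  rcases Nat.mod_two_eq_zero_or_one (F.ht y) with hp | hp
  · rw [h3 hp, h2, inv_mul_cancel]
    exact one_mem_Cm _
  · rw [h4 hp, h2]
    refine ⟨(F.cv κ y)⁻¹, trivial, κ.1 y, trivial, ?_⟩
    rw [commutatorElement_def]
    group

/-- a function with one point in its support -/
noncomputable def single [DecidableEq X] (o : X) (a : A) : FS X A :=
  ⟨Pi.mulSingle o a, by
    refine (Set.finite_singleton o).subset fun x hx => ?_
    by_contra hc
    apply hx
    have hc' : x ≠ o := fun h' => hc h'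
    change (Pi.mulSingle o a : X → A) x = 1
    rw [Pi.mulSingle_eq_of_ne hc']⟩

/-- a product of commutators as a decreasing chain -/
lemma exists_chain (m : ℕ) : ∀ a ∈ Cm (⊤ : Subgroup A) ^ m, ∃ w : ℕ → A, w 0 = a ∧
    (∀ i, m ≤ i → w i = 1) ∧ ∀ i, w i * (w (i + 1))⁻¹ ∈ Cm (⊤ : Subgroup A) := by
  induction m with
  | zero =>
    intro a ha
    rw [pow_zero, Set.mem_one] at ha
    refine ⟨fun _ => 1, ha.symm, fun _ _ => rfl, fun _ => ?_⟩
    rw [mul_inv_cancel]
    exact one_mem_Cm _
  | succ m ih =>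
    intro a ha
    rw [pow_succ'] at ha
    obtain ⟨c, hc, a', ha', rfl⟩ := Set.mem_mul.mp ha
    obtain ⟨w, h1, h2, h3⟩ := ih a' ha'
    refine ⟨fun i => if i = 0 then c * a' else w (i - 1), by simp, ?_, ?_⟩
    · intro i hi
      have : i ≠ 0 := by omega
      simp only [this, if_false]
      exact h2 _ (by omega)
    · intro i
      cases i with
      | zero =>
        simp only [if_true]
        rw [if_neg (by omega)]
        simp only [zero_add, Nat.sub_self]
        rw [h1]
        have : c * a' * a'⁻¹ = c := by group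
        rw [this]
        exact hc
      | succ i =>
        change (if i + 1 = 0 then c * a' else w (i + 1 - 1)) *
          (if i + 1 + 1 = 0 then c * a' else w (i + 1 + 1 - 1))⁻¹ ∈ Cm (⊤ : Subgroup A)
        rw [if_neg (by omega), if_neg (by omega)]
        exact h3 i

/-- pushing a product of commutators from a root along a path -/
lemma push2 [DecidableEq X] (o : X) (_ho : F.ht o = 0) (m : ℕ) (a : A)
    (ha : a ∈ Cm (⊤ : Subgroup A) ^ m)
    (y : ℕ → X) (hy0 : y 0 = o) (hyh : ∀ i ≤ m, F.ht (y i) = i)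
    (hyp : ∀ i < m, (h (F.lab (y (i + 1))))⁻¹ • y (i + 1) = y i) :
    ∃ κ : FS X A, (∀ x, F.ht x = 0 → κ.1 x = 1) ∧
      ∀ x, ((F.E 0 κ * F.E 1 κ)⁻¹ * single o a).1 x ∈ Cm (⊤ : Subgroup A) := by
  classical
  obtain ⟨w, hw0, hw1, hw2⟩ := exists_chain m a ha
  let κ : FS X A := ⟨fun x => if F.ht x ≠ 0 ∧ F.ht x ≤ m ∧ x = y (F.ht x) then
      w (F.ht x - 1) else 1, by
    refine (F.fin m).subset fun x hx => ?_
    by_contra hc
    apply hx
    change (if F.ht x ≠ 0 ∧ F.ht x ≤ m ∧ x = y (F.ht x) then w (F.ht x - 1) else 1) = 1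
    rw [if_neg]
    rintro ⟨-, h1, -⟩
    exact hc h1⟩
  have hκ1 : ∀ x, (F.ht x ≠ 0 ∧ F.ht x ≤ m ∧ x = y (F.ht x)) → κ.1 x = w (F.ht x - 1) :=
    fun x hx => if_pos hx
  have hκ2 : ∀ x, ¬ (F.ht x ≠ 0 ∧ F.ht x ≤ m ∧ x = y (F.ht x)) → κ.1 x = 1 :=
    fun x hx => if_neg hx
  have hκ0 : ∀ x, F.ht x = 0 → κ.1 x = 1 := fun x hx => hκ2 x fun h' => h'.1 hx
  -- the values received from the children
  have hcv1 : ∀ i ≤ m, F.cv κ (y i) = w i := by
    intro i hi
    unfold cv
    by_cases him : i < m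
    · have hi1 := hyh (i + 1) (by omega)
      have hpi := hyp i him
      have e : h (F.lab (y (i + 1))) • y i = y (i + 1) := by rw [← hpi, smul_inv_smul]
      rw [list_prod_single _ (Finset.nodup_toList _) _ (F.lab (y (i + 1))) (by simp)]
      · have hc : F.child (y i) (F.lab (y (i + 1))) := by
          unfold child
          rw [e]
          exact ⟨by omega, rfl⟩
        rw [if_pos hc, e, hκ1 _ ⟨by omega, by omega, by rw [hi1]⟩, hi1]
        congr 1
      · intro j _ hj
        by_cases hc : F.child (y i) j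
        · rw [if_pos hc]
          apply hκ2
          rintro ⟨-, -, h3⟩
          rw [F.child_ht hc, hyh i hi] at h3
          apply hj
          rw [← h3]
          exact hc.2.symm
        · rw [if_neg hc]
    · rw [hw1 i (by omega)]
      apply list_prod_one
      intro j _
      by_cases hc : F.child (y i) j
      · rw [if_pos hc]
        apply hκ2
        rintro ⟨-, h3, -⟩
        rw [F.child_ht hc, hyh i hi] at h3
        omega
      · rw [if_neg hc]
  have hcv2 : ∀ x, (∀ i ≤ m, x ≠ y i) → F.cv κ x = 1 := by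
    intro x hx
    unfold cv
    apply list_prod_one
    intro j _
    by_cases hc : F.child x j
    · rw [if_pos hc]
      apply hκ2
      rintro ⟨-, h2, h3⟩
      rw [F.child_ht hc] at h2 h3
      have h4 := hyp (F.ht x) (by omega)
      rw [← h3, hc.2, inv_smul_smul] at h4
      exact hx _ (by omega) h4
    · rw [if_neg hc]
  refine ⟨κ, hκ0, fun x => ?_⟩
  obtain ⟨h3, h4⟩ := F.EE_val hκ0 x
  have h5 : ((F.E 0 κ * F.E 1 κ)⁻¹ * single o a).1 x =
      ((F.E 0 κ * F.E 1 κ).1 x)⁻¹ * (Pi.mulSingle o a : X → A) x := rfl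
  rw [h5]
  by_cases hx : ∃ i ≤ m, x = y i
  · obtain ⟨i, hi, rfl⟩ := hx
    have hhi := hyh i hi
    cases i with
    | zero =>
      rw [h3 (by rw [hhi]), hκ0 _ hhi, hcv1 0 hi, hy0, Pi.mulSingle_eq_same, hw0]
      have : (a * (1 : A)⁻¹)⁻¹ * a = 1 := by group
      rw [this]
      exact one_mem_Cm _
    | succ i =>
      have hne : y (i + 1) ≠ o := by
        intro h'
        have := hyh 0 (by omega)
        rw [h', ← hy0, this] at hhi
        omega
      rw [Pi.mulSingle_eq_of_ne hne, mul_one]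
      have hk : κ.1 (y (i + 1)) = w i := by
        rw [hκ1 _ ⟨by omega, by omega, by rw [hhi]⟩, hhi]
        congr 1
      have hc := hw2 i
      rcases Nat.mod_two_eq_zero_or_one (F.ht (y (i + 1))) with hp | hp
      · rw [h3 hp, hcv1 _ hi, hk]
        have : (w (i + 1) * (w i)⁻¹)⁻¹ = w i * (w (i + 1))⁻¹ := by group
        rw [this]
        exact hc
      · rw [h4 hp, hcv1 _ hi, hk]
        have : ((w i)⁻¹ * w (i + 1))⁻¹ = (w (i + 1))⁻¹ * (w i * (w (i + 1))⁻¹) *
            ((w (i + 1))⁻¹)⁻¹ := by group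
        rw [this]
        exact conj_mem_Cm (K := (⊤ : Subgroup A)) (fun _ _ => Subgroup.mem_top _) _ hc
  · push Not at hx
    have hne : x ≠ o := by
      rw [← hy0]; exact hx 0 (by omega)
    rw [Pi.mulSingle_eq_of_ne hne, mul_one]
    have hk : κ.1 x = 1 := by
      apply hκ2
      rintro ⟨-, h7, h8⟩
      exact hx _ h7 h8
    rcases Nat.mod_two_eq_zero_or_one (F.ht x) with hp | hp
    · rw [h3 hp, hcv2 x hx, hk]
      simp only [inv_one, mul_one]
      exact one_mem_Cm _
    · rw [h4 hp, hcv2 x hx, hk]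
      simp only [inv_one, mul_one]
      exact one_mem_Cm _

end Forest

end Pool.Agent.Helper220_VW.Wrp
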