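import Pool.Agent.Helper220_VW.WrTau

set_option autoImplicit false

open Pointwise
open scoped commutatorElement

namespace Pool.Agent.Helper220_VW.Wrp

open SemidirectProduct

/-- in a finitely generated commutative group a supremum of subgroups is a finite one -/
lemma fin_sup {C ι : Type} [CommGroup C] [Group.FG C] (T : ι → Subgroup C) :
    ∃ t : Finset ι, ∀ x ∈ ⨆ i, T i, x ∈ ⨆ i ∈ t, T i := by
  classical
  -- the supremum is finitely generated
  have hfg : (⨆ i, T i).FG := by
    rw [Subgroup.fg_iff_add_fg]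
    set B : AddSubgroup (Additive C) := (⨆ i, T i).toAddSubgroup with hB
    have h1 : (AddSubgroup.toIntSubmodule B).FG := IsNoetherian.noetherian _
    rw [Submodule.fg_iff_addSubgroup_fg] at h1
    exact h1
  -- each element lies in a finite supremum
  have hel : ∀ x ∈ ⨆ i, T i, ∃ t : Finset ι, x ∈ ⨆ i ∈ t, T i := by
    let P : Subgroup C :=
      { carrier := {x | ∃ t : Finset ι, x ∈ ⨆ i ∈ t, T i}
        one_mem' := ⟨∅, Subgroup.one_mem _⟩
        mul_mem' := by
          rintro x y ⟨s, hs⟩ ⟨t, ht⟩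
          refine ⟨s ∪ t, Subgroup.mul_mem _ ?_ ?_⟩
          · exact (biSup_mono (fun i hi => Finset.mem_union_left _ hi) :
              ⨆ i ∈ s, T i ≤ ⨆ i ∈ s ∪ t, T i) hs
          · exact (biSup_mono (fun i hi => Finset.mem_union_right _ hi) :
              ⨆ i ∈ t, T i ≤ ⨆ i ∈ s ∪ t, T i) ht
        inv_mem' := by
          rintro x ⟨s, hs⟩
          exact ⟨s, Subgroup.inv_mem _ hs⟩ }
    have hP : ⨆ i, T i ≤ P := by
      apply iSup_le
      intro i x hx
      refine ⟨{i}, ?_⟩
      simpa using hx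
    exact fun x hx => hP hx
  obtain ⟨S, hS⟩ := hfg
  have hex : ∀ x : C, ∃ t : Finset ι, x ∈ (⨆ i, T i) → x ∈ ⨆ i ∈ t, T i := by
    intro x
    by_cases hx : x ∈ ⨆ i, T i
    · obtain ⟨t, ht⟩ := hel x hx
      exact ⟨t, fun _ => ht⟩
    · exact ⟨∅, fun h => absurd h hx⟩
  choose t ht using hex
  refine ⟨S.biUnion t, fun x hx => ?_⟩
  rw [← hS] at hx
  have hle : Subgroup.closure (S : Set C) ≤ ⨆ i ∈ S.biUnion t, T i := by
    rw [Subgroup.closure_le]
    intro s hs
    have h1 : s ∈ ⨆ i, T i := by rw [← hS]; exact Subgroup.subset_closure hs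
    have h2 := ht s h1
    exact (biSup_mono (fun i hi => Finset.mem_biUnion.mpr ⟨s, hs, hi⟩) :
      ⨆ i ∈ t s, T i ≤ ⨆ i ∈ S.biUnion t, T i) h2
  exact hle hx

variable {G X A : Type} [Group G] [Group A] [MulAction G X]

/-- a word evaluated at a tuple with base parts `n` and top parts `g` -/
def wv (g : ℕ → G) (n : ℕ → FS X A) (v : FreeGroup ℕ) : FS X A ⋊[perm G X A] G :=
  FreeGroup.lift (fun i => (inl (n i) * inr (g i) : FS X A ⋊[perm G X A] G)) v

lemma wv_right (g : ℕ → G) (n : ℕ → FS X A) (v : FreeGroup ℕ) :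
    (wv g n v).right = FreeGroup.lift g v := by
  have h : (rightHom : FS X A ⋊[perm G X A] G →* G).comp
      (FreeGroup.lift (fun i => (inl (n i) * inr (g i) : FS X A ⋊[perm G X A] G))) =
      FreeGroup.lift g := by
    ext i
    simp
  exact DFunLike.congr_fun h v

lemma wv_surj (f : ℕ → FS X A ⋊[perm G X A] G) (v : FreeGroup ℕ) :
    FreeGroup.lift f v = wv (fun i => (f i).right) (fun i => (f i).left) v := by
  unfold wv
  congr 2
  funext i
  exact (inl_left_mul_inr_right (f i)).symm

/-- additivity -/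
lemma fox {C : Type} [CommGroup C] (τ : FS X A →* C) (g : ℕ → G) (v : FreeGroup ℕ) :
    ∀ (g₀ : G) (n n' : ℕ → FS X A), τ (perm G X A g₀ (wv g (n * n') v).left) =
      τ (perm G X A g₀ (wv g n v).left) * τ (perm G X A g₀ (wv g n' v).left) := by
  induction v using FreeGroup.induction_on with
  | C1 =>
    intro g₀ n n'
    have h : ∀ n : ℕ → FS X A, (wv g n 1).left = 1 := fun n => by
      unfold wv
      rw [map_one]
      rfl
    rw [h, h, h, map_one, map_one, mul_one]
  | of i =>
    intro g₀ n n'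
    have h : ∀ n : ℕ → FS X A, (wv g n (FreeGroup.of i)).left = n i := fun n => by
      unfold wv
      rw [FreeGroup.lift_apply_of]
      simp
    rw [h, h, h, Pi.mul_apply, map_mul, map_mul]
  | inv_of i _ =>
    intro g₀ n n'
    have h : ∀ n : ℕ → FS X A, (wv g n (FreeGroup.of i)⁻¹).left =
        perm G X A (g i)⁻¹ (n i)⁻¹ := fun n => by
      unfold wv
      rw [map_inv, FreeGroup.lift_apply_of, inv_left]
      simp
    have e : ((n * n') i)⁻¹ = (n' i)⁻¹ * (n i)⁻¹ := mul_inv_rev _ _
    rw [h, h, h, e, map_mul, map_mul, map_mul, mul_comm]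
  | mul v w hv hw =>
    intro g₀ n n'
    have h : ∀ n : ℕ → FS X A, (wv g n (v * w)).left =
        (wv g n v).left * perm G X A (FreeGroup.lift g v) (wv g n w).left := fun n => by
      have h1 : wv g n (v * w) = wv g n v * wv g n w := map_mul _ _ _
      rw [h1, mul_left, wv_right]
    have h2 : ∀ (n : ℕ → FS X A), τ (perm G X A g₀ (wv g n (v * w)).left) =
        τ (perm G X A g₀ (wv g n v).left) *
          τ (perm G X A (g₀ * FreeGroup.lift g v) (wv g n w).left) := by
      intro n
      rw [h, map_mul, map_mul, map_mul (perm G X A) g₀]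
      rfl
    rw [h2, h2, h2, hv, hw]
    exact mul_mul_mul_comm _ _ _ _

end Pool.Agent.Helper220_VW.Wrp
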