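import Mathlib

set_option autoImplicit false

namespace Pool.Agent.Helper220_VW.Wrp

/-- The restricted permutational wreath product of `A` by the group `G` acting on `X`: the pairs
of a function `f` from `X` to `A` with finite support and an element `g` of `G`. -/
structure PWr (A G X : Type) [Group A] where
  /-- the base part -/
  f : X → A
  /-- it has finite support -/
  fin : {x | f x ≠ 1}.Finite
  /-- the top part -/
  g : G

variable {A G X : Type} [Group A] [Group G] [MulAction G X]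

lemma PWr.ext' {v w : PWr A G X} (hf : v.f = w.f) (hg : v.g = w.g) : v = w := by
  cases v; cases w; simp_all

lemma fin_mul (v w : PWr A G X) : {x | v.f x * w.f (v.g⁻¹ • x) ≠ 1}.Finite := by
  refine (v.fin.union (w.fin.image fun x => v.g • x)).subset fun x hx => ?_
  by_contra hc
  simp only [Set.mem_union, Set.mem_setOf_eq, not_or, not_not, Set.mem_image, not_exists,
    not_and] at hc
  apply hx
  have h1 : w.f (v.g⁻¹ • x) = 1 := by
    by_contra h2
    exact hc.2 _ h2 (smul_inv_smul _ _)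
  rw [hc.1, h1, one_mul]

lemma fin_inv (w : PWr A G X) : {x | (w.f (w.g • x))⁻¹ ≠ 1}.Finite := by
  refine (w.fin.image fun x => w.g⁻¹ • x).subset fun x hx => ⟨w.g • x, ?_, inv_smul_smul _ _⟩
  intro hc
  apply hx
  change (w.f (w.g • x))⁻¹ = 1
  rw [hc, inv_one]

/-- the multiplication of the wreath product: `(f, g)(f', g') = (f · (g f'), g g')` with
`(g f')(x) = f'(g⁻¹ x)` -/
instance : Mul (PWr A G X) := ⟨fun v w => ⟨fun x => v.f x * w.f (v.g⁻¹ • x), fin_mul v w, v.g * w.g⟩⟩

instance : One (PWr A G X) := ⟨⟨fun _ => 1, by simp, 1⟩⟩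

instance : Inv (PWr A G X) := ⟨fun w => ⟨fun x => (w.f (w.g • x))⁻¹, fin_inv w, w.g⁻¹⟩⟩

lemma PWr.mul_f (v w : PWr A G X) (x : X) : (v * w).f x = v.f x * w.f (v.g⁻¹ • x) := rfl
lemma PWr.mul_g (v w : PWr A G X) : (v * w).g = v.g * w.g := rfl
lemma PWr.one_f (x : X) : (1 : PWr A G X).f x = 1 := rfl
lemma PWr.one_g : (1 : PWr A G X).g = 1 := rfl
lemma PWr.inv_f (w : PWr A G X) (x : X) : (w⁻¹).f x = (w.f (w.g • x))⁻¹ := rfl
lemma PWr.inv_g (w : PWr A G X) : (w⁻¹).g = w.g⁻¹ := rfl

lemma PWr.mul_assoc' (u v w : PWr A G X) : u * v * w = u * (v * w) := by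
  apply PWr.ext'
  · funext x
    simp only [PWr.mul_f, PWr.mul_g, mul_inv_rev, mul_smul, mul_assoc]
  · exact mul_assoc _ _ _

lemma PWr.one_mul' (w : PWr A G X) : 1 * w = w := by
  apply PWr.ext'
  · funext x
    simp only [PWr.mul_f, PWr.one_f, PWr.one_g, inv_one, one_smul, one_mul]
  · exact one_mul _

lemma PWr.mul_one' (w : PWr A G X) : w * 1 = w := by
  apply PWr.ext'
  · funext x
    simp only [PWr.mul_f, PWr.one_f, mul_one]
  · exact mul_one _

lemma PWr.inv_mul_cancel' (w : PWr A G X) : w⁻¹ * w = 1 := by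
  apply PWr.ext'
  · funext x
    simp only [PWr.mul_f, PWr.inv_f, PWr.inv_g, PWr.one_f, inv_inv, inv_mul_cancel]
  · exact inv_mul_cancel _

instance : Group (PWr A G X) :=
  Group.ofLeftAxioms PWr.mul_assoc' PWr.one_mul' PWr.inv_mul_cancel'

/-- The width of the verbal subgroup `V(Γ)` with respect to the set of words `V` is finite: for
some `m` every element of the subgroup generated by the values of the words from `V` is a product
of at most `m` factors, each of which is such a value or the inverse of one. -/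
def FinWidth (V : Set (FreeGroup ℕ)) (Γ : Type) [Group Γ] : Prop :=
  ∃ m : ℕ, ∀ g ∈ Subgroup.closure {h : Γ | ∃ w ∈ V, ∃ f : ℕ → Γ, FreeGroup.lift f w = h},
    ∃ l : List Γ, l.length ≤ m ∧
      (∀ x ∈ l, (∃ w ∈ V, ∃ f : ℕ → Γ, FreeGroup.lift f w = x) ∨
        (∃ w ∈ V, ∃ f : ℕ → Γ, FreeGroup.lift f w = x⁻¹)) ∧
      l.prod = g

end Pool.Agent.Helper220_VW.Wrp
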