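import Pool.Agent.Helper220_VW.WrFin
import Pool.Agent.Helper220_VW.WrStmt
import Pool.Agent.Helper220_VW.GrigLaw
import Pool.Agent.Helper220_VW.GrigEq

set_option autoImplicit false

open Pointwise
open scoped commutatorElement

namespace Pool.Agent.Helper220_VW.Wrp

open SemidirectProduct
open Pool.Agent.Helper220_VW.Grig (Gr Gr_eq)

lemma trivial_width {Γ : Type} [Group Γ] (V : Set (FreeGroup ℕ)) (hV : ∀ v ∈ V, v = 1) :
    ∀ g ∈ Subgroup.closure (vals V Γ), g ∈ UU V Γ ^ 0 := by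
  intro g hg
  have h1 : Subgroup.closure (vals V Γ) ≤ ⊥ := by
    rw [Subgroup.closure_le]
    rintro _ ⟨w, hw, f, rfl⟩
    rw [hV w hw, map_one]
    exact Subgroup.one_mem _
  have h2 := h1 hg
  rw [Subgroup.mem_bot] at h2
  rw [h2]; simp

/-- all nontrivial verbal subgroups of the Grigorchuk groups have finite width and finite index -/
theorem grig_all (ω : ℕ → Fin 3) (hω : ∀ i N, ∃ n ≥ N, ω n ≠ i) (V : Set (FreeGroup ℕ))
    (v : FreeGroup ℕ) (hv : v ∈ V) (hv1 : v ≠ 1) :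
    (∃ m : ℕ, ∀ g ∈ Subgroup.closure (vals V (Pool.Agent.Y803.GR.G ω)),
      g ∈ UU V (Pool.Agent.Y803.GR.G ω) ^ m) ∧
      (Subgroup.closure (vals V (Pool.Agent.Y803.GR.G ω))).FiniteIndex := by
  obtain ⟨f, hf⟩ := RG_no_law ω hω v hv1
  exact grig_width_fi ω hω (vals V (Pool.Agent.Y803.GR.G ω)) (vals_conj V _)
    (FreeGroup.lift f v) ⟨v, hv, f, rfl⟩ hf

lemma grig_fg (ω : ℕ → Fin 3) : Group.FG (Pool.Agent.Y803.GR.G ω) := by
  have h1 : ({Pool.Agent.Y803.GR.pa} ∪ Set.range fun i => Pool.Agent.Y803.GR.pb i ω).Finite :=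
    (Set.finite_singleton _).union (Set.finite_range _)
  have h2 : Finite ({Pool.Agent.Y803.GR.pa} ∪ Set.range fun i => Pool.Agent.Y803.GR.pb i ω :
      Set (Equiv.Perm (List Bool))) := h1
  exact Group.closure_finite_fg _

theorem wr_grig_aux (ω : ℕ → Fin 3) (hω : ∀ i N, ∃ n ≥ N, ω n ≠ i)
    (G : Subgroup (Equiv.Perm (List Bool))) (hG : G = Pool.Agent.Y803.GR.G ω)
    (A : Type) [Group A] [Group.FG A] (X : Type) [MulAction G X]
    (hX : Finite (MulAction.orbitRel.Quotient G X))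
    (horb : ∀ x : X, (MulAction.orbit G x).Infinite) (V : Set (FreeGroup ℕ)) :
    ∃ M : ℕ, ∀ w ∈ Subgroup.closure (vals V (FS X A ⋊[perm G X A] G)),
      w ∈ UU V (FS X A ⋊[perm G X A] G) ^ M := by
  subst hG
  by_cases hV : ∀ v ∈ V, v = 1
  · exact ⟨0, trivial_width V hV⟩
  · push Not at hV
    obtain ⟨v, hv, hv1⟩ := hV
    obtain ⟨⟨m, hm⟩, hfi⟩ := grig_all ω hω V v hv hv1
    have hfg := grig_fg ω
    exact wr_width' V m hm hfi hX horb

/-- finite width passes to quotients -/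
lemma FinWidth.of_surj {V : Set (FreeGroup ℕ)} {Γ Δ : Type} [Group Γ] [Group Δ] (φ : Γ →* Δ)
    (hφ : Function.Surjective φ)
    (h : ∃ m : ℕ, ∀ g ∈ Subgroup.closure (vals V Γ), g ∈ UU V Γ ^ m) : FinWidth V Δ := by
  obtain ⟨m, hm⟩ := h
  refine ⟨m, fun g hg => exists_list _ m g ?_⟩
  have h1 : Subgroup.closure (vals V Δ) ≤ (Subgroup.closure (vals V Γ)).map φ := by
    rw [Subgroup.closure_le]
    rintro _ ⟨w, hw, f, rfl⟩
    choose F hF using fun i => hφ (f i)
    refine ⟨FreeGroup.lift F w, Subgroup.subset_closure ⟨w, hw, F, rfl⟩, ?_⟩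
    have : φ.comp (FreeGroup.lift F) = FreeGroup.lift f := by
      ext i
      simp [hF]
    exact DFunLike.congr_fun this w
  obtain ⟨γ, hγ, rfl⟩ := h1 hg
  exact UU_pow_mono φ V m γ (hm γ hγ)

/-- the semidirect product maps onto the wreath product -/
def toPWr (A G X : Type) [Group A] [Group G] [MulAction G X] :
    FS X A ⋊[perm G X A] G →* PWr A G X where
  toFun w := ⟨w.left.1, w.left.2, w.right⟩
  map_one' := rfl
  map_mul' _ _ := rfl

lemma toPWr_surj (A G X : Type) [Group A] [Group G] [MulAction G X] :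
    Function.Surjective (toPWr A G X) := fun w => ⟨⟨⟨w.f, w.fin⟩, w.g⟩, rfl⟩

/-- permutational wreath products over Grigorchuk groups -/
theorem wr_grig (ω : ℕ → Fin 3) (hω : ∀ i N, ∃ n ≥ N, ω n ≠ i)
    (A : Type) [Group A] [Group.FG A] (X : Type) [MulAction (Gr ω) X]
    (hX : Finite (MulAction.orbitRel.Quotient (Gr ω) X))
    (horb : ∀ x : X, (MulAction.orbit (Gr ω) x).Infinite) (V : Set (FreeGroup ℕ)) :
    FinWidth V (PWr A (Gr ω) X) :=
  FinWidth.of_surj (toPWr A (Gr ω) X) (toPWr_surj A (Gr ω) X)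
    (wr_grig_aux ω hω (Gr ω) (Gr_eq ω) A X hX horb V)

end Pool.Agent.Helper220_VW.Wrp
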