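import Pool.Agent.Helper220_VW.WrForest

set_option autoImplicit false

open Pointwise
open scoped commutatorElement

namespace Pool.Agent.Helper220_VW.Wrp

open SemidirectProduct

variable {G X A : Type} [Group G] [Group A] [MulAction G X]

/-- the orbit of a point -/
def om (H : Subgroup G) (x : X) : MulAction.orbitRel.Quotient H X := Quotient.mk'' x

lemma om_smul (H : Subgroup G) {g : G} (hg : g ∈ H) (x : X) : om H (g • x) = om H x := by
  apply Quotient.sound'
  exact ⟨⟨g, hg⟩, rfl⟩

lemma om_eq {H : Subgroup G} {x y : X} (h : om H x = om H y) : ∃ g ∈ H, g • y = x := by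
  have := Quotient.exact' h
  obtain ⟨g, hg⟩ := this
  exact ⟨g.1, g.2, hg⟩

open Classical in
/-- one term -/
noncomputable def tt (H : Subgroup G) (f : FS X A) (q : MulAction.orbitRel.Quotient H X) (x : X) :
    Abelianization A := if om H x = q then Abelianization.of (f.1 x) else 1

lemma tt_finite (H : Subgroup G) (f : FS X A) (q : MulAction.orbitRel.Quotient H X) :
    (Function.mulSupport (tt H f q)).Finite := by
  classical
  refine f.2.subset fun x hx => ?_
  rw [Function.mem_mulSupport] at hx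
  by_contra hc
  apply hx
  have hc' : f.1 x = 1 := by
    by_contra h
    exact hc h
  unfold tt
  rw [hc', map_one, ite_self]

/-- the product over each orbit in the abelianisation -/
noncomputable def tau (H : Subgroup G) :
    FS X A →* (MulAction.orbitRel.Quotient H X → Abelianization A) where
  toFun f q := ∏ᶠ x, tt H f q x
  map_one' := by
    classical
    funext q
    apply finprod_eq_one_of_forall_eq_one
    intro x
    unfold tt
    have : ((1 : FS X A)).1 x = 1 := rfl
    rw [this, map_one, ite_self]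
  map_mul' f f' := by
    classical
    funext q
    change ∏ᶠ x, tt H (f * f') q x = (∏ᶠ x, tt H f q x) * ∏ᶠ x, tt H f' q x
    rw [← finprod_mul_distrib (tt_finite H f q) (tt_finite H f' q)]
    apply finprod_congr
    intro x
    unfold tt
    by_cases h : om H x = q
    · rw [if_pos h, if_pos h, if_pos h, ← map_mul]
      rfl
    · rw [if_neg h, if_neg h, if_neg h, one_mul]

lemma tau_apply (H : Subgroup G) (f : FS X A) (q : MulAction.orbitRel.Quotient H X) :
    tau H f q = ∏ᶠ x, tt H f q x := rfl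

lemma tau_perm (H : Subgroup G) {g : G} (hg : g ∈ H) (f : FS X A) :
    tau H (perm G X A g f) = tau H f := by
  classical
  funext q
  rw [tau_apply, tau_apply, ← finprod_comp_equiv (MulAction.toPerm g)]
  apply finprod_congr
  intro x
  unfold tt
  rw [MulAction.toPerm_apply, om_smul H hg, perm_apply, inv_smul_smul]

lemma tau_push (H : Subgroup G) {g : G} (hg : g ∈ H) (f : FS X A) :
    tau H (f * (perm G X A g f)⁻¹) = 1 := by
  rw [map_mul, map_inv, tau_perm H hg, mul_inv_cancel]

lemma of_eq_one {a : A} : Abelianization.of a = 1 ↔ a ∈ commutator A := by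
  rw [← MonoidHom.mem_ker, Abelianization.ker_of]

lemma of_Cm {a : A} (ha : a ∈ Cm (⊤ : Subgroup A)) : Abelianization.of a = 1 := by
  obtain ⟨x, -, y, -, rfl⟩ := ha
  rw [map_commutatorElement, commutatorElement_def]
  rw [mul_comm (Abelianization.of x) (Abelianization.of y)]
  group

/-- if all coordinates outside the roots are commutators and the product over each orbit is
trivial, then the coordinates at the roots lie in the commutator subgroup -/
lemma root_comm (H : Subgroup G) (ht : X → ℕ)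
    (huniq : ∀ x x', ht x = 0 → ht x' = 0 → om H x = om H x' → x = x')
    (g : FS X A) (hg : ∀ y, ht y ≠ 0 → g.1 y ∈ Cm (⊤ : Subgroup A)) (hτ : tau H g = 1)
    (o : X) (ho : ht o = 0) : g.1 o ∈ commutator A := by
  classical
  rw [← of_eq_one]
  have h1 : tau H g (om H o) = 1 := by rw [hτ]; rfl
  rw [tau_apply, finprod_eq_single _ o] at h1
  · unfold tt at h1
    rwa [if_pos rfl] at h1
  · intro x hx
    unfold tt
    by_cases h : om H x = om H o
    · rw [if_pos h]
      by_cases hx0 : ht x = 0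
      · exact absurd (huniq x o hx0 ho h) hx
      · exact of_Cm (hg x hx0)
    · rw [if_neg h]

/-- a function all whose values are commutators is a commutator -/
lemma exists_comm (g : FS X A) (hg : ∀ y, g.1 y ∈ Cm (⊤ : Subgroup A)) :
    ∃ a b : FS X A, ⁅a, b⁆ = g := by
  classical
  have h1 : ∀ y, ∃ a b : A, ⁅a, b⁆ = g.1 y ∧ (g.1 y = 1 → a = 1 ∧ b = 1) := by
    intro y
    by_cases hy : g.1 y = 1
    · exact ⟨1, 1, by rw [hy]; simp, fun _ => ⟨rfl, rfl⟩⟩
    · obtain ⟨a, -, b, -, h⟩ := hg y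
      exact ⟨a, b, h, fun h' => absurd h' hy⟩
  choose a b hab h1 using h1
  refine ⟨⟨a, g.2.subset fun y hy hc => hy (h1 y hc).1⟩,
    ⟨b, g.2.subset fun y hy hc => hy (h1 y hc).2⟩, ?_⟩
  apply FS_ext
  intro y
  exact hab y

/-- the base elements of trivial product over each orbit are bounded products -/
theorem base_mem {U : Set (FS X A ⋊[perm G X A] G)} (hU : Ug U) {J : Type} [Fintype J]
    (h : J → G) (hh : ∀ j, (inr (h j) : FS X A ⋊[perm G X A] G) ∈ U) (H : Subgroup G)
    (hH : ∀ j, h j ∈ H)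
    (hmov : ∀ x : X, ∃ j, h j • x ≠ x) (F : Forest h X)
    (huniq : ∀ x x', F.ht x = 0 → F.ht x' = 0 → om H x = om H x' → x = x')
    (hdeep : ∀ o, F.ht o = 0 → ∀ m, ∃ y : ℕ → X, y 0 = o ∧ (∀ i ≤ m, F.ht (y i) = i) ∧
      ∀ i < m, (h (F.lab (y (i + 1))))⁻¹ • y (i + 1) = y i) :
    ∃ c : ℕ, ∀ f : FS X A, tau H f = 1 → (inl f : FS X A ⋊[perm G X A] G) ∈ U ^ c := by
  classical
  set R : List X := (F.fin 0).toFinset.toList with hR
  have hRmem : ∀ x, x ∈ R ↔ F.ht x = 0 := by
    intro x
    rw [hR, Finset.mem_toList, Set.Finite.mem_toFinset]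
    simp
  set e : ℕ := 2 * Fintype.card J + 2 * Fintype.card J with he
  set e2 : ℕ := 12 * Fintype.card J with he2
  have hEE : ∀ κ : FS X A, (inl (F.E 0 κ * F.E 1 κ) : FS X A ⋊[perm G X A] G) ∈ U ^ e := by
    intro κ
    rw [map_mul]
    exact mul_mem_pow_add (F.E_mem hU hh 0 κ) (F.E_mem hU hh 1 κ)
  have hcm : ∀ g : FS X A, (∀ y, g.1 y ∈ Cm (⊤ : Subgroup A)) →
      (inl g : FS X A ⋊[perm G X A] G) ∈ U ^ e2 := by
    intro g hg
    obtain ⟨a, b, rfl⟩ := exists_comm g hg
    exact comm_mem hU h hh hmov a b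
  have hsingle : ∀ o, F.ht o = 0 → ∀ a ∈ commutator A,
      (inl (Forest.single o a) : FS X A ⋊[perm G X A] G) ∈ U ^ (e + e2) := by
    intro o ho a ha
    have ha' : a ∈ ⁅(⊤ : Subgroup A), (⊤ : Subgroup A)⁆ := ha
    obtain ⟨m, hm⟩ := exists_mem_Cm_pow ha'
    obtain ⟨y, hy0, hyh, hyp⟩ := hdeep o ho m
    obtain ⟨κ, hκ0, hκ⟩ := F.push2 o ho m a hm y hy0 hyh hyp
    have e1 : Forest.single o a = (F.E 0 κ * F.E 1 κ) *
        ((F.E 0 κ * F.E 1 κ)⁻¹ * Forest.single o a) := by group
    rw [e1, map_mul]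
    exact mul_mem_pow_add (hEE κ) (hcm _ hκ)
  have hτE : ∀ ε (κ : FS X A), tau H (F.E ε κ) = 1 := by
    intro ε κ
    unfold Forest.E
    rw [map_list_prod, List.map_map]
    apply list_prod_one
    intro j _
    exact tau_push H (hH j) _
  refine ⟨e + e2 + (e + e2) * R.length, fun f hf => ?_⟩
  obtain ⟨κ, hκ0, hκ⟩ := F.push1 f
  set g : FS X A := (F.E 0 κ * F.E 1 κ)⁻¹ * f with hg
  have hfg : f = (F.E 0 κ * F.E 1 κ) * g := by rw [hg]; group
  have hτg : tau H g = 1 := by
    rw [hg, map_mul, map_inv, map_mul, hτE, hτE, hf]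
    simp
  have hroot : ∀ o, F.ht o = 0 → g.1 o ∈ commutator A := fun o ho =>
    root_comm H F.ht huniq g hκ hτg o ho
  -- split off the roots
  set r : FS X A := (R.map fun o => Forest.single o (g.1 o)).prod with hr
  have hrval : ∀ x, r.1 x = if F.ht x = 0 then g.1 x else 1 := by
    intro x
    have h1 : r.1 x = (R.map fun o => (Pi.mulSingle o (g.1 o) : X → A) x).prod := by
      rw [hr, ← ev_apply, map_list_prod, List.map_map]
      rfl
    rw [h1]
    by_cases hx : F.ht x = 0
    · rw [if_pos hx, list_prod_single R (Finset.nodup_toList _) _ x ((hRmem x).mpr hx)]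
      · rw [Pi.mulSingle_eq_same]
      · intro o _ ho
        rw [Pi.mulSingle_eq_of_ne (Ne.symm ho)]
    · rw [if_neg hx]
      apply list_prod_one
      intro o ho
      rw [Pi.mulSingle_eq_of_ne]
      rintro rfl
      exact hx ((hRmem _).mp ho)
  have hrm : (inl r : FS X A ⋊[perm G X A] G) ∈ U ^ ((e + e2) * R.length) := by
    rw [hr, map_list_prod, List.map_map]
    apply list_pow_mem
    intro o ho
    exact hsingle o ((hRmem o).mp ho) _ (hroot o ((hRmem o).mp ho))
  have hgr : ∀ y, (g * r⁻¹).1 y ∈ Cm (⊤ : Subgroup A) := by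
    intro y
    have h1 : (g * r⁻¹).1 y = g.1 y * (r.1 y)⁻¹ := rfl
    rw [h1, hrval]
    by_cases hy : F.ht y = 0
    · rw [if_pos hy, mul_inv_cancel]
      exact one_mem_Cm _
    · rw [if_neg hy, inv_one, mul_one]
      exact hκ y hy
  have hfin : f = (F.E 0 κ * F.E 1 κ) * (g * r⁻¹) * r := by rw [hfg]; group
  rw [hfin, map_mul (inl) ((F.E 0 κ * F.E 1 κ) * (g * r⁻¹)) r,
    map_mul (inl) (F.E 0 κ * F.E 1 κ) (g * r⁻¹)]
  exact mul_mem_pow_add (mul_mem_pow_add (hEE κ) (hcm _ hgr)) hrm

end Pool.Agent.Helper220_VW.Wrp
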