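import Pool.Agent.Helper220_VW.WrFox

set_option autoImplicit false

open Pointwise
open scoped commutatorElement

namespace Pool.Agent.Helper220_VW.Wrp

open SemidirectProduct

variable {G X : Type} [Group G] [MulAction G X]

lemma range_pow {J : Type} (h : J → G) (n : ℕ) : ∀ g ∈ (Set.range h) ^ n, ∃ l : List J,
    l.length = n ∧ (l.map h).prod = g := by
  induction n with
  | zero =>
    intro g hg
    rw [pow_zero, Set.mem_one] at hg
    exact ⟨[], rfl, by simp [hg]⟩
  | succ n ih =>
    intro g hg
    rw [pow_succ'] at hg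
    obtain ⟨x, ⟨j, rfl⟩, y, hy, rfl⟩ := Set.mem_mul.mp hg
    obtain ⟨l, hl, rfl⟩ := ih y hy
    exact ⟨j :: l, by simp [hl], by simp⟩

lemma out_om (H : Subgroup G) (x : X) : om H (om H x).out = om H x := Quotient.out_eq' _

lemma list_om {J : Type} (h : J → G) (H : Subgroup G) (hH : ∀ j, h j ∈ H) (l : List J) (x : X) :
    om H ((l.map h).prod • x) = om H x := by
  apply om_smul
  apply Subgroup.list_prod_mem
  intro g hg
  obtain ⟨j, -, rfl⟩ := List.mem_map.mp hg
  exact hH j

/-- the breadth first forest -/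
theorem exists_forest {J : Type} [Fintype J] [Nonempty J] (h : J → G)
    (hsymm : ∀ j, ∃ j', h j' = (h j)⁻¹) (H : Subgroup G) (hH : Subgroup.closure (Set.range h) = H)
    (hq : Finite (MulAction.orbitRel.Quotient H X))
    (horb : ∀ x : X, (MulAction.orbit H x).Infinite) :
    ∃ F : Forest h X,
      (∀ x x', F.ht x = 0 → F.ht x' = 0 → om H x = om H x' → x = x') ∧
      (∀ o, F.ht o = 0 → ∀ m, ∃ y : ℕ → X, y 0 = o ∧ (∀ i ≤ m, F.ht (y i) = i) ∧
        ∀ i < m, (h (F.lab (y (i + 1))))⁻¹ • y (i + 1) = y i) := by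
  classical
  have hHj : ∀ j, h j ∈ H := fun j => by
    rw [← hH]; exact Subgroup.subset_closure ⟨j, rfl⟩
  let base : X → X := fun x => (om H x).out
  let Rch : X → ℕ → Prop := fun x n => ∃ l : List J, l.length = n ∧ (l.map h).prod • base x = x
  have hR : ∀ x, ∃ n, Rch x n := by
    intro x
    obtain ⟨g, hg, hgx⟩ := om_eq (out_om H x).symm
    rw [← hH] at hg
    obtain ⟨n, hn⟩ := exists_mem_pow_of_mem_closure (S := Set.range h) (by
      rintro _ ⟨j, rfl⟩
      obtain ⟨j', hj'⟩ := hsymm j
      exact ⟨j', hj'⟩) hg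
    obtain ⟨l, hl, hlp⟩ := range_pow h n g hn
    exact ⟨n, l, hl, by rw [hlp]; exact hgx⟩
  let ht : X → ℕ := fun x => Nat.find (hR x)
  have hlab : ∀ x, ∃ j, ht x ≠ 0 → ∃ l : List J, l.length + 1 = ht x ∧
      h j • ((l.map h).prod • base x) = x := by
    intro x
    obtain ⟨l, hl, hlx⟩ := Nat.find_spec (hR x)
    cases l with
    | nil =>
      refine ⟨Classical.arbitrary J, fun hx => absurd ?_ hx⟩
      exact hl.symm
    | cons j l =>
      refine ⟨j, fun _ => ⟨l, by simpa using hl, ?_⟩⟩
      rw [List.map_cons, List.prod_cons, mul_smul] at hlx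
      exact hlx
  choose lab hlab using hlab
  have hpar : ∀ x, ht x ≠ 0 → ht ((h (lab x))⁻¹ • x) + 1 = ht x := by
    intro x hx
    obtain ⟨l, hl, hlx⟩ := hlab x hx
    set y := (h (lab x))⁻¹ • x with hy
    have hyl : (l.map h).prod • base x = y := by
      rw [hy, eq_inv_smul_iff]
      exact hlx
    have hom : om H y = om H x := by
      rw [hy]; exact om_smul H (H.inv_mem (hHj _)) x
    have hbase : base y = base x := by
      change (om H y).out = (om H x).out
      rw [hom]
    have h1 : ht y ≤ l.length := Nat.find_min' (hR y) ⟨l, rfl, by rw [hbase]; exact hyl⟩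
    have h2 : ht x ≤ ht y + 1 := by
      obtain ⟨l', hl', hly⟩ := Nat.find_spec (hR y)
      apply Nat.find_min' (hR x)
      refine ⟨lab x :: l', ?_, ?_⟩
      · rw [List.length_cons, hl']
      · rw [List.map_cons, List.prod_cons, mul_smul, ← hbase, hly, hy, smul_inv_smul]
    omega
  have hfin : ∀ n, {x | ht x ≤ n}.Finite := by
    intro n
    have h1 : ((Set.univ : Set (MulAction.orbitRel.Quotient H X)) ×ˢ
        {l : List J | l.length ≤ n}).Finite :=
      Set.finite_univ.prod (List.finite_length_le J n)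
    refine (h1.image fun p => (p.2.map h).prod • p.1.out).subset fun x hx => ?_
    obtain ⟨l, hl, hlx⟩ := Nat.find_spec (hR x)
    refine ⟨(om H x, l), ⟨trivial, ?_⟩, hlx⟩
    change l.length ≤ n
    rw [hl]
    exact hx
  let F : Forest h X := { ht := ht, lab := lab, par := hpar, fin := hfin }
  have hroot : ∀ x, ht x = 0 → base x = x := by
    intro x hx
    obtain ⟨l, hl, hlx⟩ := Nat.find_spec (hR x)
    have hl0 : l = [] := by
      apply List.length_eq_zero_iff.mp
      rw [hl]
      exact hx
    rw [hl0] at hlx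
    simpa using hlx
  have huniq : ∀ x x', ht x = 0 → ht x' = 0 → om H x = om H x' → x = x' := by
    intro x x' hx hx' hxx
    rw [← hroot x hx, ← hroot x' hx']
    change (om H x).out = (om H x').out
    rw [hxx]
  refine ⟨F, huniq, fun o ho m => ?_⟩
  obtain ⟨x, hxo, hxm⟩ : ∃ x, om H x = om H o ∧ m < ht x := by
    by_contra hc
    push Not at hc
    apply horb o
    refine (hfin m).subset fun x hx => ?_
    obtain ⟨g, rfl⟩ := hx
    apply hc
    exact om_smul H g.2 o
  set P : X → X := fun x => (h (lab x))⁻¹ • x with hP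
  have hPom : ∀ i, om H (P^[i] x) = om H x := by
    intro i
    induction i with
    | zero => rfl
    | succ i ih =>
      rw [Function.iterate_succ_apply']
      rw [← ih]
      exact om_smul H (H.inv_mem (hHj _)) _
  have hPht : ∀ i ≤ ht x, ht (P^[i] x) = ht x - i := by
    intro i
    induction i with
    | zero => intro _; rfl
    | succ i ih =>
      intro hi
      rw [Function.iterate_succ_apply']
      have h1 := ih (by omega)
      have h2 := hpar (P^[i] x) (by omega)
      change ht ((h (lab (P^[i] x)))⁻¹ • P^[i] x) = _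
      omega
  refine ⟨fun i => P^[ht x - i] x, ?_, ?_, ?_⟩
  · apply huniq
    · rw [hPht _ (by omega)]; omega
    · exact ho
    · rw [hPom]; exact hxo
  · intro i hi
    change ht (P^[ht x - i] x) = i
    rw [hPht _ (by omega)]; omega
  · intro i hi
    change P (P^[ht x - (i + 1)] x) = P^[ht x - i] x
    have e1 : ht x - i = (ht x - (i + 1)) + 1 := by omega
    rw [e1, Function.iterate_succ_apply']

lemma exists_moves {J : Type} (h : J → G) (H : Subgroup G)
    (hH : Subgroup.closure (Set.range h) = H) (horb : ∀ x : X, (MulAction.orbit H x).Infinite)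
    (x : X) : ∃ j, h j • x ≠ x := by
  by_contra hc
  push Not at hc
  apply horb x
  have h1 : H ≤ MulAction.stabilizer G x := by
    rw [← hH, Subgroup.closure_le]
    rintro _ ⟨j, rfl⟩
    exact hc j
  refine (Set.finite_singleton x).subset ?_
  rintro _ ⟨g, rfl⟩
  exact h1 g.2

end Pool.Agent.Helper220_VW.Wrp
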